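import Mathlib

/-!
# H35M: primitive multiplicative characters of finite rings, characters on ideals (definitions)
-/

open NumberField IsDedekindDomain

namespace H35M

/-- Primitive multiplicative characters of a finite ring: for every x which is not a unit there is a unit z with z x = x and χ z <> 1. -/
def PrimM {R : Type} [CommRing R] (χ : MulChar R ℂ) : Prop :=
  ∀ x : R, ¬ IsUnit x → ∃ z : Rˣ, (z : R) * x = x ∧ χ z ≠ 1

/-- Characters on ideals, values roots of unity of order dividing p, modulus f (p may divide f). -/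
structure PCh {K : Type} [Field K] [NumberField K] (p : ℕ) (f : Ideal (𝓞 K)) (χ : Ideal (𝓞 K) →*₀ ℂ) : Prop where
  ne : f ≠ ⊥
  val : ∀ a : Ideal (𝓞 K), a ≠ ⊥ → IsCoprime a f → χ a ^ p = 1
  zero : ∀ a : Ideal (𝓞 K), ¬ IsCoprime a f → χ a = 0
  per : ∀ x y : 𝓞 K, x ≠ 0 → y ≠ 0 → IsCoprime (Ideal.span {x}) f → x - y ∈ f →
    χ (Ideal.span {x}) = χ (Ideal.span {y})

/-- The product of v^(a v), v in T. -/
noncomputable def fT {K : Type} [Field K] [NumberField K] (T : Finset (HeightOneSpectrum (𝓞 K))) (a : HeightOneSpectrum (𝓞 K) → ℕ) :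
    Ideal (𝓞 K) := ∏ v ∈ T, v.asIdeal ^ a v

open Classical in
/-- The product of v^(a v), v in T, divided by the product of v in S. -/
noncomputable def fS {K : Type} [Field K] [NumberField K] (T S : Finset (HeightOneSpectrum (𝓞 K))) (a : HeightOneSpectrum (𝓞 K) → ℕ) :
    Ideal (𝓞 K) := ∏ v ∈ T, v.asIdeal ^ (a v - if v ∈ S then 1 else 0)

end H35M
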