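import Mathlib
import Pool.Agent.Lib.H35M.GD

/-! # H35M, chunk LS1 (M): local components of a character on ideals -/

open NumberField IsDedekindDomain

namespace H35M

variable {K : Type} [Field K] [NumberField K] {p : ℕ} {χ : Ideal (𝓞 K) →*₀ ℂ}

omit [NumberField K] in
theorem ls1_unit {f : Ideal (𝓞 K)} {x : 𝓞 K} :
    IsCoprime (Ideal.span {x}) f ↔ IsUnit (Ideal.Quotient.mk f x) := by
  rw [Ideal.isCoprime_iff_exists, isUnit_iff_exists_inv]
  constructor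
  · rintro ⟨i, hi, j, hj, hij⟩
    obtain ⟨c, rfl⟩ := Ideal.mem_span_singleton'.1 hi
    refine ⟨Ideal.Quotient.mk f c, ?_⟩
    rw [← map_mul, ← map_one (Ideal.Quotient.mk f), Ideal.Quotient.eq]
    have : x * c - 1 = -j := by
      rw [← hij]
      ring
    rw [this]
    exact f.neg_mem hj
  · rintro ⟨b, hb⟩
    obtain ⟨c, rfl⟩ := Ideal.Quotient.mk_surjective b
    rw [← map_mul, ← map_one (Ideal.Quotient.mk f), Ideal.Quotient.eq] at hb
    refine ⟨c * x, Ideal.mem_span_singleton'.2 ⟨c, rfl⟩, 1 - c * x, ?_, by ring⟩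
    have : 1 - c * x = -(x * c - 1) := by ring
    rw [this]
    exact f.neg_mem hb

omit [NumberField K] in
/-- Nonzero representatives. -/
theorem ls1_rep {f : Ideal (𝓞 K)} (hf : f ≠ ⊥) (u : 𝓞 K ⧸ f) : ∃ x : 𝓞 K, x ≠ 0 ∧ Ideal.Quotient.mk f x = u := by
  obtain ⟨x, rfl⟩ := Ideal.Quotient.mk_surjective u
  by_cases hx : x = 0
  · obtain ⟨t, ht, ht0⟩ := Submodule.exists_mem_ne_zero_of_ne_bot hf
    refine ⟨t, ht0, ?_⟩
    rw [hx, Ideal.Quotient.eq, sub_zero]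
    exact ht
  · exact ⟨x, hx, rfl⟩

theorem ls1_per {f : Ideal (𝓞 K)} (h : PCh p f χ) {x y : 𝓞 K} (hx : x ≠ 0) (hy : y ≠ 0)
    (hxy : Ideal.Quotient.mk f x = Ideal.Quotient.mk f y) : χ (Ideal.span {x}) = χ (Ideal.span {y}) := by
  by_cases hc : IsCoprime (Ideal.span {x}) f
  · exact h.per x y hx hy hc (Ideal.Quotient.eq.1 hxy)
  · have hc' : ¬ IsCoprime (Ideal.span {y}) f := by
      rw [ls1_unit, ← hxy, ← ls1_unit]
      exact hc
    rw [h.zero _ hc, h.zero _ hc']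

/-- The character of the residue ring. -/
theorem ls1_char {f : Ideal (𝓞 K)} (h : PCh p f χ) :
    ∃ η : MulChar (𝓞 K ⧸ f) ℂ, (∀ x : 𝓞 K, x ≠ 0 → η (Ideal.Quotient.mk f x) = χ (Ideal.span {x})) ∧
      ∀ u : (𝓞 K ⧸ f)ˣ, η u ^ p = 1 := by
  choose rep hrep0 hrep using ls1_rep h.ne
  have key : ∀ x : 𝓞 K, x ≠ 0 → χ (Ideal.span {rep (Ideal.Quotient.mk f x)}) = χ (Ideal.span {x}) := fun x hx =>
    ls1_per h (hrep0 _) hx (hrep _)
  refine ⟨{ toFun := fun u => χ (Ideal.span {rep u})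
            map_one' := ?_
            map_mul' := ?_
            map_nonunit' := ?_ }, ?_, ?_⟩
  · have h1 := key 1 one_ne_zero
    rw [map_one, Ideal.span_singleton_one, ← Ideal.one_eq_top, map_one] at h1
    exact h1
  · intro u v
    have h1 := key (rep u * rep v) (mul_ne_zero (hrep0 u) (hrep0 v))
    rw [map_mul, hrep, hrep, ← Ideal.span_singleton_mul_span_singleton, map_mul] at h1
    exact h1
  · intro u hu
    apply h.zero
    rw [ls1_unit, hrep]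
    exact hu
  · intro x hx
    exact key x hx
  · intro u
    refine h.val _ ?_ ?_
    · rw [Ne, Ideal.span_singleton_eq_bot]
      exact hrep0 _
    · rw [ls1_unit, hrep]
      exact u.isUnit

/-- Chunk LS1 (M). PROOF. For a class u in O/f1 which is a unit take x in O, x <> 0, mk x = u, x = 1 mod f2 (CRT; adding elements of f1 f2 <> ⊥ makes x <> 0); x is coprime to f = f1 f2; χ1 u = χ (span {x}) (independent of x by per). 0 for nonunits. χ1 is
multiplicative: x x' = 1 mod f2. The same for χ2. χ1^p = 1: val. For x <> 0: if x is not coprime to f both sides are 0 (mk x is a nonunit in O/f1 or O/f2). Otherwise x1 = x mod f1, 1 mod f2, x2 = 1 mod f1, x mod f2: x1 x2 = x mod f, so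
χ (x) = χ (x1) χ (x2) (span {x1 x2} = span {x1} span {x2}). MulChar.ofUnitHom or MulChar.mk'. -/
theorem ls_split (hp : p ≠ 0) {f f1 f2 : Ideal (𝓞 K)} (hf : f = f1 * f2) (h12 : IsCoprime f1 f2) (h : PCh p f χ) :
    ∃ (χ1 : MulChar (𝓞 K ⧸ f1) ℂ) (χ2 : MulChar (𝓞 K ⧸ f2) ℂ), χ1 ^ p = 1 ∧ χ2 ^ p = 1 ∧
      ∀ x : 𝓞 K, x ≠ 0 → χ (Ideal.span {x}) = χ1 (Ideal.Quotient.mk f1 x) * χ2 (Ideal.Quotient.mk f2 x) := by
  subst hf
  obtain ⟨η, hη1, hη2⟩ := ls1_char h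
  obtain ⟨e, he⟩ : ∃ e : (𝓞 K ⧸ f1 * f2) ≃+* (𝓞 K ⧸ f1) × (𝓞 K ⧸ f2), e = Ideal.quotientMulEquivQuotientProd f1 f2 h12 := ⟨_, rfl⟩
  have hemk : ∀ x : 𝓞 K, e (Ideal.Quotient.mk (f1 * f2) x) = (Ideal.Quotient.mk f1 x, Ideal.Quotient.mk f2 x) := by
    intro x
    rw [he]
    rfl
  have hnu : ∀ w : (𝓞 K ⧸ f1) × (𝓞 K ⧸ f2), ¬ IsUnit w → η (e.symm w) = 0 := by
    intro w hw
    apply η.map_nonunit
    intro hu
    apply hw
    have := hu.map e
    rwa [e.apply_symm_apply] at this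
  have hu1 : ∀ u : (𝓞 K ⧸ f1) × (𝓞 K ⧸ f2), IsUnit u → η (e.symm u) ^ p = 1 := by
    intro u hu
    obtain ⟨w, hw⟩ := hu.map e.symm
    rw [← hw]
    exact hη2 w
  refine ⟨{ toFun := fun u => η (e.symm (u, 1))
            map_one' := ?_
            map_mul' := ?_
            map_nonunit' := ?_ },
    { toFun := fun u => η (e.symm (1, u))
      map_one' := ?_
      map_mul' := ?_
      map_nonunit' := ?_ }, ?_, ?_, ?_⟩
  · rw [← Prod.one_eq_mk, map_one, map_one]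
  · intro u v
    rw [← map_mul, ← map_mul, Prod.mk_mul_mk, one_mul]
  · intro u hu
    apply hnu
    rw [Prod.isUnit_iff]
    exact fun h => hu h.1
  · rw [← Prod.one_eq_mk, map_one, map_one]
  · intro u v
    rw [← map_mul, ← map_mul, Prod.mk_mul_mk, one_mul]
  · intro u hu
    apply hnu
    rw [Prod.isUnit_iff]
    exact fun h => hu h.2
  · apply MulChar.ext
    intro u
    rw [MulChar.pow_apply_coe, MulChar.one_apply_coe]
    exact hu1 ((u : 𝓞 K ⧸ f1), 1) (Prod.isUnit_iff.2 ⟨u.isUnit, isUnit_one⟩)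
  · apply MulChar.ext
    intro u
    rw [MulChar.pow_apply_coe, MulChar.one_apply_coe]
    exact hu1 (1, (u : 𝓞 K ⧸ f2)) (Prod.isUnit_iff.2 ⟨isUnit_one, u.isUnit⟩)
  · intro x hx
    rw [← hη1 x hx]
    have h1 : Ideal.Quotient.mk (f1 * f2) x = e.symm (Ideal.Quotient.mk f1 x, 1) * e.symm (1, Ideal.Quotient.mk f2 x) := by
      rw [← map_mul, Prod.mk_mul_mk, mul_one, one_mul, ← hemk, e.symm_apply_apply]
    rw [h1, map_mul]
    rfl

/-- Chunk LS1b (S/M). PROOF. x in O/f1 not a unit, x = mk y, y in a maximal ideal v ⊇ f1 (v <> ⊥). z from the hypothesis: mk z is a unit (z is coprime to f1), (z - 1) y in I v = f1. -/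
theorem primM_of {f1 : Ideal (𝓞 K)} (hf : f1 ≠ ⊥) (χ1 : MulChar (𝓞 K ⧸ f1) ℂ)
    (h : ∀ v : HeightOneSpectrum (𝓞 K), f1 ≤ v.asIdeal → ∃ I : Ideal (𝓞 K), I * v.asIdeal = f1 ∧ ∃ z : 𝓞 K, z - 1 ∈ I ∧
      IsCoprime (Ideal.span {z}) f1 ∧ χ1 (Ideal.Quotient.mk f1 z) ≠ 1) : PrimM χ1 := by
  intro x hx
  obtain ⟨y, rfl⟩ := Ideal.Quotient.mk_surjective x
  have h1 : ¬ IsCoprime (Ideal.span {y}) f1 := by
    rw [ls1_unit]
    exact hx
  rw [Ideal.isCoprime_iff_sup_eq] at h1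
  obtain ⟨M, hM, hle⟩ := Ideal.exists_le_maximal _ h1
  have hM0 : M ≠ ⊥ := by
    rintro rfl
    exact hf (le_bot_iff.1 (le_sup_right.trans hle))
  obtain ⟨I, hI, z, hz1, hz2, hz3⟩ := h ⟨M, hM.isPrime, hM0⟩ (le_sup_right.trans hle)
  have hzu := ls1_unit.1 hz2
  refine ⟨hzu.unit, ?_, ?_⟩
  · rw [IsUnit.unit_spec, ← map_mul, Ideal.Quotient.eq]
    have h2 : z * y - y = (z - 1) * y := by ring
    rw [h2, ← hI]
    exact Ideal.mul_mem_mul hz1 (hle (Ideal.mem_sup_left (Ideal.mem_span_singleton_self y)))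
  · rw [IsUnit.unit_spec]
    exact hz3

end H35M
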