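import Mathlib
import Pool.Agent.Lib.H35M.LS1
import Pool.Agent.Lib.H55P.Defs

/-! # H35M, SX3A: three local components; no real embeddings -/

open NumberField IsDedekindDomain

namespace H35M

open H55P

variable {K : Type} [Field K] [NumberField K] {p : ℕ} {χ : Ideal (𝓞 K) →*₀ ℂ}

omit [NumberField K] in
/-- A multiplicative character modulo a product of coprime ideals. -/
theorem sx3_mc {f1 f2 : Ideal (𝓞 K)} (h12 : IsCoprime f1 f2) (η : MulChar (𝓞 K ⧸ f1 * f2) ℂ) (hη : η ^ p = 1) :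
    ∃ (χ1 : MulChar (𝓞 K ⧸ f1) ℂ) (χ2 : MulChar (𝓞 K ⧸ f2) ℂ), χ1 ^ p = 1 ∧ χ2 ^ p = 1 ∧
      ∀ x : 𝓞 K, η (Ideal.Quotient.mk (f1 * f2) x) = χ1 (Ideal.Quotient.mk f1 x) * χ2 (Ideal.Quotient.mk f2 x) := by
  have hη2 : ∀ w : (𝓞 K ⧸ f1 * f2)ˣ, η w ^ p = 1 := by
    intro w
    rw [← MulChar.pow_apply_coe, hη, MulChar.one_apply_coe]
  obtain ⟨e, he⟩ : ∃ e : (𝓞 K ⧸ f1 * f2) ≃+* (𝓞 K ⧸ f1) × (𝓞 K ⧸ f2), e = Ideal.quotientMulEquivQuotientProd f1 f2 h12 := ⟨_, rfl⟩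
  have hemk : ∀ x : 𝓞 K, e (Ideal.Quotient.mk (f1 * f2) x) = (Ideal.Quotient.mk f1 x, Ideal.Quotient.mk f2 x) := by
    intro x
    rw [he]
    rfl
  have hnu : ∀ w : (𝓞 K ⧸ f1) × (𝓞 K ⧸ f2), ¬ IsUnit w → η (e.symm w) = 0 := by
    intro w hw
    apply η.map_nonunit
    intro hu
    apply hw
    have := hu.map e
    rwa [e.apply_symm_apply] at this
  have hu1 : ∀ u : (𝓞 K ⧸ f1) × (𝓞 K ⧸ f2), IsUnit u → η (e.symm u) ^ p = 1 := by
    intro u hu
    obtain ⟨w, hw⟩ := hu.map e.symm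
    rw [← hw]
    exact hη2 w
  refine ⟨{ toFun := fun u => η (e.symm (u, 1))
            map_one' := ?_
            map_mul' := ?_
            map_nonunit' := ?_ },
    { toFun := fun u => η (e.symm (1, u))
      map_one' := ?_
      map_mul' := ?_
      map_nonunit' := ?_ }, ?_, ?_, ?_⟩
  · rw [← Prod.one_eq_mk, map_one, map_one]
  · intro u v
    rw [← map_mul, ← map_mul, Prod.mk_mul_mk, one_mul]
  · intro u hu
    apply hnu
    rw [Prod.isUnit_iff]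
    exact fun h => hu h.1
  · rw [← Prod.one_eq_mk, map_one, map_one]
  · intro u v
    rw [← map_mul, ← map_mul, Prod.mk_mul_mk, one_mul]
  · intro u hu
    apply hnu
    rw [Prod.isUnit_iff]
    exact fun h => hu h.2
  · apply MulChar.ext
    intro u
    rw [MulChar.pow_apply_coe, MulChar.one_apply_coe]
    exact hu1 ((u : 𝓞 K ⧸ f1), 1) (Prod.isUnit_iff.2 ⟨u.isUnit, isUnit_one⟩)
  · apply MulChar.ext
    intro u
    rw [MulChar.pow_apply_coe, MulChar.one_apply_coe]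
    exact hu1 (1, (u : 𝓞 K ⧸ f2)) (Prod.isUnit_iff.2 ⟨isUnit_one, u.isUnit⟩)
  · intro x
    have h1 : Ideal.Quotient.mk (f1 * f2) x = e.symm (Ideal.Quotient.mk f1 x, 1) * e.symm (1, Ideal.Quotient.mk f2 x) := by
      rw [← map_mul, Prod.mk_mul_mk, mul_one, one_mul, ← hemk, e.symm_apply_apply]
    rw [h1, map_mul]
    rfl

/-- Three local components. -/
theorem sx3_split (hp : p ≠ 0) {f1 f2 f3 : Ideal (𝓞 K)} (h12 : IsCoprime f1 f2) (h13 : IsCoprime f1 f3) (h23 : IsCoprime f2 f3)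
    (h : PCh p (f1 * f2 * f3) χ) :
    ∃ (χ1 : MulChar (𝓞 K ⧸ f1) ℂ) (χ2 : MulChar (𝓞 K ⧸ f2) ℂ) (χ3 : MulChar (𝓞 K ⧸ f3) ℂ), χ1 ^ p = 1 ∧ χ2 ^ p = 1 ∧ χ3 ^ p = 1 ∧
      ∀ x : 𝓞 K, x ≠ 0 → χ (Ideal.span {x}) =
        χ1 (Ideal.Quotient.mk f1 x) * χ2 (Ideal.Quotient.mk f2 x) * χ3 (Ideal.Quotient.mk f3 x) := by
  obtain ⟨χ1, η, h1, h2, h3⟩ := ls_split hp (mul_assoc f1 f2 f3) (h12.mul_right h13) h
  obtain ⟨χ2, χ3, h4, h5, h6⟩ := sx3_mc h23 η h2
  refine ⟨χ1, χ2, χ3, h1, h4, h5, fun x hx => ?_⟩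
  rw [h3 x hx, h6 x, mul_assoc]

/-- An extension of an imaginary quadratic field has no real embedding. -/
theorem sx3_real (F : Type) [Field F] [NumberField F] [IQ F] (K : Type) [Field K] [NumberField K] [Algebra F K] : IsEmpty (K →+* ℝ) := by
  classical
  refine ⟨fun φ => ?_⟩
  let ψ : F →+* ℂ := Complex.ofRealHom.comp (φ.comp (algebraMap F K))
  let c : F →+* ℂ := (starRingEnd ℂ).comp (embF F)
  obtain ⟨x, hx⟩ := IQ.im (F := F)
  have hx' : (embF F x).im ≠ 0 := hx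
  have hψ : (ψ x).im = 0 := Complex.ofReal_im _
  have h1 : Fintype.card (F →+* ℂ) = 2 := by
    rw [NumberField.Embeddings.card F ℂ]
    exact IQ.deg
  have h2 : embF F ≠ c := by
    intro h
    have h3 : (embF F x).im = (c x).im := by rw [← h]
    have h4 : (c x).im = -(embF F x).im := Complex.conj_im _
    rw [h4] at h3
    apply hx'
    linarith
  have h3 : ψ ≠ embF F := by
    intro h
    rw [h] at hψ
    exact hx' hψ
  have h4 : ψ ≠ c := by
    intro h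
    rw [h] at hψ
    have h5 : (c x).im = -(embF F x).im := Complex.conj_im _
    rw [h5] at hψ
    apply hx'
    linarith
  have h5 : ({ψ, embF F, c} : Finset (F →+* ℂ)).card = 3 := by
    rw [Finset.card_insert_of_notMem, Finset.card_insert_of_notMem, Finset.card_singleton]
    · rw [Finset.mem_singleton]
      exact h2
    · rw [Finset.mem_insert, Finset.mem_singleton, not_or]
      exact ⟨h3, h4⟩
  have h6 := Finset.card_le_univ ({ψ, embF F, c} : Finset (F →+* ℂ))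
  rw [h5, h1] at h6
  omega

end H35M
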