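import Mathlib
import Pool.Agent.Lib.SSG.E.IFD
import Pool.Agent.Lib.H55P.TD
import Pool.Agent.Lib.H35M.GD

/-!
# H35M, part T: definitions (twists ramified at P)

V is a valuation ring of ℂ above p = π π', V(π) < 1, V(π') = 1. Weights modulo P = p^N, additive characters modulo π^N.
-/

open NumberField IsDedekindDomain

namespace H35M

open H55N H55P SSG.E

variable {F : Type} [Field F] [NumberField F] [IQ F] {K : Type} [Field K] [NumberField K] [Algebra F K] {m : ℕ}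

/-- Weights on the class of c₀ modulo I: periodic modulo P I, invariant under the units which are 1 modulo J. -/
structure WtJ (J I : Ideal (𝓞 K)) (c₀ : 𝓞 K) (P : ℕ) (φ : 𝓞 K → ℂ) : Prop where
  per : ∀ x ∈ XS I c₀, ∀ y, x - y ∈ Ideal.span {(P : 𝓞 K)} * I → φ x = φ y
  inv : ∀ x ∈ XS I c₀, ∀ v : (𝓞 K)ˣ, (v : 𝓞 K) - 1 ∈ J → φ ((v : 𝓞 K) * x) = φ x

/-- Additive characters of 𝓞 K modulo n, n in 𝓞 F. -/
structure AddC (n : 𝓞 F) (θ : 𝓞 K → ℂ) : Prop where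
  add : ∀ x y, θ (x + y) = θ x * θ y
  per : ∀ x, θ (algebraMap (𝓞 F) (𝓞 K) n * x) = 1

open Classical in
/-- The values of one class: the smoothed series with a weight φ has the value sum φ(a) val(a) at 1, and the sums of val with an additive
character modulo π^N over the class of y modulo π'^N, multiplied by De, are integral at V. -/
structure ClassV (F : Type) [Field F] [NumberField F] [IQ F] {K : Type} [Field K] [NumberField K] [Algebra F K] {m : ℕ}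
    (V : ValuationSubring ℂ) (π π' : 𝓞 F) (p N : ℕ) (De : ℂ) (J I : Ideal (𝓞 K)) (c₀ : 𝓞 K)
    (c : Fin (m + 1) × Fin 2 → Ideal (𝓞 K)) (q : Fin (m + 1) × Fin 2 → ℕ) (val : 𝓞 K → ℂ) : Prop where
  ser : ∀ φ : 𝓞 K → ℂ, WtJ J I c₀ (p ^ N) φ → ∃ Z : ℂ → ℂ, AnalyticOnNhd ℂ Z {s | 1 / 2 < s.re} ∧
    (∀ T : Set (𝓞 K), Transv J (XS I c₀) T → ∀ s : ℂ, 3 / 2 < s.re →
      HasSum (fun x : T => φ x * (gw c q x * nf F s (x : 𝓞 K))) (Z s)) ∧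
    ∀ R : Finset (𝓞 K), RpU I c₀ (p ^ N) R → Z 1 = ∑ a ∈ R, φ a * val a
  int : ∀ R : Finset (𝓞 K), RpU I c₀ (p ^ N) R → ∀ θ : 𝓞 K → ℂ, AddC (π ^ N) θ → ∀ y : 𝓞 K,
    V.valuation (De * ∑ a ∈ R with a - y ∈ Ideal.span {algebraMap (𝓞 F) (𝓞 K) (π' ^ N)}, θ a * val a) ≤ 1

/-- The class values exist for all classes with moduli prime to p. -/
def CVH (F : Type) [Field F] [NumberField F] [IQ F] (K : Type) [Field K] [NumberField K] [Algebra F K] (m : ℕ)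
    (V : ValuationSubring ℂ) (π π' : 𝓞 F) (p : ℕ) (De : ℂ) (M : Ideal (𝓞 F)) (l : 𝓞 F) : Prop :=
  ∀ (b f : Ideal (𝓞 K)), b ≠ ⊥ → IsCoprime b (Ideal.span {(p : 𝓞 K)}) → f ≠ ⊥ → IsCoprime f (Ideal.span {(p : 𝓞 K)}) →
    ∀ c₀ : 𝓞 K, c₀ ∈ b → c₀ ∉ Ideal.span {algebraMap (𝓞 F) (𝓞 K) l} * b → ∀ N : ℕ, 1 ≤ N →
    ∃ Bad : Set (Ideal (𝓞 K)), Bad.Finite ∧
      ∀ (c : Fin (m + 1) × Fin 2 → Ideal (𝓞 K)) (q : Fin (m + 1) × Fin 2 → ℕ), Smooth c q →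
        (∀ i, c i ∉ Bad) → ∃ val : 𝓞 K → ℂ, ClassV F V π π' p N De (mK K M * f) (mK K M * f * b) c₀ c q val

/-- The place: V above p = π π', p split, π below V. -/
structure Plc (F : Type) [Field F] [NumberField F] [IQ F] (V : ValuationSubring ℂ) (π π' : 𝓞 F) (p : ℕ) : Prop where
  prime : p.Prime
  pr : Prime π
  nu : ¬ IsUnit π'
  mul : π * π' = (p : 𝓞 F)
  cop : IsCoprime π π'
  lt : V.valuation (eF F π) < 1
  one : V.valuation (eF F π') = 1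

/-- The data of the character: the conductor f1 f2 f3 with f1 = prod of v^(a v), v in T1, above π, f2 above π', f3 prime to p, the local
components, a primitive additive character. -/
structure ChD (F : Type) [Field F] [NumberField F] [IQ F] {K : Type} [Field K] [NumberField K] [Algebra F K]
    (π π' : 𝓞 F) (p : ℕ) (T1 : Finset (HeightOneSpectrum (𝓞 K))) (a : HeightOneSpectrum (𝓞 K) → ℕ) (f2 f3 : Ideal (𝓞 K))
    (χ : Ideal (𝓞 K) →*₀ ℂ) (χ1 : MulChar (𝓞 K ⧸ fT T1 a) ℂ) (χ2 : MulChar (𝓞 K ⧸ f2) ℂ) (χ3 : MulChar (𝓞 K ⧸ f3) ℂ)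
    (ψa : AddChar (𝓞 K ⧸ fT T1 a) ℂ) : Prop where
  pch : PCh p (fT T1 a * f2 * f3) χ
  pos : ∀ v ∈ T1, 0 < a v
  abv : ∀ v ∈ T1, algebraMap (𝓞 F) (𝓞 K) π ∈ v.asIdeal
  pi1 : ∃ N, algebraMap (𝓞 F) (𝓞 K) (π ^ N) ∈ fT T1 a
  pi2 : ∃ N, algebraMap (𝓞 F) (𝓞 K) (π' ^ N) ∈ f2
  cop3 : IsCoprime f3 (Ideal.span {(p : 𝓞 K)})
  one1 : χ1 ^ p = 1
  one2 : χ2 ^ p = 1
  one3 : χ3 ^ p = 1
  eq : ∀ x : 𝓞 K, x ≠ 0 → χ (Ideal.span {x}) =
    χ1 (Ideal.Quotient.mk _ x) * χ2 (Ideal.Quotient.mk _ x) * χ3 (Ideal.Quotient.mk _ x)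
  prim : PrimM χ1
  psi : ψa.IsPrimitive

end H35M
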