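import Mathlib
import Pool.Agent.Lib.H35M.TD
import Pool.Agent.Lib.H13S.PA1
import Pool.Agent.Lib.H55K.D0
import Pool.Agent.Lib.H55K.E0
import Pool.Agent.Lib.H55K.K2A
import Pool.Agent.Lib.H55P.T1
import Pool.Agent.Lib.H41D.P6
import Pool.Agent.Lib.H55R.BF2

/-! # H35M, chunk SN1 (M): the auxiliary ideal from the absence of p-torsion over M -/

open NumberField IsDedekindDomain

namespace H35M

open H55N H55P
open H35P (WAB)
open H55K (Dta Tor)

variable {F : Type} [Field F] [NumberField F] [IQ F] {Ω : Type} [Field Ω] [DecidableEq Ω] [Algebra F Ω] [IsAlgClosure F Ω]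

omit [IsAlgClosure F Ω] [DecidableEq Ω] in
/-- The conjugate prime: π' is prime, and an integer whose conjugate is small at V is divisible by π'. -/
theorem sn1_dvd {p : ℕ} {V : ValuationSubring ℂ} {π π' : 𝓞 F} (hP : Plc F V π π' p) :
    Prime π' ∧ ∀ z : 𝓞 F, V.valuation ((starRingEnd ℂ) (eF F z)) < 1 → π' ∣ z := by
  have hcj : (starRingEnd ℂ) (eF F π') = eF F π :=
    H41D.conj_pi hP.prime hP.nu hP.pr.not_isUnit (by rw [← hP.mul, mul_comm])
  have h0 : π' ≠ 0 := by
    rintro rfl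
    have h1 := hP.mul
    rw [mul_zero] at h1
    exact hP.prime.ne_zero (by exact_mod_cast h1.symm)
  have hN : Ideal.absNorm (Ideal.span {π'}) = p := by
    have h1 := H41D.absNorm_eF π'
    rw [hcj, ← map_mul, mul_comm, hP.mul, map_natCast] at h1
    exact_mod_cast h1
  have hpr : Prime π' := by
    rw [← Ideal.span_singleton_prime h0]
    apply Ideal.isPrime_of_irreducible_absNorm
    rw [hN]
    exact hP.prime
  refine ⟨hpr, fun z hz => ?_⟩
  by_contra hd
  obtain ⟨a, b, hab⟩ := (Prime.coprime_iff_not_dvd hpr).2 hd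
  have hi : ∀ x : 𝓞 F, V.valuation ((starRingEnd ℂ) (eF F x)) ≤ 1 := fun x =>
    PT1_int ((starRingEnd ℂ).comp (eF F)) x V
  have h1 : V.valuation ((starRingEnd ℂ) (eF F (a * π' + b * z))) < 1 := by
    rw [map_add, map_add, map_mul, map_mul, map_mul, map_mul]
    refine V.valuation.map_add_lt ?_ ?_
    · rw [map_mul, hcj]
      exact mul_lt_one_of_nonneg_of_lt_one_right (hi a) zero_le hP.lt
    · rw [map_mul]
      exact mul_lt_one_of_nonneg_of_lt_one_right (hi b) zero_le hz
  rw [hab, map_one, map_one, map_one] at h1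
  exact lt_irrefl _ h1

/-- Chunk SN1 (M). -/
theorem ntp_of_tor {A B : F} {Om : ℂ} {j : Ω →+* ℂ}
    {act : 𝓞 F →+* AddMonoid.End (Pt (WAB A B) Ω)} {mo : Ideal (𝓞 F)} {ψ : Ideal (𝓞 F) →*₀ 𝓞 F} {p : ℕ}
    (d : Dta A B Om j act mo ψ p) {V : ValuationSubring ℂ} {π π' : 𝓞 F} (hP : Plc F V π π' p)
    (M : IntermediateField F Ω) [NumberField M]
    (hT : ∀ T : Pt (WAB A B) Ω, p • T = 0 → (∀ s ∈ M.fixingSubgroup, ac (WAB A B) s T = T) → T = 0) : NTP M p mo ψ V := by
  classical
  by_contra hN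
  have hac : IsAlgClosed Ω := IsAlgClosure.isAlgClosed F
  have halg : Algebra.IsAlgebraic F Ω := IsAlgClosure.isAlgebraic
  obtain ⟨hpr, hdv⟩ := sn1_dvd hP
  -- from the negation
  have hψ : ∀ a : Ideal (𝓞 M), IsCoprime a (Ideal.span {(p : 𝓞 M)}) → IsCoprime a (mK M mo) →
      π' ∣ 1 - ψ (Ideal.relNorm (𝓞 F) a) := by
    intro a h1 h2
    apply hdv
    have e : (starRingEnd ℂ) (eF F (1 - ψ (Ideal.relNorm (𝓞 F) a))) = 1 - PsiP M ψ a := by
      rw [map_sub, map_sub, map_one, map_one, PsiP_apply]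
    have h3 : V.valuation (1 - PsiP M ψ a) ≤ 1 := by
      rw [← e]
      exact PT1_int ((starRingEnd ℂ).comp (eF F)) _ V
    rw [e]
    refine lt_of_le_of_ne h3 fun h4 => hN ⟨a, h1, h2, h4⟩
  -- the generator
  obtain ⟨T₀, hT0, hgen, hz, -⟩ := d.cma.gen π' hpr.ne_zero
  have hT00 : act π' T₀ = 0 := hT0
  have htor : ∀ T : Pt (WAB A B) Ω, act π' T = 0 → p • T = 0 := by
    intro T hT
    have h1 : act (p : 𝓞 F) T = 0 := by
      rw [← hP.mul, map_mul]
      show act π (act π' T) = 0
      rw [hT, map_zero]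
    rw [map_natCast, AddMonoid.End.natCast_apply] at h1
    exact h1
  have hgal : ∀ (s : Ω ≃ₐ[F] Ω) (T : Pt (WAB A B) Ω), act π' T = 0 → act π' (ac (WAB A B) s T) = 0 := by
    intro s T hT
    rw [← d.cma.gal, hT, map_zero]
  let H : Subgroup (Ω ≃ₐ[M] Ω) :=
    { carrier := {s | ∀ T, act π' T = 0 → ac (WAB A B) (s.restrictScalars F) T = T}
      one_mem' := fun T _ => H55K.ac_one _ T
      mul_mem' := by
        intro s t hs ht T hT
        have e : (s * t).restrictScalars F = s.restrictScalars F * t.restrictScalars F := rfl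
        rw [e, H55K.ac_mul, ht T hT, hs T hT]
      inv_mem' := by
        intro s hs T hT
        have e : (s⁻¹).restrictScalars F = (s.restrictScalars F)⁻¹ := rfl
        have h1 := hs T hT
        have h2 : ac (WAB A B) ((s⁻¹).restrictScalars F) (ac (WAB A B) (s.restrictScalars F) T) = T := by
          rw [← H55K.ac_mul, e, inv_mul_cancel]
          exact H55K.ac_one _ T
        rwa [h1] at h2 }
  have hH : ∀ s : Ω ≃ₐ[M] Ω, s ∈ H ↔ ∀ T, act π' T = 0 → ac (WAB A B) (s.restrictScalars F) T = T :=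
    fun s => Iff.rfl
  have halgM : Algebra.IsAlgebraic M Ω := Algebra.IsAlgebraic.tower_top (K := F) M
  have hclM : IsAlgClosure M Ω := ⟨hac, halgM⟩
  have hn : H.Normal := by
    constructor
    intro s hs g
    rw [hH]
    intro T hT
    have e : (g * s * g⁻¹).restrictScalars F = g.restrictScalars F * s.restrictScalars F * (g.restrictScalars F)⁻¹ := rfl
    rw [e, H55K.ac_mul, H55K.ac_mul, hs _ (hgal _ _ hT), ← H55K.ac_mul, mul_inv_cancel]
    exact H55K.ac_one _ T
  have key : H = ⊤ := by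
    have hint : ∀ x : Ω, IsIntegral M x := fun x => (Algebra.IsAlgebraic.isAlgebraic x).isIntegral
    let S0 : Set Ω := {H55K.xc T₀, H55K.yc T₀}
    have hAf : S0.Finite := Set.toFinite S0
    have hAf' : Finite S0 := hAf
    have hLf : FiniteDimensional M (IntermediateField.adjoin M S0) :=
      IntermediateField.finiteDimensional_adjoin fun x _ => hint x
    obtain ⟨S2, hS2f, hS2⟩ := d.frob
    have hf2 : {w : HeightOneSpectrum (𝓞 M) | w.under (𝓞 F) ∈ S2}.Finite :=
      hS2f.preimage' (f := fun w : HeightOneSpectrum (𝓞 M) => w.under (𝓞 F)) fun b _ => H55R.above_finite b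
    have hpM : Ideal.span {((p : ℕ) : 𝓞 M)} ≠ 0 := by
      rw [Ideal.zero_eq_bot, Ne, Ideal.span_singleton_eq_bot]
      exact Nat.cast_ne_zero.2 hP.prime.ne_zero
    have hmM : mK M mo ≠ 0 := by
      intro h
      exact d.hecke.ne ((Ideal.map_eq_bot_iff_of_injective (FaithfulSMul.algebraMap_injective (𝓞 F) (𝓞 M))).1 h)
    have hf3 := Ideal.finite_factors hpM
    have hf4 := Ideal.finite_factors hmM
    refine H13S.PA1_top (F₀ := M) H hn (IntermediateField.adjoin M S0) ?_
      ({w : HeightOneSpectrum (𝓞 M) | w.under (𝓞 F) ∈ S2} ∪ ({w | w.asIdeal ∣ Ideal.span {((p : ℕ) : 𝓞 M)}} ∪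
        {w | w.asIdeal ∣ mK M mo})) (hf2.union (hf3.union hf4)) ?_
    · intro s hs
      rw [hH]
      intro T hT
      have hfix : ∀ x ∈ S0, s x = x := fun x hx => hs ⟨x, IntermediateField.subset_adjoin M S0 hx⟩
      have h0 : ac (WAB A B) (s.restrictScalars F) T₀ = T₀ :=
        H55K.ac_fix _ (hfix _ (by simp [S0])) (hfix _ (by simp [S0]))
      obtain ⟨a, rfl⟩ := hgen T hT
      rw [d.cma.gal, h0]
    · intro w hw hq V' hV' s hs
      rw [Set.mem_union, Set.mem_union, not_or, not_or] at hw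
      obtain ⟨hw2, hw3, hw4⟩ := hw
      rw [hH]
      intro T hT
      have hv2 : w.under (𝓞 F) ∉ S2 := hw2
      have hwm := w.isMaximal
      have hcop : ∀ I : Ideal (𝓞 M), ¬ w.asIdeal ∣ I → IsCoprime w.asIdeal I := by
        intro I hI
        rw [Ideal.isCoprime_iff_sup_eq]
        by_contra hne
        apply hI
        rw [Ideal.dvd_iff_le]
        have h1 : w.asIdeal = w.asIdeal ⊔ I := hwm.eq_of_le hne le_sup_left
        rw [h1]
        exact le_sup_right
      have hcp := hcop _ hw3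
      have hcm := hcop _ hw4
      have hvm := (w.under (𝓞 F)).isMaximal
      have hover : w.asIdeal.LiesOver (w.under (𝓞 F)).asIdeal := ⟨rfl⟩
      have hrel : Ideal.relNorm (𝓞 F) w.asIdeal = (w.under (𝓞 F)).asIdeal ^ w.asIdeal.inertiaDeg (𝓞 F) :=
        Ideal.relNorm_eq_pow_of_isMaximal w.asIdeal (w.under (𝓞 F)).asIdeal
      have hNw : Ideal.absNorm w.asIdeal = Ideal.absNorm (w.under (𝓞 F)).asIdeal ^ w.asIdeal.inertiaDeg (𝓞 F) := by
        rw [← Ideal.absNorm_relNorm (𝓞 F) (𝓞 M) w.asIdeal, hrel, map_pow]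
      have hf0 : 0 < w.asIdeal.inertiaDeg (𝓞 F) := Ideal.inertiaDeg_pos w.asIdeal (𝓞 F)
      have hf1 : w.asIdeal.inertiaDeg (𝓞 F) = 1 := by
        by_contra hne
        rw [hNw] at hq
        exact Nat.Prime.not_prime_pow (by omega) hq
      rw [hf1, pow_one] at hrel hNw
      have hva : ∀ a : 𝓞 F, a ∈ (w.under (𝓞 F)).asIdeal → V'.valuation (H55K.ak Ω a) < 1 := by
        intro a ha
        have h1 : algebraMap (𝓞 F) (𝓞 M) a ∈ w.asIdeal := ha
        exact hV' _ h1
      have hvN : (Ideal.absNorm (w.under (𝓞 F)).asIdeal).Prime := by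
        rw [← hNw]
        exact hq
      have hp1 : V'.valuation ((p : ℕ) : Ω) = 1 := by
        have hle : V'.valuation ((p : ℕ) : Ω) ≤ 1 := (V'.valuation_le_one_iff _).2 (natCast_mem V' p)
        refine le_antisymm hle (not_lt.1 fun hlt => ?_)
        obtain ⟨x, hx, y, hy, hxy⟩ := Submodule.mem_sup.1 (by
          rw [Ideal.isCoprime_iff_sup_eq] at hcp
          rw [hcp]
          exact Submodule.mem_top : (1 : 𝓞 M) ∈ w.asIdeal ⊔ Ideal.span {((p : ℕ) : 𝓞 M)})
        obtain ⟨c, rfl⟩ := Ideal.mem_span_singleton'.1 hy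
        have h1 := hV' _ hx
        have hci : V'.valuation (algebraMap M Ω ((c : 𝓞 M) : M)) ≤ 1 := by
          have h2 : IsIntegral ℤ (algebraMap M Ω ((c : 𝓞 M) : M)) :=
            map_isIntegral_int (algebraMap M Ω) (RingOfIntegers.isIntegral_coe c)
          have h3 : IsIntegral V' (algebraMap M Ω ((c : 𝓞 M) : M)) := h2.tower_top
          obtain ⟨t, ht⟩ := IsIntegrallyClosed.isIntegral_iff.1 h3
          rw [← ht]
          exact V'.valuation_le_one t
        have h2 : V'.valuation (algebraMap M Ω ((c : 𝓞 M) : M) * ((p : ℕ) : Ω)) < 1 := by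
          rw [map_mul]
          exact mul_lt_one_of_nonneg_of_lt_one_right hci zero_le hlt
        have h3 := V'.valuation.map_add_lt h1 h2
        have h4 : algebraMap M Ω ((x : 𝓞 M) : M) + algebraMap M Ω ((c : 𝓞 M) : M) * ((p : ℕ) : Ω) = 1 := by
          have h5 := congrArg (fun z : 𝓞 M => algebraMap M Ω ((z : 𝓞 M) : M)) hxy
          simpa using h5
        rw [h4, map_one] at h3
        exact lt_irrefl _ h3
      have hs' : ∀ x ∈ V', V'.valuation ((s.restrictScalars F) x - x ^ Ideal.absNorm (w.under (𝓞 F)).asIdeal) < 1 := by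
        intro x hx
        rw [← hNw]
        exact hs x hx
      rw [hS2 _ hv2 hvN V' hva (s.restrictScalars F) hs' p hp1 T (htor T hT)]
      obtain ⟨c, hc⟩ := hψ _ hcp hcm
      rw [hrel] at hc
      have h2 : act (ψ (w.under (𝓞 F)).asIdeal) T = act (1 - c * π') T := by
        congr 2
        linear_combination -hc
      rw [h2, map_sub, map_mul, map_one]
      show T - act c (act π' T) = T
      rw [hT, map_zero, sub_zero]
  have hfixT : ∀ s ∈ M.fixingSubgroup, ac (WAB A B) s T₀ = T₀ := by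
    intro s hs
    have h1 : IntermediateField.fixingSubgroupEquiv M ⟨s, hs⟩ ∈ H := by
      rw [key]
      exact Subgroup.mem_top _
    have h2 := h1 T₀ hT00
    have e : (IntermediateField.fixingSubgroupEquiv M ⟨s, hs⟩).restrictScalars F = s := rfl
    rwa [e] at h2
  have h3 := hT T₀ (htor T₀ hT00) hfixT
  have h4 : π' ∣ 1 := by
    rw [← hz, h3, map_zero]
  exact hpr.not_isUnit (isUnit_of_dvd_one h4)

end H35M
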