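import Mathlib
import Pool.Agent.Lib.H35M.SN1
import Pool.Agent.Lib.SSG.Z.L9
import Pool.Agent.Lib.H19B.L8
import Pool.Agent.Lib.H41D.P7

/-! # H35M, part S: the place and the auxiliary ideal for the curve W₀ -/

open NumberField IsDedekindDomain WeierstrassCurve

namespace H35M

open H55N H55P
open H55K.TQ (BaseH PrimeH)
open H19B (Spl)
open H55K (cj)

variable {F : Type} [Field F] [NumberField F] [IQ F] {W₀ : WeierstrassCurve (𝓞 F)} {Om : ℂ} {m : Ideal (𝓞 F)} {ψ : Ideal (𝓞 F) →*₀ 𝓞 F} {p : ℕ}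

theorem sn2_le (V : ValuationSubring ℂ) (x : 𝓞 F) : V.valuation (eF F x) ≤ 1 := H41D.val_eF V x

theorem sn2_mk {V : ValuationSubring ℂ} (hp : p.Prime) {π : 𝓞 F} (hπ : Prime π) (hprod : π * cj π = (p : 𝓞 F)) (hco : IsCoprime π (cj π))
    (hlt : V.valuation (eF F π) < 1) : Plc F V π (cj π) p ∧ Plc F (V.comap (starRingEnd ℂ)) (cj π) π p := by
  have h1 : V.valuation (eF F (cj π)) = 1 := by
    refine le_antisymm (sn2_le V _) ?_
    by_contra hlt'
    push Not at hlt'
    obtain ⟨a, b, hab⟩ := hco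
    have h2 : V.valuation (eF F (a * π + b * cj π)) < 1 := by
      rw [map_add, map_mul, map_mul]
      refine lt_of_le_of_lt (V.valuation.map_add _ _) (max_lt ?_ ?_)
      · rw [map_mul, mul_comm]
        exact mul_lt_one_of_lt_of_le hlt (sn2_le V a)
      · rw [map_mul, mul_comm]
        exact mul_lt_one_of_lt_of_le hlt' (sn2_le V b)
    rw [hab, map_one, map_one] at h2
    exact lt_irrefl _ h2
  refine ⟨⟨hp, hπ, (H55K.cj_prime hπ).not_unit, hprod, hco, hlt, h1⟩,
    ⟨hp, H55K.cj_prime hπ, hπ.not_unit, by rw [mul_comm]; exact hprod, hco.symm, ?_, ?_⟩⟩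
  · show (H41D.cV V).valuation (eF F (cj π)) < 1
    rw [H41D.cV_lt_one, H55K.e_cj, Complex.conj_conj]
    exact hlt
  · show (H41D.cV V).valuation (eF F π) = 1
    rw [H41D.cV_eq_one, ← H55K.e_cj]
    exact h1

/-- The place: π below V. -/
theorem exists_plc (hp : PrimeH F W₀ p) (hsp : Spl F p) (V : ValuationSubring ℂ) (hV : V.valuation (p : ℂ) < 1) :
    ∃ π π' : 𝓞 F, Plc F V π π' p ∧ Plc F (V.comap (starRingEnd ℂ)) π' π p := by
  obtain ⟨π, hπ, hd, hs⟩ := hsp
  have hprod : π * cj π = (p : 𝓞 F) := (H19B.f3_split hp.prime ((H55K.TQ.unr_iff hp.prime).1 hp.unr) hπ hd hs).2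
  have hco : IsCoprime π (cj π) := (hπ.irreducible.coprime_iff_not_dvd).2 hs
  by_cases h1 : V.valuation (eF F π) < 1
  · exact ⟨π, cj π, sn2_mk hp.prime hπ hprod hco h1⟩
  · have h2 : V.valuation (eF F π) = 1 := le_antisymm (sn2_le V _) (not_lt.1 h1)
    have h3 : V.valuation (eF F (cj π)) < 1 := by
      have e : (p : ℂ) = eF F π * eF F (cj π) := by
        rw [← map_mul, hprod, map_natCast]
      rw [e, map_mul, h2, one_mul] at hV
      exact hV
    have h4 := sn2_mk (V := V) hp.prime (H55K.cj_prime hπ) (by rw [H55K.cj_cj, mul_comm]; exact hprod) (by rw [H55K.cj_cj]; exact hco.symm) h3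
    rw [H55K.cj_cj] at h4
    exact ⟨cj π, π, h4⟩

open Classical in
/-- No p-torsion of W₀ over M. -/
def NoTor (p : ℕ) (W₀ : WeierstrassCurve (𝓞 F)) (M : IntermediateField F (AlgebraicClosure F)) : Prop :=
  ∀ T : Pt (W₀⁄F) (AlgebraicClosure F), p • T = 0 → (∀ s ∈ M.fixingSubgroup, ac (W₀⁄F) s T = T) → T = 0

theorem ntp_base (hH : BaseH F W₀ Om m ψ) (hp : PrimeH F W₀ p) {V : ValuationSubring ℂ} {π π' : 𝓞 F} (hP : Plc F V π π' p)
    (M : IntermediateField F (AlgebraicClosure F)) [NumberField M] (hT : NoTor p W₀ M) : NTP M p m ψ V := by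
  classical
  obtain ⟨A, B, j, act, hA, hB, d⟩ := SSG.exists_dtaAB (p := p) hH hp
  obtain ⟨Θ, hΘ⟩ := SSG.short_iso W₀ hA hB hH.data.ell (Ω := AlgebraicClosure F)
  refine ntp_of_tor d hP M fun T hT0 hTf => ?_
  have h1 : Θ.symm T = 0 := by
    refine hT _ ?_ fun s hs => ?_
    · rw [← map_nsmul, hT0, map_zero]
    · apply Θ.injective
      have h2 := hΘ s (Θ.symm T)
      rw [Θ.apply_symm_apply, hTf s hs] at h2
      rw [Θ.apply_symm_apply]
      exact h2
  rw [← Θ.apply_symm_apply T, h1, map_zero]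

end H35M
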