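import Mathlib
import Pool.Agent.Lib.H35M.TD

/-! # H35M, chunk KM1 (S/M): transport of additive characters to the algebraic closure -/

open NumberField IsDedekindDomain

namespace H35M

open H55N H55P

variable {F : Type} [Field F] [NumberField F] [IQ F] {K : Type} [Field K] [NumberField K] [Algebra F K]

/-- Chunk KM1 (S/M). PROOF. θ 0 = 1 (per at 0), θ x ^ (p^N) = θ (p^N x) = 1 since n divides p^N. Ω is algebraically closed of characteristic 0 (j): there is a primitive p^N-th root ζ in Ω (IsAlgClosed / HasEnoughRootsOfUnity), j ζ is primitive, so every p^N-th root of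
unity of ℂ is j of a power of ζ (IsPrimitiveRoot.eq_pow_of_pow_eq_one). Choose θ' x with j (θ' x) = θ x; the rest by injectivity of j. -/
theorem km_char {Ω : Type} [Field Ω] [IsAlgClosed Ω] (j : Ω →+* ℂ) {p N : ℕ} (hp : p ≠ 0) {n : 𝓞 F} (hn : n ∣ (p : 𝓞 F) ^ N) {θ : 𝓞 K → ℂ}
    (hθ : AddC n θ) : ∃ θ' : 𝓞 K → Ω, (∀ x, j (θ' x) = θ x) ∧ (∀ x y, θ' (x + y) = θ' x * θ' y) ∧
      ∀ x, θ' (algebraMap (𝓞 F) (𝓞 K) n * x) = 1 := by
  have hj : Function.Injective j := j.injective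
  have hch : CharZero Ω := j.charZero
  have h0 : θ 0 = 1 := by
    have h := hθ.per 0
    rwa [mul_zero] at h
  have hsm : ∀ (k : ℕ) (x : 𝓞 K), θ (k • x) = θ x ^ k := by
    intro k x
    induction k with
    | zero => rw [zero_nsmul, pow_zero, h0]
    | succ k ih => rw [succ_nsmul, hθ.add, ih, pow_succ]
  obtain ⟨k, hk⟩ := hn
  have hroot : ∀ x : 𝓞 K, θ x ^ (p ^ N) = 1 := by
    intro x
    rw [← hsm]
    have e : (p ^ N) • x = algebraMap (𝓞 F) (𝓞 K) n * (algebraMap (𝓞 F) (𝓞 K) k * x) := by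
      rw [nsmul_eq_mul, ← mul_assoc, ← map_mul, ← hk]
      push_cast
      simp
    rw [e, hθ.per]
  have hM : p ^ N ≠ 0 := pow_ne_zero _ hp
  have : NeZero (p ^ N) := ⟨hM⟩
  have : NeZero ((p ^ N : ℕ) : Ω) := ⟨by exact_mod_cast hM⟩
  obtain ⟨ζ, hζ⟩ := HasEnoughRootsOfUnity.exists_primitiveRoot Ω (p ^ N)
  have hζ' : IsPrimitiveRoot (j ζ) (p ^ N) := hζ.map_of_injective hj
  have hex : ∀ x : 𝓞 K, ∃ t : Ω, j t = θ x := by
    intro x
    obtain ⟨i, -, hi⟩ := hζ'.eq_pow_of_pow_eq_one (hroot x)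
    exact ⟨ζ ^ i, by rw [map_pow, hi]⟩
  choose θ' hθ' using hex
  refine ⟨θ', hθ', fun x y => hj ?_, fun x => hj ?_⟩
  · rw [hθ', map_mul, hθ', hθ', hθ.add]
  · rw [hθ', hθ.per, map_one]

end H35M
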