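import Mathlib

/-! # H35M, chunk KL1 (M): Lagrange interpolation and integrality -/

namespace H35M

variable {C : Type} [NormedField C] [IsUltrametricDist C]

/-- The subring of the elements of norm at most one. -/
def kl1O (C : Type) [NormedField C] [IsUltrametricDist C] : Subring C where
  carrier := {x | ‖x‖ ≤ 1}
  mul_mem' := fun {a b} ha hb => by
    show ‖a * b‖ ≤ 1
    rw [norm_mul]
    exact mul_le_one₀ ha (norm_nonneg _) hb
  one_mem' := by
    show ‖(1 : C)‖ ≤ 1
    rw [norm_one]
  add_mem' := fun {a b} ha hb => (IsUltrametricDist.norm_add_le_max a b).trans (max_le ha hb)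
  zero_mem' := by
    show ‖(0 : C)‖ ≤ 1
    rw [norm_zero]
    exact zero_le_one
  neg_mem' := fun {a} ha => by
    show ‖-a‖ ≤ 1
    rw [norm_neg]
    exact ha

theorem kl1_iff (Q : Polynomial C) : Q ∈ Polynomial.lifts (kl1O C).subtype ↔ ∀ i, ‖Q.coeff i‖ ≤ 1 := by
  rw [Polynomial.lifts_iff_coeff_lifts]
  constructor
  · intro h i
    obtain ⟨y, hy⟩ := h i
    rw [← hy]
    exact y.2
  · intro h i
    exact ⟨⟨Q.coeff i, h i⟩, rfl⟩

/-- Chunk KL1a (S/M). Division with remainder by a monic polynomial with integral coefficients preserves integral coefficients (induction on the degree of h: subtract lead(h) T^(deg h - deg P) P; or Polynomial.modByMonic over the subring of the elements of norm at most one, mapped to C: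
P and h lift to that subring (Polynomial.lifts / toSubring), modByMonic commutes with maps). -/
theorem modBy_int {P h : Polynomial C} (hP : P.Monic) (hPi : ∀ i, ‖P.coeff i‖ ≤ 1) (hh : ∀ i, ‖h.coeff i‖ ≤ 1) (i : ℕ) :
    ‖(h %ₘ P).coeff i‖ ≤ 1 := by
  obtain ⟨P', hP'⟩ := (Polynomial.mem_lifts _).1 ((kl1_iff P).2 hPi)
  obtain ⟨h', hh'⟩ := (Polynomial.mem_lifts _).1 ((kl1_iff h).2 hh)
  have hinj : Function.Injective (kl1O C).subtype := Subtype.val_injective
  have hm : P'.Monic := by
    apply Polynomial.monic_of_injective hinj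
    rw [hP']
    exact hP
  have h1 : (h' %ₘ P').map (kl1O C).subtype = h %ₘ P := by
    rw [Polynomial.map_modByMonic _ hm, hh', hP']
  exact (kl1_iff _).1 ((Polynomial.mem_lifts _).2 ⟨_, h1⟩) i

/-- Chunk KL1 (M). x injective on the finite set I, values of norm at most one: the sum over a of h(x_a) / prod_(b <> a) (x_a - x_b) is integral for an integral polynomial h. PROOF. P = prod (T - x_a) is monic with integral coefficients (products of integral polynomials are integral), h %ₘ P = r has
integral coefficients (KL1a), degree < n = card I, r(x_a) = h(x_a). Lagrange: r = sum_a r(x_a) prod_(b <> a) (T - x_b)/(x_a - x_b) (Lagrange.eq_interpolate, Lagrange.interpolate_apply, Lagrange.basis), coefficient of T^(n-1): the sum. n = 0: the sum is empty. -/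
theorem lag_int {I : Type} [Fintype I] [DecidableEq I] {x : I → C} (hx : Function.Injective x) (h1 : ∀ a, ‖x a‖ ≤ 1) {h : Polynomial C}
    (hh : ∀ i, ‖h.coeff i‖ ≤ 1) : ‖∑ a, h.eval (x a) / ∏ b ∈ Finset.univ.erase a, (x a - x b)‖ ≤ 1 := by
  obtain ⟨P, hP⟩ : ∃ P : Polynomial C, P = ∏ a : I, (Polynomial.X - Polynomial.C (x a)) := ⟨_, rfl⟩
  have hPm : P.Monic := by
    rw [hP]
    exact Polynomial.monic_prod_of_monic _ _ fun a _ => Polynomial.monic_X_sub_C (x a)
  have hPd : P.degree = (Finset.univ : Finset I).card := by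
    rw [hP, Polynomial.degree_prod]
    simp
  have hPi : ∀ i, ‖P.coeff i‖ ≤ 1 := by
    rw [← kl1_iff, hP]
    refine prod_mem fun a _ => ?_
    have e1 : (Polynomial.X - Polynomial.C (x a) : Polynomial C) = Polynomial.X + Polynomial.C (-(x a)) := by
      rw [Polynomial.C_neg, sub_eq_add_neg]
    rw [e1]
    refine add_mem (Polynomial.X_mem_lifts _) (Polynomial.C'_mem_lifts ⟨⟨-(x a), ?_⟩, rfl⟩)
    show ‖-(x a)‖ ≤ 1
    rw [norm_neg]
    exact h1 a
  have hr := modBy_int hPm hPi hh
  have hdeg : (h %ₘ P).degree < (Finset.univ : Finset I).card := by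
    rw [← hPd]
    exact Polynomial.degree_modByMonic_lt _ hPm
  have hev : ∀ a, (h %ₘ P).eval (x a) = h.eval (x a) := by
    intro a
    have hroot : P.eval (x a) = 0 := by
      rw [hP, Polynomial.eval_prod]
      refine Finset.prod_eq_zero (Finset.mem_univ a) ?_
      simp
    have e2 := Polynomial.modByMonic_add_div h P
    have e3 := congrArg (Polynomial.eval (x a)) e2
    rw [Polynomial.eval_add, Polynomial.eval_mul, hroot, zero_mul, add_zero] at e3
    exact e3
  have h2 := Lagrange.coeff_eq_sum (s := Finset.univ) (v := x) hx.injOn hdeg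
  simp only [hev] at h2
  rw [← h2]
  exact hr _

end H35M
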