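import Mathlib

/-!
# H35M: finite groups with an integral coordinate (definitions)

G is a finite abelian group (the points of a finite subgroup of a formal group), X : G → C a coordinate with values of norm at most one in an ultrametric normed field.
Fn1 X g: the function g on G is a uniform limit of integral polynomials in X.
-/

namespace H35M

variable {C : Type} [NormedField C] {G : Type}

/-- Uniform limits of polynomials with integral coefficients in X. -/
def Fn1 (X : G → C) (g : G → C) : Prop :=
  ∀ ε : ℝ, 0 < ε → ∃ Q : Polynomial C, (∀ i, ‖Q.coeff i‖ ≤ 1) ∧ ∀ a, ‖g a - Q.eval (X a)‖ ≤ ε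

/-- Uniform limits of polynomials with integral coefficients in X a, X b; a polynomial in two variables is a polynomial (in X a) over the polynomials (in X b). -/
def Fn2 (X : G → C) (g : G → G → C) : Prop :=
  ∀ ε : ℝ, 0 < ε → ∃ Q : Polynomial (Polynomial C), (∀ i j, ‖(Q.coeff i).coeff j‖ ≤ 1) ∧
    ∀ a b, ‖g a b - (Q.eval (Polynomial.C (X a))).eval (X b)‖ ≤ ε

/-- The coordinate of a finite subgroup of a formal group. -/
structure FG [AddCommGroup G] (X : G → C) : Prop where
  le : ∀ a, ‖X a‖ ≤ 1
  inj : Function.Injective X
  zero : X 0 = 0
  neg : ∀ a, X (-a) = - X a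
  add : Fn2 X fun a b => X (a + b)

/-- The product of the coordinates of the elements different from zero. -/
noncomputable def cX [AddCommGroup G] [Fintype G] [DecidableEq G] (X : G → C) : C := ∏ b ∈ Finset.univ.erase (0 : G), X b

end H35M
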