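import Mathlib
import Pool.Agent.Lib.H35M.KD

/-! # H35M, chunk KL2 (S/M): rules for the functions Fn1, Fn2 -/

namespace H35M

variable {C : Type} [NormedField C] [IsUltrametricDist C] {G : Type} {X : G → C}

/-- The subring of the elements of norm at most one. -/
def kl2O (C : Type) [NormedField C] [IsUltrametricDist C] : Subring C where
  carrier := {x | ‖x‖ ≤ 1}
  mul_mem' := fun {a b} ha hb => by
    show ‖a * b‖ ≤ 1
    rw [norm_mul]
    exact mul_le_one₀ ha (norm_nonneg _) hb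
  one_mem' := by
    show ‖(1 : C)‖ ≤ 1
    rw [norm_one]
  add_mem' := fun {a b} ha hb => (IsUltrametricDist.norm_add_le_max a b).trans (max_le ha hb)
  zero_mem' := by
    show ‖(0 : C)‖ ≤ 1
    rw [norm_zero]
    exact zero_le_one
  neg_mem' := fun {a} ha => by
    show ‖-a‖ ≤ 1
    rw [norm_neg]
    exact ha

theorem kl2_iff (Q : Polynomial C) : Q ∈ Polynomial.lifts (kl2O C).subtype ↔ ∀ i, ‖Q.coeff i‖ ≤ 1 := by
  rw [Polynomial.lifts_iff_coeff_lifts]
  constructor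
  · intro h i
    obtain ⟨y, hy⟩ := h i
    rw [← hy]
    exact y.2
  · intro h i
    exact ⟨⟨Q.coeff i, h i⟩, rfl⟩

theorem kl2_max {a b : C} {r : ℝ} (ha : ‖a‖ ≤ r) (hb : ‖b‖ ≤ r) : ‖a + b‖ ≤ r :=
  (IsUltrametricDist.norm_add_le_max a b).trans (max_le ha hb)

/-- integral polynomials: values at points of norm at most one are integral -/
theorem eval_le {Q : Polynomial C} (hQ : ∀ i, ‖Q.coeff i‖ ≤ 1) {x : C} (hx : ‖x‖ ≤ 1) : ‖Q.eval x‖ ≤ 1 := by
  obtain ⟨Q', hQ'⟩ := (Polynomial.mem_lifts _).1 ((kl2_iff Q).2 hQ)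
  have h1 : Q.eval x = (kl2O C).subtype (Q'.eval ⟨x, hx⟩) := by
    rw [← Polynomial.eval₂_at_apply, ← hQ', Polynomial.eval_map]
    rfl
  rw [h1]
  exact (Q'.eval ⟨x, hx⟩).2

theorem Fn1.le (hX : ∀ a, ‖X a‖ ≤ 1) {g : G → C} (hg : Fn1 X g) (a : G) : ‖g a‖ ≤ 1 := by
  obtain ⟨Q, hQ, h⟩ := hg 1 one_pos
  have e : g a = (g a - Q.eval (X a)) + Q.eval (X a) := by ring
  rw [e]
  exact kl2_max (h a) (eval_le hQ (hX a))

theorem Fn1.const {c : C} (hc : ‖c‖ ≤ 1) : Fn1 X fun _ => c := by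
  intro ε hε
  refine ⟨Polynomial.C c, ?_, fun a => ?_⟩
  · rw [← kl2_iff]
    exact Polynomial.C'_mem_lifts ⟨⟨c, hc⟩, rfl⟩
  · rw [Polynomial.eval_C, sub_self, norm_zero]
    exact hε.le

theorem Fn1.coord : Fn1 X X := by
  intro ε hε
  refine ⟨Polynomial.X, ?_, fun a => ?_⟩
  · rw [← kl2_iff]
    exact Polynomial.X_mem_lifts _
  · rw [Polynomial.eval_X, sub_self, norm_zero]
    exact hε.le

theorem Fn1.add {g h : G → C} (hg : Fn1 X g) (hh : Fn1 X h) : Fn1 X fun a => g a + h a := by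
  intro ε hε
  obtain ⟨Q, hQ, hQ'⟩ := hg ε hε
  obtain ⟨R, hR, hR'⟩ := hh ε hε
  refine ⟨Q + R, ?_, fun a => ?_⟩
  · rw [← kl2_iff] at hQ hR ⊢
    exact add_mem hQ hR
  · have e : g a + h a - (Q + R).eval (X a) = (g a - Q.eval (X a)) + (h a - R.eval (X a)) := by
      rw [Polynomial.eval_add]
      ring
    rw [e]
    exact kl2_max (hQ' a) (hR' a)

/-- Use the bounds of the values (Fn1.le, eval_le): g h - Q R = g (h - R) + (g - Q) R. -/
theorem Fn1.mul (hX : ∀ a, ‖X a‖ ≤ 1) {g h : G → C} (hg : Fn1 X g) (hh : Fn1 X h) : Fn1 X fun a => g a * h a := by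
  intro ε hε
  obtain ⟨Q, hQ, hQ'⟩ := hg ε hε
  obtain ⟨R, hR, hR'⟩ := hh ε hε
  refine ⟨Q * R, ?_, fun a => ?_⟩
  · rw [← kl2_iff] at hQ hR ⊢
    exact mul_mem hQ hR
  · have e : g a * h a - (Q * R).eval (X a) = g a * (h a - R.eval (X a)) + (g a - Q.eval (X a)) * R.eval (X a) := by
      rw [Polynomial.eval_mul]
      ring
    rw [e]
    refine kl2_max ?_ ?_
    · rw [norm_mul]
      calc ‖g a‖ * ‖h a - R.eval (X a)‖ ≤ 1 * ε :=
            mul_le_mul (Fn1.le hX hg a) (hR' a) (norm_nonneg _) zero_le_one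
        _ = ε := one_mul ε
    · rw [norm_mul]
      calc ‖g a - Q.eval (X a)‖ * ‖R.eval (X a)‖ ≤ ε * 1 :=
            mul_le_mul (hQ' a) (eval_le hR (hX a)) (norm_nonneg _) hε.le
        _ = ε := mul_one ε

theorem Fn1.pow (hX : ∀ a, ‖X a‖ ≤ 1) {g : G → C} (hg : Fn1 X g) (n : ℕ) : Fn1 X fun a => g a ^ n := by
  induction n with
  | zero =>
    simp only [pow_zero]
    exact Fn1.const (by rw [norm_one])
  | succ n ih =>
    simp only [pow_succ]
    exact Fn1.mul hX ih hg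

theorem Fn1.sum {ι : Type} (s : Finset ι) {g : ι → G → C} (hg : ∀ i ∈ s, Fn1 X (g i)) : Fn1 X fun a => ∑ i ∈ s, g i a := by
  classical
  induction s using Finset.induction_on with
  | empty =>
    simp only [Finset.sum_empty]
    exact Fn1.const (by rw [norm_zero]; exact zero_le_one)
  | insert i s hi ih =>
    simp only [Finset.sum_insert hi]
    exact Fn1.add (hg i (Finset.mem_insert_self i s)) (ih fun j hj => hg j (Finset.mem_insert_of_mem hj))

theorem Fn1.prod (hX : ∀ a, ‖X a‖ ≤ 1) {ι : Type} (s : Finset ι) {g : ι → G → C} (hg : ∀ i ∈ s, Fn1 X (g i)) : Fn1 X fun a => ∏ i ∈ s, g i a := by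
  classical
  induction s using Finset.induction_on with
  | empty =>
    simp only [Finset.prod_empty]
    exact Fn1.const (by rw [norm_one])
  | insert i s hi ih =>
    simp only [Finset.prod_insert hi]
    exact Fn1.mul hX (hg i (Finset.mem_insert_self i s)) (ih fun j hj => hg j (Finset.mem_insert_of_mem hj))

/-- The functions are closed: if g is approximated by functions of Fn1 it is in Fn1. -/
theorem Fn1.lim {g : G → C} (h : ∀ ε : ℝ, 0 < ε → ∃ g', Fn1 X g' ∧ ∀ a, ‖g a - g' a‖ ≤ ε) : Fn1 X g := by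
  intro ε hε
  obtain ⟨g', hg', h1⟩ := h ε hε
  obtain ⟨Q, hQ, hQ'⟩ := hg' ε hε
  refine ⟨Q, hQ, fun a => ?_⟩
  have e : g a - Q.eval (X a) = (g a - g' a) + (g' a - Q.eval (X a)) := by ring
  rw [e]
  exact kl2_max (h1 a) (hQ' a)

/-- Fix b in a function of two variables: Q evaluated at X b (coefficient by coefficient: Q.map (Polynomial.evalRingHom (X b)); eval_le). -/
theorem Fn2.fix (hX : ∀ a, ‖X a‖ ≤ 1) {g : G → G → C} (hg : Fn2 X g) (b : G) : Fn1 X fun a => g a b := by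
  intro ε hε
  obtain ⟨Q, hQ, hQ'⟩ := hg ε hε
  refine ⟨Q.map (Polynomial.evalRingHom (X b)), fun i => ?_, fun a => ?_⟩
  · rw [Polynomial.coeff_map]
    exact eval_le (hQ i) (hX b)
  · have h1 : (Q.map (Polynomial.evalRingHom (X b))).eval (X a) = (Q.eval (Polynomial.C (X a))).eval (X b) := by
      have h2 := Polynomial.eval₂_at_apply (p := Q) (Polynomial.evalRingHom (X b)) (Polynomial.C (X a))
      rw [Polynomial.coe_evalRingHom, Polynomial.eval_C] at h2
      rw [Polynomial.eval_map]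
      exact h2
    rw [h1]
    exact hQ' a b

end H35M
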