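import Mathlib
import Pool.Agent.Lib.H35M.KL2

/-! # H35M, chunk KL3A (M): difference quotients -/

namespace H35M

variable {C : Type} [NormedField C] [IsUltrametricDist C] {G : Type} [AddCommGroup G] [Finite G] {X : G → C}

omit [NormedField C] [IsUltrametricDist C] [AddCommGroup G] [Finite G] in
theorem kl3a_eval {C : Type} [Field C] (Q : Polynomial (Polynomial C)) (x y : C) : (Q.eval (Polynomial.C x)).eval y =
    ∑ i ∈ Finset.range (Q.natDegree + 1), (Q.coeff i).eval y * x ^ i := by
  have h1 : Q.eval (Polynomial.C x) = ∑ i ∈ Finset.range (Q.natDegree + 1), Q.coeff i * Polynomial.C x ^ i :=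
    Polynomial.eval_eq_sum_range _
  rw [h1, Polynomial.eval_finsetSum]
  refine Finset.sum_congr rfl fun i _ => ?_
  rw [Polynomial.eval_mul, Polynomial.eval_pow, Polynomial.eval_C]

theorem kl3a_divX {C : Type} [Field C] (p : Polynomial C) (y : C) : p.divX.eval y * y = p.eval y - p.eval 0 := by
  have h1 := congrArg (Polynomial.eval y) (Polynomial.divX_mul_X_add p)
  rw [Polynomial.eval_add, Polynomial.eval_mul, Polynomial.eval_X, Polynomial.eval_C] at h1
  rw [← h1, Polynomial.coeff_zero_eq_eval_zero]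
  ring

/-- Chunk KL3a (M). For b <> 0 the function a -> (X (a + b) - X a) / X b is in Fn1. PROOF. ε > 0; take Q for X (a + b) with error at most ε ‖X b‖. Q(x, y) - Q(x, 0) = y U(x, y) with U integral (divX in the inner variable, coefficient by coefficient). ‖X (a + b) - Q(X a, X b)‖ and, with b = 0
(X 0 = 0), ‖X a - Q(X a, 0)‖ are at most ε ‖X b‖, so (X (a + b) - X a)/X b - U(X a, X b) has norm at most ε; U(., X b) is an integral polynomial. X b <> 0 by injectivity. -/
theorem FG.quo (h : FG X) {b : G} (hb : b ≠ 0) : Fn1 X fun a => (X (a + b) - X a) / X b := by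
  classical
  have hXb : X b ≠ 0 := by
    intro h0
    apply hb
    apply h.inj
    rw [h0, h.zero]
  have hn : 0 < ‖X b‖ := norm_pos_iff.mpr hXb
  intro ε hε
  obtain ⟨Q, hQ1, hQ2⟩ := h.add (ε * ‖X b‖) (mul_pos hε hn)
  set R : Polynomial C := ∑ i ∈ Finset.range (Q.natDegree + 1),
    Polynomial.C ((Q.coeff i).divX.eval (X b)) * Polynomial.X ^ i with hR
  refine ⟨R, ?_, ?_⟩
  · intro k
    have h1 : R.coeff k = if k ∈ Finset.range (Q.natDegree + 1) then (Q.coeff k).divX.eval (X b) else 0 := by
      rw [hR, Polynomial.finsetSum_coeff, ← Finset.sum_ite_eq (Finset.range (Q.natDegree + 1)) k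
        (fun i => (Q.coeff i).divX.eval (X b))]
      refine Finset.sum_congr rfl fun i _ => ?_
      rw [Polynomial.coeff_C_mul_X_pow]
    rw [h1]
    split_ifs
    · refine eval_le (fun j => ?_) (h.le b)
      rw [Polynomial.coeff_divX]
      exact hQ1 k (j + 1)
    · rw [norm_zero]
      exact zero_le_one
  · intro a
    have h2 : R.eval (X a) * X b = (Q.eval (Polynomial.C (X a))).eval (X b) -
        (Q.eval (Polynomial.C (X a))).eval 0 := by
      rw [kl3a_eval, kl3a_eval, ← Finset.sum_sub_distrib, hR, Polynomial.eval_finsetSum, Finset.sum_mul]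
      refine Finset.sum_congr rfl fun i _ => ?_
      rw [Polynomial.eval_mul, Polynomial.eval_C, Polynomial.eval_pow, Polynomial.eval_X, ← sub_mul,
        ← kl3a_divX]
      ring
    have h3 : ‖X (a + b) - (Q.eval (Polynomial.C (X a))).eval (X b)‖ ≤ ε * ‖X b‖ := hQ2 a b
    have h4 : ‖X (a + 0) - (Q.eval (Polynomial.C (X a))).eval (X 0)‖ ≤ ε * ‖X b‖ := hQ2 a 0
    rw [add_zero, h.zero] at h4
    have h5 : (X (a + b) - X a) / X b - R.eval (X a) =
        ((X (a + b) - (Q.eval (Polynomial.C (X a))).eval (X b)) -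
          (X a - (Q.eval (Polynomial.C (X a))).eval 0)) / X b := by
      rw [eq_div_iff hXb, sub_mul, div_mul_cancel₀ _ hXb, h2]
      ring
    rw [h5, norm_div, div_le_iff₀ hn]
    rw [sub_eq_add_neg]
    refine (IsUltrametricDist.norm_add_le_max _ _).trans ?_
    rw [norm_neg]
    exact max_le h3 h4

end H35M
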