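import Mathlib
import Pool.Agent.Lib.H35M.KL2

/-! # H35M, chunk KL3B (M): differences -/

namespace H35M

variable {C : Type} [NormedField C] [IsUltrametricDist C] {G : Type} [AddCommGroup G] [Finite G] {X : G → C}

/-- the ring of the elements of norm at most one -/
def kl3bO (C : Type) [NormedField C] [IsUltrametricDist C] : Subring C where
  carrier := {x | ‖x‖ ≤ 1}
  mul_mem' := by
    intro a b ha hb
    show ‖a * b‖ ≤ 1
    rw [norm_mul]
    exact mul_le_one₀ ha (norm_nonneg _) hb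
  one_mem' := by
    show ‖(1 : C)‖ ≤ 1
    rw [norm_one]
  add_mem' := by
    intro a b ha hb
    exact (IsUltrametricDist.norm_add_le_max a b).trans (max_le ha hb)
  zero_mem' := by
    show ‖(0 : C)‖ ≤ 1
    rw [norm_zero]
    exact zero_le_one
  neg_mem' := by
    intro a ha
    show ‖-a‖ ≤ 1
    rw [norm_neg]
    exact ha

omit [AddCommGroup G] [Finite G] in
theorem kl3b_lift1 {R : Polynomial C} (hR : ∀ i, ‖R.coeff i‖ ≤ 1) :
    ∃ R0 : Polynomial (kl3bO C), R0.map (kl3bO C).subtype = R := by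
  rw [← Polynomial.mem_lifts, Polynomial.lifts_iff_coeff_lifts]
  intro i
  exact ⟨⟨R.coeff i, hR i⟩, rfl⟩

omit [AddCommGroup G] [Finite G] in
theorem kl3b_lift2 {Q : Polynomial (Polynomial C)} (hQ : ∀ i j, ‖(Q.coeff i).coeff j‖ ≤ 1) :
    ∃ Q0 : Polynomial (Polynomial (kl3bO C)), Q0.map (Polynomial.mapRingHom (kl3bO C).subtype) = Q := by
  rw [← Polynomial.mem_lifts, Polynomial.lifts_iff_coeff_lifts]
  intro i
  obtain ⟨R0, hR0⟩ := kl3b_lift1 (hQ i)
  exact ⟨R0, hR0⟩

/-- Chunk KL3b (S/M). Substitute -X b for X b: Q with the inner variable replaced by its negative (Polynomial.comp (-X), or coefficients times (-1)^j). -/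
theorem FG.sub (h : FG X) : Fn2 X fun a b => X (a - b) := by
  intro ε hε
  obtain ⟨Q, hQ, hQ'⟩ := h.add ε hε
  obtain ⟨Q0, hQ0⟩ := kl3b_lift2 hQ
  have hx : ∀ a, X a ∈ kl3bO C := h.le
  refine ⟨(Q0.map (Polynomial.compRingHom (-Polynomial.X))).map (Polynomial.mapRingHom (kl3bO C).subtype),
    ?_, ?_⟩
  · intro i j
    rw [Polynomial.coeff_map, Polynomial.coe_mapRingHom, Polynomial.coeff_map]
    exact (((Q0.map (Polynomial.compRingHom (-Polynomial.X))).coeff i).coeff j).2
  · intro a b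
    have h1 := hQ' a (-b)
    dsimp only at h1 ⊢
    rw [← sub_eq_add_neg] at h1
    have e : (((Q0.map (Polynomial.compRingHom (-Polynomial.X))).map
        (Polynomial.mapRingHom (kl3bO C).subtype)).eval (Polynomial.C (X a))).eval (X b) =
        (Q.eval (Polynomial.C (X a))).eval (X (-b)) := by
      have h2 := Polynomial.map_mapRingHom_evalEval (kl3bO C).subtype
        (Q0.map (Polynomial.compRingHom (-Polynomial.X))) ⟨X b, hx b⟩ ⟨X a, hx a⟩
      have h3 := Polynomial.map_mapRingHom_evalEval (kl3bO C).subtype Q0 ⟨X (-b), hx (-b)⟩ ⟨X a, hx a⟩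
      rw [hQ0] at h3
      refine h2.trans (Eq.trans (congrArg _ ?_) h3.symm)
      have h4 := Polynomial.eval₂_at_apply (p := Q0) (Polynomial.compRingHom (-Polynomial.X))
        (Polynomial.C (⟨X a, hx a⟩ : kl3bO C))
      have h5 : Polynomial.compRingHom (-Polynomial.X) (Polynomial.C (⟨X a, hx a⟩ : kl3bO C)) =
          Polynomial.C (⟨X a, hx a⟩ : kl3bO C) := Polynomial.C_comp
      rw [h5] at h4
      show Polynomial.eval _ (Polynomial.eval _ _) = Polynomial.eval _ (Polynomial.eval _ _)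
      rw [Polynomial.eval_map, h4, Polynomial.coe_compRingHom_apply, Polynomial.eval_comp,
        Polynomial.eval_neg, Polynomial.eval_X]
      congr 1
      exact Subtype.ext (h.neg b).symm
    rw [e]
    exact h1

/-- Chunk KL3c (M). For g in Fn1 the function (a, b) -> g (a - b) is in Fn2: g is near R(X), R integral, R(X (a - b)): powers and sums of functions of Fn2 (prove Fn2 closed under constants of norm at most one, sums, products and limits as in KL2). -/
theorem FG.sub_fn (h : FG X) {g : G → C} (hg : Fn1 X g) : Fn2 X fun a b => g (a - b) := by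
  intro ε hε
  obtain ⟨R, hR, hR'⟩ := hg ε hε
  obtain ⟨R0, hR0⟩ := kl3b_lift1 hR
  obtain ⟨Q, hQ, hQ'⟩ := h.sub ε hε
  obtain ⟨Q0, hQ0⟩ := kl3b_lift2 hQ
  have hx : ∀ a, X a ∈ kl3bO C := h.le
  refine ⟨(R0.eval₂ (Polynomial.C.comp Polynomial.C) Q0).map (Polynomial.mapRingHom (kl3bO C).subtype),
    ?_, ?_⟩
  · intro i j
    rw [Polynomial.coeff_map, Polynomial.coe_mapRingHom, Polynomial.coeff_map]
    exact (((R0.eval₂ (Polynomial.C.comp Polynomial.C) Q0).coeff i).coeff j).2
  · intro a b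
    obtain ⟨x, hxa⟩ : ∃ x : kl3bO C, (x : C) = X a := ⟨⟨X a, hx a⟩, rfl⟩
    obtain ⟨y, hyb⟩ : ∃ y : kl3bO C, (y : C) = X b := ⟨⟨X b, hx b⟩, rfl⟩
    obtain ⟨z, hzab⟩ : ∃ z : kl3bO C, (z : C) = X (a - b) := ⟨⟨X (a - b), hx _⟩, rfl⟩
    have h2 := Polynomial.map_mapRingHom_evalEval (kl3bO C).subtype
      (R0.eval₂ (Polynomial.C.comp Polynomial.C) Q0) y x
    have h3 := Polynomial.map_mapRingHom_evalEval (kl3bO C).subtype Q0 y x
    rw [hQ0] at h3
    obtain ⟨q, hq⟩ : ∃ q : kl3bO C, q = Q0.evalEval y x := ⟨_, rfl⟩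
    have h4 : (R0.eval₂ (Polynomial.C.comp Polynomial.C) Q0).evalEval y x = R0.eval q := by
      rw [hq, ← Polynomial.coe_evalEvalRingHom, Polynomial.hom_eval₂]
      have h5 : ((Polynomial.evalEvalRingHom y x).comp
          (Polynomial.C.comp Polynomial.C)) = RingHom.id _ := by
        apply RingHom.ext
        intro t
        show Polynomial.eval _ (Polynomial.eval _ (Polynomial.C (Polynomial.C t))) = t
        rw [Polynomial.eval_C, Polynomial.eval_C]
      rw [h5]
      rfl
    obtain ⟨r1, hr1⟩ : ∃ r : kl3bO C, r = R0.eval z := ⟨_, rfl⟩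
    obtain ⟨r2, hr2⟩ : ∃ r : kl3bO C, r = R0.eval q := ⟨_, rfl⟩
    rw [h4, ← hr2] at h2
    rw [← hq] at h3
    have h6 : (((R0.eval₂ (Polynomial.C.comp Polynomial.C) Q0).map
        (Polynomial.mapRingHom (kl3bO C).subtype)).eval (Polynomial.C (X a))).eval (X b) =
        (r2 : C) := by
      rw [← hxa, ← hyb]
      exact h2
    have h7 := hR' (a - b)
    have h8 : R.eval (X (a - b)) = (r1 : C) := by
      rw [← hR0, ← hzab, hr1, Polynomial.eval_map]
      exact Polynomial.eval₂_at_apply (kl3bO C).subtype z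
    have h13 : (Q.eval (Polynomial.C (X a))).eval (X b) = (q : C) := by
      rw [← hxa, ← hyb]
      exact h3
    obtain ⟨w, hw⟩ := Polynomial.sub_dvd_eval_sub z q R0
    rw [← hr1, ← hr2] at hw
    have h9 : ‖(r1 : C) - (r2 : C)‖ ≤ ε := by
      have h11 : (r1 : C) - (r2 : C) = ((z : C) - (q : C)) * (w : C) :=
        congrArg (fun t : kl3bO C => (t : C)) hw
      have h12 := hQ' a b
      dsimp only at h12
      rw [h13, ← hzab] at h12
      rw [h11, norm_mul]
      have h14 : ‖(w : C)‖ ≤ 1 := w.2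
      calc _ ≤ ε * 1 := mul_le_mul h12 h14 (norm_nonneg _) hε.le
        _ = ε := mul_one _
    rw [h8] at h7
    dsimp only
    rw [h6]
    have h15 : g (a - b) - (r2 : C) = (g (a - b) - (r1 : C)) + ((r1 : C) - (r2 : C)) := by ring
    rw [h15]
    exact (IsUltrametricDist.norm_add_le_max _ _).trans (max_le h7 h9)

end H35M
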