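import Mathlib
import Pool.Agent.Lib.H35M.KL1
import Pool.Agent.Lib.H35M.KL3A
import Pool.Agent.Lib.H35M.KL3B

/-! # H35M, chunk KL4 (M): the trace -/

namespace H35M

variable {C : Type} [NormedField C] [IsUltrametricDist C] {G : Type} [AddCommGroup G] [Fintype G] [DecidableEq G] {X : G → C}

omit [IsUltrametricDist C] [Fintype G] [DecidableEq G] in
theorem kl4_ne (h : FG X) {b : G} (hb : b ≠ 0) : X b ≠ 0 := fun h0 => hb (h.inj (h0.trans h.zero.symm))

omit [IsUltrametricDist C] in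
theorem kl4_prod (h : FG X) (a : G) : ∏ b ∈ Finset.univ.erase a, (X a - X b) =
    (∏ b ∈ Finset.univ.erase (0 : G), (-1 : C)) * cX X * ∏ b ∈ Finset.univ.erase (0 : G), (X (a + b) - X a) / X b := by
  unfold cX
  rw [← Finset.prod_mul_distrib, ← Finset.prod_mul_distrib]
  symm
  refine Finset.prod_bij (fun b _ => a + b) ?_ ?_ ?_ ?_
  · intro b hb
    rw [Finset.mem_erase] at hb ⊢
    refine ⟨fun h0 => hb.1 ?_, Finset.mem_univ _⟩
    exact add_eq_left.1 h0
  · intro b _ c _ hbc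
    exact add_left_cancel hbc
  · intro c hc
    rw [Finset.mem_erase] at hc
    refine ⟨c - a, ?_, by abel⟩
    rw [Finset.mem_erase]
    exact ⟨fun h0 => hc.1 (sub_eq_zero.1 h0), Finset.mem_univ _⟩
  · intro b hb
    have h1 := kl4_ne h (Finset.mem_erase.1 hb).1
    field_simp
    ring

/-- Chunk KL4 (M). The sum of a function of Fn1 is divisible by c = prod of X b over b <> 0. PROOF. P'(X a) := prod over b <> a of (X a - X b) = prod over b <> 0 of (X a - X (a + b)) (reindex b -> a + b) = (-1)^(n-1) c v(a), v(a) = prod over b <> 0 of (X (a + b) - X a)/X b, v in Fn1 (FG.quo, Fn1.prod).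
sum_a g(a) = sum_a g(a) P'(X a)/P'(X a) = (-1)^(n-1) c sum_a (g v)(a)/P'(X a). g v is in Fn1: near Q(X) with error ε: sum Q(X a)/P'(X a) has norm at most one (lag_int), the rest at most ε max 1/‖P'(X a)‖; ε -> 0 (choose ε with ε/‖P'(X a)‖ <= 1 for all a). -/
theorem FG.trace (h : FG X) {g : G → C} (hg : Fn1 X g) : ‖∑ a, g a‖ ≤ ‖cX X‖ := by
  have hD : ∀ a, ∏ b ∈ Finset.univ.erase a, (X a - X b) ≠ 0 := by
    intro a
    rw [Finset.prod_ne_zero_iff]
    intro b hb h0
    exact (Finset.mem_erase.1 hb).1 (h.inj (sub_eq_zero.1 h0)).symm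
  have hv : Fn1 X fun a => g a * ∏ b ∈ Finset.univ.erase (0 : G), (X (a + b) - X a) / X b :=
    hg.mul h.le (Fn1.prod h.le _ (fun b hb => h.quo (Finset.mem_erase.1 hb).1))
  have hs : ∑ a, g a = (∏ b ∈ Finset.univ.erase (0 : G), (-1 : C)) * cX X *
      ∑ a, (g a * ∏ b ∈ Finset.univ.erase (0 : G), (X (a + b) - X a) / X b) /
        ∏ b ∈ Finset.univ.erase a, (X a - X b) := by
    rw [Finset.mul_sum]
    refine Finset.sum_congr rfl (fun a _ => ?_)
    have h1 := kl4_prod h a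
    have h2 : (∏ b ∈ Finset.univ.erase (0 : G), (-1 : C)) * cX X *
        ((g a * ∏ b ∈ Finset.univ.erase (0 : G), (X (a + b) - X a) / X b) /
          ∏ b ∈ Finset.univ.erase a, (X a - X b)) = g a * ((∏ b ∈ Finset.univ.erase (0 : G), (-1 : C)) * cX X *
        (∏ b ∈ Finset.univ.erase (0 : G), (X (a + b) - X a) / X b)) /
          ∏ b ∈ Finset.univ.erase a, (X a - X b) := by ring
    rw [h2, ← h1, mul_div_assoc, div_self (hD a), mul_one]
  have h1 : ‖∏ b ∈ Finset.univ.erase (0 : G), (-1 : C)‖ = 1 := by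
    rw [Finset.prod_const, norm_pow, norm_neg, norm_one, one_pow]
  rw [hs, norm_mul, norm_mul, h1, one_mul]
  refine mul_le_of_le_one_right (norm_nonneg _) ?_
  obtain ⟨a0, -, ha0⟩ := Finset.exists_min_image Finset.univ
    (fun a => ‖∏ b ∈ Finset.univ.erase a, (X a - X b)‖) ⟨(0 : G), Finset.mem_univ _⟩
  obtain ⟨Q, hQ, hQ'⟩ := hv _ (norm_pos_iff.2 (hD a0))
  have e : ∑ a, (g a * ∏ b ∈ Finset.univ.erase (0 : G), (X (a + b) - X a) / X b) /
        ∏ b ∈ Finset.univ.erase a, (X a - X b) =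
      ∑ a, Q.eval (X a) / ∏ b ∈ Finset.univ.erase a, (X a - X b) +
      ∑ a, (g a * (∏ b ∈ Finset.univ.erase (0 : G), (X (a + b) - X a) / X b) - Q.eval (X a)) /
        ∏ b ∈ Finset.univ.erase a, (X a - X b) := by
    rw [← Finset.sum_add_distrib]
    refine Finset.sum_congr rfl (fun a _ => ?_)
    ring
  rw [e]
  refine (IsUltrametricDist.norm_add_le_max _ _).trans (max_le (lag_int h.inj h.le hQ) ?_)
  refine IsUltrametricDist.norm_sum_le_of_forall_le_of_nonneg zero_le_one (fun a _ => ?_)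
  rw [norm_div]
  exact div_le_one_of_le₀ ((hQ' a).trans (ha0 a (Finset.mem_univ a))) (norm_nonneg _)

end H35M
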