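import Mathlib
import Pool.Agent.Lib.H35M.KL4

/-! # H35M, chunk KL5A (M): convolution -/

namespace H35M

variable {C : Type} [NormedField C] [IsUltrametricDist C] {G : Type} [AddCommGroup G] [Fintype G] [DecidableEq G] {X : G → C}

/-- Chunk KL5a (M). The convolution of two functions of Fn1 is c times a function of Fn1. PROOF. c = cX X <> 0 (injectivity, zero). k a = (sum_b g b * h (a - b)) / c. Given ε take Q for (a, b) -> h (a - b) (FG.sub_fn) with error at most ε ‖c‖: sum_b g b Q(X a, X b) = sum_i (X a)^i sum_b g b Q_i(X b),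
the inner sums have norm at most ‖c‖ (FG.trace for g * Q_i(X), Fn1.mul); the polynomial with the coefficients (sum_b g b Q_i(X b))/c is integral, the error is at most ε (‖g b‖ <= 1). -/
theorem FG.conv (hX : FG X) {g h : G → C} (hg : Fn1 X g) (hh : Fn1 X h) : ∃ k : G → C, Fn1 X k ∧ ∀ a, ∑ b, g b * h (a - b) = cX X * k a := by
  have hc : cX X ≠ 0 := by
    unfold cX
    rw [Finset.prod_ne_zero_iff]
    intro b hb h0
    exact (Finset.mem_erase.mp hb).1 (hX.inj (h0.trans hX.zero.symm))
  have hcn : 0 < ‖cX X‖ := norm_pos_iff.mpr hc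
  refine ⟨fun a => (∑ b, g b * h (a - b)) / cX X, ?_, fun a => (mul_div_cancel₀ _ hc).symm⟩
  intro ε hε
  obtain ⟨Q, hQ, hQe⟩ := hX.sub_fn hh (ε * ‖cX X‖) (mul_pos hε hcn)
  have hpoly : ∀ i, Fn1 X (fun b => (Q.coeff i).eval (X b)) := fun i δ hδ =>
    ⟨Q.coeff i, hQ i, fun a => by rw [sub_self, norm_zero]; exact hδ.le⟩
  have htr : ∀ i, ‖∑ b, g b * (Q.coeff i).eval (X b)‖ ≤ ‖cX X‖ := fun i =>
    hX.trace (Fn1.mul hX.le hg (hpoly i))
  have hq : ∀ i, ‖(∑ b, g b * (Q.coeff i).eval (X b)) / cX X‖ ≤ 1 := by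
    intro i
    rw [norm_div, div_le_one hcn]
    exact htr i
  refine ⟨∑ i ∈ Finset.range (Q.natDegree + 1),
    Polynomial.monomial i ((∑ b, g b * (Q.coeff i).eval (X b)) / cX X), fun i => ?_, fun a => ?_⟩
  · rw [Polynomial.finsetSum_coeff]
    simp only [Polynomial.coeff_monomial]
    rw [Finset.sum_ite_eq']
    split_ifs
    · exact hq i
    · rw [norm_zero]; exact zero_le_one
  · have h1 : ∀ b, (Q.eval (Polynomial.C (X a))).eval (X b)
        = ∑ i ∈ Finset.range (Q.natDegree + 1), (Q.coeff i).eval (X b) * X a ^ i := by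
      intro b
      rw [Polynomial.eval_eq_sum_range (p := Q) (Polynomial.C (X a)), Polynomial.eval_finsetSum]
      refine Finset.sum_congr rfl (fun i _ => ?_)
      rw [Polynomial.eval_mul, Polynomial.eval_pow, Polynomial.eval_C]
    have h2 : (∑ i ∈ Finset.range (Q.natDegree + 1),
        Polynomial.monomial i ((∑ b, g b * (Q.coeff i).eval (X b)) / cX X)).eval (X a)
        = (∑ b, g b * (Q.eval (Polynomial.C (X a))).eval (X b)) / cX X := by
      rw [Polynomial.eval_finsetSum, Finset.sum_div]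
      have h3 : ∀ b, g b * (Q.eval (Polynomial.C (X a))).eval (X b) / cX X
          = ∑ i ∈ Finset.range (Q.natDegree + 1), g b * (Q.coeff i).eval (X b) / cX X * X a ^ i := by
        intro b
        rw [h1 b, Finset.mul_sum, Finset.sum_div]
        refine Finset.sum_congr rfl (fun i _ => ?_)
        ring
      rw [Finset.sum_congr rfl (fun b _ => h3 b), Finset.sum_comm]
      refine Finset.sum_congr rfl (fun i _ => ?_)
      rw [Polynomial.eval_monomial, Finset.sum_div, Finset.sum_mul]
    have h4 : (∑ b, g b * h (a - b)) / cX X - (∑ i ∈ Finset.range (Q.natDegree + 1),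
        Polynomial.monomial i ((∑ b, g b * (Q.coeff i).eval (X b)) / cX X)).eval (X a)
        = (∑ b, g b * (h (a - b) - (Q.eval (Polynomial.C (X a))).eval (X b))) / cX X := by
      rw [h2, ← sub_div, ← Finset.sum_sub_distrib]
      refine congrArg (· / cX X) (Finset.sum_congr rfl (fun b _ => ?_))
      ring
    rw [h4, norm_div, div_le_iff₀ hcn]
    refine IsUltrametricDist.norm_sum_le_of_forall_le_of_nonneg (mul_pos hε hcn).le (fun b _ => ?_)
    rw [norm_mul]
    calc ‖g b‖ * ‖h (a - b) - (Q.eval (Polynomial.C (X a))).eval (X b)‖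
        ≤ 1 * (ε * ‖cX X‖) := mul_le_mul (Fn1.le hX.le hg b) (hQe a b) (norm_nonneg _) zero_le_one
      _ = ε * ‖cX X‖ := one_mul _

end H35M
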