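import Mathlib
import Pool.Agent.Lib.H35M.KL5A

/-! # H35M, chunk KL5B (M): additive characters -/

namespace H35M

variable {C : Type} [NormedField C] [IsUltrametricDist C] {G : Type} [AddCommGroup G] [Fintype G] [DecidableEq G] {X : G → C}

omit [IsUltrametricDist C] in
theorem kl5b_ne (hX : FG X) : cX X ≠ 0 := by
  unfold cX
  refine Finset.prod_ne_zero_iff.2 fun b hb h0 => ?_
  rw [← hX.zero] at h0
  exact (Finset.mem_erase.1 hb).1 (hX.inj h0)

omit [IsUltrametricDist C] [DecidableEq G] in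
theorem kl5b_norm {ψ : G → C} (h0 : ψ 0 = 1) (hψ : ∀ a b, ψ (a + b) = ψ a * ψ b) (a : G) : ‖ψ a‖ = 1 := by
  have h1 : ∀ n : ℕ, ψ (n • a) = ψ a ^ n := by
    intro n
    induction n with
    | zero => rw [zero_nsmul, h0, pow_zero]
    | succ n ih => rw [succ_nsmul, hψ, ih, pow_succ]
  have h2 : ‖ψ a‖ ^ Fintype.card G = 1 := by
    rw [← norm_pow, ← h1, card_nsmul_eq_zero, h0, norm_one]
  exact (pow_eq_one_iff_of_nonneg (norm_nonneg _) Fintype.card_ne_zero).1 h2

/-- Chunk KL5 (M). The main lemma: for every additive character ψ : G → C the sum of ψ g is divisible by c. PROOF. By induction there is k_n in Fn1 with (sum_a ψ a * g a)^(n+1) = c^n * sum_a ψ a * k_n a: k_0 = g; (sum_a ψ a k_n a)(sum_b ψ b g b) = sum_a ψ a sum_b g b k_n (a - b) (ψ additive,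
reindex) = c sum_a ψ a k_(n+1) a (FG.conv). ‖ψ a‖ = 1 (ψ a ^ card G = ψ 0 = 1). So with S = ‖sum ψ g‖: S^(n+1) <= ‖c‖^n for all n (‖k_n a‖ <= 1, ultrametric), ‖c‖ > 0: if S > ‖c‖ then (S/‖c‖)^n is unbounded, contradiction to (S/‖c‖)^n <= 1/S. -/
theorem FG.char (hX : FG X) {g : G → C} (hg : Fn1 X g) {ψ : G → C} (h0 : ψ 0 = 1) (hψ : ∀ a b, ψ (a + b) = ψ a * ψ b) :
    ‖∑ a, ψ a * g a‖ ≤ ‖cX X‖ := by
  have hc := kl5b_ne hX
  have hc0 : 0 < ‖cX X‖ := norm_pos_iff.2 hc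
  have key : ∀ n : ℕ, ∃ k : G → C, Fn1 X k ∧ (∑ a, ψ a * g a) ^ (n + 1) = cX X ^ n * ∑ a, ψ a * k a := by
    intro n
    induction n with
    | zero => exact ⟨g, hg, by rw [zero_add, pow_one, pow_zero, one_mul]⟩
    | succ n ih =>
      obtain ⟨k, hk, hkn⟩ := ih
      obtain ⟨k', hk', hconv⟩ := FG.conv hX hg hk
      refine ⟨k', hk', ?_⟩
      have h1 : (∑ a, ψ a * k a) * ∑ b, ψ b * g b = cX X * ∑ a, ψ a * k' a := by
        rw [Finset.sum_mul_sum, Finset.sum_comm, Finset.mul_sum]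
        have h2 : ∀ b : G, ∑ a, ψ a * k a * (ψ b * g b) = ∑ a, ψ a * (g b * k (a - b)) := by
          intro b
          rw [← Equiv.sum_comp (Equiv.subRight b)]
          refine Finset.sum_congr rfl fun a _ => ?_
          have h3 : ψ a = ψ (a - b) * ψ b := by rw [← hψ, sub_add_cancel]
          rw [Equiv.subRight_apply, h3]
          ring
        rw [Finset.sum_congr rfl fun b _ => h2 b, Finset.sum_comm]
        refine Finset.sum_congr rfl fun a _ => ?_
        rw [← Finset.mul_sum, hconv]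
        ring
      rw [pow_succ, hkn, mul_assoc, h1, pow_succ]
      ring
  set S : ℝ := ‖∑ a, ψ a * g a‖ with hS
  have hbd : ∀ n : ℕ, S ^ (n + 1) ≤ ‖cX X‖ ^ n := by
    intro n
    obtain ⟨k, hk, hkn⟩ := key n
    have h1 : ‖∑ a, ψ a * k a‖ ≤ 1 := by
      refine IsUltrametricDist.norm_sum_le_of_forall_le_of_nonneg zero_le_one fun a _ => ?_
      rw [norm_mul, kl5b_norm h0 hψ, one_mul]
      exact hk.le hX.le a
    calc S ^ (n + 1) = ‖(∑ a, ψ a * g a) ^ (n + 1)‖ := by rw [norm_pow]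
      _ = ‖cX X‖ ^ n * ‖∑ a, ψ a * k a‖ := by rw [hkn, norm_mul, norm_pow]
      _ ≤ ‖cX X‖ ^ n * 1 := mul_le_mul_of_nonneg_left h1 (by positivity)
      _ = _ := mul_one _
  by_contra hcon
  push Not at hcon
  have hS0 : 0 < S := hc0.trans hcon
  have h1 : 1 < S / ‖cX X‖ := (one_lt_div hc0).2 hcon
  obtain ⟨n, hn⟩ := pow_unbounded_of_one_lt (1 / S) h1
  have h2 := hbd n
  rw [div_pow, lt_div_iff₀ (by positivity), div_mul_eq_mul_div, one_mul, div_lt_iff₀ hS0] at hn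
  have h3 : S ^ n * S = S ^ (n + 1) := (pow_succ _ _).symm
  linarith

end H35M
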