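import Mathlib
import Pool.Agent.Lib.H35M.KL5B

/-! # H35M, chunk KL6 (M): several variables -/

namespace H35M

variable {C : Type} [NormedField C] [IsUltrametricDist C] {G : Type} [AddCommGroup G] [Fintype G] [DecidableEq G] {X : G → C}

/-- Uniform limits of integral polynomials in the coordinates X (a i). -/
def FnM (X : G → C) (ι : Type) (H : (ι → G) → C) : Prop :=
  ∀ ε : ℝ, 0 < ε → ∃ Q : MvPolynomial ι C, (∀ m, ‖Q.coeff m‖ ≤ 1) ∧ ∀ a : ι → G, ‖H a - MvPolynomial.eval (fun i => X (a i)) Q‖ ≤ ε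

omit [IsUltrametricDist C] in
theorem kl6_norm {A : Type} [AddCommGroup A] [Fintype A] {ψ : A → C} (h0 : ψ 0 = 1)
    (hψ : ∀ a b, ψ (a + b) = ψ a * ψ b) (a : A) : ‖ψ a‖ = 1 := by
  have h1 : ∀ n : ℕ, ψ (n • a) = ψ a ^ n := by
    intro n
    induction n with
    | zero => rw [zero_smul, h0, pow_zero]
    | succ n ih => rw [succ_nsmul, hψ, ih, pow_succ]
  have h2 := h1 (Fintype.card A)
  rw [card_nsmul_eq_zero, h0] at h2
  have h3 := congrArg norm h2
  rw [norm_one, norm_pow] at h3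
  exact (pow_eq_one_iff_of_nonneg (norm_nonneg _) Fintype.card_ne_zero).1 h3.symm

omit [IsUltrametricDist C] in
theorem kl6_prod {A ι : Type} [AddCommGroup A] [DecidableEq ι] {ψ : A → C} (h0 : ψ 0 = 1)
    (hψ : ∀ a b, ψ (a + b) = ψ a * ψ b) (f : ι → A) (s : Finset ι) :
    ψ (∑ i ∈ s, f i) = ∏ i ∈ s, ψ (f i) := by
  induction s using Finset.induction_on with
  | empty => rw [Finset.sum_empty, Finset.prod_empty, h0]
  | insert a s ha ih => rw [Finset.sum_insert ha, Finset.prod_insert ha, hψ, ih]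

omit [IsUltrametricDist C] in
theorem kl6_c (hX : FG X) : 0 < ‖cX X‖ := by
  rw [norm_pos_iff]
  unfold cX
  rw [Finset.prod_ne_zero_iff]
  intro b hb h0
  exact (Finset.mem_erase.1 hb).1 (hX.inj (h0.trans hX.zero.symm))

/-- Chunk KL6 (M). The same for functions of several variables. PROOF. It is enough to treat an integral polynomial Q in place of H (error ε <= ‖c‖^card, ‖ψ‖ = 1, ultrametric) and then a monomial (MvPolynomial.eval_eq'): sum over a of ψ a prod_i X (a i)^(m i); ψ a = prod_i ψ (Pi.single i (a i)), so the sum is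
the product over i of the sums over G of ψ_i(x) X(x)^(m i) (Finset.prod_univ_sum / Fintype.piFinset), each of norm at most ‖c‖ (FG.char, Fn1.pow, Fn1.coord). -/
theorem FG.char_fam (hX : FG X) {ι : Type} [Fintype ι] [DecidableEq ι] {H : (ι → G) → C} (hH : FnM X ι H) {ψ : (ι → G) → C} (h0 : ψ 0 = 1)
    (hψ : ∀ a b, ψ (a + b) = ψ a * ψ b) : ‖∑ a, ψ a * H a‖ ≤ ‖cX X‖ ^ Fintype.card ι := by
  have hc := kl6_c hX
  obtain ⟨Q, hQ, hQ'⟩ := hH _ (pow_pos hc (Fintype.card ι))
  have e : ∑ a, ψ a * H a = ∑ a, ψ a * MvPolynomial.eval (fun i => X (a i)) Q +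
      ∑ a, ψ a * (H a - MvPolynomial.eval (fun i => X (a i)) Q) := by
    rw [← Finset.sum_add_distrib]
    refine Finset.sum_congr rfl (fun a _ => ?_)
    ring
  rw [e]
  refine (IsUltrametricDist.norm_add_le_max _ _).trans (max_le ?_ ?_)
  swap
  · refine IsUltrametricDist.norm_sum_le_of_forall_le_of_nonneg (pow_pos hc _).le (fun a _ => ?_)
    rw [norm_mul, kl6_norm h0 hψ, one_mul]
    exact hQ' a
  have e2 : ∑ a, ψ a * MvPolynomial.eval (fun i => X (a i)) Q =
      ∑ d ∈ Q.support, Q.coeff d * ∏ i, ∑ x, ψ (Pi.single i x) * X x ^ d i := by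
    have h1 : ∀ a : ι → G, ψ a * MvPolynomial.eval (fun i => X (a i)) Q =
        ∑ d ∈ Q.support, Q.coeff d * ∏ i, (ψ (Pi.single i (a i)) * X (a i) ^ d i) := by
      intro a
      rw [MvPolynomial.eval_eq', Finset.mul_sum]
      refine Finset.sum_congr rfl (fun d _ => ?_)
      have h2 : ψ a = ∏ i, ψ (Pi.single i (a i)) := by
        rw [← kl6_prod h0 hψ (fun i => Pi.single i (a i)) Finset.univ, Finset.univ_sum_single]
      rw [Finset.prod_mul_distrib, ← h2]
      ring
    rw [Finset.sum_congr rfl (fun a _ => h1 a), Finset.sum_comm]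
    refine Finset.sum_congr rfl (fun d _ => ?_)
    rw [← Finset.mul_sum, Finset.prod_univ_sum, Fintype.piFinset_univ]
  rw [e2]
  refine IsUltrametricDist.norm_sum_le_of_forall_le_of_nonneg (pow_pos hc _).le (fun d _ => ?_)
  rw [norm_mul, norm_prod]
  have h3 : ∏ i, ‖∑ x, ψ (Pi.single i x) * X x ^ d i‖ ≤ ∏ _i : ι, ‖cX X‖ := by
    refine Finset.prod_le_prod (fun i _ => norm_nonneg _) (fun i _ => ?_)
    refine hX.char (Fn1.pow hX.le Fn1.coord (d i)) (ψ := fun x => ψ (Pi.single i x)) ?_ ?_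
    · rw [Pi.single_zero, h0]
    · intro a b
      rw [Pi.single_add, hψ]
  rw [Finset.prod_const, Finset.card_univ] at h3
  calc _ ≤ 1 * ‖cX X‖ ^ Fintype.card ι :=
        mul_le_mul (hQ d) h3 (Finset.prod_nonneg (fun i _ => norm_nonneg _)) zero_le_one
    _ = _ := one_mul _

end H35M
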