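import Mathlib
import Pool.Agent.Lib.H35M.TD

/-! # H35M, chunk KM2 (M): representatives modulo p^N in one class modulo π'^N -/

open NumberField IsDedekindDomain

namespace H35M

open H55N H55P SSG.E

variable {F : Type} [Field F] [NumberField F] [IQ F] {K : Type} [Field K] [NumberField K] [Algebra F K] {m : ℕ}

/-- Chunk KM2a (S). An element of 𝓞 K is divisible by n iff all its coordinates are. -/
theorem km_dvd (ω : Module.Basis (Fin (m + 1)) (𝓞 F) (𝓞 K)) (n : 𝓞 F) (x : 𝓞 K) :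
    algebraMap (𝓞 F) (𝓞 K) n ∣ x ↔ ∀ s, n ∣ ω.repr x s := by
  constructor
  · rintro ⟨y, rfl⟩ s
    rw [← Algebra.smul_def, map_smul, Finsupp.smul_apply, smul_eq_mul]
    exact Dvd.intro _ rfl
  · intro h
    choose c hc using h
    refine ⟨∑ s, c s • ω s, ?_⟩
    rw [← Algebra.smul_def, Finset.smul_sum]
    conv_lhs => rw [← ω.sum_repr x]
    refine Finset.sum_congr rfl fun s _ => ?_
    rw [hc s, mul_smul]

theorem km2_repr (ω : Module.Basis (Fin (m + 1)) (𝓞 F) (𝓞 K)) (u : Fin (m + 1) → 𝓞 F) (s : Fin (m + 1)) :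
    ω.repr (∑ s, u s • ω s) s = u s := by
  rw [← ω.equivFun_symm_apply, ← ω.equivFun_apply, LinearEquiv.apply_symm_apply]

/-- Chunk KM2 (M). PROOF. Injective: a, a' in R, both = y mod π'^N, coordinates equal mod π^N: π^N | a - a' (KM2a), π'^N | a - a', coprime: p^N | a - a' (p^N = π^N π'^N); a - a' in I (both in XS I c₀, hR.sub), I coprime to p: a - a' in span {p^N} * I
(span {p^N} ⊓ I = span {p^N} * I for coprime ideals), so a = a' (hR.ex applied to a: both a and a' represent a). Surjective: g given, g s = mk (u s); choose x in 𝓞 K with x = sum u s ω s mod π^N, x = y mod π'^N, x = c₀ mod I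
(Chinese remainder: the ideals span {π^N}, span {π'^N}, I are pairwise coprime; I is coprime to p^N); a in R with x - a in span {p^N} * I: a = x mod π^N and mod π'^N; KM2a. -/
theorem km_bij {π π' : 𝓞 F} {p N : ℕ} (hpi : π * π' = (p : 𝓞 F)) (hcop : IsCoprime π π') {I : Ideal (𝓞 K)} (hI : IsCoprime I (Ideal.span {(p : 𝓞 K)})) {c₀ : 𝓞 K}
    {R : Finset (𝓞 K)} (hR : RpU I c₀ (p ^ N) R) (ω : Module.Basis (Fin (m + 1)) (𝓞 F) (𝓞 K)) (y : 𝓞 K) :
    Set.BijOn (fun (a : 𝓞 K) (s : Fin (m + 1)) => Ideal.Quotient.mk (Ideal.span {π ^ N}) (ω.repr a s))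
      {a | a ∈ R ∧ a - y ∈ Ideal.span {algebraMap (𝓞 F) (𝓞 K) (π' ^ N)}} Set.univ := by
  obtain ⟨a1, ha1⟩ : ∃ a1, a1 = algebraMap (𝓞 F) (𝓞 K) (π ^ N) := ⟨_, rfl⟩
  obtain ⟨a2, ha2⟩ : ∃ a2, a2 = algebraMap (𝓞 F) (𝓞 K) (π' ^ N) := ⟨_, rfl⟩
  have h12 : a1 * a2 = ((p ^ N : ℕ) : 𝓞 K) := by
    rw [ha1, ha2, ← map_mul, ← mul_pow, hpi]
    push_cast
    simp
  have hc12 : IsCoprime a1 a2 := by
    rw [ha1, ha2]
    exact (hcop.pow).map (algebraMap (𝓞 F) (𝓞 K))
  have hIp : IsCoprime (Ideal.span {((p ^ N : ℕ) : 𝓞 K)}) I := by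
    have h : IsCoprime I (Ideal.span {(p : 𝓞 K)} ^ N) := hI.pow_right
    rw [Ideal.span_singleton_pow] at h
    push_cast
    exact h.symm
  have key : ∀ x : 𝓞 K, x ∈ I → a1 ∣ x → a2 ∣ x → x ∈ Ideal.span {((p ^ N : ℕ) : 𝓞 K)} * I := by
    intro x h1 h2 h3
    rw [Ideal.mul_eq_inf_of_isCoprime hIp]
    refine ⟨?_, h1⟩
    have h4 := hc12.mul_dvd h2 h3
    rw [h12] at h4
    exact Ideal.mem_span_singleton.2 h4
  rw [← ha2]
  refine ⟨fun a _ => Set.mem_univ _, ?_, ?_⟩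
  · rintro a ⟨haR, hay⟩ a' ⟨haR', hay'⟩ heq
    have h1 : a1 ∣ a - a' := by
      rw [ha1, km_dvd ω]
      intro s
      have h2 := congrFun heq s
      simp only at h2
      rw [Ideal.Quotient.eq, Ideal.mem_span_singleton] at h2
      rw [map_sub, Finsupp.sub_apply]
      exact h2
    have h2 : a2 ∣ a - a' := by
      have h3 := sub_mem hay hay'
      rw [sub_sub_sub_cancel_right, Ideal.mem_span_singleton] at h3
      exact h3
    have h3 : a - a' ∈ I := by
      have h5 : a - c₀ ∈ I := hR.sub a haR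
      have h6 : a' - c₀ ∈ I := hR.sub a' haR'
      have h4 := sub_mem h5 h6
      rwa [sub_sub_sub_cancel_right] at h4
    obtain ⟨b, -, hb⟩ := hR.ex a (hR.sub a haR)
    have e1 := hb a ⟨haR, by rw [sub_self]; exact zero_mem _⟩
    have e2 := hb a' ⟨haR', key _ h3 h1 h2⟩
    rw [e1, e2]
  · intro g _
    have hu : ∀ s, ∃ u : 𝓞 F, Ideal.Quotient.mk (Ideal.span {π ^ N}) u = g s :=
      fun s => Ideal.Quotient.mk_surjective (g s)
    choose u hu using hu
    obtain ⟨x0, hx0⟩ : ∃ x0, x0 = ∑ s, u s • ω s := ⟨_, rfl⟩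
    obtain ⟨r, t, hrt⟩ := hc12
    obtain ⟨k, hk, i, hi, hki⟩ := Ideal.isCoprime_iff_exists.1 hIp
    obtain ⟨x1, hx1⟩ : ∃ x1, x1 = x0 * (t * a2) + y * (r * a1) := ⟨_, rfl⟩
    obtain ⟨x, hx⟩ : ∃ x, x = x1 * i + c₀ * k := ⟨_, rfl⟩
    have h1 : x1 - x0 = a1 * ((y - x0) * r) := by
      rw [hx1]
      linear_combination x0 * hrt
    have h2 : x1 - y = a2 * ((x0 - y) * t) := by
      rw [hx1]
      linear_combination y * hrt
    have h3 : x - x1 = (c₀ - x1) * k := by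
      rw [hx]
      linear_combination x1 * hki
    have h4 : x - c₀ = (x1 - c₀) * i := by
      rw [hx]
      linear_combination c₀ * hki
    have hxX : x ∈ XS I c₀ := by
      change x - c₀ ∈ I
      rw [h4]
      exact Ideal.mul_mem_left _ _ hi
    obtain ⟨a, ⟨haR, hax⟩, -⟩ := hR.ex x hxX
    have hk2 := Ideal.mem_span_singleton.1 hk
    rw [← h12] at hk2
    have hax1 : x - a ∈ Ideal.span {((p ^ N : ℕ) : 𝓞 K)} := (Ideal.mul_le_left (I := Ideal.span {((p ^ N : ℕ) : 𝓞 K)}) (J := I)) hax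
    have hax2 := Ideal.mem_span_singleton.1 hax1
    rw [← h12] at hax2
    have e1 : a1 ∣ a1 * a2 := dvd_mul_right a1 a2
    have e2 : a2 ∣ a1 * a2 := dvd_mul_left a2 a1
    have d1 : a1 ∣ x - x1 := by
      rw [h3]
      exact (e1.trans hk2).mul_left _
    have d2 : a2 ∣ x - x1 := by
      rw [h3]
      exact (e2.trans hk2).mul_left _
    have d3 : a1 ∣ x - a := e1.trans hax2
    have d4 : a2 ∣ x - a := e2.trans hax2
    refine ⟨a, ⟨haR, ?_⟩, ?_⟩
    · rw [Ideal.mem_span_singleton]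
      have e : a - y = (x - x1) - (x - a) + (x1 - y) := by ring
      rw [e, h2]
      exact dvd_add (dvd_sub d2 d4) (dvd_mul_right a2 _)
    · funext s
      have e : a - x0 = (x - x1) - (x - a) + (x1 - x0) := by ring
      have h5 : a1 ∣ a - x0 := by
        rw [e, h1]
        exact dvd_add (dvd_sub d1 d3) (dvd_mul_right a1 _)
      rw [ha1, km_dvd ω] at h5
      have h6 := h5 s
      rw [map_sub, Finsupp.sub_apply, hx0, km2_repr] at h6
      rw [← hu s, Ideal.Quotient.eq, Ideal.mem_span_singleton]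
      exact h6

end H35M
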