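import Mathlib
import Pool.Agent.Lib.H35M.KL6
import Pool.Agent.Lib.H35M.KM2

/-! # H35M, chunk KM3 (M): the sum over one class -/

open NumberField IsDedekindDomain

namespace H35M

open H55N H55P SSG.E

variable {F : Type} [Field F] [NumberField F] [IQ F] {K : Type} [Field K] [NumberField K] [Algebra F K] {m : ℕ}

open Classical in
/-- Chunk KM3 (M). PROOF. G = 𝓞 F / (π^N), finite (π ≠ 0). Θ : (Fin (m+1) → G) → C, Θ g = η (sum over s of out (g s) ω s) with Quotient.out; Θ (mk of the coordinates of a) = η a: the difference a - sum out .. is divisible by π^N (km_dvd) and η is 1 on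
multiples of π^N; so Θ is additive in the sense Θ 0 = 1, Θ (g + g') = Θ g Θ g'. The sum over {a in R, a = y} is, by km_bij, the sum over all g of Θ g H g (Finset.sum_bij / sum_of BijOn), of norm <= ‖cX X‖^(m+1) by FG.char_fam (KL6). -/
theorem km_sum {C : Type} [NormedField C] [IsUltrametricDist C] {π π' : 𝓞 F} (hπ : π ≠ 0) {p N : ℕ} (hpi : π * π' = (p : 𝓞 F)) (hcop : IsCoprime π π')
    {I : Ideal (𝓞 K)} (hI : IsCoprime I (Ideal.span {(p : 𝓞 K)})) {c₀ : 𝓞 K}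
    {R : Finset (𝓞 K)} (hR : RpU I c₀ (p ^ N) R) (ω : Module.Basis (Fin (m + 1)) (𝓞 F) (𝓞 K)) (y : 𝓞 K)
    [Fintype (𝓞 F ⧸ Ideal.span {π ^ N})] {X : 𝓞 F ⧸ Ideal.span {π ^ N} → C} (hX : FG X) {H : (Fin (m + 1) → 𝓞 F ⧸ Ideal.span {π ^ N}) → C} (hH : FnM X (Fin (m + 1)) H)
    {η : 𝓞 K → C} (hη : ∀ x x', η (x + x') = η x * η x') (hη1 : ∀ x, η (algebraMap (𝓞 F) (𝓞 K) (π ^ N) * x) = 1) :
    ‖∑ a ∈ R with a - y ∈ Ideal.span {algebraMap (𝓞 F) (𝓞 K) (π' ^ N)},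
      η a * H (fun s => Ideal.Quotient.mk (Ideal.span {π ^ N}) (ω.repr a s))‖ ≤ ‖cX X‖ ^ (m + 1) := by
  have h0 : η 0 = 1 := by
    have h := hη1 0
    rwa [mul_zero] at h
  have hcong : ∀ x x' : 𝓞 K, algebraMap (𝓞 F) (𝓞 K) (π ^ N) ∣ x - x' → η x = η x' := by
    rintro x x' ⟨z, hz⟩
    have e : x = x' + algebraMap (𝓞 F) (𝓞 K) (π ^ N) * z := by rw [← hz]; ring
    rw [e, hη, hη1, mul_one]
  have ho : ∀ g : 𝓞 F ⧸ Ideal.span {π ^ N}, ∃ u : 𝓞 F, Ideal.Quotient.mk (Ideal.span {π ^ N}) u = g :=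
    fun g => Ideal.Quotient.mk_surjective g
  choose o ho using ho
  have hod : ∀ (u u' : 𝓞 F), Ideal.Quotient.mk (Ideal.span {π ^ N}) u =
      Ideal.Quotient.mk (Ideal.span {π ^ N}) u' → π ^ N ∣ u - u' := by
    intro u u' h
    rwa [Ideal.Quotient.eq, Ideal.mem_span_singleton] at h
  obtain ⟨Θ, hΘ⟩ : ∃ Θ : (Fin (m + 1) → 𝓞 F ⧸ Ideal.span {π ^ N}) → C,
      Θ = fun g => η (∑ s, o (g s) • ω s) := ⟨_, rfl⟩
  have hΘv : ∀ (u : Fin (m + 1) → 𝓞 F) (g : Fin (m + 1) → 𝓞 F ⧸ Ideal.span {π ^ N}),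
      (∀ s, Ideal.Quotient.mk (Ideal.span {π ^ N}) (u s) = g s) → Θ g = η (∑ s, u s • ω s) := by
    intro u g h
    rw [hΘ]
    refine hcong _ _ ?_
    rw [km_dvd ω]
    intro s
    rw [map_sub, Finsupp.sub_apply, km2_repr, km2_repr]
    refine hod _ _ ?_
    rw [ho, h]
  have hT0 : Θ 0 = 1 := by
    rw [hΘv (fun _ => 0) 0 (fun s => by rw [map_zero]; rfl)]
    simp only [zero_smul, Finset.sum_const_zero]
    exact h0
  have hTadd : ∀ g g', Θ (g + g') = Θ g * Θ g' := by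
    intro g g'
    rw [hΘv (fun s => o (g s) + o (g' s)) (g + g') (fun s => by
      rw [map_add, ho, ho]
      rfl), hΘv (fun s => o (g s)) g (fun s => ho _), hΘv (fun s => o (g' s)) g' (fun s => ho _), ← hη]
    congr 1
    rw [← Finset.sum_add_distrib]
    exact Finset.sum_congr rfl fun s _ => add_smul _ _ _
  have hTa : ∀ a : 𝓞 K, Θ (fun s => Ideal.Quotient.mk (Ideal.span {π ^ N}) (ω.repr a s)) = η a := by
    intro a
    rw [hΘv (fun s => ω.repr a s) _ (fun s => rfl), ω.sum_repr]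
  have hb := km_bij hpi hcop hI hR ω y
  have hsum : ∑ a ∈ R with a - y ∈ Ideal.span {algebraMap (𝓞 F) (𝓞 K) (π' ^ N)},
      η a * H (fun s => Ideal.Quotient.mk (Ideal.span {π ^ N}) (ω.repr a s)) =
      ∑ g : Fin (m + 1) → 𝓞 F ⧸ Ideal.span {π ^ N}, Θ g * H g := by
    refine Finset.sum_nbij (fun a s => Ideal.Quotient.mk (Ideal.span {π ^ N}) (ω.repr a s))
      (fun a _ => Finset.mem_univ _) ?_ ?_ (fun a _ => ?_)
    · intro a ha a' ha' h
      rw [Finset.mem_coe, Finset.mem_filter] at ha ha'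
      exact hb.injOn ha ha' h
    · intro g _
      obtain ⟨a, ha, hag⟩ := hb.surjOn (Set.mem_univ g)
      refine ⟨a, ?_, hag⟩
      rw [Finset.mem_coe, Finset.mem_filter]
      exact ha
    · rw [hTa]
  rw [hsum]
  have h := hX.char_fam hH hT0 hTadd
  rwa [Fintype.card_fin] at h

end H35M
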