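import Mathlib
import Pool.Agent.Lib.SSG.LP.Main
import Pool.Agent.Lib.SSG.S.M2
import Pool.Agent.Lib.SSG.V.V15
import Pool.Agent.Lib.H35M.KM1
import Pool.Agent.Lib.H35M.KM3

/-! # H35M, chunk KM4 (M/L): the class values exist (assembly) -/

open NumberField IsDedekindDomain

namespace H35M

open H55N H55P SSG.E SSG.V SSG.LP
open H35P (WAB Ker tt)
open H55K (CMA Dta GV ak)

variable {F : Type} [Field F] [NumberField F] [IQ F]

theorem km4_cop {p : ℕ} {M : Ideal (𝓞 F)} {l : 𝓞 F} (hM : Mod p M l) {K : Type} [Field K] [NumberField K] [Algebra F K] :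
    IsCoprime (mK K M) (Ideal.span {(p : 𝓞 K)}) := by
  obtain ⟨a, ha, c, hc, hac⟩ := Ideal.isCoprime_iff_exists.1 hM.cop
  obtain ⟨c', rfl⟩ := Ideal.mem_span_singleton.1 hc
  refine Ideal.isCoprime_iff_exists.2 ⟨algebraMap (𝓞 F) (𝓞 K) a, Ideal.mem_map_of_mem _ ha,
    algebraMap (𝓞 F) (𝓞 K) ((p : 𝓞 F) * c'), ?_, ?_⟩
  · rw [map_mul, map_natCast]
    exact Ideal.mul_mem_right _ _ (Ideal.mem_span_singleton_self _)
  · rw [← map_add, hac, map_one]

/-- Chunk KM4 (M/L). PROOF. VΩ = V.comap j: VΩ.valuation x < 1 iff V.valuation (j x) < 1 (SSG.S.m2_comap_lt); p and ak Ω π are in its maximal ideal (d.cma.ovr: j (ak Ω x) = eF F x). i from exists_embC (SSG/LP/Main), T, X from exists_locO (d.cma, d.good VΩ, hP.pr, ..).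
For b, f, c₀, N: classwO (SSG/V/V15) gives Bad and, for c, q, val0. val a := (((p : ℂ) ^ N)⁻¹) ^ (m + 1) * val0 a. ser: the first part of classwO (the structure SSG.V.WtJ has the same two fields as H35M.WtJ), the constant goes into the sum. int: R, θ, y given.
classwO with ρ = π', co x = ω.repr x (x = sum repr ω, t = 0), δ: h with j (h a) = δ val0 a / Om^(m+1), and for a₀ = y: H', FnM (X N), i (h a) = H' (mk repr a) for a in XS with π'^N | a - y. θ' from km_char (π^N | p^N). The number De * sum of θ a val a over the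
class is j (S) * ((p^N)⁻¹)^(m+1) with S = sum of θ' a * h a (De = δ / Om^(m+1)); V of it is <= 1 iff VΩ(S) <= VΩ(p^N)^(m+1) (m2_comap_le) iff ‖i S‖ <= ‖i (p^N)‖^(m+1) (SSG.S.m2_le, hi). i S = sum of i θ' a * H' (..): km_sum gives ‖i S‖ <= ‖cX (X N)‖^(m+1) =
(‖i (ak Ω π)‖^N)^(m+1) (LocO.prod), and ‖i (ak Ω π')‖ = 1 (V(π') = 1), p = π π'. I = mK K M * f * b is coprime to p (hM.cop, hfp, hbp). The Fintype instance on 𝓞 F / (π^N): Fintype.ofFinite (π^N ≠ 0). -/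
theorem cvh_of {A B : F} {Om : ℂ} {Ω : Type} [Field Ω] [DecidableEq Ω] [Algebra F Ω] [IsAlgClosure F Ω] {j : Ω →+* ℂ}
    {act : 𝓞 F →+* AddMonoid.End (Pt (WAB A B) Ω)} {mm : Ideal (𝓞 F)} {ψ : Ideal (𝓞 F) →*₀ 𝓞 F} {p : ℕ} [Fact p.Prime]
    (d : Dta A B Om j act mm ψ p) {V : ValuationSubring ℂ} {π π' : 𝓞 F} (hP : Plc F V π π' p) {M : Ideal (𝓞 F)} {l : 𝓞 F} (hM : Mod p M l)
    (K : Type) [Field K] [NumberField K] [Algebra F K] (m : ℕ) (hm : Module.finrank F K = m + 1) (ω : Module.Basis (Fin (m + 1)) (𝓞 F) (𝓞 K))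
    (δ : ℂ) (hδ : δ ^ 2 = embF F (Algebra.discr F fun s => (ω s : K))) : CVH F K m V π π' p (δ / Om ^ (m + 1)) M l := by
  classical
  intro b f hb hbp hf hfp c₀ hc hc' N hN
  have hac : IsAlgClosed Ω := IsAlgClosure.isAlgClosed F
  have hp0 : p ≠ 0 := (Fact.out : p.Prime).ne_zero
  have hjak : ∀ a : 𝓞 F, j (ak Ω a) = eF F a := fun a => d.cma.ovr (a : F)
  obtain ⟨W, hW⟩ : ∃ W, W = V.comap j := ⟨_, rfl⟩
  have hVπ : W.valuation (ak Ω π) < 1 := by
    rw [hW, SSG.S.m2_comap_lt, hjak]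
    exact hP.lt
  have hpe : V.valuation (p : ℂ) < 1 := by
    have e : (p : ℂ) = eF F π * eF F π' := by
      rw [← map_mul, hP.mul, map_natCast]
    rw [e, map_mul, hP.one, mul_one]
    exact hP.lt
  have hVp : W.valuation (p : Ω) < 1 := by
    rw [hW, SSG.S.m2_comap_lt, map_natCast]
    exact hpe
  obtain ⟨i, hi⟩ := exists_embC (F := F) W hVp
  obtain ⟨T, X, hL⟩ := exists_locO d.cma (d.good W hVp) hP.pr hVπ hi
  obtain ⟨Bad, hBad, hcl⟩ := classwO p hM K m hm b f hb hbp hf hfp c₀ hc hc' N hN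
  refine ⟨Bad, hBad, fun c q hs hbad => ?_⟩
  obtain ⟨val0, hser, hval⟩ := hcl c q hs hbad
  obtain ⟨P, hPdef⟩ : ∃ P : ℂ, P = (((p : ℂ) ^ N)⁻¹) ^ (m + 1) := ⟨_, rfl⟩
  refine ⟨fun a => P * val0 a, ?_, ?_⟩
  · intro φ hφ
    obtain ⟨Z, hZ, h1, h2⟩ := hser φ ⟨hφ.per, hφ.inv⟩
    refine ⟨Z, hZ, h1, fun R hR => ?_⟩
    rw [h2 R hR, ← hPdef, Finset.mul_sum]
    exact Finset.sum_congr rfl fun a _ => by ring
  · intro R hR θ hθ y
    have hπ : π ≠ 0 := hP.pr.ne_zero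
    have hco : ∀ x : 𝓞 K, ∃ t : 𝓞 K, x = ∑ s, algebraMap (𝓞 F) (𝓞 K) (ω.repr x s) * ω s +
        algebraMap (𝓞 F) (𝓞 K) (π ^ N) * t := by
      intro x
      refine ⟨0, ?_⟩
      rw [mul_zero, add_zero]
      conv_lhs => rw [← ω.sum_repr x]
      exact Finset.sum_congr rfl fun s _ => Algebra.smul_def _ _
    obtain ⟨h, hh1, hh2⟩ := hval A B Om Ω j act mm ψ d π π' hP.mul.symm hP.cop W i T X hVπ hL
      (fun s => ω s) (fun x s => ω.repr x s) hco δ hδ
    obtain ⟨H', hH', hH2⟩ := hh2 y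
    have hn : π ^ N ∣ (p : 𝓞 F) ^ N := by
      rw [← hP.mul, mul_pow]
      exact dvd_mul_right _ _
    obtain ⟨θ', hθ1, hθ2, hθ3⟩ := km_char (K := K) j (p := p) (N := N) hp0 hn hθ
    have hI : IsCoprime (mK K M * f * b) (Ideal.span {(p : 𝓞 K)}) :=
      ((km4_cop hM).mul_left hfp).mul_left hbp
    have hfin : Finite (𝓞 F ⧸ Ideal.span {π ^ N}) :=
      Ideal.finiteQuotientOfFreeOfNeBot _ (by
        rw [Ne, Ideal.span_singleton_eq_bot]
        exact pow_ne_zero _ hπ)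
    haveI : Fintype (𝓞 F ⧸ Ideal.span {π ^ N}) := Fintype.ofFinite _
    have hsum := km_sum hπ hP.mul hP.cop hI hR ω y (hL.fg N) hH' (η := fun x => i (θ' x))
      (fun x x' => by rw [hθ2, map_mul]) (fun x => by rw [hθ3, map_one])
    rw [hL.prod N] at hsum
    obtain ⟨S, hS⟩ : ∃ S : Ω, S = ∑ a ∈ R with a - y ∈ Ideal.span {algebraMap (𝓞 F) (𝓞 K) (π' ^ N)},
        θ' a * h a := ⟨_, rfl⟩
    have hiS : i S = ∑ a ∈ R with a - y ∈ Ideal.span {algebraMap (𝓞 F) (𝓞 K) (π' ^ N)},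
        i (θ' a) * H' (fun s => Ideal.Quotient.mk (Ideal.span {π ^ N}) (ω.repr a s)) := by
      rw [hS, map_sum]
      refine Finset.sum_congr rfl fun a ha => ?_
      rw [Finset.mem_filter] at ha
      rw [map_mul, hH2 a (hR.sub a ha.1) (Ideal.mem_span_singleton.1 ha.2)]
    rw [← hiS] at hsum
    have hone : ‖i (ak Ω π')‖ = 1 := by
      have h1 := (SSG.S.m2_val i hi (ak Ω π') 1).1 (by
        rw [hW, SSG.S.m2_comap, hjak, hP.one, map_one, map_one])
      rwa [map_one, NormOneClass.norm_one] at h1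
    have hip : ‖i (p : Ω)‖ = ‖i (ak Ω π)‖ := by
      have e : (p : Ω) = ak Ω π * ak Ω π' := by
        change (p : Ω) = algebraMap F Ω (π : F) * algebraMap F Ω (π' : F)
        have e2 : ((π : F)) * (π' : F) = (p : F) := by
          have e3 := congrArg (algebraMap (𝓞 F) F) hP.mul
          rwa [map_mul, map_natCast] at e3
        rw [← map_mul, e2, map_natCast]
      rw [e, map_mul, norm_mul, hone, mul_one]
    have hmem : S / ((p : Ω) ^ N) ^ (m + 1) ∈ W := by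
      rw [hi, map_div₀, norm_div, map_pow, map_pow, norm_pow, norm_pow, hip]
      exact div_le_one_of_le₀ hsum (by positivity)
    rw [hW, ValuationSubring.mem_comap] at hmem
    have heq : δ / Om ^ (m + 1) * ∑ a ∈ R with a - y ∈ Ideal.span {algebraMap (𝓞 F) (𝓞 K) (π' ^ N)},
        θ a * (P * val0 a) = j (S / ((p : Ω) ^ N) ^ (m + 1)) := by
      rw [map_div₀, hS, map_sum, Finset.mul_sum, Finset.sum_div]
      refine Finset.sum_congr rfl fun a ha => ?_
      rw [Finset.mem_filter] at ha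
      rw [map_mul, hθ1, hh1 a (hR.sub a ha.1), map_pow, map_pow, map_natCast, hPdef]
      rw [inv_pow]
      ring
    rw [heq]
    exact (ValuationSubring.valuation_le_one_iff _ _).2 hmem

end H35M
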