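import Mathlib
import Pool.Agent.Lib.H35M.GD

/-! # H35M, chunk PA1 (M): primitive additive characters of the quotients of O_K -/

open NumberField IsDedekindDomain

namespace H35M

variable {K : Type} [Field K] [NumberField K]

/-- Chunk PA1a (S/M). PROOF. R = O/v^n, n > 0 (n = 0: R is trivial, any character is primitive). Take z in v^(n-1), not in v^n (v^n < v^(n-1)), and ψ with ψ(mk z) <> 1 (AddChar.exists_apply_ne_zero, mk z <> 0). Let a <> 0 in R, a = mk x, x not
in v^n: the ideal (x) + v^n is v^i with i < n (Ideal divisors of v^n: it divides v^n), so it contains z: z = x y + v^n-element, ψ(a mk y) = ψ(mk z) <> 1. -/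
theorem prim_pp (v : HeightOneSpectrum (𝓞 K)) (n : ℕ) : ∃ ψ : AddChar (𝓞 K ⧸ v.asIdeal ^ n) ℂ, ψ.IsPrimitive := by
  rcases Nat.eq_zero_or_pos n with rfl | hn
  · refine ⟨1, fun a ha => ?_⟩
    exfalso
    apply ha
    obtain ⟨x, rfl⟩ := Ideal.Quotient.mk_surjective a
    rw [Ideal.Quotient.eq_zero_iff_mem, pow_zero, Ideal.one_eq_top]
    trivial
  · have h1 : v.asIdeal ^ n < v.asIdeal ^ (n - 1) := Ideal.pow_right_strictAnti v.asIdeal v.ne_bot v.isPrime.ne_top (by omega)
    obtain ⟨z, hz1, hz2⟩ := SetLike.exists_of_lt h1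
    have hz3 : Ideal.Quotient.mk (v.asIdeal ^ n) z ≠ 0 := by
      rw [Ne, Ideal.Quotient.eq_zero_iff_mem]; exact hz2
    have : Finite (𝓞 K ⧸ v.asIdeal ^ n) := Ideal.finiteQuotientOfFreeOfNeBot _ (pow_ne_zero n v.ne_bot)
    obtain ⟨ψ, hψ⟩ := AddChar.exists_apply_ne_zero.2 hz3
    refine ⟨ψ, fun a ha hc => ?_⟩
    obtain ⟨x, rfl⟩ := Ideal.Quotient.mk_surjective a
    rw [Ne, Ideal.Quotient.eq_zero_iff_mem] at ha
    have h2 : (Ideal.span {x} ⊔ v.asIdeal ^ n) ∣ v.asIdeal ^ n := Ideal.dvd_iff_le.2 le_sup_right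
    obtain ⟨i, hi, hi2⟩ := (dvd_prime_pow v.prime n).1 h2
    rw [associated_iff_eq] at hi2
    have h3 : i ≤ n - 1 := by
      by_contra h4
      have h5 : i = n := by omega
      subst h5
      apply ha
      rw [← hi2]
      exact Ideal.mem_sup_left (Ideal.mem_span_singleton_self x)
    have h4 : z ∈ Ideal.span {x} ⊔ v.asIdeal ^ n := by
      rw [hi2]
      exact Ideal.pow_le_pow_right h3 hz1
    obtain ⟨s, hs, t, ht, hst⟩ := Submodule.mem_sup.1 h4
    obtain ⟨y, rfl⟩ := Ideal.mem_span_singleton.1 hs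
    apply hψ
    have h6 := DFunLike.congr_fun hc (Ideal.Quotient.mk (v.asIdeal ^ n) y)
    rw [AddChar.mulShift_apply, AddChar.one_apply, ← map_mul] at h6
    rw [← h6, ← hst, map_add, Ideal.Quotient.eq_zero_iff_mem.2 ht, add_zero]

/-- Chunk PA1b (S/M). PROOF. For coprime ideals let ψ(x) = ψ1(x mod f) ψ2(x mod g) (Ideal.Quotient.factor). a <> 0 in O/(f g): a = mk x, x not in f g = f ⊓ g, say x not in f: there is y with ψ1(x y) <> 1 (IsPrimitive, mk x <> 0); choose
y' = y mod f, y' = 0 mod g (CRT: IsCoprime): ψ(x y') = ψ1(x y) <> 1. -/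
theorem prim_mul {f g : Ideal (𝓞 K)} (h : IsCoprime f g) (h1 : ∃ ψ : AddChar (𝓞 K ⧸ f) ℂ, ψ.IsPrimitive)
    (h2 : ∃ ψ : AddChar (𝓞 K ⧸ g) ℂ, ψ.IsPrimitive) : ∃ ψ : AddChar (𝓞 K ⧸ f * g) ℂ, ψ.IsPrimitive := by
  obtain ⟨ψ1, h1⟩ := h1
  obtain ⟨ψ2, h2⟩ := h2
  let e := Ideal.quotientMulEquivQuotientProd f g h
  refine ⟨ψ1.compAddMonoidHom ((RingHom.fst _ _).comp e.toRingHom).toAddMonoidHom *
    ψ2.compAddMonoidHom ((RingHom.snd _ _).comp e.toRingHom).toAddMonoidHom, fun a ha hc => ?_⟩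
  have hv : ∀ z : 𝓞 K ⧸ f * g, ψ1 ((e a).1 * (e z).1) * ψ2 ((e a).2 * (e z).2) = 1 := by
    intro z
    have h6 := DFunLike.congr_fun hc z
    rw [AddChar.mulShift_apply, AddChar.one_apply, AddChar.mul_apply] at h6
    simpa using h6
  have hea : e a ≠ 0 := by
    intro h0
    exact ha ((map_eq_zero_iff e e.injective).1 h0)
  by_cases h3 : (e a).1 = 0
  · have h4 : (e a).2 ≠ 0 := fun h4 => hea (Prod.ext h3 h4)
    apply h2 h4
    ext y
    rw [AddChar.mulShift_apply, AddChar.one_apply]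
    have := hv (e.symm (0, y))
    simpa using this
  · apply h1 h3
    ext y
    rw [AddChar.mulShift_apply, AddChar.one_apply]
    have := hv (e.symm (y, 0))
    simpa using this

/-- Chunk PA1c (S). Induction on T (PA1a, PA1b); or use the factorisation of a nonzero ideal. -/
theorem prim_fT (T : Finset (HeightOneSpectrum (𝓞 K))) (a : HeightOneSpectrum (𝓞 K) → ℕ) :
    ∃ ψ : AddChar (𝓞 K ⧸ fT T a) ℂ, ψ.IsPrimitive := by
  classical
  induction T using Finset.induction_on with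
  | empty =>
    refine ⟨1, fun a ha => ?_⟩
    exfalso
    apply ha
    obtain ⟨x, rfl⟩ := Ideal.Quotient.mk_surjective a
    rw [Ideal.Quotient.eq_zero_iff_mem, fT, Finset.prod_empty, Ideal.one_eq_top]
    trivial
  | insert v T hv ih =>
    have hT : fT (insert v T) a = v.asIdeal ^ a v * fT T a := by
      rw [fT, Finset.prod_insert hv, fT]
    rw [hT]
    refine prim_mul ?_ (prim_pp v (a v)) ih
    rw [fT]
    refine IsCoprime.prod_right fun w hw => ?_
    refine IsCoprime.pow ?_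
    have hvw : v ≠ w := by rintro rfl; exact hv hw
    rw [Ideal.isCoprime_iff_sup_eq]
    refine Ideal.IsMaximal.coprime_of_ne v.isMaximal w.isMaximal ?_
    intro h
    exact hvw (HeightOneSpectrum.ext h)

end H35M
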