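import Mathlib
import Pool.Agent.Lib.SSR.ND
import Pool.Agent.Lib.SSR.R4
import Pool.Agent.Lib.SSR.R5
import Pool.Agent.Lib.SSR.R6
import Pool.Agent.Lib.SSR.R8
import Pool.Agent.Lib.H16D.A2
import Pool.Agent.Lib.H55R.Defs

/-! # H35M, chunk SX2: ramified primes above p in a Galois extension of degree p are totally wildly ramified -/

open NumberField IsDedekindDomain

namespace H35M

open SSR
open H55R (es)

variable {N : Type} [Field N] [NumberField N] {L : Type} [Field L] [NumberField L] [Algebra N L]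

omit [NumberField N] [NumberField L] in
theorem sx2_mono {Q : Ideal (𝓞 L)} {m n : ℕ} (h : m ≤ n) {s : L ≃ₐ[N] L} (hs : Gp Q n s) : Gp Q m s :=
  fun x => Ideal.pow_le_pow_right h (hs x)

omit [NumberField N] [NumberField L] in
/-- If the inertia condition holds for s, powers of Q are stable. -/
theorem sx2_stab {Q : Ideal (𝓞 L)} {s : L ≃ₐ[N] L} (h1 : Gp Q 1 s) (n : ℕ) {y : 𝓞 L} (hy : y ∈ Q ^ n) : s • y ∈ Q ^ n := by
  have h2 : Q.map (MulSemiringAction.toRingHom (L ≃ₐ[N] L) (𝓞 L) s) ≤ Q := by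
    rw [Ideal.map_le_iff_le_comap]
    intro x hx
    show s • x ∈ Q
    have h3 := h1 x
    rw [pow_one] at h3
    have h4 : s • x = (s • x - x) + x := by ring
    rw [h4]
    exact Q.add_mem h3 hx
  have h5 : (Q ^ n).map (MulSemiringAction.toRingHom (L ≃ₐ[N] L) (𝓞 L) s) ≤ Q ^ n := by
    rw [Ideal.map_pow]
    exact Ideal.pow_right_mono h2 n
  exact h5 (Ideal.mem_map_of_mem (MulSemiringAction.toRingHom (L ≃ₐ[N] L) (𝓞 L) s) hy)

omit [NumberField N] [NumberField L] in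
theorem sx2_pow {Q : Ideal (𝓞 L)} {s : L ≃ₐ[N] L} {n : ℕ} (h1 : Gp Q 1 s) (h : Gp Q n s) (k : ℕ) : Gp Q n (s ^ k) := by
  induction k with
  | zero =>
    intro x
    rw [pow_zero, one_smul, sub_self]
    exact (Q ^ n).zero_mem
  | succ k ih =>
    intro x
    have e : s ^ (k + 1) • x - x = s • (s ^ k • x - x) + (s • x - x) := by
      rw [smul_sub, pow_succ', mul_smul]
      ring
    rw [e]
    exact (Q ^ n).add_mem (sx2_stab h1 n (ih x)) (h x)

theorem exists_TRam [IsGalois N L] {p : ℕ} (hp : p.Prime) (hn : Module.finrank N L = p) (v : HeightOneSpectrum (𝓞 N)) (hv : es N L v ≠ 1)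
    (hpv : (p : 𝓞 N) ∈ v.asIdeal) : ∃ (t : ℕ) (w : HeightOneSpectrum (𝓞 L)), TRam p v w t := by
  classical
  have hcard : Nat.card (L ≃ₐ[N] L) = p := by rw [IsGalois.card_aut_eq_finrank, hn]
  have hunr : ¬ CFT.Unr N L v := by
    intro h
    obtain ⟨w, hw⟩ := CFT.below_surj (K := N) (L := L) v
    apply hv
    have hwm := w.isMaximal
    have hwp := w.isPrime
    have hvm := v.isMaximal
    have hl : w.asIdeal.LiesOver v.asIdeal := ⟨by rw [← hw]; rfl⟩
    show v.asIdeal.ramificationIdxIn (𝓞 L) = 1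
    rw [Ideal.ramificationIdxIn_eq_ramificationIdx v.asIdeal w.asIdeal (L ≃ₐ[N] L)]
    exact h w hw
  obtain ⟨w, hw1, hw2, hw3, hw4⟩ := H16D.ra1 hp hn hunr
  have hwv : w.asIdeal.under (𝓞 N) = v.asIdeal := by rw [← hw1]; rfl
  have hpw : (p : 𝓞 L) ∈ w.asIdeal := by
    rw [← hwv, Ideal.under_def, Ideal.mem_comap, map_natCast] at hpv
    exact hpv
  -- all automorphisms are in the inertia group
  have hin : ∀ s : L ≃ₐ[N] L, Gp w.asIdeal 1 s := by
    have h1 := r6_card (N := N) w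
    rw [hw3] at h1
    intro s
    by_contra hs
    have h2 : Nat.card {s : L ≃ₐ[N] L // Gp w.asIdeal 1 s} < Nat.card (L ≃ₐ[N] L) :=
      Finite.card_subtype_lt hs
    rw [h1, hcard] at h2
    exact lt_irrefl _ h2
  have hsp : ∀ s : L ≃ₐ[N] L, s ^ p ^ 1 = 1 := by
    intro s
    rw [pow_one, ← hcard]
    exact pow_card_eq_one'
  have hin2 : ∀ s : L ≃ₐ[N] L, Gp w.asIdeal 2 s := fun s => r5_wild p hp w hpw s 1 (hsp s) (hin s)
  have hmap0 : v.asIdeal.map (algebraMap (𝓞 N) (𝓞 L)) ≠ ⊥ := by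
    rw [Ne, Ideal.map_eq_bot_iff_of_injective (FaithfulSMul.algebraMap_injective _ _)]
    exact v.ne_bot
  have hex : ex w (v.asIdeal.map (algebraMap (𝓞 N) (𝓞 L))) = p := by
    rw [r8_map w v hwv v.asIdeal v.ne_bot, hw3]
    have h1 : ex v v.asIdeal = 1 := by
      have h2 := ex_pow v (I := v.asIdeal) v.ne_bot 1
      have h3 : 1 ≤ ex v v.asIdeal := by
        rw [← le_iff_ex v v.ne_bot, pow_one]
      have h4 : ¬ 2 ≤ ex v v.asIdeal := by
        rw [← le_iff_ex v v.ne_bot]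
        intro h5
        have h6 : v.asIdeal ^ 2 < v.asIdeal ^ 1 := Ideal.pow_right_strictAnti v.asIdeal v.ne_bot v.isPrime.ne_top (by norm_num)
        rw [pow_one] at h6
        exact absurd h5 (not_le_of_gt h6)
      omega
    rw [h1, mul_one]
  have hmap : v.asIdeal.map (algebraMap (𝓞 N) (𝓞 L)) = w.asIdeal ^ p := by
    obtain ⟨c, hc, hc2⟩ := (ex_fin w hmap0).exists_eq_pow_mul_and_not_dvd
    have hc1 : c = 1 := by
      by_contra hne
      rw [Ideal.one_eq_top] at hne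
      obtain ⟨m, hm, hle⟩ := Ideal.exists_le_maximal c hne
      have hmm : v.asIdeal.map (algebraMap (𝓞 N) (𝓞 L)) ≤ m := by
        rw [hc]
        exact Ideal.mul_le_right.trans hle
      have hm0 : m ≠ ⊥ := fun h0 => hmap0 (le_bot_iff.1 (h0 ▸ hmm))
      have h1 : CFT.below N (⟨m, hm.isPrime, hm0⟩ : CFT.Pr L) = v := by
        apply HeightOneSpectrum.ext
        show m.under (𝓞 N) = v.asIdeal
        have h2 : v.asIdeal ≤ m.under (𝓞 N) := Ideal.le_comap_of_map_le hmm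
        have hmp := hm.isPrime
        exact (v.isMaximal.eq_of_le (Ideal.IsPrime.ne_top (Ideal.IsPrime.under (𝓞 N) m)) h2).symm
      have h3 := hw2 _ h1
      apply hc2
      rw [Ideal.dvd_iff_le, ← h3]
      exact hle
    rw [hc1, mul_one] at hc
    have h1 : multiplicity w.asIdeal (v.asIdeal.map (algebraMap (𝓞 N) (𝓞 L))) = p := hex
    rw [h1] at hc
    exact hc
  -- a nontrivial automorphism
  obtain ⟨s₀, hs₀⟩ : ∃ s₀ : L ≃ₐ[N] L, s₀ ≠ 1 := by
    by_contra h
    push Not at h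
    have : Subsingleton (L ≃ₐ[N] L) := ⟨fun a b => by rw [h a, h b]⟩
    have h1 : Nat.card (L ≃ₐ[N] L) = 1 := Nat.card_of_subsingleton (1 : L ≃ₐ[N] L)
    rw [hcard] at h1
    exact hp.one_lt.ne' h1
  obtain ⟨n, hn1, hn2⟩ := r4_ex w s₀ hs₀
  have hn3 : 2 ≤ n := by
    by_contra h
    exact hn2 (sx2_mono (by omega) (hin2 s₀))
  have key : ∀ a b : L ≃ₐ[N] L, a ≠ 1 → ∃ k : ℕ, a ^ k = b := by
    intro a b ha
    have : Fact p.Prime := ⟨hp⟩
    have h1 : b ∈ Subgroup.zpowers a := mem_zpowers_of_prime_card (p := p) hcard ha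
    have hfin : Finite (L ≃ₐ[N] L) := inferInstance
    exact (mem_powers_iff_mem_zpowers.2 h1)
  have hall : ∀ s : L ≃ₐ[N] L, s ≠ 1 → Gp w.asIdeal n s ∧ ¬ Gp w.asIdeal (n + 1) s := by
    intro s hs
    constructor
    · obtain ⟨k, rfl⟩ := key s₀ s hs₀
      exact sx2_pow (hin s₀) hn1 k
    · intro h
      obtain ⟨k, hk⟩ := key s s₀ hs
      apply hn2
      rw [← hk]
      exact sx2_pow (hin s) h k
  have hdif := r4_hilb w (fun _ => n) hall
  rw [Finset.sum_const, Finset.card_erase_of_mem (Finset.mem_univ _), Finset.card_univ, ← Nat.card_eq_fintype_card, hcard, smul_eq_mul] at hdif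
  refine ⟨n - 1, w, hpv, hmap, by omega, ?_⟩
  rw [hdif]
  congr 1
  omega

end H35M
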