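import Mathlib
import Pool.Agent.Lib.H35M.SX1
import Pool.Agent.Lib.H35M.SX2
import Pool.Agent.Lib.H35M.SX3A
import Pool.Agent.Lib.H35M.LS1
import Pool.Agent.Lib.H35M.PA1
import Pool.Agent.Lib.H35M.TD
import Pool.Agent.Lib.H16D.C2
import Pool.Agent.Lib.SSR.C3

/-! # H35M, part S: the data of the character of a cyclic step of degree p -/

open NumberField IsDedekindDomain

namespace H35M

open H55N H55P SSR
open H55R (es)

section

variable {K : Type} [Field K] [NumberField K]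

theorem sx3_ne {v w : HeightOneSpectrum (𝓞 K)} (h : v ≠ w) (a b : ℕ) : IsCoprime (v.asIdeal ^ a) (w.asIdeal ^ b) := by
  refine IsCoprime.pow ?_
  rw [Ideal.isCoprime_iff_sup_eq]
  exact Ideal.IsMaximal.coprime_of_ne v.isMaximal w.isMaximal fun h' => h (HeightOneSpectrum.ext h')

theorem sx3_fT_ne (T : Finset (HeightOneSpectrum (𝓞 K))) (a : HeightOneSpectrum (𝓞 K) → ℕ) : fT T a ≠ ⊥ :=
  Finset.prod_ne_zero_iff.2 fun v _ => pow_ne_zero _ v.ne_bot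

theorem sx3_fT_le {T : Finset (HeightOneSpectrum (𝓞 K))} {a : HeightOneSpectrum (𝓞 K) → ℕ} {v : HeightOneSpectrum (𝓞 K)}
    (h : fT T a ≤ v.asIdeal) : v ∈ T := by
  have hpv := v.isPrime
  obtain ⟨w, hw, hle⟩ := hpv.prod_le.1 h
  have hwm := w.isMaximal
  have h1 : w = v := HeightOneSpectrum.ext (hwm.eq_of_le hpv.ne_top (hpv.le_of_pow_le hle))
  rw [← h1]
  exact hw

theorem sx3_mem {T : Finset (HeightOneSpectrum (𝓞 K))} {a : HeightOneSpectrum (𝓞 K) → ℕ} {x : 𝓞 K} (h : ∀ v ∈ T, x ∈ v.asIdeal) :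
    ∃ N : ℕ, x ^ N ∈ fT T a := by
  refine ⟨∑ v ∈ T, a v, ?_⟩
  rw [← Finset.prod_pow_eq_pow_sum]
  exact Ideal.prod_mem_prod fun v hv => Ideal.pow_mem_pow (h v hv) _

/-- The exponent of v in the product is a v. -/
theorem sx3_exp {T : Finset (HeightOneSpectrum (𝓞 K))} {a : HeightOneSpectrum (𝓞 K) → ℕ} {v : HeightOneSpectrum (𝓞 K)} (hv : v ∈ T)
    {g : Ideal (𝓞 K)} (hg : ¬ g ≤ v.asIdeal) : ¬ v.asIdeal ^ (a v + 1) ∣ fT T a * g := by
  classical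
  intro h
  have h1 : fT T a = v.asIdeal ^ a v * fT (T.erase v) a := (Finset.mul_prod_erase T (fun v => v.asIdeal ^ a v) hv).symm
  rw [h1, mul_assoc, pow_succ] at h
  have h2 : v.asIdeal ∣ fT (T.erase v) a * g := (mul_dvd_mul_iff_left (pow_ne_zero _ v.ne_bot)).1 h
  rw [Ideal.dvd_iff_le, v.isPrime.mul_le] at h2
  rcases h2 with h2 | h2
  · exact (Finset.notMem_erase v T) (sx3_fT_le h2)
  · exact hg h2

end

variable {F : Type} [Field F] [NumberField F] [IQ F]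

/-- The data of the character of K'/K. -/
theorem exists_ChD (K K' : Type) [Field K] [NumberField K] [Algebra F K] [Field K'] [NumberField K'] [Algebra K K'] [IsGalois K K']
    {V : ValuationSubring ℂ} {π π' : 𝓞 F} {p : ℕ} (hP : Plc F V π π' p) (hn : Module.finrank K K' = p) :
    ∃ (T1 : Finset (HeightOneSpectrum (𝓞 K))) (t : HeightOneSpectrum (𝓞 K) → ℕ) (f2 f3 : Ideal (𝓞 K)) (χ : Ideal (𝓞 K) →*₀ ℂ)
      (χ1 : MulChar (𝓞 K ⧸ fT T1 fun v => t v + 1) ℂ) (χ2 : MulChar (𝓞 K ⧸ f2) ℂ) (χ3 : MulChar (𝓞 K ⧸ f3) ℂ)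
      (ψa : AddChar (𝓞 K ⧸ fT T1 fun v => t v + 1) ℂ),
      ChD F π π' p T1 (fun v => t v + 1) f2 f3 χ χ1 χ2 χ3 ψa ∧ SplitP K K' p χ ∧
      (∀ w : HeightOneSpectrum (𝓞 K), (fT T1 fun v => t v + 1) * f2 * f3 ≤ w.asIdeal ↔ es K K' w ≠ 1) ∧
      (∀ v, v ∈ T1 ↔ algebraMap (𝓞 F) (𝓞 K) π ∈ v.asIdeal ∧ es K K' v ≠ 1) ∧
      ∀ v ∈ T1, ∃ w : HeightOneSpectrum (𝓞 K'), TRam p v w (t v) := by
  classical
  have hre : IsEmpty (K →+* ℝ) := sx3_real F K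
  have hpp : algebraMap (𝓞 F) (𝓞 K) π * algebraMap (𝓞 F) (𝓞 K) π' = (p : 𝓞 K) := by
    rw [← map_mul, hP.mul, map_natCast]
  have ht : ∀ v : HeightOneSpectrum (𝓞 K), ∃ t : ℕ, es K K' v ≠ 1 → (p : 𝓞 K) ∈ v.asIdeal →
      ∃ w : HeightOneSpectrum (𝓞 K'), TRam p v w t := by
    intro v
    by_cases h : es K K' v ≠ 1 ∧ (p : 𝓞 K) ∈ v.asIdeal
    · obtain ⟨t, w, hw⟩ := exists_TRam hP.prime hn v h.1 h.2
      exact ⟨t, fun _ _ => ⟨w, hw⟩⟩
    · exact ⟨0, fun h1 h2 => absurd ⟨h1, h2⟩ h⟩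
  choose t ht using ht
  obtain ⟨f, R, ρ, hfc, hf, hR, hρ, θ, hθ, hθρ⟩ := rec_full hP.prime hn t ht hre
  obtain ⟨T1, hT1⟩ : ∃ T1, T1 = R.filter (fun v => algebraMap (𝓞 F) (𝓞 K) π ∈ v.asIdeal) := ⟨_, rfl⟩
  obtain ⟨T2, hT2⟩ : ∃ T2, T2 = R.filter (fun v => ¬ algebraMap (𝓞 F) (𝓞 K) π ∈ v.asIdeal) := ⟨_, rfl⟩
  have hm1 : ∀ v, v ∈ T1 ↔ v ∈ R ∧ algebraMap (𝓞 F) (𝓞 K) π ∈ v.asIdeal := fun v => by rw [hT1, Finset.mem_filter]
  have hm2 : ∀ v, v ∈ T2 ↔ v ∈ R ∧ ¬ algebraMap (𝓞 F) (𝓞 K) π ∈ v.asIdeal := fun v => by rw [hT2, Finset.mem_filter]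
  have hprod : f * ∏ v ∈ R, v.asIdeal ^ (t v + 1) = (fT T1 fun v => t v + 1) * (fT T2 fun v => t v + 1) * f := by
    rw [mul_comm, ← Finset.prod_filter_mul_prod_filter_not R (fun v => algebraMap (𝓞 F) (𝓞 K) π ∈ v.asIdeal), ← hT1, ← hT2]
    rfl
  rw [hprod] at hρ hθρ
  have hf0 : (fT T1 fun v => t v + 1) * (fT T2 fun v => t v + 1) * f ≠ ⊥ := hρ.ne
  have hfR : ∀ v ∈ R, ¬ f ≤ v.asIdeal := fun v hv h => ((hf v).1 h).1 ((hR v).1 hv).1
  have c12 : IsCoprime (fT T1 fun v => t v + 1) (fT T2 fun v => t v + 1) := by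
    refine IsCoprime.prod_left fun v hv => IsCoprime.prod_right fun w hw => ?_
    refine sx3_ne ?_ _ _
    rintro rfl
    exact ((hm2 v).1 hw).2 ((hm1 v).1 hv).2
  have c13 : IsCoprime (fT T1 fun v => t v + 1) f :=
    IsCoprime.prod_left fun v hv => (H55R.cop_prime v _ (hfR v ((hm1 v).1 hv).1)).pow_left
  have c23 : IsCoprime (fT T2 fun v => t v + 1) f :=
    IsCoprime.prod_left fun v hv => (H55R.cop_prime v _ (hfR v ((hm2 v).1 hv).1)).pow_left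
  have hpch : PCh p ((fT T1 fun v => t v + 1) * (fT T2 fun v => t v + 1) * f) ρ := ⟨hρ.ne, hρ.val, hρ.zero, hρ.per⟩
  obtain ⟨χ1, χ2, χ3, h1, h2, h3, heq⟩ := sx3_split hP.prime.ne_zero c12 c13 c23 hpch
  obtain ⟨ψ, hψ⟩ := prim_fT T1 fun v => t v + 1
  have hT2π : ∀ v ∈ T2, algebraMap (𝓞 F) (𝓞 K) π' ∈ v.asIdeal := by
    intro v hv
    have h4 : (p : 𝓞 K) ∈ v.asIdeal := ((hR v).1 ((hm2 v).1 hv).1).1
    rw [← hpp] at h4
    exact (v.isPrime.mem_or_mem h4).resolve_left ((hm2 v).1 hv).2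
  refine ⟨T1, t, fT T2 fun v => t v + 1, f, ρ, χ1, χ2, χ3, ψ, ?_, c3_split p hP.prime hn _ ρ hρ, hρ.ram, ?_, ?_⟩
  · refine
      { pch := hpch
        pos := fun v _ => Nat.succ_pos _
        abv := fun v hv => ((hm1 v).1 hv).2
        pi1 := ?_
        pi2 := ?_
        cop3 := hfc
        one1 := h1
        one2 := h2
        one3 := h3
        eq := heq
        prim := ?_
        psi := hψ }
    · obtain ⟨N, hN⟩ := sx3_mem (T := T1) (a := fun v => t v + 1) (x := algebraMap (𝓞 F) (𝓞 K) π) fun v hv => ((hm1 v).1 hv).2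
      exact ⟨N, by rw [map_pow]; exact hN⟩
    · obtain ⟨N, hN⟩ := sx3_mem (T := T2) (a := fun v => t v + 1) (x := algebraMap (𝓞 F) (𝓞 K) π') hT2π
      exact ⟨N, by rw [map_pow]; exact hN⟩
    · refine primM_of (sx3_fT_ne _ _) χ1 fun v hv => ?_
      have hvT := sx3_fT_le hv
      have hvR := ((hm1 v).1 hvT).1
      have hvf : (fT T1 fun v => t v + 1) * (fT T2 fun v => t v + 1) * f ≤ v.asIdeal :=
        (Ideal.mul_le_left.trans Ideal.mul_le_left).trans hv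
      have hft : ¬ v.asIdeal ^ (t v + 2) ∣ (fT T1 fun v => t v + 1) * (fT T2 fun v => t v + 1) * f := by
        rw [mul_assoc]
        refine sx3_exp (a := fun v => t v + 1) hvT (g := (fT T2 fun v => t v + 1) * f) ?_
        rw [v.isPrime.mul_le, not_or]
        exact ⟨fun h => ((hm2 v).1 (sx3_fT_le h)).2 ((hm1 v).1 hvT).2, hfR v hvR⟩
      obtain ⟨I', hI', z, hz0, hz1, hzc, hzρ⟩ := H16D.cd4 hP.prime hn hf0 (ρ := ρ)
        (fun u => by rw [hρ.ram u, c2_unr u]) hρ.per θ hθ hθρ v hvf (t v)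
        (Or.inr (ht v ((hR v).1 hvR).2 ((hR v).1 hvR).1)) hft
      obtain ⟨I, hI⟩ := Ideal.dvd_iff_le.2 hv
      have hII : I' = I * ((fT T2 fun v => t v + 1) * f) := by
        apply mul_right_cancel₀ v.ne_bot
        rw [hI', hI]
        ring
      have hzI : z - 1 ∈ I := by
        rw [hII] at hz1
        exact Ideal.mul_le_left hz1
      have hz23 : z - 1 ∈ (fT T2 fun v => t v + 1) * f := by
        rw [hII] at hz1
        exact Ideal.mul_le_right hz1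
      have hz2 : Ideal.Quotient.mk (fT T2 fun v => t v + 1) z = 1 := by
        rw [← map_one (Ideal.Quotient.mk (fT T2 fun v => t v + 1)), Ideal.Quotient.eq]
        exact Ideal.mul_le_left hz23
      have hz3 : Ideal.Quotient.mk f z = 1 := by
        rw [← map_one (Ideal.Quotient.mk f), Ideal.Quotient.eq]
        exact Ideal.mul_le_right hz23
      refine ⟨I, by rw [mul_comm]; exact hI.symm, z, hzI, hzc.of_mul_right_left.of_mul_right_left, fun h => hzρ ?_⟩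
      rw [heq z hz0, h, hz2, hz3, map_one, map_one, one_mul, one_mul]
  · intro v
    rw [hm1, hR]
    constructor
    · rintro ⟨⟨_, h4⟩, h5⟩
      exact ⟨h5, h4⟩
    · rintro ⟨h4, h5⟩
      refine ⟨⟨?_, h5⟩, h4⟩
      rw [← hpp]
      exact Ideal.mul_mem_right _ _ h4
  · intro v hv
    have hvR := ((hm1 v).1 hv).1
    exact ht v ((hR v).1 hvR).2 ((hR v).1 hvR).1

end H35M
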