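import Mathlib
import Pool.Agent.Lib.H35M.TD

/-!
# H35M, part T: the two weights (definitions)
-/

open NumberField IsDedekindDomain

namespace H35M

open H55N H55P SSG.E

variable {F : Type} [Field F] [NumberField F] [IQ F] {K : Type} [Field K] [NumberField K] [Algebra F K] {m : ℕ}

/-- The multiplicative weight. -/
noncomputable def wW {f1 f2 : Ideal (𝓞 K)} (χ1 : MulChar (𝓞 K ⧸ f1) ℂ) (χ2 : MulChar (𝓞 K ⧸ f2) ℂ) (x : 𝓞 K) : ℂ :=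
  χ1 (Ideal.Quotient.mk f1 x) * χ2 (Ideal.Quotient.mk f2 x)

open Classical in
/-- The Ramanujan weight. -/
noncomputable def wC {f1 : Ideal (𝓞 K)} (f2 : Ideal (𝓞 K)) [Fintype (𝓞 K ⧸ f1)] (ψa : AddChar (𝓞 K ⧸ f1) ℂ) (x : 𝓞 K) : ℂ :=
  (if IsUnit (Ideal.Quotient.mk f2 x) then 1 else 0) * ∑ u : (𝓞 K ⧸ f1)ˣ, ψa ((u : 𝓞 K ⧸ f1) * Ideal.Quotient.mk f1 x)

open Classical in
/-- The Euler factor of the primes in T1: sum over S of (-1)^card S Ψ(f1 / prod of S). -/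
noncomputable def E1 (ψ : Ideal (𝓞 F) →*₀ 𝓞 F) (T1 : Finset (HeightOneSpectrum (𝓞 K))) (a : HeightOneSpectrum (𝓞 K) → ℕ) : ℂ :=
  ∑ S ∈ T1.powerset, (-1) ^ S.card * PsiP K ψ (fS T1 S a)

/-- The condition at w. -/
def Cnd (V : ValuationSubring ℂ) (π : 𝓞 F) (ψ : Ideal (𝓞 F) →*₀ 𝓞 F) (w : HeightOneSpectrum (𝓞 K)) : Prop :=
  (algebraMap (𝓞 F) (𝓞 K) π ∈ w.asIdeal → V.valuation (1 - PsiP K ψ w.asIdeal) = 1) ∧
  (algebraMap (𝓞 F) (𝓞 K) π ∉ w.asIdeal → V.valuation (1 - (starRingEnd ℂ) (PsiP K ψ w.asIdeal)) = 1)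

/-- The L-series of h continues to Re s > 1/2, value Λ 1 at 1 with V(De Λ(1)) satisfying the predicate. -/
def LVn (V : ValuationSubring ℂ) (De : ℂ) (h : Ideal (𝓞 K) →*₀ ℂ) : Prop :=
  ∃ Λ : ℂ → ℂ, AnalyticOnNhd ℂ Λ {s | 1 / 2 < s.re} ∧ (∀ s : ℂ, 3 / 2 < s.re → HasSum (tm h s) (Λ s)) ∧
    V.valuation (De * Λ 1) = 1

/-- The same, integral. -/
def LVi (V : ValuationSubring ℂ) (De : ℂ) (h : Ideal (𝓞 K) →*₀ ℂ) : Prop :=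
  ∃ Λ : ℂ → ℂ, AnalyticOnNhd ℂ Λ {s | 1 / 2 < s.re} ∧ (∀ s : ℂ, 3 / 2 < s.re → HasSum (tm h s) (Λ s)) ∧
    V.valuation (De * Λ 1) ≤ 1

end H35M
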