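import Mathlib
import Pool.Agent.Lib.H35M.TWD
import Pool.Agent.Lib.H41D.Defs

/-! # H35M, part S: the canonical normalisation of the L-value at V (definitions) -/

open NumberField IsDedekindDomain

namespace H35M

open H55N H55P

/-- The L-series of h continues to Re s > 1/2, and V(Λ(1)/Om^n)^2 V(relative norm of the different) = 1. -/
def LVO (F : Type) [Field F] [NumberField F] [IQ F] {K : Type} [Field K] [NumberField K] [Algebra F K]
    (V : ValuationSubring ℂ) (Om : ℂ) (h : Ideal (𝓞 K) →*₀ ℂ) : Prop :=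
  ∃ Λ : ℂ → ℂ, AnalyticOnNhd ℂ Λ {s | 1 / 2 < s.re} ∧ (∀ s : ℂ, 3 / 2 < s.re → HasSum (tm h s) (Λ s)) ∧
    V.valuation (Λ 1 / Om ^ Module.finrank F K) ^ 2 * H41D.vN F V (differentIdeal (𝓞 F) (𝓞 K)) = 1

/-- The same, integral. -/
def LVOi (F : Type) [Field F] [NumberField F] [IQ F] {K : Type} [Field K] [NumberField K] [Algebra F K]
    (V : ValuationSubring ℂ) (Om : ℂ) (h : Ideal (𝓞 K) →*₀ ℂ) : Prop :=
  ∃ Λ : ℂ → ℂ, AnalyticOnNhd ℂ Λ {s | 1 / 2 < s.re} ∧ (∀ s : ℂ, 3 / 2 < s.re → HasSum (tm h s) (Λ s)) ∧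
    V.valuation (Λ 1 / Om ^ Module.finrank F K) ^ 2 * H41D.vN F V (differentIdeal (𝓞 F) (𝓞 K)) ≤ 1

end H35M
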