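import Mathlib
import Pool.Agent.Lib.H35M.SYD
import Pool.Agent.Lib.H41D.P4

/-! # H35M, part S: comparison of the two normalisations -/

open NumberField IsDedekindDomain

namespace H35M

open H55N H55P

variable {F : Type} [Field F] [NumberField F] [IQ F] {K : Type} [Field K] [NumberField K] [Algebra F K] {m : ℕ}

theorem dl_sq {σ : Fin (m + 1) → K →+* ℂ} (hσ : Emb F σ) (ω : Fin (m + 1) → K) :
    H41D.dl σ ω ^ 2 = embF F (Algebra.discr F ω) := by
  unfold H41D.dl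
  rw [Algebra.discr_def, RingHom.map_det, sq]
  nth_rewrite 1 [← Matrix.det_transpose]
  rw [← Matrix.det_mul]
  congr 1
  ext s t
  rw [Matrix.mul_apply, RingHom.mapMatrix_apply, Matrix.map_apply, Algebra.traceMatrix_apply, Algebra.traceForm_apply,
    ← trace_eq hσ]
  refine Finset.sum_congr rfl fun i _ => ?_
  rw [map_mul]
  rfl

/-- (dl σ ω)^2 = embF (discr ω) (Algebra.discr_eq_det_embeddingsMatrixReindex_pow_two / trace_eq, det_mul), val_disc. -/
theorem val_delta {V : ValuationSubring ℂ} {π π' : 𝓞 F} {p : ℕ} (hP : Plc F V π π' p) (hm : Module.finrank F K = m + 1)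
    (ω : Module.Basis (Fin (m + 1)) (𝓞 F) (𝓞 K)) {δ : ℂ} (hδ : δ ^ 2 = embF F (Algebra.discr F fun s => (ω s : K))) :
    V.valuation δ ^ 2 = H41D.vN F V (differentIdeal (𝓞 F) (𝓞 K)) := by
  obtain ⟨σ, hσ⟩ := emb_exists K m hm
  rw [← H41D.val_disc V hP.pr.ne_zero hP.lt hσ (H41D.ibas_of_basis ω), ← map_pow, ← map_pow, hδ, dl_sq hσ]

theorem sy1_key {V : ValuationSubring ℂ} {π π' : 𝓞 F} {p : ℕ} (hP : Plc F V π π' p) (hm : Module.finrank F K = m + 1)
    (ω : Module.Basis (Fin (m + 1)) (𝓞 F) (𝓞 K)) {δ : ℂ} (hδ : δ ^ 2 = embF F (Algebra.discr F fun s => (ω s : K))) (Om z : ℂ) :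
    V.valuation (z / Om ^ Module.finrank F K) ^ 2 * H41D.vN F V (differentIdeal (𝓞 F) (𝓞 K)) = V.valuation (δ / Om ^ (m + 1) * z) ^ 2 := by
  rw [← val_delta hP hm ω hδ, hm, ← mul_pow, ← map_mul]
  congr 2
  ring

theorem lvn_iff {V : ValuationSubring ℂ} {π π' : 𝓞 F} {p : ℕ} (hP : Plc F V π π' p) (hm : Module.finrank F K = m + 1)
    (ω : Module.Basis (Fin (m + 1)) (𝓞 F) (𝓞 K)) {δ : ℂ} (hδ : δ ^ 2 = embF F (Algebra.discr F fun s => (ω s : K))) (Om : ℂ)
    (h : Ideal (𝓞 K) →*₀ ℂ) : (LVn V (δ / Om ^ (m + 1)) h ↔ LVO F V Om h) ∧ (LVi V (δ / Om ^ (m + 1)) h ↔ LVOi F V Om h) := by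
  constructor
  · unfold LVn LVO
    refine exists_congr fun Λ => and_congr_right fun _ => and_congr_right fun _ => ?_
    rw [sy1_key hP hm ω hδ]
    exact (pow_eq_one_iff_of_nonneg zero_le' two_ne_zero).symm
  · unfold LVi LVOi
    refine exists_congr fun Λ => and_congr_right fun _ => and_congr_right fun _ => ?_
    rw [sy1_key hP hm ω hδ]
    exact (pow_le_one_iff_of_nonneg zero_le' two_ne_zero).symm

end H35M
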