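import Mathlib
import Pool.Agent.Lib.H35M.TD
import Pool.Agent.Lib.H35M.SX2
import Pool.Agent.Lib.H41D.P8
import Pool.Agent.Lib.SSR.N6

/-! # H35M, part S: the relative different of a cyclic step of degree p, the part above π -/

open NumberField IsDedekindDomain

namespace H35M

open H55N H55P SSR
open H55R (es)

variable {F : Type} [Field F] [NumberField F] [IQ F]

theorem sy2_cop {K K' : Type} [Field K] [NumberField K] [Field K'] [NumberField K'] [Algebra K K'] [IsGalois K K'] (x : 𝓞 K)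
    {C' : Ideal (𝓞 K')} (h : C' ⊔ Ideal.span {algebraMap (𝓞 K) (𝓞 K') x} = ⊤) (hx0 : x ≠ 0) :
    Ideal.relNorm (𝓞 K) C' ⊔ Ideal.span {x} = ⊤ := by
  by_contra hne
  obtain ⟨P, hP, hle⟩ := Ideal.exists_le_maximal _ hne
  have hxP : x ∈ P := hle (Ideal.mem_sup_right (Ideal.mem_span_singleton_self x))
  have hP0 : P ≠ ⊥ := by
    rintro rfl
    exact hx0 ((Ideal.mem_bot).1 hxP)
  obtain ⟨c, hc, d, hd, hcd⟩ := Submodule.mem_sup.1 (h ▸ Submodule.mem_top : (1 : 𝓞 K') ∈ C' ⊔ Ideal.span {algebraMap (𝓞 K) (𝓞 K') x})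
  obtain ⟨y, rfl⟩ := Ideal.mem_span_singleton.1 hd
  have h1 := n6_cong (N := K) (L := K') ⟨P, hP.isPrime, hP0⟩ 1 c 1 (by
    rw [pow_one]
    have h2 : c - 1 = algebraMap (𝓞 K) (𝓞 K') x * (-y) := by linear_combination hcd
    rw [h2]
    exact Ideal.mul_mem_right _ _ (Ideal.mem_map_of_mem _ hxP))
  rw [pow_one, map_one] at h1
  have h2 : Algebra.intNorm (𝓞 K) (𝓞 K') c ∈ P := by
    refine hle (Ideal.mem_sup_left ?_)
    have h3 : Ideal.relNorm (𝓞 K) (Ideal.span {c}) ≤ Ideal.relNorm (𝓞 K) C' :=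
      Ideal.relNorm_mono (𝓞 K) ((Ideal.span_singleton_le_iff_mem _).2 hc)
    rw [Ideal.relNorm_singleton] at h3
    exact (Ideal.span_singleton_le_iff_mem _).1 h3
  apply hP.ne_top
  rw [Ideal.eq_top_iff_one]
  have h4 := P.sub_mem h2 h1
  rwa [sub_sub_cancel] at h4

theorem sy2_rel {K K' : Type} [Field K] [NumberField K] [Field K'] [NumberField K'] [Algebra K K'] {p : ℕ} (hp : p.Prime)
    (hn : Module.finrank K K' = p) {v : HeightOneSpectrum (𝓞 K)} {w : HeightOneSpectrum (𝓞 K')} {t : ℕ} (h : TRam p v w t) :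
    Ideal.relNorm (𝓞 K) w.asIdeal = v.asIdeal := by
  have h1 : Ideal.relNorm (𝓞 K) w.asIdeal ^ p = v.asIdeal ^ p := by
    rw [← map_pow, ← h.map, Ideal.relNorm_algebraMap, H41D.finrank_O, hn]
  exact (pow_left_inj hp.ne_zero).1 h1

theorem sy2_unr {K K' : Type} [Field K] [NumberField K] [Field K'] [NumberField K'] [Algebra K K'] [IsGalois K K']
    (v : HeightOneSpectrum (𝓞 K)) (W : HeightOneSpectrum (𝓞 K')) (hW : W.asIdeal.under (𝓞 K) = v.asIdeal) (h : es K K' v = 1) :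
    ¬ differentIdeal (𝓞 K) (𝓞 K') ≤ W.asIdeal := by
  rw [← Ideal.dvd_iff_le]
  have hp := W.isPrime
  rw [not_dvd_differentIdeal_iff]
  have h1 : W.asIdeal.ramificationIdx (𝓞 K) = 1 := by
    have hl : W.asIdeal.LiesOver v.asIdeal := ⟨hW.symm⟩
    rw [← h]
    exact (Ideal.ramificationIdxIn_eq_ramificationIdx v.asIdeal W.asIdeal (K' ≃ₐ[K] K')).symm
  exact Ideal.ramificationIdx_eq_one_iff.1 h1

/-- D = different of K'/K. For v in T1 the prime w above v has ex w D = (p-1)(t v + 1) (TRam.dif), relNorm w = v (TRam.map: v O' = w^p, so relNorm w ^ p = relNorm (v O') = v^p). A prime w of K' above π whose prime v below is not in T1 is unramified in K'/K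
(es K K' v = 1), so it does not divide D (r4_hilb with all i s = 0, or Mathlib). So D = prod of w_v^((p-1)(t v + 1)) * C', C' coprime to π; relNorm. -/
theorem diff_step (K K' : Type) [Field K] [NumberField K] [Algebra F K] [Field K'] [NumberField K'] [Algebra K K'] [IsGalois K K']
    {V : ValuationSubring ℂ} {π π' : 𝓞 F} {p : ℕ} (hP : Plc F V π π' p) (hn : Module.finrank K K' = p)
    {T1 : Finset (HeightOneSpectrum (𝓞 K))} {t : HeightOneSpectrum (𝓞 K) → ℕ}
    (hT1 : ∀ v, v ∈ T1 ↔ algebraMap (𝓞 F) (𝓞 K) π ∈ v.asIdeal ∧ es K K' v ≠ 1)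
    (ht : ∀ v ∈ T1, ∃ w : HeightOneSpectrum (𝓞 K'), TRam p v w (t v)) :
    ∃ C : Ideal (𝓞 K), C ⊔ Ideal.span {algebraMap (𝓞 F) (𝓞 K) π} = ⊤ ∧
      Ideal.relNorm (𝓞 K) (differentIdeal (𝓞 K) (𝓞 K')) = (fT T1 fun v => t v + 1) ^ (p - 1) * C := by
  classical
  have hp := hP.prime
  have hne : Nonempty (HeightOneSpectrum (𝓞 K')) := by
    obtain ⟨m, hm⟩ := Ideal.exists_maximal (𝓞 K')
    exact ⟨⟨m, hm.isPrime, Ring.ne_bot_of_isMaximal_of_not_isField hm (RingOfIntegers.not_isField K')⟩⟩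
  choose! w hw using ht
  have hD0 : differentIdeal (𝓞 K) (𝓞 K') ≠ ⊥ := different_ne
  have hpi0 : algebraMap (𝓞 F) (𝓞 K) π ≠ 0 := by
    intro h
    exact hP.pr.ne_zero (FaithfulSMul.algebraMap_injective (𝓞 F) (𝓞 K) (h.trans (map_zero _).symm))
  -- the primes w v are different
  have hwv : ∀ v ∈ T1, (w v).asIdeal.under (𝓞 K) = v.asIdeal := by
    intro v hv
    have h1 : v.asIdeal ≤ (w v).asIdeal.under (𝓞 K) := by
      refine Ideal.le_comap_of_map_le ?_
      rw [(hw v hv).map]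
      exact Ideal.pow_le_self hp.ne_zero
    exact (v.isMaximal.eq_of_le (Ideal.IsPrime.ne_top (Ideal.IsPrime.under (𝓞 K) (w v).asIdeal)) h1).symm
  set A : Ideal (𝓞 K') := ∏ v ∈ T1, (w v).asIdeal ^ ((p - 1) * (t v + 1)) with hA
  have hAD : A ∣ differentIdeal (𝓞 K) (𝓞 K') := by
    refine Finset.prod_dvd_of_coprime ?_ ?_
    · intro v hv v' hv' hne
      refine IsCoprime.pow ?_
      have hm1 := (w v).isMaximal
      have hm2 := (w v').isMaximal
      refine Ideal.isCoprime_of_isMaximal ?_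
      intro h
      apply hne
      apply HeightOneSpectrum.ext
      rw [← hwv v hv, ← hwv v' hv', h]
    · intro v hv
      rw [Ideal.dvd_iff_le, le_iff_ex (w v) hD0, (hw v hv).dif]
  obtain ⟨C', hC'⟩ := hAD
  have hA0 : A ≠ ⊥ := by
    rintro h
    rw [h, Ideal.bot_mul] at hC'
    exact hD0 hC'
  have hC0 : C' ≠ ⊥ := by
    rintro rfl
    rw [Ideal.mul_bot] at hC'
    exact hD0 hC'
  have hcop : C' ⊔ Ideal.span {algebraMap (𝓞 K) (𝓞 K') (algebraMap (𝓞 F) (𝓞 K) π)} = ⊤ := by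
    by_contra hne
    obtain ⟨W, hW, hle⟩ := Ideal.exists_le_maximal _ hne
    have hCW : C' ≤ W := le_sup_left.trans hle
    have hW0 : W ≠ ⊥ := fun h => hC0 (le_bot_iff.1 (h ▸ hCW))
    have hWp := hW.isPrime
    have hxW : algebraMap (𝓞 K) (𝓞 K') (algebraMap (𝓞 F) (𝓞 K) π) ∈ W :=
      hle (Ideal.mem_sup_right (Ideal.mem_span_singleton_self _))
    have hxv : algebraMap (𝓞 F) (𝓞 K) π ∈ W.under (𝓞 K) := hxW
    have hv0 : W.under (𝓞 K) ≠ ⊥ := by
      intro h
      rw [h, Ideal.mem_bot] at hxv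
      exact hpi0 hxv
    let v : HeightOneSpectrum (𝓞 K) := ⟨W.under (𝓞 K), Ideal.IsPrime.under (𝓞 K) W, hv0⟩
    let W' : HeightOneSpectrum (𝓞 K') := ⟨W, hWp, hW0⟩
    have hDW : differentIdeal (𝓞 K) (𝓞 K') ≤ W := by
      rw [hC']
      exact Ideal.mul_le_right.trans hCW
    by_cases hes : es K K' v = 1
    · exact sy2_unr v W' rfl hes hDW
    · have hvT : v ∈ T1 := (hT1 v).2 ⟨hxv, hes⟩
      have hWw : W' = w v := by
        have hm := (w v).isMaximal
        have h1 : (w v).asIdeal ^ p ≤ W := by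
          rw [← (hw v hvT).map]
          exact Ideal.map_comap_le
        exact (HeightOneSpectrum.ext (hm.eq_of_le hWp.ne_top (hWp.le_of_pow_le h1))).symm
      have h2 : ex (w v) (differentIdeal (𝓞 K) (𝓞 K')) = ex (w v) A + ex (w v) C' := by
        rw [hC', ex_mul (w v) hA0 hC0]
      have h3 : (p - 1) * (t v + 1) ≤ ex (w v) A := by
        rw [← le_iff_ex (w v) hA0, ← Ideal.dvd_iff_le]
        exact Finset.dvd_prod_of_mem (fun v => (w v).asIdeal ^ ((p - 1) * (t v + 1))) hvT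
      have h4 : 1 ≤ ex (w v) C' := by
        rw [← le_iff_ex (w v) hC0, pow_one, ← hWw]
        exact hCW
      rw [(hw v hvT).dif] at h2
      omega
  refine ⟨Ideal.relNorm (𝓞 K) C', sy2_cop _ hcop hpi0, ?_⟩
  rw [hC', map_mul, hA, map_prod]
  congr 1
  unfold fT
  rw [← Finset.prod_pow]
  refine Finset.prod_congr rfl fun v hv => ?_
  rw [map_pow, sy2_rel hp hn (hw v hv), ← pow_mul, mul_comm]

end H35M
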