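import Mathlib
import Pool.Agent.Lib.H35M.GD

/-! # H35M, chunk GS1 (M): Gauss sums of primitive characters of finite rings -/

namespace H35M

variable {R : Type} [CommRing R] [Fintype R]

/-- Chunk GS1a (S/M). PROOF. x a unit: gaussSum_mulShift_eq (ψ.mulShift x u = ψ (x u)). x not a unit: χ⁻¹ x = 0 (MulChar.map_nonunit); take z with z x = x, χ z <> 1: replacing u by z u (bijection) multiplies the sum by χ z
and ψ (z u x) = ψ (u x): the sum S satisfies S = χ z S, so S = 0. -/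
theorem gs_shift {χ : MulChar R ℂ} (hχ : PrimM χ) (ψ : AddChar R ℂ) (x : R) : ∑ u, χ u * ψ (u * x) = χ⁻¹ x * gaussSum χ ψ := by
  by_cases hx : IsUnit x
  · obtain ⟨a, rfl⟩ := hx
    have h1 := gaussSum_mulShift χ ψ a
    have h2 : ∑ u, χ u * ψ (u * (a : R)) = gaussSum χ (ψ.mulShift a) := by
      unfold gaussSum
      refine Finset.sum_congr rfl fun u _ => ?_
      rw [AddChar.mulShift_apply, mul_comm u]
    rw [h2, ← h1, ← mul_assoc, ← MulChar.mul_apply]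
    rw [MulChar.inv_mul, MulChar.one_apply_coe, one_mul]
  · obtain ⟨z, hz, hz1⟩ := hχ x hx
    rw [MulChar.map_nonunit _ hx, zero_mul]
    have h1 : ∑ u, χ u * ψ (u * x) = χ z * ∑ u, χ u * ψ (u * x) := by
      rw [Finset.mul_sum]
      have h2 : ∑ u, χ ((z : R) * u) * ψ ((z : R) * u * x) = ∑ u, χ u * ψ (u * x) :=
        Fintype.sum_equiv (Units.mulLeft z) _ _ fun u => rfl
      rw [← h2]
      refine Finset.sum_congr rfl fun u _ => ?_
      rw [map_mul, mul_assoc, mul_right_comm, hz, mul_comm x u]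
    have h3 : (1 - χ z) * ∑ u, χ u * ψ (u * x) = 0 := by
      rw [sub_mul, one_mul, ← h1, sub_self]
    rcases mul_eq_zero.1 h3 with h4 | h4
    · exact absurd (sub_eq_zero.1 h4).symm hz1
    · exact h4

/-- Chunk GS1b (S). χ⁻¹ z = (χ z)⁻¹ for units z. -/
theorem PrimM.inv {χ : MulChar R ℂ} (hχ : PrimM χ) : PrimM χ⁻¹ := by
  intro x hx
  obtain ⟨z, hz, hz1⟩ := hχ x hx
  refine ⟨z, hz, fun h => hz1 ?_⟩
  have h1 : χ⁻¹ (z : R) * χ (z : R) = 1 := by
    rw [← MulChar.mul_apply, MulChar.inv_mul, MulChar.one_apply_coe]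
  rw [h, one_mul] at h1
  exact h1

/-- Chunk GS1c (S). χ ^ p = 1, p prime, 0 < j < p: χ z ^ j <> 1 since χ z ^ p = 1 and χ z <> 1 (j and p coprime). -/
theorem PrimM.pow {χ : MulChar R ℂ} (hχ : PrimM χ) {p : ℕ} (hp : p.Prime) (h1 : χ ^ p = 1) {j : ℕ} (h0 : 0 < j) (hj : j < p) :
    PrimM (χ ^ j) := by
  intro x hx
  obtain ⟨z, hz, hz1⟩ := hχ x hx
  refine ⟨z, hz, fun h => hz1 ?_⟩
  rw [MulChar.pow_apply_coe] at h
  have h2 : (χ (z : R)) ^ p = 1 := by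
    rw [← MulChar.pow_apply_coe, h1, MulChar.one_apply_coe]
  have hc : Nat.Coprime j p := by
    rw [Nat.coprime_comm]
    exact (Nat.Prime.coprime_iff_not_dvd hp).2 fun hd => absurd (Nat.le_of_dvd h0 hd) (not_le.2 hj)
  have h3 : orderOf (χ (z : R)) ∣ j := orderOf_dvd_of_pow_eq_one h
  have h4 : orderOf (χ (z : R)) ∣ p := orderOf_dvd_of_pow_eq_one h2
  have h5 : orderOf (χ (z : R)) ∣ 1 := by
    rw [← hc.gcd_eq_one]
    exact Nat.dvd_gcd h3 h4
  exact orderOf_eq_one_iff.1 (Nat.dvd_one.1 h5)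

/-- Chunk GS1d (M). PROOF. Σ over x of (Σ_u χ u ψ(u x)) (Σ_w χ⁻¹ w ψ(-(w x))): by GS1a (for χ, ψ and for χ⁻¹, ψ⁻¹; w x -> ψ⁻¹ (w x)) each term is χ⁻¹ x χ x gaussSum χ ψ gaussSum χ⁻¹ ψ⁻¹, and χ⁻¹ x χ x is 1 for units, 0 else: the sum is
card (units) times the product of the two Gauss sums. Expanding: Σ_u Σ_w χ u χ⁻¹ w Σ_x ψ((u - w) x) = card R Σ_u χ u χ⁻¹ u (AddChar.sum_mulShift) = card R card (units). Divide by card (units) <> 0:
gaussSum χ ψ gaussSum χ⁻¹ ψ⁻¹ = card R. Finally gaussSum χ⁻¹ ψ = χ (-1) gaussSum χ⁻¹ ψ⁻¹ (gaussSum_mulShift for -1; χ(-1) = χ⁻¹(-1)). -/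
theorem gs_mul {χ : MulChar R ℂ} (hχ : PrimM χ) {ψ : AddChar R ℂ} (hψ : ψ.IsPrimitive) :
    gaussSum χ ψ * gaussSum χ⁻¹ ψ = χ (-1) * (Fintype.card R : ℂ) := by
  classical
  have key : (∑ x : R, χ⁻¹ x * χ x) * (gaussSum χ ψ * gaussSum χ⁻¹ ψ⁻¹) = (∑ x : R, χ⁻¹ x * χ x) * (Fintype.card R : ℂ) := by
    have e1 : ∀ x : R, (∑ u, χ u * ψ (u * x)) * (∑ w, χ⁻¹ w * ψ⁻¹ (w * x)) = (χ⁻¹ x * χ x) * (gaussSum χ ψ * gaussSum χ⁻¹ ψ⁻¹) := by
      intro x
      rw [gs_shift hχ ψ x, gs_shift hχ.inv ψ⁻¹ x, inv_inv]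
      ring
    have e2 : ∑ x : R, (∑ u, χ u * ψ (u * x)) * (∑ w, χ⁻¹ w * ψ⁻¹ (w * x)) = ∑ u : R, ∑ w : R, (χ u * χ⁻¹ w) * ∑ x : R, ψ (x * (u - w)) := by
      simp_rw [Finset.sum_mul_sum]
      rw [Finset.sum_comm]
      refine Finset.sum_congr rfl fun u _ => ?_
      rw [Finset.sum_comm]
      refine Finset.sum_congr rfl fun w _ => ?_
      rw [Finset.mul_sum]
      refine Finset.sum_congr rfl fun x _ => ?_
      rw [AddChar.inv_apply, mul_sub, sub_eq_add_neg, AddChar.map_add_eq_mul, mul_comm u x, mul_comm w x]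
      ring
    have e3 : ∀ u w : R, ∑ x : R, ψ (x * (u - w)) = if w = u then (Fintype.card R : ℂ) else 0 := by
      intro u w
      rw [AddChar.sum_mulShift (u - w) hψ]
      by_cases h : w = u
      · subst h; simp
      · rw [if_neg h, if_neg (fun h' => h (sub_eq_zero.1 h').symm), Nat.cast_zero]
    calc (∑ x : R, χ⁻¹ x * χ x) * (gaussSum χ ψ * gaussSum χ⁻¹ ψ⁻¹) = ∑ x : R, (∑ u, χ u * ψ (u * x)) * (∑ w, χ⁻¹ w * ψ⁻¹ (w * x)) := by
          rw [Finset.sum_mul]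
          exact Finset.sum_congr rfl fun x _ => (e1 x).symm
      _ = ∑ u : R, (χ u * χ⁻¹ u) * (Fintype.card R : ℂ) := by
          rw [e2]
          refine Finset.sum_congr rfl fun u _ => ?_
          simp_rw [e3]
          simp
      _ = (∑ x : R, χ⁻¹ x * χ x) * (Fintype.card R : ℂ) := by
          rw [Finset.sum_mul]
          exact Finset.sum_congr rfl fun x _ => by ring
  have hne : (∑ x : R, χ⁻¹ x * χ x) ≠ 0 := by
    have e : (∑ x : R, χ⁻¹ x * χ x) = ∑ x : R, if IsUnit x then (1 : ℂ) else 0 := by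
      refine Finset.sum_congr rfl fun x _ => ?_
      by_cases hx : IsUnit x
      · rw [if_pos hx, ← MulChar.mul_apply, MulChar.inv_mul, MulChar.one_apply hx]
      · rw [if_neg hx, MulChar.map_nonunit _ hx, zero_mul]
    rw [e, Finset.sum_boole]
    have : 0 < (Finset.univ.filter fun x : R => IsUnit x).card :=
      Finset.card_pos.2 ⟨1, by simp⟩
    exact_mod_cast this.ne'
  have h1 : gaussSum χ ψ * gaussSum χ⁻¹ ψ⁻¹ = (Fintype.card R : ℂ) := mul_left_cancel₀ hne key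
  have h2 : gaussSum χ⁻¹ ψ = χ (-1) * gaussSum χ⁻¹ ψ⁻¹ := by
    have h3 := gaussSum_mulShift χ⁻¹ ψ (-1 : Rˣ)
    have h4 : ψ.mulShift ((-1 : Rˣ) : R) = ψ⁻¹ := by
      ext y
      rw [AddChar.mulShift_apply, AddChar.inv_apply]
      congr 1
      simp
    rw [h4] at h3
    rw [← h3]
    congr 1
    have h5 : ((-1 : Rˣ) : R) = -1 := by simp
    rw [h5]
    have h6 : χ⁻¹ (-1 : R) * χ (-1 : R) = 1 := by
      rw [← MulChar.mul_apply, MulChar.inv_mul, MulChar.one_apply (by exact isUnit_one.neg)]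
    have h7 : χ (-1 : R) * χ (-1 : R) = 1 := by
      rw [← map_mul]
      simp
    calc χ⁻¹ (-1 : R) = χ⁻¹ (-1 : R) * (χ (-1 : R) * χ (-1 : R)) := by rw [h7, mul_one]
      _ = χ (-1 : R) := by rw [← mul_assoc, h6, one_mul]
  rw [h2, mul_left_comm, h1]

end H35M
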