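import Mathlib
import Pool.Agent.Lib.H35M.GS1

/-! # H35M, chunk GS2 (S/M): the product of the Gauss sums of the powers of a character of order p -/

namespace H35M

variable {R : Type} [CommRing R] [Fintype R]

theorem gs2_sq (χ : MulChar R ℂ) : (χ (-1)) ^ 2 = 1 := by
  rw [← map_pow]; simp

/-- Chunk GS2 (S/M). PROOF. The square of the product is the product of gaussSum (χ^(j+1)) ψ * gaussSum (χ^(p-1-j)) ψ over j (reflect one factor: Finset.prod_range_reflect, p - 1 - 1 - j + 1 = p - 1 - j), and χ^(p-1-j) = (χ^(j+1))⁻¹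
(χ^p = 1). gs_mul for χ^(j+1) (PrimM.pow). -/
theorem gs_prod {p : ℕ} (hp : p.Prime) {χ : MulChar R ℂ} (h1 : χ ^ p = 1) (hχ : PrimM χ) {ψ : AddChar R ℂ} (hψ : ψ.IsPrimitive) :
    (∏ j ∈ Finset.range (p - 1), gaussSum (χ ^ (j + 1)) ψ) ^ 2 =
      (∏ j ∈ Finset.range (p - 1), (χ ^ (j + 1)) (-1)) * (Fintype.card R : ℂ) ^ (p - 1) := by
  have hr : (∏ j ∈ Finset.range (p - 1), gaussSum (χ ^ (j + 1)) ψ) = ∏ j ∈ Finset.range (p - 1), gaussSum (χ ^ (p - 1 - 1 - j + 1)) ψ :=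
    (Finset.prod_range_reflect (fun j => gaussSum (χ ^ (j + 1)) ψ) (p - 1)).symm
  rw [sq]
  nth_rewrite 2 [hr]
  rw [← Finset.prod_mul_distrib]
  have h2 : (Fintype.card R : ℂ) ^ (p - 1) = ∏ j ∈ Finset.range (p - 1), (Fintype.card R : ℂ) := by simp
  rw [h2, ← Finset.prod_mul_distrib]
  refine Finset.prod_congr rfl fun j hj => ?_
  have hj' : j < p - 1 := Finset.mem_range.1 hj
  have h3 : p - 1 - 1 - j + 1 = p - (j + 1) := by omega
  have h4 : χ ^ (p - (j + 1)) = (χ ^ (j + 1))⁻¹ := by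
    refine eq_inv_of_mul_eq_one_left ?_
    rw [← pow_add, Nat.sub_add_cancel (by omega), h1]
  rw [h3, h4]
  exact gs_mul (hχ.pow hp h1 (by omega) (by omega)) hψ

/-- Chunk GS2b (S). The same for valuations: χ^(j+1)(-1) squares to 1, so its valuation is 1. -/
theorem gs_val {p : ℕ} (hp : p.Prime) {χ : MulChar R ℂ} (h1 : χ ^ p = 1) (hχ : PrimM χ) {ψ : AddChar R ℂ} (hψ : ψ.IsPrimitive)
    (V : ValuationSubring ℂ) : V.valuation (∏ j ∈ Finset.range (p - 1), gaussSum (χ ^ (j + 1)) ψ) ^ 2 =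
      V.valuation (Fintype.card R : ℂ) ^ (p - 1) := by
  rw [← map_pow, gs_prod hp h1 hχ hψ, map_mul, map_pow]
  have h5 : V.valuation (∏ j ∈ Finset.range (p - 1), (χ ^ (j + 1)) (-1)) = 1 := by
    rw [map_prod]
    refine Finset.prod_eq_one fun j _ => ?_
    have h6 : V.valuation ((χ ^ (j + 1)) (-1)) ^ 2 = 1 := by
      rw [← map_pow, gs2_sq, map_one]
    exact (pow_eq_one_iff.1 h6).resolve_right (by norm_num)
  rw [h5, one_mul]

/-- Chunk GS2c (S). A Gauss sum of a primitive character is not zero. -/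
theorem gs_ne {χ : MulChar R ℂ} (hχ : PrimM χ) {ψ : AddChar R ℂ} (hψ : ψ.IsPrimitive) : gaussSum χ ψ ≠ 0 := by
  intro h
  have h1 := gs_mul hχ hψ
  rw [h, zero_mul] at h1
  have h2 : (Fintype.card R : ℂ) ≠ 0 := by
    have : Fintype.card R ≠ 0 := Fintype.card_ne_zero
    exact_mod_cast this
  have h3 : χ (-1) ≠ 0 := by
    intro h3
    have := gs2_sq χ
    rw [h3] at this
    norm_num at this
  exact mul_ne_zero h3 h2 h1.symm

end H35M
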