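import Mathlib
import Pool.Agent.Lib.H35M.TD

/-! # H35M, chunk TS1 (M): combinations of additive characters with coefficients depending on the class modulo π'^N -/

open NumberField IsDedekindDomain

namespace H35M

open H55N H55P SSG.E

variable {F : Type} [Field F] [NumberField F] [IQ F] {K : Type} [Field K] [NumberField K] [Algebra F K] {m : ℕ}
  {V : ValuationSubring ℂ} {π π' : 𝓞 F} {p N : ℕ} {De : ℂ} {J I : Ideal (𝓞 K)} {c₀ : 𝓞 K}
  {c : Fin (m + 1) × Fin 2 → Ideal (𝓞 K)} {q : Fin (m + 1) × Fin 2 → ℕ} {val : 𝓞 K → ℂ}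

omit [NumberField K] in
open Classical in
theorem ts1_sum {n : Ideal (𝓞 K)} (De : ℂ) (R : Finset (𝓞 K)) {U : Type} (s : Finset U) (h θ : U → 𝓞 K → ℂ) (val : 𝓞 K → ℂ) :
    De * ∑ a ∈ R, (∑ u ∈ s, h u a * θ u a) * val a =
      ∑ u ∈ s, ∑ C ∈ R.image (Ideal.Quotient.mk n),
        De * ∑ a ∈ R with Ideal.Quotient.mk n a = C, (h u a * θ u a) * val a := by
  have e1 : ∀ u ∈ s, ∑ C ∈ R.image (Ideal.Quotient.mk n),
      De * ∑ a ∈ R with Ideal.Quotient.mk n a = C, (h u a * θ u a) * val a = De * ∑ a ∈ R, (h u a * θ u a) * val a := by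
    intro u _
    rw [← Finset.mul_sum]
    refine congrArg (fun w : ℂ => De * w) ?_
    exact Finset.sum_fiberwise_of_maps_to (fun a ha => Finset.mem_image_of_mem _ ha) _
  rw [Finset.sum_congr rfl e1, ← Finset.mul_sum, Finset.sum_comm]
  refine congrArg (fun w : ℂ => De * w) ?_
  refine Finset.sum_congr rfl fun a _ => ?_
  rw [Finset.sum_mul]

omit [NumberField K] in
open Classical in
theorem ts1_term {n : Ideal (𝓞 K)} (De : ℂ) (R : Finset (𝓞 K)) (h θ val : 𝓞 K → ℂ)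
    (hper : ∀ x y, x - y ∈ n → h x = h y) {C : 𝓞 K ⧸ n} (hC : C ∈ R.image (Ideal.Quotient.mk n)) :
    ∃ y : 𝓞 K, De * ∑ a ∈ R with Ideal.Quotient.mk n a = C, (h a * θ a) * val a =
      h y * (De * ∑ a ∈ R with a - y ∈ n, θ a * val a) := by
  obtain ⟨y, -, hy⟩ := Finset.mem_image.1 hC
  refine ⟨y, ?_⟩
  subst hy
  rw [mul_left_comm (h y), Finset.mul_sum (f := fun a => θ a * val a)]
  refine congrArg (fun w : ℂ => De * w) ?_
  have e : (R.filter fun a => Ideal.Quotient.mk n a = Ideal.Quotient.mk n y) = R.filter fun a => a - y ∈ n :=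
    Finset.filter_congr fun a _ => Ideal.Quotient.eq
  rw [e]
  refine Finset.sum_congr rfl fun a ha => ?_
  rw [hper a y (Finset.mem_filter.1 ha).2]
  ring

/-- Chunk TS1 (M). PROOF. Let n = span {π'^N}, cl a = the class of a in O_K/n. Exchange the sums: the sum is, over u in s and over the classes C in the image of R under cl, of h u (y_C) * (De * sum over a in R, cl a = C, of θ u a val a), y_C a representative of C in R
(Finset.sum_fiberwise / sum_image; cl a = C iff a - y_C in n: Ideal.Quotient.eq). Each term has valuation <= 1 (hle, hC.int). Valuation.map_sum_le. -/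
theorem ts_le (hC : ClassV F V π π' p N De J I c₀ c q val) {R : Finset (𝓞 K)} (hR : RpU I c₀ (p ^ N) R) {U : Type} (s : Finset U)
    (h θ : U → 𝓞 K → ℂ) (hθ : ∀ u ∈ s, AddC (π ^ N) (θ u))
    (hper : ∀ u ∈ s, ∀ x y, x - y ∈ Ideal.span {algebraMap (𝓞 F) (𝓞 K) (π' ^ N)} → h u x = h u y)
    (hle : ∀ u ∈ s, ∀ x, V.valuation (h u x) ≤ 1) :
    V.valuation (De * ∑ a ∈ R, (∑ u ∈ s, h u a * θ u a) * val a) ≤ 1 := by
  classical
  rw [ts1_sum (n := Ideal.span {algebraMap (𝓞 F) (𝓞 K) (π' ^ N)}) De R s h θ val]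
  refine Valuation.map_sum_le _ fun u hu => ?_
  refine Valuation.map_sum_le _ fun C hCC => ?_
  obtain ⟨y, hy⟩ := ts1_term De R (h u) (θ u) val (hper u hu) hCC
  rw [hy, map_mul]
  exact mul_le_one' (hle u hu y) (hC.int R hR (θ u) (hθ u hu) y)

/-- Chunk TS1b. The same with strict inequalities (Valuation.map_sum_lt). -/
theorem ts_lt (hC : ClassV F V π π' p N De J I c₀ c q val) {R : Finset (𝓞 K)} (hR : RpU I c₀ (p ^ N) R) {U : Type} (s : Finset U)
    (h θ : U → 𝓞 K → ℂ) (hθ : ∀ u ∈ s, AddC (π ^ N) (θ u))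
    (hper : ∀ u ∈ s, ∀ x y, x - y ∈ Ideal.span {algebraMap (𝓞 F) (𝓞 K) (π' ^ N)} → h u x = h u y)
    (hlt : ∀ u ∈ s, ∀ x, V.valuation (h u x) < 1) :
    V.valuation (De * ∑ a ∈ R, (∑ u ∈ s, h u a * θ u a) * val a) < 1 := by
  classical
  rw [ts1_sum (n := Ideal.span {algebraMap (𝓞 F) (𝓞 K) (π' ^ N)}) De R s h θ val]
  refine Valuation.map_sum_lt _ one_ne_zero fun u hu => ?_
  refine Valuation.map_sum_lt _ one_ne_zero fun C hCC => ?_
  obtain ⟨y, hy⟩ := ts1_term De R (h u) (θ u) val (hper u hu) hCC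
  rw [hy, map_mul]
  exact mul_lt_one_of_lt_of_le (hlt u hu y) (hC.int R hR (θ u) (hθ u hu) y)

end H35M
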