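import Mathlib
import Pool.Agent.Lib.H35M.TWD

/-! # H35M, chunk TS2 (S/M): the weights are periodic and invariant -/

open NumberField IsDedekindDomain

namespace H35M

open H55N H55P SSG.E

variable {F : Type} [Field F] [NumberField F] [IQ F] {K : Type} [Field K] [NumberField K] [Algebra F K] {m : ℕ}
  {π π' : 𝓞 F} {p N : ℕ} {T1 : Finset (HeightOneSpectrum (𝓞 K))} {a : HeightOneSpectrum (𝓞 K) → ℕ} {f2 f3 : Ideal (𝓞 K)}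
  {χ : Ideal (𝓞 K) →*₀ ℂ} {χ1 : MulChar (𝓞 K ⧸ fT T1 a) ℂ} {χ2 : MulChar (𝓞 K ⧸ f2) ℂ} {χ3 : MulChar (𝓞 K ⧸ f3) ℂ}
  {ψa : AddChar (𝓞 K ⧸ fT T1 a) ℂ}

omit [NumberField F] [IQ F] [NumberField K] in
theorem ts2_mem1 (hpi : π * π' = (p : 𝓞 F)) {g I : Ideal (𝓞 K)} (hN : algebraMap (𝓞 F) (𝓞 K) (π ^ N) ∈ g) {z : 𝓞 K}
    (hz : z ∈ Ideal.span {((p ^ N : ℕ) : 𝓞 K)} * I) : z ∈ g := by
  have h0 : Ideal.span {((p ^ N : ℕ) : 𝓞 K)} * I ≤ Ideal.span {((p ^ N : ℕ) : 𝓞 K)} := Ideal.mul_le_left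
  have h1 : z ∈ Ideal.span {((p ^ N : ℕ) : 𝓞 K)} := h0 hz
  obtain ⟨t, rfl⟩ := Ideal.mem_span_singleton'.1 h1
  have h2 : ((p ^ N : ℕ) : 𝓞 K) = algebraMap (𝓞 F) (𝓞 K) (π ^ N) * algebraMap (𝓞 F) (𝓞 K) (π' ^ N) := by
    rw [← map_mul, ← mul_pow, hpi, map_pow, map_natCast, Nat.cast_pow]
  rw [h2]
  exact g.mul_mem_left _ (g.mul_mem_right _ hN)

omit [NumberField F] [IQ F] [NumberField K] in
theorem ts2_mem2 (hpi : π * π' = (p : 𝓞 F)) {g I : Ideal (𝓞 K)} (hN : algebraMap (𝓞 F) (𝓞 K) (π' ^ N) ∈ g) {z : 𝓞 K}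
    (hz : z ∈ Ideal.span {((p ^ N : ℕ) : 𝓞 K)} * I) : z ∈ g :=
  ts2_mem1 (π := π') (π' := π) (by rw [mul_comm]; exact hpi) hN hz

/-- Chunk TS2a (S). p^N = π^N π'^N lies in f1 and in f2 (ideals), so x - y in span {p^N} I lies in f1 and in f2. For a unit v = 1 mod J ⊆ f3: χ (span {v}) = χ 1 = 1 (span {v} = ⊤ = 1) = χ1 v χ2 v χ3 v, χ3 v = χ3 1 = 1. So χ1 v χ2 v = 1; χ1, χ2 are
multiplicative. -/
theorem wtW (hpi : π * π' = (p : 𝓞 F)) (hD : ChD F π π' p T1 a f2 f3 χ χ1 χ2 χ3 ψa) (hN1 : algebraMap (𝓞 F) (𝓞 K) (π ^ N) ∈ fT T1 a)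
    (hN2 : algebraMap (𝓞 F) (𝓞 K) (π' ^ N) ∈ f2) {J : Ideal (𝓞 K)} (hJ : J ≤ f3) (I : Ideal (𝓞 K)) (c₀ : 𝓞 K) :
    WtJ J I c₀ (p ^ N) (wW χ1 χ2) := by
  refine ⟨fun x _ y hxy => ?_, fun x _ v hv => ?_⟩
  · have e1 : Ideal.Quotient.mk (fT T1 a) x = Ideal.Quotient.mk (fT T1 a) y := Ideal.Quotient.eq.2 (ts2_mem1 hpi hN1 hxy)
    have e2 : Ideal.Quotient.mk f2 x = Ideal.Quotient.mk f2 y := Ideal.Quotient.eq.2 (ts2_mem2 hpi hN2 hxy)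
    unfold wW
    rw [e1, e2]
  · have h1 : Ideal.span {(v : 𝓞 K)} = 1 := by
      rw [Ideal.one_eq_top]
      exact Ideal.span_singleton_eq_top.2 v.isUnit
    have h2 := hD.eq (v : 𝓞 K) v.ne_zero
    have h3 : Ideal.Quotient.mk f3 (v : 𝓞 K) = 1 := by
      rw [← map_one (Ideal.Quotient.mk f3)]
      exact Ideal.Quotient.eq.2 (hJ hv)
    rw [h1, map_one, h3, map_one, mul_one] at h2
    unfold wW
    rw [map_mul, map_mul, map_mul, map_mul]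
    calc _ = (χ1 (Ideal.Quotient.mk (fT T1 a) (v : 𝓞 K)) * χ2 (Ideal.Quotient.mk f2 (v : 𝓞 K))) *
          (χ1 (Ideal.Quotient.mk (fT T1 a) x) * χ2 (Ideal.Quotient.mk f2 x)) := by ring
      _ = _ := by rw [← h2, one_mul]

/-- Chunk TS2b (S). Periodic as in TS2a. Invariance (even under all units v): mk v is a unit modulo f1, so u -> u mk v is a bijection of the units modulo f1; mk v is a unit modulo f2, so IsUnit (mk (v x)) iff IsUnit (mk x). -/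
theorem wtC (hpi : π * π' = (p : 𝓞 F)) [Fintype (𝓞 K ⧸ fT T1 a)] (hN1 : algebraMap (𝓞 F) (𝓞 K) (π ^ N) ∈ fT T1 a)
    (hN2 : algebraMap (𝓞 F) (𝓞 K) (π' ^ N) ∈ f2) (J I : Ideal (𝓞 K)) (c₀ : 𝓞 K) (ψa : AddChar (𝓞 K ⧸ fT T1 a) ℂ) :
    WtJ J I c₀ (p ^ N) (wC f2 ψa) := by
  classical
  refine ⟨fun x _ y hxy => ?_, fun x _ v _ => ?_⟩
  · have e1 : Ideal.Quotient.mk (fT T1 a) x = Ideal.Quotient.mk (fT T1 a) y := Ideal.Quotient.eq.2 (ts2_mem1 hpi hN1 hxy)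
    have e2 : Ideal.Quotient.mk f2 x = Ideal.Quotient.mk f2 y := Ideal.Quotient.eq.2 (ts2_mem2 hpi hN2 hxy)
    unfold wC
    rw [e1, e2]
  · have e1 : IsUnit (Ideal.Quotient.mk f2 ((v : 𝓞 K) * x)) ↔ IsUnit (Ideal.Quotient.mk f2 x) := by
      rw [map_mul]
      exact (Units.map (Ideal.Quotient.mk f2 : 𝓞 K →* 𝓞 K ⧸ f2) v).isUnit_units_mul _
    have e2 : ∑ u : (𝓞 K ⧸ fT T1 a)ˣ, ψa ((u : 𝓞 K ⧸ fT T1 a) * Ideal.Quotient.mk (fT T1 a) ((v : 𝓞 K) * x)) =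
        ∑ u : (𝓞 K ⧸ fT T1 a)ˣ, ψa ((u : 𝓞 K ⧸ fT T1 a) * Ideal.Quotient.mk (fT T1 a) x) := by
      refine Fintype.sum_equiv (Equiv.mulRight (Units.map (Ideal.Quotient.mk (fT T1 a) : 𝓞 K →* 𝓞 K ⧸ fT T1 a) v)) _ _
        fun u => ?_
      rw [Equiv.coe_mulRight, Units.val_mul, Units.coe_map, (Ideal.Quotient.mk (fT T1 a)).map_mul, mul_assoc]
      rfl
    unfold wC
    rw [e2]
    congr 1
    exact if_congr e1 rfl rfl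

/-- Chunk TS2c (S). -/
theorem addC_psi (hN1 : algebraMap (𝓞 F) (𝓞 K) (π ^ N) ∈ fT T1 a) (ψa : AddChar (𝓞 K ⧸ fT T1 a) ℂ) (u : 𝓞 K ⧸ fT T1 a) :
    AddC (π ^ N) (fun x : 𝓞 K => ψa (u * Ideal.Quotient.mk (fT T1 a) x)) := by
  refine ⟨fun x y => ?_, fun x => ?_⟩
  · rw [map_add, mul_add, AddChar.map_add_eq_mul]
  · rw [Ideal.Quotient.eq_zero_iff_mem.2 ((fT T1 a).mul_mem_right x hN1), mul_zero, AddChar.map_zero_eq_one]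

end H35M
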