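import Mathlib
import Pool.Agent.Lib.H35M.GS1
import Pool.Agent.Lib.H35M.TS1
import Pool.Agent.Lib.H35M.TS2
import Pool.Agent.Lib.H55P.T6

/-! # H35M, chunk TS3 (M): the comparison of the two weights -/

open NumberField IsDedekindDomain

namespace H35M

open H55N H55P SSG.E

variable {F : Type} [Field F] [NumberField F] [IQ F] {K : Type} [Field K] [NumberField K] [Algebra F K] {m : ℕ}
  {V : ValuationSubring ℂ} {π π' : 𝓞 F} {p N : ℕ} {De : ℂ} {J I : Ideal (𝓞 K)} {c₀ : 𝓞 K}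
  {c : Fin (m + 1) × Fin 2 → Ideal (𝓞 K)} {q : Fin (m + 1) × Fin 2 → ℕ} {val : 𝓞 K → ℂ}
  {T1 : Finset (HeightOneSpectrum (𝓞 K))} {a : HeightOneSpectrum (𝓞 K) → ℕ} {f2 f3 : Ideal (𝓞 K)}
  {χ : Ideal (𝓞 K) →*₀ ℂ} {χ1 : MulChar (𝓞 K ⧸ fT T1 a) ℂ} {χ2 : MulChar (𝓞 K ⧸ f2) ℂ} {χ3 : MulChar (𝓞 K ⧸ f3) ℂ}
  {ψa : AddChar (𝓞 K ⧸ fT T1 a) ℂ}

theorem ts3_pow {R : Type} [CommRing R] {p : ℕ} {χ : MulChar R ℂ} (h : χ ^ p = 1) {z : R} (hz : IsUnit z) : χ z ^ p = 1 := by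
  obtain ⟨u, rfl⟩ := hz
  rw [← MulChar.pow_apply_coe, h, MulChar.one_apply_coe]

theorem ts3_le {R : Type} [CommRing R] {p : ℕ} (hp : p ≠ 0) {χ : MulChar R ℂ} (h : χ ^ p = 1) (V : ValuationSubring ℂ) (z : R) :
    V.valuation (χ z) ≤ 1 := by
  by_cases hz : IsUnit z
  · have h1 := congrArg V.valuation (ts3_pow h hz)
    rw [map_pow, map_one] at h1
    exact (pt6_le hp h1).le
  · rw [MulChar.map_nonunit _ hz, map_zero]
    exact zero_le_one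

theorem ts3_inv {R : Type} [CommRing R] {p : ℕ} {χ : MulChar R ℂ} (h : χ ^ p = 1) : χ⁻¹ ^ p = 1 := by
  rw [inv_pow, h, inv_one]

theorem ts3_units {R : Type} [CommRing R] [Fintype R] [Fintype Rˣ] (G : R → ℂ) (h : ∀ z, ¬ IsUnit z → G z = 0) :
    ∑ u : Rˣ, G (u : R) = ∑ u : R, G u := by
  refine Fintype.sum_of_injective (fun u : Rˣ => (u : R)) Units.val_injective (fun u : Rˣ => G (u : R)) G ?_ (fun _ => rfl)
  intro z hz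
  apply h
  rintro ⟨u, hu⟩
  exact hz ⟨u, hu⟩

/-- Chunk TS3a (S/M). gs_shift for χ1⁻¹ (PrimM.inv), (χ1⁻¹)⁻¹ = χ1; the sum over all u is the sum over the units (χ1⁻¹ u = 0 otherwise). -/
theorem expW (hD : ChD F π π' p T1 a f2 f3 χ χ1 χ2 χ3 ψa) [Fintype (𝓞 K ⧸ fT T1 a)] (x : 𝓞 K) :
    gaussSum χ1⁻¹ ψa * wW χ1 χ2 x = ∑ u : 𝓞 K ⧸ fT T1 a, (χ2 (Ideal.Quotient.mk f2 x) * χ1⁻¹ u) * ψa (u * Ideal.Quotient.mk _ x) := by
  have h1 := gs_shift (PrimM.inv hD.prim) ψa (Ideal.Quotient.mk (fT T1 a) x)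
  rw [inv_inv] at h1
  have h2 : ∑ u : 𝓞 K ⧸ fT T1 a, (χ2 (Ideal.Quotient.mk f2 x) * χ1⁻¹ u) * ψa (u * Ideal.Quotient.mk _ x) =
      χ2 (Ideal.Quotient.mk f2 x) * ∑ u : 𝓞 K ⧸ fT T1 a, χ1⁻¹ u * ψa (u * Ideal.Quotient.mk _ x) := by
    rw [Finset.mul_sum]
    exact Finset.sum_congr rfl fun u _ => mul_assoc _ _ _
  rw [h2, h1]
  unfold wW
  ring

/-- Chunk TS3b (M). ts_le (TS1) with U = O/f1, h u x = χ2 (mk x) χ1⁻¹ u (valuation 0 or 1: values of characters with χ^p = 1 are 0 or p-th roots of unity), θ u = addC_psi. -/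
theorem intW (hP : Plc F V π π' p) (hC : ClassV F V π π' p N De J I c₀ c q val) {R : Finset (𝓞 K)} (hR : RpU I c₀ (p ^ N) R)
    (hD : ChD F π π' p T1 a f2 f3 χ χ1 χ2 χ3 ψa) [Fintype (𝓞 K ⧸ fT T1 a)] (hN1 : algebraMap (𝓞 F) (𝓞 K) (π ^ N) ∈ fT T1 a)
    (hN2 : algebraMap (𝓞 F) (𝓞 K) (π' ^ N) ∈ f2) :
    V.valuation (De * ∑ x ∈ R, (gaussSum χ1⁻¹ ψa * wW χ1 χ2 x) * val x) ≤ 1 := by
  have h1 : ∀ x ∈ R, (gaussSum χ1⁻¹ ψa * wW χ1 χ2 x) * val x =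
      (∑ u : 𝓞 K ⧸ fT T1 a, (χ2 (Ideal.Quotient.mk f2 x) * χ1⁻¹ u) * ψa (u * Ideal.Quotient.mk _ x)) * val x := by
    intro x _
    rw [expW hD x]
  rw [Finset.sum_congr rfl h1]
  refine ts_le hC hR Finset.univ (fun u x => χ2 (Ideal.Quotient.mk f2 x) * χ1⁻¹ u)
    (fun u x => ψa (u * Ideal.Quotient.mk _ x)) (fun u _ => addC_psi hN1 ψa u) ?_ ?_
  · intro u _ x y hxy
    have h2 : Ideal.Quotient.mk f2 x = Ideal.Quotient.mk f2 y := by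
      rw [Ideal.Quotient.eq]
      exact (Ideal.span_singleton_le_iff_mem _).2 hN2 hxy
    show χ2 (Ideal.Quotient.mk f2 x) * χ1⁻¹ u = χ2 (Ideal.Quotient.mk f2 y) * χ1⁻¹ u
    rw [h2]
  · intro u _ x
    rw [map_mul]
    exact mul_le_one' (ts3_le hP.prime.ne_zero hD.one2 V _) (ts3_le hP.prime.ne_zero (ts3_inv hD.one1) V _)

/-- Chunk TS3c (M). ζ τ wW x - wC x = sum over the units u of (ζ χ2 x χ1⁻¹ u - [mk x unit mod f2]) ψa(u x); the coefficient is 0 for mk x not a unit modulo f2, and (a p-th root of unity) - 1 otherwise, valuation < 1 (root_max, H55P/T6; V(p) < 1: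
p = π π'). ts_lt with U = the units of O/f1 (s = univ). -/
theorem cmpW (hP : Plc F V π π' p) (hC : ClassV F V π π' p N De J I c₀ c q val) {R : Finset (𝓞 K)} (hR : RpU I c₀ (p ^ N) R)
    (hD : ChD F π π' p T1 a f2 f3 χ χ1 χ2 χ3 ψa) [Fintype (𝓞 K ⧸ fT T1 a)] (hN1 : algebraMap (𝓞 F) (𝓞 K) (π ^ N) ∈ fT T1 a)
    (hN2 : algebraMap (𝓞 F) (𝓞 K) (π' ^ N) ∈ f2) (ζ : ℂ) (hζ : ζ ^ p = 1) :
    V.valuation (De * ∑ x ∈ R, (ζ * (gaussSum χ1⁻¹ ψa * wW χ1 χ2 x) - wC f2 ψa x) * val x) < 1 := by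
  classical
  have hVp : V.valuation (p : ℂ) < 1 := by
    have h1 : (p : ℂ) = eF F π * eF F π' := by
      rw [← map_mul, hP.mul, map_natCast]
    rw [h1, map_mul, hP.one, mul_one]
    exact hP.lt
  have h1 : ∀ x ∈ R, (ζ * (gaussSum χ1⁻¹ ψa * wW χ1 χ2 x) - wC f2 ψa x) * val x =
      (∑ u : (𝓞 K ⧸ fT T1 a)ˣ, (ζ * (χ2 (Ideal.Quotient.mk f2 x) * χ1⁻¹ (u : 𝓞 K ⧸ fT T1 a)) -
        (if IsUnit (Ideal.Quotient.mk f2 x) then 1 else 0)) * ψa ((u : 𝓞 K ⧸ fT T1 a) * Ideal.Quotient.mk _ x)) * val x := by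
    intro x _
    rw [expW hD x]
    refine congrArg (fun w : ℂ => w * val x) ?_
    rw [← ts3_units (fun u => (χ2 (Ideal.Quotient.mk f2 x) * χ1⁻¹ u) * ψa (u * Ideal.Quotient.mk _ x)) (by
      intro z hz
      show (χ2 (Ideal.Quotient.mk f2 x) * χ1⁻¹ z) * ψa (z * Ideal.Quotient.mk _ x) = 0
      rw [MulChar.map_nonunit _ hz, mul_zero, zero_mul])]
    unfold wC
    rw [Finset.mul_sum, Finset.mul_sum, ← Finset.sum_sub_distrib]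
    exact Finset.sum_congr rfl fun u _ => by ring
  rw [Finset.sum_congr rfl h1]
  refine ts_lt (U := (𝓞 K ⧸ fT T1 a)ˣ) hC hR Finset.univ (fun u x => ζ * (χ2 (Ideal.Quotient.mk f2 x) * χ1⁻¹ (u : 𝓞 K ⧸ fT T1 a)) -
        (if IsUnit (Ideal.Quotient.mk f2 x) then 1 else 0))
    (fun u x => ψa ((u : 𝓞 K ⧸ fT T1 a) * Ideal.Quotient.mk _ x)) (fun u _ => addC_psi hN1 ψa (u : 𝓞 K ⧸ fT T1 a)) ?_ ?_
  · intro u _ x y hxy
    have h2 : Ideal.Quotient.mk f2 x = Ideal.Quotient.mk f2 y := by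
      rw [Ideal.Quotient.eq]
      exact (Ideal.span_singleton_le_iff_mem _).2 hN2 hxy
    show ζ * (χ2 (Ideal.Quotient.mk f2 x) * χ1⁻¹ (u : 𝓞 K ⧸ fT T1 a)) - (if IsUnit (Ideal.Quotient.mk f2 x) then 1 else 0) =
      ζ * (χ2 (Ideal.Quotient.mk f2 y) * χ1⁻¹ (u : 𝓞 K ⧸ fT T1 a)) - (if IsUnit (Ideal.Quotient.mk f2 y) then 1 else 0)
    rw [h2]
  · intro u _ x
    show V.valuation (ζ * (χ2 (Ideal.Quotient.mk f2 x) * χ1⁻¹ (u : 𝓞 K ⧸ fT T1 a)) - (if IsUnit (Ideal.Quotient.mk f2 x) then 1 else 0)) < 1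
    by_cases hx : IsUnit (Ideal.Quotient.mk f2 x)
    · rw [if_pos hx]
      apply root_max p hP.prime V hVp
      rw [mul_pow, mul_pow, hζ, ts3_pow hD.one2 hx, ts3_pow (ts3_inv hD.one1) u.isUnit, one_mul, one_mul]
    · rw [if_neg hx, MulChar.map_nonunit _ hx, zero_mul, mul_zero, sub_zero, map_zero]
      exact zero_lt_one

end H35M
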