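import Mathlib
import Pool.Agent.Lib.H35M.GD

/-! # H35M, chunk RS1 (M): sums of additive characters over ideals -/

open NumberField IsDedekindDomain

namespace H35M

variable {K : Type} [Field K] [NumberField K]

/-- absNorm J = card A -/
theorem rs1_card {f I J : Ideal (𝓞 K)} (hf : f ≠ ⊥) (hIJ : I * J = f) [Fintype (𝓞 K ⧸ f)] :
    Nat.card (I.map (Ideal.Quotient.mk f)) = Ideal.absNorm J := by
  have h1 : Nat.card (𝓞 K ⧸ f) = Nat.card (I.map (Ideal.Quotient.mk f)) * Nat.card ((𝓞 K ⧸ f) ⧸ I.map (Ideal.Quotient.mk f)) := by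
    exact Submodule.card_eq_card_quotient_mul_card (I.map (Ideal.Quotient.mk f))
  have hle : f ≤ I := by rw [← hIJ]; exact Ideal.mul_le_left
  have h2 : Nat.card ((𝓞 K ⧸ f) ⧸ I.map (Ideal.Quotient.mk f)) = Nat.card (𝓞 K ⧸ I) :=
    Nat.card_congr (DoubleQuot.quotQuotEquivQuotOfLE hle).toEquiv
  have h3 : Ideal.absNorm f = Ideal.absNorm I * Ideal.absNorm J := by rw [← hIJ, map_mul]
  have hI0 : I ≠ ⊥ := by
    intro h
    apply hf
    rw [← hIJ, h, Ideal.bot_mul]
  have hI : Ideal.absNorm I ≠ 0 := by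
    rw [Ne, Ideal.absNorm_eq_zero_iff]; exact hI0
  rw [Ideal.absNorm_apply, Submodule.cardQuot_apply, h1, h2] at h3
  rw [Ideal.absNorm_apply I, Submodule.cardQuot_apply, mul_comm] at h3
  rw [Ideal.absNorm_apply, Submodule.cardQuot_apply] at hI
  exact Nat.eq_of_mul_eq_mul_left (Nat.pos_of_ne_zero hI) h3

/-- Chunk RS1 (M). PROOF. R = O/f, A = the set of u in R which come from I (an ideal of R: I.map (Ideal.Quotient.mk f); f = I J ≤ I). If x in J then u x = 0 for u in A (I J = f), so the sum is card A, and card A = [I : f] =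
absNorm f / absNorm I = absNorm J (Ideal.absNorm f = Nat.card (O/f) = card A * Nat.card (O/I); Submodule.card_quotient_mul_card_quotient or the surjection O/f → O/I with kernel A). If x is not in J then (x) I is not contained in
f = J I (cancel I: Ideal.mul_left_... / dvd), so there is u0 in I with u0 x not in f, and by primitivity of ψ there is y with ψ(y u0 x) <> 1; w = y u0 in A: replacing u by u + w gives S = ψ(w x) S, so S = 0. -/
theorem sum_ideal {f I J : Ideal (𝓞 K)} (hf : f ≠ ⊥) (hIJ : I * J = f) [Fintype (𝓞 K ⧸ f)] {ψ : AddChar (𝓞 K ⧸ f) ℂ} (hψ : ψ.IsPrimitive)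
    (x : 𝓞 K) [DecidablePred fun u : 𝓞 K ⧸ f => u ∈ I.map (Ideal.Quotient.mk f)] [Decidable (x ∈ J)] :
    ∑ u ∈ Finset.univ.filter (fun u : 𝓞 K ⧸ f => u ∈ I.map (Ideal.Quotient.mk f)), ψ (u * Ideal.Quotient.mk f x) =
      if x ∈ J then (Ideal.absNorm J : ℂ) else 0 := by
  split_ifs with hx
  · have h1 : ∀ u ∈ Finset.univ.filter (fun u : 𝓞 K ⧸ f => u ∈ I.map (Ideal.Quotient.mk f)), ψ (u * Ideal.Quotient.mk f x) = 1 := by
      intro u hu
      have hu' := (Finset.mem_filter.1 hu).2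
      obtain ⟨y, hy, rfl⟩ := (Ideal.mem_map_iff_of_surjective _ Ideal.Quotient.mk_surjective).1 hu'
      rw [← map_mul, Ideal.Quotient.eq_zero_iff_mem.2, AddChar.map_zero_eq_one]
      rw [← hIJ]
      exact Ideal.mul_mem_mul hy hx
    rw [Finset.sum_congr rfl h1, Finset.sum_const, nsmul_eq_mul, mul_one, ← rs1_card hf hIJ]
    congr 1
    rw [Nat.card_eq_fintype_card, Fintype.card_subtype]
  · have hI0 : I ≠ ⊥ := by
      intro h
      apply hf
      rw [← hIJ, h, Ideal.bot_mul]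
    have h1 : ¬ (I * Ideal.span {x} ≤ I * J) := by
      intro h
      apply hx
      have h2 : J ∣ Ideal.span {x} := by
        have h3 : I * J ∣ I * Ideal.span {x} := Ideal.dvd_iff_le.2 h
        exact (mul_dvd_mul_iff_left hI0).1 h3
      exact Ideal.dvd_span_singleton.1 h2
    obtain ⟨u0, hu0, h2⟩ : ∃ u0 ∈ I, u0 * x ∉ f := by
      by_contra h
      push Not at h
      apply h1
      rw [hIJ]
      rw [Ideal.mul_le]
      intro r hr s hs
      obtain ⟨y, rfl⟩ := Ideal.mem_span_singleton.1 hs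
      rw [← mul_assoc]
      exact Ideal.mul_mem_right _ _ (h r hr)
    have h3 : Ideal.Quotient.mk f (u0 * x) ≠ 0 := by
      rw [Ne, Ideal.Quotient.eq_zero_iff_mem]; exact h2
    obtain ⟨y, hy⟩ : ∃ y, ψ (Ideal.Quotient.mk f (u0 * x) * y) ≠ 1 := by
      by_contra h
      push Not at h
      apply hψ h3
      ext y
      rw [AddChar.mulShift_apply, h y, AddChar.one_apply]
    set w : 𝓞 K ⧸ f := y * Ideal.Quotient.mk f u0 with hw
    have hwA : w ∈ I.map (Ideal.Quotient.mk f) := Ideal.mul_mem_left _ _ (Ideal.mem_map_of_mem _ hu0)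
    have h4 : ∑ u ∈ Finset.univ.filter (fun u : 𝓞 K ⧸ f => u ∈ I.map (Ideal.Quotient.mk f)), ψ (u * Ideal.Quotient.mk f x) =
        ψ (w * Ideal.Quotient.mk f x) * ∑ u ∈ Finset.univ.filter (fun u : 𝓞 K ⧸ f => u ∈ I.map (Ideal.Quotient.mk f)), ψ (u * Ideal.Quotient.mk f x) := by
      rw [Finset.mul_sum]
      refine (Finset.sum_bij (fun u _ => w + u) ?_ ?_ ?_ ?_).symm
      · intro u hu
        rw [Finset.mem_filter] at hu ⊢
        exact ⟨Finset.mem_univ _, Ideal.add_mem _ hwA hu.2⟩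
      · intro u _ v _ h
        exact add_left_cancel h
      · intro u hu
        rw [Finset.mem_filter] at hu
        refine ⟨u - w, ?_, by ring⟩
        rw [Finset.mem_filter]
        exact ⟨Finset.mem_univ _, Ideal.sub_mem _ hu.2 hwA⟩
      · intro u _
        rw [add_mul, AddChar.map_add_eq_mul]
    have h5 : ψ (w * Ideal.Quotient.mk f x) ≠ 1 := by
      rw [hw]
      intro h
      apply hy
      rw [← h]
      congr 1
      rw [RingHom.map_mul]
      ring
    have h6 := sub_eq_zero.2 h4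
    have h7 : (1 - ψ (w * Ideal.Quotient.mk f x)) * ∑ u ∈ Finset.univ.filter (fun u : 𝓞 K ⧸ f => u ∈ I.map (Ideal.Quotient.mk f)), ψ (u * Ideal.Quotient.mk f x) = 0 := by
      rw [sub_mul, one_mul]; exact h6
    exact (mul_eq_zero.1 h7).resolve_left (sub_ne_zero.2 (Ne.symm h5))

end H35M
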