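import Mathlib
import Pool.Agent.Lib.H35M.RS1

/-! # H35M, chunk RS2 (M): Ramanujan sums over O_K/f -/

open NumberField IsDedekindDomain

namespace H35M

variable {K : Type} [Field K] [NumberField K]

/-- Chunk RS2a (S). fS T S a * prod over v in S of v = fT T a for S ⊆ T, a v > 0 on T. -/
theorem fS_mul {T S : Finset (HeightOneSpectrum (𝓞 K))} (hS : S ⊆ T) {a : HeightOneSpectrum (𝓞 K) → ℕ} (ha : ∀ v ∈ T, 0 < a v) :
    fS T S a * ∏ v ∈ S, v.asIdeal = fT T a := by
  classical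
  unfold fS fT
  have h1 : ∏ v ∈ S, v.asIdeal = ∏ v ∈ T, v.asIdeal ^ (if v ∈ S then 1 else 0) := by
    have h2 : ∏ v ∈ S, v.asIdeal = ∏ v ∈ S, v.asIdeal ^ (if v ∈ S then 1 else 0) :=
      Finset.prod_congr rfl fun v hv => by rw [if_pos hv, pow_one]
    rw [h2]
    refine Finset.prod_subset hS fun v _ hv => ?_
    rw [if_neg hv, pow_zero]
  rw [h1, ← Finset.prod_mul_distrib]
  refine Finset.prod_congr rfl fun v hv => ?_
  have h3 := ha v hv
  by_cases hvS : v ∈ S
  · simp only [if_pos hvS]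
    rw [← pow_add]
    congr 1
    omega
  · simp only [if_neg hvS]
    simp

theorem rs2_fT_ne (T : Finset (HeightOneSpectrum (𝓞 K))) (a : HeightOneSpectrum (𝓞 K) → ℕ) : fT T a ≠ ⊥ := by
  unfold fT
  rw [← Ideal.zero_eq_bot]
  refine Finset.prod_ne_zero_iff.2 fun v _ => pow_ne_zero _ ?_
  rw [Ideal.zero_eq_bot]
  exact v.ne_bot

theorem rs2_fT_le {T : Finset (HeightOneSpectrum (𝓞 K))} {a : HeightOneSpectrum (𝓞 K) → ℕ} (ha : ∀ v ∈ T, 0 < a v) {v : HeightOneSpectrum (𝓞 K)}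
    (hv : v ∈ T) : fT T a ≤ v.asIdeal := by
  classical
  unfold fT
  rw [← Finset.mul_prod_erase _ _ hv]
  exact Ideal.mul_le_left.trans (Ideal.pow_le_self (ha v hv).ne')

/-- Chunk RS2b (S/M). A residue class mk y is a unit of O/(fT T a) iff y is in no v in T (maximal ideals containing fT T a; a v > 0). -/
theorem unit_iff {T : Finset (HeightOneSpectrum (𝓞 K))} {a : HeightOneSpectrum (𝓞 K) → ℕ} (ha : ∀ v ∈ T, 0 < a v) (y : 𝓞 K) :
    IsUnit (Ideal.Quotient.mk (fT T a) y) ↔ ∀ v ∈ T, y ∉ v.asIdeal := by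
  constructor
  · intro hu v hv hy
    have h1 : IsUnit (Ideal.Quotient.factor (rs2_fT_le ha hv) (Ideal.Quotient.mk (fT T a) y)) := hu.map _
    rw [Ideal.Quotient.factor_mk, Ideal.Quotient.eq_zero_iff_mem.2 hy] at h1
    have : Nontrivial (𝓞 K ⧸ v.asIdeal) := Ideal.Quotient.nontrivial_iff.2 v.isPrime.ne_top
    exact not_isUnit_zero h1
  · intro h
    by_contra hu
    obtain ⟨M, hM, hyM⟩ := exists_max_ideal_of_mem_nonunits hu
    have hP : (M.comap (Ideal.Quotient.mk (fT T a))).IsPrime := Ideal.comap_isPrime _ _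
    have hf : fT T a ≤ M.comap (Ideal.Quotient.mk (fT T a)) := by
      intro z hz
      rw [Ideal.mem_comap, Ideal.Quotient.eq_zero_iff_mem.2 hz]
      exact M.zero_mem
    unfold fT at hf
    obtain ⟨v, hv, hvP⟩ := (Ideal.IsPrime.prod_le hP).1 hf
    have hle : v.asIdeal ≤ M.comap (Ideal.Quotient.mk (fT T a)) := Ideal.IsPrime.le_of_pow_le hvP
    have hmax : v.asIdeal.IsMaximal := v.isMaximal
    have heq := hmax.eq_of_le hP.ne_top hle
    apply h v hv
    rw [heq]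
    exact hyM

open Classical in
/-- Chunk RS2 (M). PROOF. The sum over the units is the sum over u in O/f of 1_unit(u) ψ(u x), 1_unit(u) = prod over v in T of (1 - [u in v]) = sum over S ⊆ T of (-1)^card S [u in v for all v in S] (Finset.prod_one_sub /
Finset.prod_add), u = mk y; [y in v for all v in S] = [y in prod of v in S] (distinct maximal ideals: Ideal.prod_eq... / inf = product for coprime ideals) = [mk y in the image of that product] (f ≤ product). RS1 with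
I = prod over S of v, J = fS T S a (RS2a). -/
theorem ram_sum {T : Finset (HeightOneSpectrum (𝓞 K))} {a : HeightOneSpectrum (𝓞 K) → ℕ} (ha : ∀ v ∈ T, 0 < a v) [Fintype (𝓞 K ⧸ fT T a)]
    {ψ : AddChar (𝓞 K ⧸ fT T a) ℂ} (hψ : ψ.IsPrimitive) (x : 𝓞 K) :
    ∑ u : (𝓞 K ⧸ fT T a)ˣ, ψ ((u : 𝓞 K ⧸ fT T a) * Ideal.Quotient.mk _ x) =
      ∑ S ∈ T.powerset, (-1) ^ S.card * (if x ∈ fS T S a then (Ideal.absNorm (fS T S a) : ℂ) else 0) := by
  have hprod : ∀ S ∈ T.powerset, ∀ y : 𝓞 K, Ideal.Quotient.mk (fT T a) y ∈ (∏ v ∈ S, v.asIdeal).map (Ideal.Quotient.mk (fT T a)) ↔ ∀ v ∈ S, y ∈ v.asIdeal := by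
    intro S hS y
    have hST := Finset.mem_powerset.1 hS
    have hle : fT T a ≤ ∏ v ∈ S, v.asIdeal := by
      rw [← fS_mul hST ha]
      exact Ideal.mul_le_right
    rw [← Ideal.mem_comap, Ideal.comap_map_mk hle]
    have h1 := IsDedekindDomain.inf_pow_eq_prod_of_prime S (fun v : HeightOneSpectrum (𝓞 K) => v.asIdeal) (fun _ => 1)
      (fun v _ => v.prime) (fun v _ w _ hvw h => hvw (HeightOneSpectrum.ext h))
    simp only [pow_one] at h1
    rw [← h1]
    simp only [Submodule.mem_finsetInf]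
  have hind : ∀ u : 𝓞 K ⧸ fT T a, (if IsUnit u then (1 : ℂ) else 0) =
      ∑ S ∈ T.powerset, (-1) ^ S.card * (if u ∈ (∏ v ∈ S, v.asIdeal).map (Ideal.Quotient.mk (fT T a)) then (1 : ℂ) else 0) := by
    intro u
    obtain ⟨y, rfl⟩ := Ideal.Quotient.mk_surjective u
    have h1 : ∏ v ∈ T, ((-(if y ∈ v.asIdeal then (1 : ℂ) else 0)) + 1) = (if IsUnit (Ideal.Quotient.mk (fT T a) y) then (1 : ℂ) else 0) := by
      by_cases h : ∀ v ∈ T, y ∉ v.asIdeal
      · rw [if_pos ((unit_iff ha y).2 h)]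
        refine Finset.prod_eq_one fun v hv => ?_
        rw [if_neg (h v hv)]
        simp
      · rw [if_neg (fun h' => h ((unit_iff ha y).1 h'))]
        push Not at h
        obtain ⟨v, hv, hy⟩ := h
        refine Finset.prod_eq_zero hv ?_
        rw [if_pos hy]
        simp
    rw [← h1, Finset.prod_add]
    refine Finset.sum_congr rfl fun S hS => ?_
    rw [Finset.prod_const_one, mul_one]
    have h2 : ∏ v ∈ S, (-(if y ∈ v.asIdeal then (1 : ℂ) else 0)) = (-1) ^ S.card * ∏ v ∈ S, (if y ∈ v.asIdeal then (1 : ℂ) else 0) := by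
      rw [← Finset.prod_const, ← Finset.prod_mul_distrib]
      exact Finset.prod_congr rfl fun v _ => by ring
    rw [h2]
    congr 1
    rw [Finset.prod_boole]
    exact if_congr (hprod S hS y).symm rfl rfl
  have hsum : ∑ u : (𝓞 K ⧸ fT T a)ˣ, ψ ((u : 𝓞 K ⧸ fT T a) * Ideal.Quotient.mk _ x) = ∑ u : 𝓞 K ⧸ fT T a, (if IsUnit u then (1 : ℂ) else 0) * ψ (u * Ideal.Quotient.mk (fT T a) x) := by
    have h3 : ∑ u : 𝓞 K ⧸ fT T a, (if IsUnit u then (1 : ℂ) else 0) * ψ (u * Ideal.Quotient.mk (fT T a) x) =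
        ∑ u ∈ Finset.univ.filter (fun u : 𝓞 K ⧸ fT T a => IsUnit u), ψ (u * Ideal.Quotient.mk (fT T a) x) := by
      rw [Finset.sum_filter]
      refine Finset.sum_congr rfl fun u _ => ?_
      by_cases h : IsUnit u
      · simp [h]
      · simp [h]
    rw [h3]
    refine Finset.sum_bij (fun (u : (𝓞 K ⧸ fT T a)ˣ) _ => (u : 𝓞 K ⧸ fT T a)) ?_ ?_ ?_ ?_
    · intro u _
      exact Finset.mem_filter.2 ⟨Finset.mem_univ _, u.isUnit⟩
    · intro u _ w _ h
      exact Units.ext h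
    · intro u hu
      obtain ⟨w, hw⟩ := (Finset.mem_filter.1 hu).2
      exact ⟨w, Finset.mem_univ _, hw⟩
    · intro u _
      rfl
  rw [hsum]
  have h4 : ∀ u : 𝓞 K ⧸ fT T a, (if IsUnit u then (1 : ℂ) else 0) * ψ (u * Ideal.Quotient.mk (fT T a) x) =
      ∑ S ∈ T.powerset, (-1) ^ S.card * ((if u ∈ (∏ v ∈ S, v.asIdeal).map (Ideal.Quotient.mk (fT T a)) then (1 : ℂ) else 0) * ψ (u * Ideal.Quotient.mk (fT T a) x)) := by
    intro u
    rw [hind u, Finset.sum_mul]
    exact Finset.sum_congr rfl fun S _ => by ring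
  rw [Finset.sum_congr rfl fun u _ => h4 u, Finset.sum_comm]
  refine Finset.sum_congr rfl fun S hS => ?_
  have hST := Finset.mem_powerset.1 hS
  have h5 : (∏ v ∈ S, v.asIdeal) * fS T S a = fT T a := by
    rw [mul_comm, fS_mul hST ha]
  rw [← Finset.mul_sum]
  congr 1
  rw [← sum_ideal (rs2_fT_ne T a) h5 hψ x, Finset.sum_filter]
  refine Finset.sum_congr rfl fun u _ => ?_
  by_cases h : u ∈ (∏ v ∈ S, v.asIdeal).map (Ideal.Quotient.mk (fT T a))
  · rw [if_pos h, if_pos h, one_mul]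
  · rw [if_neg h, if_neg h, zero_mul]

end H35M
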