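import Mathlib
import Pool.Agent.Lib.SSG.S.S1
import Pool.Agent.Lib.SSG.S.S2
import Pool.Agent.Lib.H55P.T3
import Pool.Agent.Lib.H55P.T6
import Pool.Agent.Lib.H35M.TWD

/-! # H35M, chunk TS5 (M): the series with the multiplicative weight -/

open NumberField IsDedekindDomain

namespace H35M

open H55N H55P SSG.E

variable {F : Type} [Field F] [NumberField F] [IQ F] {K : Type} [Field K] [NumberField K] [Algebra F K] {m : ℕ}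
  {π π' : 𝓞 F} {p : ℕ} {T1 : Finset (HeightOneSpectrum (𝓞 K))} {a : HeightOneSpectrum (𝓞 K) → ℕ} {f2 f3 : Ideal (𝓞 K)}
  {χ : Ideal (𝓞 K) →*₀ ℂ} {χ1 : MulChar (𝓞 K ⧸ fT T1 a) ℂ} {χ2 : MulChar (𝓞 K ⧸ f2) ℂ} {χ3 : MulChar (𝓞 K ⧸ f3) ℂ}
  {ψa : AddChar (𝓞 K ⧸ fT T1 a) ℂ}

/-- The data of the classes. -/
structure ClD (F : Type) [Field F] [NumberField F] [IQ F] {K : Type} [Field K] [NumberField K] [Algebra F K] (M : Ideal (𝓞 F))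
    (ψ : Ideal (𝓞 F) →*₀ 𝓞 F) (p : ℕ) (f3 : Ideal (𝓞 K)) (χ : Ideal (𝓞 K) →*₀ ℂ) (w : 𝓞 K → ℂ) (ι : Type) (b : ι → Ideal (𝓞 K)) (c₀ : ι → 𝓞 K)
    (T : ι → Set (𝓞 K)) (κ ζ : ι → ℂ) : Prop where
  cd : CDJ (mK K M * f3) (Ideal.span {(p : 𝓞 K)} * (mK K M * f3)) ι b c₀ T
  kap : ∀ i, ∀ x ∈ XS (mK K M * f3 * b i) (c₀ i), ∀ d : Ideal (𝓞 K), d * b i = Ideal.span {x} → x ≠ 0 ∧
    (PsiP K ψ * oneI f3) d = κ i * (starRingEnd ℂ) (embF F (Algebra.norm F (x : K))) ∧ χ d = ζ i * w x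

/-- The coefficients of PsiP * oneI f3 satisfy CoefP: port of coef_mulP (H55P/T3) (chunk TS5a, S). -/
theorem ClD.coef {M : Ideal (𝓞 F)} {ψ : Ideal (𝓞 F) →*₀ 𝓞 F} (h : IsHecke M ψ) {w : 𝓞 K → ℂ} {ι : Type} {b : ι → Ideal (𝓞 K)} {c₀ : ι → 𝓞 K}
    {T : ι → Set (𝓞 K)} {κ ζ : ι → ℂ} (hc : ClD F M ψ p f3 χ w ι b c₀ T κ ζ) :
    CoefP F (mK K M * f3) ι b c₀ (PsiP K ψ * oneI f3) κ :=
  coef_mulP h (pt3_oneI_zero f3) (pt3_oneI_norm_le f3) fun i x hx a ha =>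
    ⟨(hc.kap i x hx a ha).1, (hc.kap i x hx a ha).2.1⟩

theorem ts5_norm {f : Ideal (𝓞 K)} (hp : p.Prime) (hχ : PCh p f χ) (a : Ideal (𝓞 K)) : ‖χ a‖ ≤ 1 := by
  by_cases h0 : a = ⊥
  · rw [h0]
    have : χ ⊥ = 0 := map_zero χ
    rw [this, norm_zero]
    exact zero_le_one
  · by_cases h1 : IsCoprime a f
    · have h2 := congrArg norm (hχ.val a h0 h1)
      rw [norm_pow, norm_one] at h2
      exact ((pow_eq_one_iff_of_nonneg (norm_nonneg _) hp.ne_zero).1 h2).le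
    · rw [hχ.zero a h1, norm_zero]
      exact zero_le_one

open Classical in
theorem ts5_tm {f : Ideal (𝓞 K)} (hχ : PCh p (f * f3) χ) (ψ : Ideal (𝓞 F) →*₀ 𝓞 F) (s : ℂ) (d : Ideal (𝓞 K)) :
    tm (PsiP K ψ * oneI f3 : Ideal (𝓞 K) →*₀ ℂ) s d * χ d = tm (PsiP K ψ * χ : Ideal (𝓞 K) →*₀ ℂ) s d := by
  have h1 : oneI f3 d * χ d = χ d := by
    show (if d ≠ ⊥ ∧ IsCoprime d f3 then (1 : ℂ) else 0) * χ d = χ d
    by_cases hd : d ≠ ⊥ ∧ IsCoprime d f3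
    · rw [if_pos hd, one_mul]
    · rw [if_neg hd, zero_mul]
      by_cases h0 : d = ⊥
      · rw [h0]
        exact (map_zero χ).symm
      · exact (hχ.zero d fun h2 => hd ⟨h0, (IsCoprime.mul_right_iff.1 h2).2⟩).symm
  show (PsiP K ψ d * oneI f3 d) * _ * χ d = (PsiP K ψ d * χ d) * _
  linear_combination (PsiP K ψ d * (Ideal.absNorm d : ℂ) ^ (-s)) * h1

/-- Chunk TS5 (M). PROOF. s1_series (SSG/S/S1) with h = PsiP * oneI f3, θ = χ, φ = w, lam = ζ: HasSum of tm h s a * χ a * prod to the right-hand side. tm h s a * χ a = tm (PsiP * χ) s a: both are 0 if a is not coprime to f3 (χ a = 0: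
PCh.zero, f3 divides the modulus), and oneI f3 a = 1 otherwise (a <> ⊥; for a = ⊥ both sides are 0). The left side: smooth_sum (H55N/H4) for tmH (PsiP * χ) s, as in series_eqP (H55P/T3.lean): HasSum of tm * prod to prod (1 - q tm) * tsum; uniqueness of the sum.
hJ1 from IsHecke.toMod / pt9: hypothesis here. -/
theorem serW {M : Ideal (𝓞 F)} {ψ : Ideal (𝓞 F) →*₀ 𝓞 F} (h : IsHecke M ψ) (hp : p.Prime) (hJ1 : mK K M * f3 ≠ ⊤)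
    {f : Ideal (𝓞 K)} (hχ : PCh p (f * f3) χ) {w : 𝓞 K → ℂ} {ι : Type} [Fintype ι] {b : ι → Ideal (𝓞 K)} {c₀ : ι → 𝓞 K}
    {T : ι → Set (𝓞 K)} {κ ζ : ι → ℂ} (hc : ClD F M ψ p f3 χ w ι b c₀ T κ ζ) {c : Fin (m + 1) × Fin 2 → Ideal (𝓞 K)}
    {q : Fin (m + 1) × Fin 2 → ℕ} (hs : Smooth c q) (hcp : ∀ i, (c i).IsPrime) (hbc : ∀ i j, IsCoprime (b i) (c j)) (Z : ι → ℂ) (s : ℂ)
    (hre : 3 / 2 < s.re) (hZ : ∀ i, HasSum (fun x : T i => w x * (gw c q (x : 𝓞 K) * nf F s (x : 𝓞 K))) (Z i)) :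
    (∏ j, (1 - (q j : ℂ) * tm (PsiP K ψ * χ : Ideal (𝓞 K) →*₀ ℂ) s (c j))) * ∑' d, tm (PsiP K ψ * χ : Ideal (𝓞 K) →*₀ ℂ) s d =
      ∑ i, κ i * ζ i * (Ideal.absNorm (b i) : ℂ) ^ s * Z i := by
  classical
  have hn : ∀ d, ‖(PsiP K ψ * χ : Ideal (𝓞 K) →*₀ ℂ) d‖ ^ 2 ≤ Ideal.absNorm d := by
    intro d
    show ‖PsiP K ψ d * χ d‖ ^ 2 ≤ _
    rw [norm_mul, mul_pow]
    have h2 := PsiP_norm_le (K := K) h d
    have h3 : ‖χ d‖ ^ 2 ≤ 1 := pow_le_one₀ (norm_nonneg _) (ts5_norm hp hχ d)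
    calc ‖PsiP K ψ d‖ ^ 2 * ‖χ d‖ ^ 2 ≤ ‖PsiP K ψ d‖ ^ 2 * 1 :=
          mul_le_mul_of_nonneg_left h3 (by positivity)
      _ = ‖PsiP K ψ d‖ ^ 2 := mul_one _
      _ ≤ _ := h2
  have h1 := smooth_sum (tmH (PsiP K ψ * χ) s) (tm_summable _ hn s hre) c hcp (pt3_ne hs) (pt3_inj hs)
    (fun j => (q j : ℂ))
  have h2 := SSG.S.s1_series (F := F) Ideal.mul_le_right hJ1 hc.cd (hc.coef h) χ w ζ
    (fun i x hx d hd => (hc.kap i x hx d hd).2.2) hcp hbc Z s hZ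
  refine h1.unique ?_
  have h3 : (fun d : Ideal (𝓞 K) => (tmH (PsiP K ψ * χ) s) d * ∏ i, (if d ≤ c i then 1 - (q i : ℂ) else 1)) =
      fun d : Ideal (𝓞 K) => tm (PsiP K ψ * oneI f3 : Ideal (𝓞 K) →*₀ ℂ) s d * χ d *
        ∏ j, (if d ≤ c j then 1 - (q j : ℂ) else 1) := by
    funext d
    rw [ts5_tm hχ ψ s d]
    rfl
  rw [h3]
  exact h2

end H35M
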