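import Mathlib
import Pool.Agent.Lib.H35M.TS5
import Pool.Agent.Lib.H35M.RS2

/-! # H35M, chunk TS6A (M): the Ramanujan weight as a function of ideals -/

open NumberField IsDedekindDomain

namespace H35M

open H55N H55P SSG.E

variable {F : Type} [Field F] [NumberField F] [IQ F] {K : Type} [Field K] [NumberField K] [Algebra F K] {m : ℕ}
  {π π' : 𝓞 F} {p : ℕ} {T1 : Finset (HeightOneSpectrum (𝓞 K))} {a : HeightOneSpectrum (𝓞 K) → ℕ} {f2 f3 : Ideal (𝓞 K)}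
  {χ : Ideal (𝓞 K) →*₀ ℂ} {ψa : AddChar (𝓞 K ⧸ fT T1 a) ℂ}

omit [NumberField K] in
theorem ts6a_unit (f : Ideal (𝓞 K)) (x : 𝓞 K) : IsUnit (Ideal.Quotient.mk f x) ↔ IsCoprime (Ideal.span {x}) f := by
  rw [Ideal.isCoprime_iff_sup_eq, Ideal.eq_top_iff_one, Ideal.mem_span_singleton_sup]
  constructor
  · intro hu
    obtain ⟨y', hy'⟩ := hu.exists_right_inv
    obtain ⟨y, rfl⟩ := Ideal.Quotient.mk_surjective y'
    rw [← map_mul, ← map_one (Ideal.Quotient.mk f), Ideal.Quotient.eq] at hy'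
    refine ⟨y, 1 - x * y, ?_, by ring⟩
    rw [← neg_sub]
    exact f.neg_mem hy'
  · rintro ⟨y, z, hz, h⟩
    refine IsUnit.of_mul_eq_one (Ideal.Quotient.mk f y) ?_
    rw [← map_mul, ← map_one (Ideal.Quotient.mk f), Ideal.Quotient.eq]
    have e : x * y - 1 = -z := by rw [← h]; ring
    rw [e]
    exact f.neg_mem hz

omit [NumberField F] [IQ F] [NumberField K] in
theorem ts6a_cop {b c : Ideal (𝓞 K)} {z : 𝓞 F} (hz : z ∣ (p : 𝓞 F)) (hb : IsCoprime b (Ideal.span {(p : 𝓞 K)})) {N : ℕ}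
    (h : algebraMap (𝓞 F) (𝓞 K) (z ^ N) ∈ c) : IsCoprime b c := by
  have h1 : IsCoprime b (Ideal.span {(p : 𝓞 K)} ^ N) := hb.pow_right
  rw [Ideal.isCoprime_iff_sup_eq] at h1 ⊢
  refine eq_top_iff.2 (h1.symm.le.trans (sup_le_sup_left ?_ b))
  rw [Ideal.span_singleton_pow, Ideal.span_singleton_le_iff_mem]
  obtain ⟨y, hy⟩ := hz
  have e : (p : 𝓞 K) ^ N = algebraMap (𝓞 F) (𝓞 K) (z ^ N) * algebraMap (𝓞 F) (𝓞 K) (y ^ N) := by
    rw [← map_mul, ← mul_pow, ← hy, map_pow, map_natCast]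
  rw [e]
  exact c.mul_mem_right _ h

open Classical in
/-- Chunk TS6a (S/M). For d b = (x), b coprime to p: the Ramanujan weight of x as function of the ideal d. PROOF. ram_sum (RS2); x in fS iff d ≤ fS: fS divides f1, which contains a power of π, so b is coprime to fS (b coprime to p = π π'), and
d b ≤ fS iff d ≤ fS. mk x is a unit modulo f2 iff (x) is coprime to f2 iff d is coprime to f2 (b is coprime to f2). -/
theorem wC_ideal (hpi : π * π' = (p : 𝓞 F)) (hpos : ∀ v ∈ T1, 0 < a v) (h1 : ∃ N, algebraMap (𝓞 F) (𝓞 K) (π ^ N) ∈ fT T1 a)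
    (h2 : ∃ N, algebraMap (𝓞 F) (𝓞 K) (π' ^ N) ∈ f2) [Fintype (𝓞 K ⧸ fT T1 a)] (hψ : ψa.IsPrimitive) (b : Ideal (𝓞 K))
    (hb : IsCoprime b (Ideal.span {(p : 𝓞 K)})) (x : 𝓞 K) (d : Ideal (𝓞 K)) (hd : d * b = Ideal.span {x}) :
    wC f2 ψa x = (if IsCoprime d f2 then 1 else 0) *
      ∑ S ∈ T1.powerset, (-1) ^ S.card * (if d ≤ fS T1 S a then (Ideal.absNorm (fS T1 S a) : ℂ) else 0) := by
  obtain ⟨N1, hN1⟩ := h1
  obtain ⟨N2, hN2⟩ := h2
  unfold wC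
  rw [ram_sum hpos hψ x]
  have k1 : IsUnit (Ideal.Quotient.mk f2 x) ↔ IsCoprime d f2 := by
    rw [ts6a_unit, ← hd, IsCoprime.mul_left_iff]
    exact ⟨fun h => h.1, fun h => ⟨h, ts6a_cop (z := π') ⟨π, by rw [← hpi, mul_comm]⟩ hb hN2⟩⟩
  refine congrArg₂ (· * ·) (if_congr k1 rfl rfl) ?_
  refine Finset.sum_congr rfl fun S hS => ?_
  have hST := Finset.mem_powerset.1 hS
  refine congrArg (fun w : ℂ => (-1) ^ S.card * w) (if_congr ?_ rfl rfl)
  have hle : fT T1 a ≤ fS T1 S a := by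
    rw [← fS_mul hST hpos]
    exact Ideal.mul_le_left
  have k2 : IsCoprime b (fS T1 S a) := ts6a_cop (z := π) ⟨π', hpi.symm⟩ hb (hle hN1)
  have k3 : x ∈ fS T1 S a ↔ Ideal.span {x} ≤ fS T1 S a := (Ideal.span_singleton_le_iff_mem _).symm
  rw [k3, ← hd, ← Ideal.dvd_iff_le, ← Ideal.dvd_iff_le]
  exact ⟨fun h => k2.symm.dvd_of_dvd_mul_right h, fun h => h.mul_right b⟩

end H35M
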