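import Mathlib
import Pool.Agent.Lib.H35M.TS5
import Pool.Agent.Lib.H35M.RS2
import Pool.Agent.Lib.H35M.TS6A

/-! # H35M, chunk TS6B (M/L): the series with the Ramanujan weight -/

open NumberField IsDedekindDomain

namespace H35M

open H55N H55P SSG.E

variable {F : Type} [Field F] [NumberField F] [IQ F] {K : Type} [Field K] [NumberField K] [Algebra F K] {m : ℕ}
  {π π' : 𝓞 F} {p : ℕ} {T1 : Finset (HeightOneSpectrum (𝓞 K))} {a : HeightOneSpectrum (𝓞 K) → ℕ} {f2 f3 : Ideal (𝓞 K)}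
  {χ : Ideal (𝓞 K) →*₀ ℂ} {ψa : AddChar (𝓞 K ⧸ fT T1 a) ℂ}

theorem ts6b_one {f d : Ideal (𝓞 K)} (h0 : d ≠ ⊥) (h : IsCoprime d f) : oneI f d = 1 := by
  classical
  show (if d ≠ ⊥ ∧ IsCoprime d f then (1 : ℂ) else 0) = 1
  exact if_pos ⟨h0, h⟩

theorem ts6b_ii (f2 f3 d : Ideal (𝓞 K)) [Decidable (IsCoprime d f2)] :
    oneI f3 d * (if IsCoprime d f2 then (1 : ℂ) else 0) = oneI (f2 * f3) d := by
  by_cases h0 : d = ⊥
  · have e1 : ∀ f : Ideal (𝓞 K), oneI f d = 0 := by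
      intro f
      rw [h0]
      exact (oneI f).map_zero
    rw [e1, e1, zero_mul]
  · by_cases h2 : IsCoprime d f2
    · rw [if_pos h2, mul_one]
      by_cases h3 : IsCoprime d f3
      · rw [ts6b_one h0 h3, ts6b_one h0 (IsCoprime.mul_right h2 h3)]
      · rw [pt3_oneI_zero f3 d h3, pt3_oneI_zero (f2 * f3) d fun h => h3 (IsCoprime.mul_right_iff.1 h).2]
    · rw [if_neg h2, mul_zero, pt3_oneI_zero (f2 * f3) d fun h => h2 (IsCoprime.mul_right_iff.1 h).1]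

theorem ts6b_tm (ψ : Ideal (𝓞 F) →*₀ 𝓞 F) (f2 f3 : Ideal (𝓞 K)) (s : ℂ) (d : Ideal (𝓞 K)) [Decidable (IsCoprime d f2)] :
    tm (PsiP K ψ * oneI f3 : Ideal (𝓞 K) →*₀ ℂ) s d * (if IsCoprime d f2 then 1 else 0) =
      tm (PsiP K ψ * oneI (f2 * f3) : Ideal (𝓞 K) →*₀ ℂ) s d := by
  have h1 := ts6b_ii f2 f3 d
  show (PsiP K ψ d * oneI f3 d) * _ * _ = (PsiP K ψ d * oneI (f2 * f3) d) * _
  rw [← h1]
  ring

open Classical in
/-- Chunk TS6 (M/L). PROOF. s1_series (SSG/S/S1) with h = PsiP * oneI f3, φ = wC, lam = 1, θ d = (if coprime to f2) * sum over S (TS6a): the right-hand side is the sum of the series with general term tm h s d θ d prod. Exchange with the finite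
sum over S: tm h s d * [d coprime to f2] = tm h2 s d, h2 = PsiP * oneI (f2 f3) (d <> ⊥). For each S: s2_div (SSG/S/S2) with Q = fS T1 S a (<> ⊥), h2, hQc: fS ≤ c j would give π^N in f1 ≤ fS ≤ c j, so p in c j (c j prime), excluded by hpc. The
norm bound: |PsiP|^2 ≤ absNorm (PsiP_norm_le), |oneI| ≤ 1. Uniqueness of sums. -/
theorem serC (hpi : π * π' = (p : 𝓞 F)) (hpos : ∀ v ∈ T1, 0 < a v) (h1 : ∃ N, algebraMap (𝓞 F) (𝓞 K) (π ^ N) ∈ fT T1 a)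
    (h2 : ∃ N, algebraMap (𝓞 F) (𝓞 K) (π' ^ N) ∈ f2) [Fintype (𝓞 K ⧸ fT T1 a)] (hψ : ψa.IsPrimitive)
    {M : Ideal (𝓞 F)} {ψ : Ideal (𝓞 F) →*₀ 𝓞 F} (h : IsHecke M ψ) (hJ1 : mK K M * f3 ≠ ⊤)
    {w : 𝓞 K → ℂ} {ι : Type} [Fintype ι] {b : ι → Ideal (𝓞 K)} {c₀ : ι → 𝓞 K}
    {T : ι → Set (𝓞 K)} {κ ζ : ι → ℂ} (hc : ClD F M ψ p f3 χ w ι b c₀ T κ ζ) {c : Fin (m + 1) × Fin 2 → Ideal (𝓞 K)}
    {q : Fin (m + 1) × Fin 2 → ℕ} (hs : Smooth c q) (hcp : ∀ i, (c i).IsPrime) (hbc : ∀ i j, IsCoprime (b i) (c j))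
    (hpc : ∀ j, (p : 𝓞 K) ∉ c j) (Z : ι → ℂ) (s : ℂ)
    (hre : 3 / 2 < s.re) (hZ : ∀ i, HasSum (fun x : T i => wC f2 ψa x * (gw c q (x : 𝓞 K) * nf F s (x : 𝓞 K))) (Z i)) :
    ∑ i, κ i * (Ideal.absNorm (b i) : ℂ) ^ s * Z i =
      (∑ S ∈ T1.powerset, (-1) ^ S.card * (Ideal.absNorm (fS T1 S a) : ℂ) * tm (PsiP K ψ * oneI (f2 * f3) : Ideal (𝓞 K) →*₀ ℂ) s (fS T1 S a)) *
      ((∏ j, (1 - (q j : ℂ) * tm (PsiP K ψ * oneI (f2 * f3) : Ideal (𝓞 K) →*₀ ℂ) s (c j))) *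
        ∑' d, tm (PsiP K ψ * oneI (f2 * f3) : Ideal (𝓞 K) →*₀ ℂ) s d) := by
  have hn : ∀ d, ‖(PsiP K ψ * oneI (f2 * f3) : Ideal (𝓞 K) →*₀ ℂ) d‖ ^ 2 ≤ Ideal.absNorm d := by
    intro d
    show ‖PsiP K ψ d * oneI (f2 * f3) d‖ ^ 2 ≤ _
    rw [norm_mul, mul_pow]
    have e1 := PsiP_norm_le (K := K) h d
    have e2 : ‖oneI (f2 * f3) d‖ ^ 2 ≤ 1 := pow_le_one₀ (norm_nonneg _) (pt3_oneI_norm_le _ _)
    calc ‖PsiP K ψ d‖ ^ 2 * ‖oneI (f2 * f3) d‖ ^ 2 ≤ ‖PsiP K ψ d‖ ^ 2 * 1 :=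
          mul_le_mul_of_nonneg_left e2 (by positivity)
      _ = ‖PsiP K ψ d‖ ^ 2 := mul_one _
      _ ≤ _ := e1
  obtain ⟨N, hN⟩ := h1
  have hle : ∀ S ∈ T1.powerset, fT T1 a ≤ fS T1 S a := by
    intro S hS
    rw [← fS_mul (Finset.mem_powerset.1 hS) hpos]
    exact Ideal.mul_le_left
  have hQc : ∀ S ∈ T1.powerset, ∀ j, ¬ fS T1 S a ≤ c j := by
    intro S hS j hj
    have e1 : algebraMap (𝓞 F) (𝓞 K) (π ^ N) ∈ c j := hj (hle S hS hN)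
    rw [map_pow] at e1
    have e2 : algebraMap (𝓞 F) (𝓞 K) π ∈ c j := (hcp j).mem_of_pow_mem N e1
    apply hpc j
    have e3 : (p : 𝓞 K) = algebraMap (𝓞 F) (𝓞 K) π * algebraMap (𝓞 F) (𝓞 K) π' := by
      rw [← map_mul, hpi, map_natCast]
    rw [e3]
    exact (c j).mul_mem_right _ e2
  have hne : ∀ S ∈ T1.powerset, fS T1 S a ≠ ⊥ := by
    intro S hS h0
    have e1 := hle S hS
    rw [h0, le_bot_iff] at e1
    exact rs2_fT_ne T1 a e1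
  have hA := SSG.S.s1_series (F := F) Ideal.mul_le_right hJ1 hc.cd (hc.coef h)
    (fun d => (if IsCoprime d f2 then 1 else 0) *
      ∑ S ∈ T1.powerset, (-1) ^ S.card * (if d ≤ fS T1 S a then (Ideal.absNorm (fS T1 S a) : ℂ) else 0))
    (wC f2 ψa) (fun _ => 1) (fun i x hx d hd => by
      rw [one_mul]
      exact (wC_ideal hpi hpos ⟨N, hN⟩ h2 hψ (b i) ((IsCoprime.mul_right_iff.1 (hc.cd.cop i)).1) x d hd).symm)
    hcp hbc Z s hZ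
  have hB : HasSum (fun d : Ideal (𝓞 K) => ∑ S ∈ T1.powerset, (-1) ^ S.card * (Ideal.absNorm (fS T1 S a) : ℂ) *
      (tm (PsiP K ψ * oneI (f2 * f3) : Ideal (𝓞 K) →*₀ ℂ) s d * (if d ≤ fS T1 S a then 1 else 0) *
        ∏ j, (if d ≤ c j then 1 - (q j : ℂ) else 1)))
      (∑ S ∈ T1.powerset, (-1) ^ S.card * (Ideal.absNorm (fS T1 S a) : ℂ) *
        (tm (PsiP K ψ * oneI (f2 * f3) : Ideal (𝓞 K) →*₀ ℂ) s (fS T1 S a) *
          ((∏ j, (1 - (q j : ℂ) * tm (PsiP K ψ * oneI (f2 * f3) : Ideal (𝓞 K) →*₀ ℂ) s (c j))) *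
            ∑' d, tm (PsiP K ψ * oneI (f2 * f3) : Ideal (𝓞 K) →*₀ ℂ) s d))) :=
    hasSum_sum fun S hS => (SSG.S.s2_div (PsiP K ψ * oneI (f2 * f3)) hn (fS T1 S a) (hne S hS) hs hcp (hQc S hS) s
      hre).mul_left _
  have hfun : (fun d : Ideal (𝓞 K) => tm (PsiP K ψ * oneI f3 : Ideal (𝓞 K) →*₀ ℂ) s d *
      ((if IsCoprime d f2 then 1 else 0) *
      ∑ S ∈ T1.powerset, (-1) ^ S.card * (if d ≤ fS T1 S a then (Ideal.absNorm (fS T1 S a) : ℂ) else 0)) *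
        ∏ j, (if d ≤ c j then 1 - (q j : ℂ) else 1)) =
      fun d : Ideal (𝓞 K) => ∑ S ∈ T1.powerset, (-1) ^ S.card * (Ideal.absNorm (fS T1 S a) : ℂ) *
      (tm (PsiP K ψ * oneI (f2 * f3) : Ideal (𝓞 K) →*₀ ℂ) s d * (if d ≤ fS T1 S a then 1 else 0) *
        ∏ j, (if d ≤ c j then 1 - (q j : ℂ) else 1)) := by
    funext d
    rw [← mul_assoc, ts6b_tm, Finset.mul_sum, Finset.sum_mul]
    refine Finset.sum_congr rfl fun S _ => ?_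
    by_cases hd : d ≤ fS T1 S a
    · rw [if_pos hd, if_pos hd]
      ring
    · rw [if_neg hd, if_neg hd]
      ring
  have hA' := hA
  rw [hfun] at hA'
  have h3 := hA'.unique hB
  have h4 : ∑ i, κ i * (Ideal.absNorm (b i) : ℂ) ^ s * Z i = ∑ i, κ i * 1 * (Ideal.absNorm (b i) : ℂ) ^ s * Z i :=
    Finset.sum_congr rfl fun i _ => by rw [mul_one]
  rw [h4, h3, Finset.sum_mul]
  refine Finset.sum_congr rfl fun S _ => ?_
  ring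

end H35M
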