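import Mathlib
import Pool.Agent.Lib.SSG.S.K1
import Pool.Agent.Lib.H35M.TWD

/-! # H35M, chunk TS4 (M): the constants of the classes -/

open NumberField IsDedekindDomain

namespace H35M

open H55N H55P SSG.E

variable {F : Type} [Field F] [NumberField F] [IQ F] {K : Type} [Field K] [NumberField K] [Algebra F K]
  {π π' : 𝓞 F} {p : ℕ} {T1 : Finset (HeightOneSpectrum (𝓞 K))} {a : HeightOneSpectrum (𝓞 K) → ℕ} {f2 f3 : Ideal (𝓞 K)}
  {χ : Ideal (𝓞 K) →*₀ ℂ} {χ1 : MulChar (𝓞 K ⧸ fT T1 a) ℂ} {χ2 : MulChar (𝓞 K ⧸ f2) ℂ} {χ3 : MulChar (𝓞 K ⧸ f3) ℂ}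
  {ψa : AddChar (𝓞 K ⧸ fT T1 a) ℂ}

theorem ts4_chr (p : ℕ) (f : Ideal (𝓞 K)) (hf : f ≠ ⊥) (hc : IsCoprime f (Ideal.span {(p : 𝓞 K)})) :
    PChr p f (oneI f) where
  ne := hf
  cop := hc
  val x hx hxc := by
    have h1 : oneI f x = 1 := if_pos ⟨hx, hxc⟩
    rw [h1, one_pow]
  zero x hx := if_neg (fun h => hx h.2)
  per x y hx hy hxf hxy := by
    have h1 : oneI f (Ideal.span {x}) = 1 :=
      if_pos ⟨fun h => hx (Ideal.span_singleton_eq_bot.1 h), hxf⟩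
    have h2 : IsCoprime (Ideal.span {y}) f := by
      rw [Ideal.isCoprime_iff_exists] at hxf ⊢
      obtain ⟨i, hi, j, hj, hij⟩ := hxf
      obtain ⟨r, rfl⟩ := Ideal.mem_span_singleton.1 hi
      refine ⟨y * r, Ideal.mul_mem_right _ _ (Ideal.mem_span_singleton_self y),
        j + (x - y) * r, Ideal.add_mem _ hj (Ideal.mul_mem_right _ _ hxy), ?_⟩
      linear_combination hij
    have h3 : oneI f (Ideal.span {y}) = 1 :=
      if_pos ⟨fun h => hy (Ideal.span_singleton_eq_bot.1 h), h2⟩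
    rw [h1, h3]

theorem ts4_cop (b f : Ideal (𝓞 K)) (q : 𝓞 K) (h : IsCoprime b (Ideal.span {q})) (N : ℕ) (hN : q ^ N ∈ f) :
    IsCoprime b f := by
  have h1 : IsCoprime b (Ideal.span {q} ^ N) := h.pow_right
  rw [Ideal.span_singleton_pow, Ideal.isCoprime_iff_exists] at h1
  rw [Ideal.isCoprime_iff_exists]
  obtain ⟨i, hi, j, hj, hij⟩ := h1
  exact ⟨i, hi, j, (Ideal.span_singleton_le_iff_mem f).2 hN hj, hij⟩

/-- Chunk TS4 (M). PROOF. κ from SSG.S.k1_kappa (b coprime to p and mK; XS (J b) ⊆ XS (mK ⊤ b), J = mK f3 ≤ mK). b is coprime to f1 f2 f3 (f1 divides a power of (π), so b coprime to p implies b coprime to f1: π^N in f1, p^N in f1; the same for f2), so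
χ(b) ^ p = 1, χ b <> 0. For x in XS(J b)(c₀): x - c₀ in J b ⊆ f3, so χ3 (mk x) = χ3 (mk c₀), and χ(c) χ(b) = χ(span {x}) = wW x χ3 (mk c₀) (hD.eq, x <> 0). ζ = χ3 (mk c₀) (χ b)⁻¹. mk c₀ is a unit modulo f3 (hpr: c₀ in no w ⊇ f3: if c₀ in w then c₀ in w ⊓ b = w b,
w and b coprime), so χ3 (mk c₀)^p = 1 (one3). -/
theorem tw_kappa (hp : p.Prime) (hpi : π * π' = (p : 𝓞 F)) (hD : ChD F π π' p T1 a f2 f3 χ χ1 χ2 χ3 ψa) {M : Ideal (𝓞 F)} {ψ : Ideal (𝓞 F) →*₀ 𝓞 F}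
    (h : IsHecke M ψ) (hMp : IsCoprime M (Ideal.span {(p : 𝓞 F)})) (b : Ideal (𝓞 K)) (hb : b ≠ ⊥)
    (hbc : IsCoprime b (Ideal.span {(p : 𝓞 K)} * (mK K M * f3))) (c₀ : 𝓞 K) (hc : c₀ ∈ b)
    (hpr : ∀ w : HeightOneSpectrum (𝓞 K), mK K M * f3 ≤ w.asIdeal → c₀ ∉ w.asIdeal * b) :
    ∃ κ ζ : ℂ, (∀ V : ValuationSubring ℂ, V.valuation (p : ℂ) < 1 → V.valuation κ = 1) ∧ ζ ^ p = 1 ∧
      ∀ x ∈ XS (mK K M * f3 * b) c₀, ∀ d : Ideal (𝓞 K), d * b = Ideal.span {x} → x ≠ 0 ∧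
        (PsiP K ψ * oneI f3) d = κ * (starRingEnd ℂ) (embF F (Algebra.norm F (x : K))) ∧ χ d = ζ * wW χ1 χ2 x := by
  classical
  have hf3 : f3 ≠ ⊥ := right_ne_zero_of_mul hD.pch.ne
  obtain ⟨κ, κ', ζ', h1, h2, h3, h4⟩ := exists_kappaP p hp h hMp f3 (oneI f3) (ts4_chr p f3 hf3 hD.cop3) b hb hbc c₀ hc hpr
  have hJ0 : mK K M * f3 ≠ ⊥ := mul_ne_zero (PT2_mK M h.ne) hf3
  have hbJ : IsCoprime b (mK K M * f3) := hbc.of_mul_right_right
  have hbp : IsCoprime b (Ideal.span {(p : 𝓞 K)}) := hbc.of_mul_right_left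
  have hbf : IsCoprime b f3 := hbJ.of_mul_right_right
  have hpp : algebraMap (𝓞 F) (𝓞 K) π * algebraMap (𝓞 F) (𝓞 K) π' = (p : 𝓞 K) := by
    rw [← map_mul, hpi, map_natCast]
  have hbq : IsCoprime b (Ideal.span {algebraMap (𝓞 F) (𝓞 K) π} * Ideal.span {algebraMap (𝓞 F) (𝓞 K) π'}) := by
    rw [Ideal.span_singleton_mul_span_singleton, hpp]
    exact hbp
  have hb1 : IsCoprime b (fT T1 a) := by
    obtain ⟨N, hN⟩ := hD.pi1
    rw [map_pow] at hN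
    exact ts4_cop b _ _ hbq.of_mul_right_left N hN
  have hb2 : IsCoprime b f2 := by
    obtain ⟨N, hN⟩ := hD.pi2
    rw [map_pow] at hN
    exact ts4_cop b _ _ hbq.of_mul_right_right N hN
  have hbF : IsCoprime b (fT T1 a * f2 * f3) := (hb1.mul_right hb2).mul_right hbf
  have hχb := hD.pch.val b hb hbF
  have hχb0 : χ b ≠ 0 := by
    intro h0
    rw [h0, zero_pow hp.ne_zero] at hχb
    exact zero_ne_one hχb
  have hcop : IsCoprime (Ideal.span {c₀}) (mK K M * f3) := by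
    rw [Ideal.isCoprime_iff_sup_eq]
    by_contra hne
    obtain ⟨P, hP, hle⟩ := Ideal.exists_le_maximal _ hne
    have hPf : mK K M * f3 ≤ P := le_sup_right.trans hle
    have hPc : Ideal.span {c₀} ≤ P := le_sup_left.trans hle
    have hP0 : P ≠ ⊥ := by
      rintro rfl
      exact hJ0 (le_bot_iff.1 hPf)
    have hbP : ¬ b ≤ P := by
      intro h5
      rw [Ideal.isCoprime_iff_sup_eq] at hbJ
      exact hP.ne_top (top_le_iff.1 (hbJ ▸ sup_le h5 hPf))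
    obtain ⟨d, hd⟩ := Ideal.dvd_iff_le.2 ((Ideal.span_singleton_le_iff_mem b).2 hc)
    rw [hd] at hPc
    have hdP : d ≤ P := (hP.isPrime.mul_le.1 hPc).resolve_left hbP
    refine hpr ⟨P, hP.isPrime, hP0⟩ hPf ?_
    have h5 : c₀ ∈ b * d := by rw [← hd]; exact Ideal.mem_span_singleton_self _
    rw [mul_comm]
    exact Ideal.mul_mono_right hdP h5
  have hc3 : IsCoprime (Ideal.span {c₀}) f3 := hcop.of_mul_right_right
  have hcu : IsUnit (Ideal.Quotient.mk f3 c₀) := by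
    rw [Ideal.isCoprime_iff_exists] at hc3
    obtain ⟨i, hi, j, hj, hij⟩ := hc3
    obtain ⟨r, rfl⟩ := Ideal.mem_span_singleton.1 hi
    have h5 := congrArg (Ideal.Quotient.mk f3) hij
    rw [map_add, map_mul, map_one, Ideal.Quotient.eq_zero_iff_mem.2 hj, add_zero] at h5
    exact IsUnit.of_mul_eq_one _ h5
  have hχ3 : χ3 (Ideal.Quotient.mk f3 c₀) ^ p = 1 := by
    obtain ⟨u, hu⟩ := hcu
    rw [← hu, ← MulChar.pow_apply_coe, hD.one3, MulChar.one_apply_coe]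
  refine ⟨κ', χ3 (Ideal.Quotient.mk f3 c₀) * (χ b)⁻¹, h1, ?_, ?_⟩
  · rw [mul_pow, inv_pow, hχb, hχ3, inv_one, mul_one]
  · intro x hx d hd
    obtain ⟨hx0, -, h6⟩ := h4 x hx d hd
    refine ⟨hx0, h6, ?_⟩
    have hxf : x - c₀ ∈ f3 := Ideal.mul_le_left (Ideal.mul_le_left (show x - c₀ ∈ mK K M * f3 * b from hx) |> fun h7 => by
      rw [mul_comm]
      exact h7)
    have h7 : Ideal.Quotient.mk f3 x = Ideal.Quotient.mk f3 c₀ := Ideal.Quotient.eq.2 hxf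
    have h8 : χ d * χ b = wW χ1 χ2 x * χ3 (Ideal.Quotient.mk f3 c₀) := by
      rw [← map_mul, hd, hD.eq x hx0, h7]
      rfl
    rw [show χ d = χ d * χ b * (χ b)⁻¹ by rw [mul_assoc, mul_inv_cancel₀ hχb0, mul_one], h8]
    ring


end H35M
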