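import Mathlib
import Pool.Agent.Lib.H55P.T9
import Pool.Agent.Lib.H35M.TS4
import Pool.Agent.Lib.H35M.TS5

/-! # H35M, chunk TS9 (M): the class data exist -/

open NumberField IsDedekindDomain

namespace H35M

open H55N H55P SSG.E

variable {F : Type} [Field F] [NumberField F] [IQ F] {K : Type} [Field K] [NumberField K] [Algebra F K]
  {π π' : 𝓞 F} {p : ℕ} {T1 : Finset (HeightOneSpectrum (𝓞 K))} {a : HeightOneSpectrum (𝓞 K) → ℕ} {f2 f3 : Ideal (𝓞 K)}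
  {χ : Ideal (𝓞 K) →*₀ ℂ} {χ1 : MulChar (𝓞 K ⧸ fT T1 a) ℂ} {χ2 : MulChar (𝓞 K ⧸ f2) ℂ} {χ3 : MulChar (𝓞 K ⧸ f3) ℂ}
  {ψa : AddChar (𝓞 K ⧸ fT T1 a) ℂ}

/-- Chunk TS9 (M). PROOF: the beginning of LVP_twist (Lib/H55P/T9.lean) with J = mK K M * f3: J ≠ ⊥ (f3 ≠ ⊥: pch.ne), J ≠ ⊤ (pt9_prime: a prime w0 with l in w0 and mK ≤ w0), exists_CDJ J (span {p} * J); c₀ i not in (l) b i (hlam there); tw_kappa (TS4)
for every i, choose. -/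
theorem exists_ClD (hp : p.Prime) (hpi : π * π' = (p : 𝓞 F)) (hD : ChD F π π' p T1 a f2 f3 χ χ1 χ2 χ3 ψa) {M : Ideal (𝓞 F)} {ψ : Ideal (𝓞 F) →*₀ 𝓞 F}
    (h : IsHecke M ψ) (hMp : IsCoprime M (Ideal.span {(p : 𝓞 F)})) {l : 𝓞 F} (hl : Mod p M l) :
    mK K M * f3 ≠ ⊥ ∧ mK K M * f3 ≠ ⊤ ∧
    ∃ (ι : Type) (_ : Fintype ι) (b : ι → Ideal (𝓞 K)) (c₀ : ι → 𝓞 K) (T : ι → Set (𝓞 K)) (κ ζ : ι → ℂ),
      ClD F M ψ p f3 χ (wW χ1 χ2) ι b c₀ T κ ζ ∧ (∀ i, c₀ i ∉ Ideal.span {algebraMap (𝓞 F) (𝓞 K) l} * b i) ∧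
      (∀ i, ∀ V : ValuationSubring ℂ, V.valuation (p : ℂ) < 1 → V.valuation (κ i) = 1) ∧ ∀ i, ζ i ^ p = 1 := by
  classical
  obtain ⟨w0, hw0l, hw0M⟩ := pt9_prime K hl
  have hf30 : f3 ≠ ⊥ := by
    intro h0
    apply hD.pch.ne
    rw [h0, Ideal.mul_bot]
  have hJM : mK K M * f3 ≤ mK K M := Ideal.mul_le_left
  have hJ0 : mK K M * f3 ≠ ⊥ := mul_ne_zero (pt9_mK_ne h.ne) hf30
  have hJ1 : mK K M * f3 ≠ ⊤ := by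
    intro h1
    apply w0.isPrime.ne_top
    rw [← top_le_iff, ← h1]
    exact hJM.trans hw0M
  have hg0 : Ideal.span {(p : 𝓞 K)} * (mK K M * f3) ≠ ⊥ := by
    refine mul_ne_zero ?_ hJ0
    have h1 : Ideal.span {(p : 𝓞 K)} ≠ ⊥ := by
      rw [Ne, Ideal.span_singleton_eq_bot, Nat.cast_eq_zero]
      exact hp.ne_zero
    exact h1
  have hgJ : Ideal.span {(p : 𝓞 K)} * (mK K M * f3) ≤ mK K M * f3 := Ideal.mul_le_right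
  obtain ⟨ι, hι, b, c₀, T, hcd⟩ := exists_CDJ (mK K M * f3) (Ideal.span {(p : 𝓞 K)} * (mK K M * f3))
    hJ0 hg0 hgJ hJ1
  have hlam : ∀ i, c₀ i ∉ Ideal.span {algebraMap (𝓞 F) (𝓞 K) l} * b i := by
    intro i hi
    refine hcd.prim i w0 (hJM.trans hw0M) (Ideal.mul_mono_left ?_ hi)
    rw [Ideal.span_singleton_le_iff_mem]
    exact hw0l
  have hkap := fun i => tw_kappa hp hpi hD h hMp (b i) (hcd.ne i) (hcd.cop i) (c₀ i) (hcd.mem i) (hcd.prim i)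
  choose κ ζ hκ1 hζ hκ using hkap
  exact ⟨hJ0, hJ1, ι, hι, b, c₀, T, κ, ζ, ⟨hcd, hκ⟩, hlam, hκ1, hζ⟩

end H35M
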