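import Mathlib
import Pool.Agent.Lib.SSG.S.D3
import Pool.Agent.Lib.H55P.T8
import Pool.Agent.Lib.H35M.TS3
import Pool.Agent.Lib.H35M.TS6B
import Pool.Agent.Lib.H35M.TS9

/-! # H35M, chunk TS10 (M/L): the two smoothed functions -/

open NumberField IsDedekindDomain

namespace H35M

open H55N H55P SSG.E

variable {F : Type} [Field F] [NumberField F] [IQ F] {K : Type} [Field K] [NumberField K] [Algebra F K] {m : ℕ}
  {V : ValuationSubring ℂ} {π π' : 𝓞 F} {p : ℕ} {De : ℂ} {T1 : Finset (HeightOneSpectrum (𝓞 K))} {a : HeightOneSpectrum (𝓞 K) → ℕ} {f2 f3 : Ideal (𝓞 K)}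
  {χ : Ideal (𝓞 K) →*₀ ℂ} {χ1 : MulChar (𝓞 K ⧸ fT T1 a) ℂ} {χ2 : MulChar (𝓞 K ⧸ f2) ℂ} {χ3 : MulChar (𝓞 K ⧸ f3) ℂ}
  {ψa : AddChar (𝓞 K ⧸ fT T1 a) ℂ}

theorem ts10_pow {z : 𝓞 F} {g : Ideal (𝓞 K)} {n N : ℕ} (h : algebraMap (𝓞 F) (𝓞 K) (z ^ n) ∈ g) (hN : n ≤ N) :
    algebraMap (𝓞 F) (𝓞 K) (z ^ N) ∈ g := by
  obtain ⟨k, rfl⟩ := Nat.exists_eq_add_of_le hN
  rw [pow_add, map_mul]
  exact g.mul_mem_right _ h

theorem ts10_p (hP : Plc F V π π' p) : V.valuation (p : ℂ) < 1 := by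
  have h1 : (p : ℂ) = eF F π * eF F π' := by
    rw [← map_mul, hP.mul, map_natCast]
  rw [h1, map_mul, hP.one, mul_one]
  exact hP.lt

/-- Chunk TS10 (M/L). PROOF (the structure of LVP_twist, Lib/H55P/T9.lean). l from h.toMod p hMp. exists_ClD (TS9). N = max of 1 and the exponents in hD.pi1, hD.pi2 (multiples: π^N in the ideal for larger N). For every i: CVH for b i, f3, c₀ i (hcd.mem, hlam; b i coprime
to p: hcd.cop), N: Bad i, finite. exists_smoothP (H55P/T8) with Bad = the union of the Bad i, of {w | b i ≤ w} (pt9_finite) and of {w | p ∈ w} (finite): c, q with c j prime, V(1 - Ψ(c j)) = 1, b i coprime to c j (as in T9), p not in c j. val i with ClassV.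
R i : representatives, exists_RpU (SSG/S/D3; I = J b i ≠ ⊥, p^N ≠ 0). (ser) for wW (wtW, J = mK f3 ≤ f3) and for wC (wtC): ZW i, ZC i analytic, with the sums over T i (hcd.trans i) and the values ZW i 1 = sum over R i of wW val, ZC i 1 likewise.
G s = sum κ i ζ i absNorm(b i)^s ZW i s, GC s = sum κ i absNorm(b i)^s ZC i s: analytic (pt3_pow_analytic). The series: serW (TS5; p-modulus f = f1 f2), serC (TS6). Valuations at 1: (absNorm)^1 is an integer (pt9_nat), V(κ i) = 1 (V(p) < 1 from Plc),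
intW and cmpW (TS3) for every i: De τ G 1 = sum over i of κ ζ N(b) (De sum τ wW val); De (τ G 1 - GC 1) = sum κ N(b) (De sum (ζ τ wW - wC) val). -/
theorem tw_core (hP : Plc F V π π' p) {M : Ideal (𝓞 F)} {ψ : Ideal (𝓞 F) →*₀ 𝓞 F} (h : IsHecke M ψ)
    (hMp : IsCoprime M (Ideal.span {(p : 𝓞 F)})) (hm : Module.finrank F K = m + 1) (hNT : NTP K p M ψ V)
    (hCV : ∀ l, Mod p M l → CVH F K m V π π' p De M l) (hD : ChD F π π' p T1 a f2 f3 χ χ1 χ2 χ3 ψa) [Fintype (𝓞 K ⧸ fT T1 a)] :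
    ∃ (c : Fin (m + 1) × Fin 2 → Ideal (𝓞 K)) (q : Fin (m + 1) × Fin 2 → ℕ) (G GC : ℂ → ℂ), Smooth c q ∧ (∀ j, (c j).IsPrime) ∧
      (∀ j, V.valuation (1 - PsiP K ψ (c j)) = 1) ∧ AnalyticOnNhd ℂ G {s | 1 / 2 < s.re} ∧ AnalyticOnNhd ℂ GC {s | 1 / 2 < s.re} ∧
      (∀ s : ℂ, 3 / 2 < s.re → (∏ j, (1 - (q j : ℂ) * tm (PsiP K ψ * χ : Ideal (𝓞 K) →*₀ ℂ) s (c j))) *
        ∑' d, tm (PsiP K ψ * χ : Ideal (𝓞 K) →*₀ ℂ) s d = G s) ∧
      (∀ s : ℂ, 3 / 2 < s.re → (∑ S ∈ T1.powerset, (-1) ^ S.card * (Ideal.absNorm (fS T1 S a) : ℂ) *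
          tm (PsiP K ψ * oneI (f2 * f3) : Ideal (𝓞 K) →*₀ ℂ) s (fS T1 S a)) *
        ((∏ j, (1 - (q j : ℂ) * tm (PsiP K ψ * oneI (f2 * f3) : Ideal (𝓞 K) →*₀ ℂ) s (c j))) *
          ∑' d, tm (PsiP K ψ * oneI (f2 * f3) : Ideal (𝓞 K) →*₀ ℂ) s d) = GC s) ∧
      V.valuation (De * (gaussSum χ1⁻¹ ψa * G 1)) ≤ 1 ∧ V.valuation (De * (gaussSum χ1⁻¹ ψa * G 1 - GC 1)) < 1 := by
  classical
  have hp := hP.prime
  have hVp : V.valuation (p : ℂ) < 1 := ts10_p hP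
  obtain ⟨l, hl⟩ := h.toMod p hMp
  obtain ⟨hJ0, hJ1, ι, hι, b, c₀, T, κ, ζ, hcl, hlam, hκu, hζ⟩ := exists_ClD hp hP.mul hD h hMp hl
  obtain ⟨N1, hN1'⟩ := hD.pi1
  obtain ⟨N2, hN2'⟩ := hD.pi2
  obtain ⟨N, hN0, hN1, hN2⟩ : ∃ N : ℕ, 1 ≤ N ∧ algebraMap (𝓞 F) (𝓞 K) (π ^ N) ∈ fT T1 a ∧
      algebraMap (𝓞 F) (𝓞 K) (π' ^ N) ∈ f2 :=
    ⟨max 1 (max N1 N2), le_max_left _ _, ts10_pow hN1' ((le_max_left _ _).trans (le_max_right _ _)),
      ts10_pow hN2' ((le_max_right _ _).trans (le_max_right _ _))⟩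
  have hf3 : f3 ≠ ⊥ := right_ne_zero_of_mul hD.pch.ne
  have hbp : ∀ i, IsCoprime (b i) (Ideal.span {(p : 𝓞 K)}) := fun i => (hcl.cd.cop i).of_mul_right_left
  have hCVi := fun i => hCV l hl (b i) f3 (hcl.cd.ne i) (hbp i) hf3 hD.cop3 (c₀ i) (hcl.cd.mem i) (hlam i) N hN0
  choose Bad hBad hcv using hCVi
  have hpK : Ideal.span {(p : 𝓞 K)} ≠ ⊥ := by
    rw [Ne, Ideal.span_singleton_eq_bot, Nat.cast_eq_zero]
    exact hp.ne_zero
  obtain ⟨c, q, hs, hcb, hun⟩ := exists_smoothP p hp h hMp V hVp hNT m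
    (((⋃ i, Bad i) ∪ ⋃ i, {w : Ideal (𝓞 K) | b i ≤ w}) ∪ {w : Ideal (𝓞 K) | Ideal.span {(p : 𝓞 K)} ≤ w})
    (((Set.finite_iUnion hBad).union (Set.finite_iUnion fun i => pt9_finite (b i) (hcl.cd.ne i))).union
      (pt9_finite _ hpK))
  have hcp : ∀ j, (c j).IsPrime := fun j => (hcb j).1
  have hbc : ∀ i j, IsCoprime (b i) (c j) := by
    intro i j
    rw [Ideal.isCoprime_iff_sup_eq]
    by_contra h
    have hmax : (c j).IsMaximal := (hcp j).isMaximal (pt3_ne hs j)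
    have h1 : c j ≤ b i ⊔ c j := le_sup_right
    have h2 : b i ⊔ c j = c j := (hmax.eq_of_le h h1).symm
    apply (hcb j).2
    refine Or.inl (Or.inr (Set.mem_iUnion.2 ⟨i, ?_⟩))
    show b i ≤ c j
    rw [← h2]
    exact le_sup_left
  have hpc : ∀ j, (p : 𝓞 K) ∉ c j := fun j hj =>
    (hcb j).2 (Or.inr ((Ideal.span_singleton_le_iff_mem (c j)).2 hj))
  have hvex := fun i => hcv i c q hs (fun j hj => (hcb j).2 (Or.inl (Or.inl (Set.mem_iUnion.2 ⟨i, hj⟩))))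
  choose val hval using hvex
  have hRex := fun i => SSG.S.exists_RpU (mK K M * f3 * b i) (mul_ne_zero hJ0 (hcl.cd.ne i)) (c₀ i) (p ^ N)
    (pow_ne_zero _ hp.ne_zero)
  choose R hR using hRex
  have hJ3 : mK K M * f3 ≤ f3 := Ideal.mul_le_right
  have hWex := fun i => (hval i).ser (wW χ1 χ2) (wtW hP.mul hD hN1 hN2 hJ3 (mK K M * f3 * b i) (c₀ i))
  choose ZW hZWa hZWs hZWv using hWex
  have hCex := fun i => (hval i).ser (wC f2 ψa) (wtC hP.mul hN1 hN2 (mK K M * f3) (mK K M * f3 * b i) (c₀ i) ψa)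
  choose ZC hZCa hZCs hZCv using hCex
  have hNb : ∀ i, Ideal.absNorm (b i) ≠ 0 := fun i => by
    rw [Ne, Ideal.absNorm_eq_zero_iff]
    exact hcl.cd.ne i
  refine ⟨c, q, fun s => ∑ i, κ i * ζ i * (Ideal.absNorm (b i) : ℂ) ^ s * ZW i s,
    fun s => ∑ i, κ i * (Ideal.absNorm (b i) : ℂ) ^ s * ZC i s, hs, hcp, hun, ?_, ?_, ?_, ?_, ?_, ?_⟩
  · intro s hs'
    exact Finset.analyticAt_fun_sum _ fun i _ =>
      (analyticAt_const.mul (pt3_pow_analytic _ (hNb i) Set.univ s trivial)).mul (hZWa i s hs')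
  · intro s hs'
    exact Finset.analyticAt_fun_sum _ fun i _ =>
      (analyticAt_const.mul (pt3_pow_analytic _ (hNb i) Set.univ s trivial)).mul (hZCa i s hs')
  · intro s hs'
    exact serW (f := fT T1 a * f2) h hp hJ1 hD.pch hcl hs hcp hbc (fun i => ZW i s) s hs' fun i =>
      hZWs i (T i) (hcl.cd.trans i) s hs'
  · intro s hs'
    exact (serC hP.mul hD.pos hD.pi1 hD.pi2 hD.psi h hJ1 hcl hs hcp hbc hpc (fun i => ZC i s) s hs' fun i =>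
      hZCs i (T i) (hcl.cd.trans i) s hs').symm
  · have e : De * (gaussSum χ1⁻¹ ψa * ∑ i, κ i * ζ i * (Ideal.absNorm (b i) : ℂ) ^ (1 : ℂ) * ZW i 1) =
        ∑ i, κ i * ζ i * ((Ideal.absNorm (b i) : ℕ) : ℂ) *
          (De * ∑ x ∈ R i, (gaussSum χ1⁻¹ ψa * wW χ1 χ2 x) * val i x) := by
      rw [Finset.mul_sum, Finset.mul_sum]
      refine Finset.sum_congr rfl fun i _ => ?_
      have e1 : ∑ x ∈ R i, (gaussSum χ1⁻¹ ψa * wW χ1 χ2 x) * val i x = gaussSum χ1⁻¹ ψa * ZW i 1 := by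
        rw [hZWv i (R i) (hR i), Finset.mul_sum]
        exact Finset.sum_congr rfl fun x _ => mul_assoc _ _ _
      rw [e1, Complex.cpow_one]
      ring
    show V.valuation (De * (gaussSum χ1⁻¹ ψa * ∑ i, κ i * ζ i * (Ideal.absNorm (b i) : ℂ) ^ (1 : ℂ) * ZW i 1)) ≤ 1
    rw [e]
    refine Valuation.map_sum_le _ fun i _ => ?_
    have hz : V.valuation (ζ i) ≤ 1 := by
      have h1 := congrArg V.valuation (hζ i)
      rw [map_pow, map_one] at h1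
      exact (pt6_le hp.ne_zero h1).le
    rw [map_mul, map_mul, map_mul, hκu i V hVp, one_mul]
    exact mul_le_one' (mul_le_one' hz (pt9_nat V _)) (intW hP (hval i) (hR i) hD hN1 hN2)
  · have e : De * (gaussSum χ1⁻¹ ψa * (∑ i, κ i * ζ i * (Ideal.absNorm (b i) : ℂ) ^ (1 : ℂ) * ZW i 1) -
          ∑ i, κ i * (Ideal.absNorm (b i) : ℂ) ^ (1 : ℂ) * ZC i 1) =
        ∑ i, κ i * ((Ideal.absNorm (b i) : ℕ) : ℂ) *
          (De * ∑ x ∈ R i, (ζ i * (gaussSum χ1⁻¹ ψa * wW χ1 χ2 x) - wC f2 ψa x) * val i x) := by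
      rw [Finset.mul_sum, ← Finset.sum_sub_distrib, Finset.mul_sum]
      refine Finset.sum_congr rfl fun i _ => ?_
      have e1 : ∑ x ∈ R i, (ζ i * (gaussSum χ1⁻¹ ψa * wW χ1 χ2 x) - wC f2 ψa x) * val i x =
          ζ i * (gaussSum χ1⁻¹ ψa * ZW i 1) - ZC i 1 := by
        rw [hZWv i (R i) (hR i), hZCv i (R i) (hR i), Finset.mul_sum, Finset.mul_sum, ← Finset.sum_sub_distrib]
        refine Finset.sum_congr rfl fun x _ => ?_
        ring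
      rw [e1, Complex.cpow_one]
      ring
    show V.valuation (De * (gaussSum χ1⁻¹ ψa * (∑ i, κ i * ζ i * (Ideal.absNorm (b i) : ℂ) ^ (1 : ℂ) * ZW i 1) -
          ∑ i, κ i * (Ideal.absNorm (b i) : ℂ) ^ (1 : ℂ) * ZC i 1)) < 1
    rw [e]
    refine Valuation.map_sum_lt _ one_ne_zero fun i _ => ?_
    rw [map_mul, map_mul, hκu i V hVp, one_mul]
    exact lt_of_le_of_lt (mul_le_of_le_one_left' (pt9_nat V _)) (cmpW hP (hval i) (hR i) hD hN1 hN2 (ζ i) (hζ i))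

end H35M
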