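import Mathlib
import Pool.Agent.Lib.SSG.S.S3
import Pool.Agent.Lib.H35M.TWD

/-! # H35M, chunk TS8 (M): the continuation of the twisted series beyond Re s = 3/2 -/

open NumberField IsDedekindDomain

namespace H35M

open H55N H55P SSG.E

variable {F : Type} [Field F] [NumberField F] [IQ F] {K : Type} [Field K] [NumberField K] [Algebra F K]

theorem ts8_cop {f : Ideal (𝓞 K)} {x y : 𝓞 K} (h : x - y ∈ f) (hx : IsCoprime (Ideal.span {x}) f) : IsCoprime (Ideal.span {y}) f := by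
  rw [Ideal.isCoprime_iff_sup_eq] at hx ⊢
  rw [← top_le_iff, ← hx]
  refine sup_le ?_ le_sup_right
  rw [Ideal.span_singleton_le_iff_mem]
  have h1 : x = y + (x - y) := by ring
  rw [h1]
  exact Ideal.add_mem _ (Ideal.mem_sup_left (Ideal.mem_span_singleton_self _)) (Ideal.mem_sup_right h)

theorem ts8_per {p : ℕ} {f : Ideal (𝓞 K)} {χ : Ideal (𝓞 K) →*₀ ℂ} (hχ : PCh p f χ) {x y : 𝓞 K} (hx : x ≠ 0) (hy : y ≠ 0) (h : x - y ∈ f) :
    χ (Ideal.span {x}) = χ (Ideal.span {y}) := by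
  by_cases hc : IsCoprime (Ideal.span {x}) f
  · exact hχ.per x y hx hy hc h
  · have hc2 : ¬ IsCoprime (Ideal.span {y}) f := by
      intro h2
      apply hc
      have h3 : y - x ∈ f := by
        rw [← neg_sub]
        exact f.neg_mem h
      exact ts8_cop h3 h2
    rw [hχ.zero _ hc, hχ.zero _ hc2]

theorem ts8_norm {p : ℕ} (hp : p ≠ 0) {f : Ideal (𝓞 K)} {χ : Ideal (𝓞 K) →*₀ ℂ} (hχ : PCh p f χ) (a : Ideal (𝓞 K)) : ‖χ a‖ ≤ 1 := by
  by_cases h0 : a = ⊥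
  · rw [h0]
    have h1 : χ ⊥ = 0 := map_zero χ
    rw [h1, norm_zero]
    exact zero_le_one
  · by_cases hc : IsCoprime a f
    · have h1 := congrArg norm (hχ.val a h0 hc)
      rw [norm_pow, NormOneClass.norm_one] at h1
      exact le_of_eq ((pow_eq_one_iff_of_nonneg (norm_nonneg _) hp).1 h1)
    · rw [hχ.zero a hc, norm_zero]
      exact zero_le_one

/-- Chunk TS8 (M). PORT of s3_cont (Lib/SSG/S/S3.lean) with a general modulus f (f ≠ ⊥, not prime to p; nopoles does not require it) and a general character χ in place of chN: J = mK K M * f, g = span {p} * J (so that the b i are coprime to p and to f), κ from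
k1_kappa (J b i ≤ mK ⊤ b i), χ(b i) ≠ 0 (b i coprime to f: χ(b i)^p = 1), for x in XS (J b i) (c₀ i) and d b i = (x): x - c₀ i in f, both x and c₀ i coprime to f (hcd.prim), nonzero, so χ (span {x}) = χ (span {c₀ i}) (PCh.per); the norm bound |χ| ≤ 1. -/
theorem tw_cont {p : ℕ} (hp : p.Prime) {M : Ideal (𝓞 F)} {ψ : Ideal (𝓞 F) →*₀ 𝓞 F} (h : IsHecke M ψ)
    (hMp : IsCoprime M (Ideal.span {(p : 𝓞 F)})) {m : ℕ} (hm : Module.finrank F K = m + 1) (f : Ideal (𝓞 K)) (χ : Ideal (𝓞 K) →*₀ ℂ)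
    (hχ : PCh p f χ) :
    ∃ Z0 : ℂ → ℂ, AnalyticOnNhd ℂ Z0 {s | 3 / 2 - 1 / (2 * (m + 1 : ℝ)) < s.re} ∧
      ∀ s : ℂ, 3 / 2 < s.re → HasSum (tm (PsiP K ψ * χ : Ideal (𝓞 K) →*₀ ℂ) s) (Z0 s) := by
  classical
  obtain ⟨l, hl⟩ := h.toMod p hMp
  obtain ⟨w0, hw0l, hw0M⟩ := pt9_prime K hl
  have hpne : (p : 𝓞 K) ≠ 0 := by
    rw [Ne, Nat.cast_eq_zero]
    exact hp.ne_zero
  have hf0 : f ≠ ⊥ := hχ.ne
  have hJM : mK K M * f ≤ mK K M := Ideal.mul_le_left
  have hJ0 : mK K M * f ≠ ⊥ := mul_ne_zero (pt9_mK_ne h.ne) hf0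
  have hJ1 : mK K M * f ≠ ⊤ := by
    intro h1
    apply w0.isPrime.ne_top
    rw [← top_le_iff, ← h1]
    exact hJM.trans hw0M
  have hg0 : Ideal.span {(p : 𝓞 K)} * (mK K M * f) ≠ ⊥ := by
    refine mul_ne_zero ?_ hJ0
    have h1 : Ideal.span {(p : 𝓞 K)} ≠ ⊥ := by
      rw [Ne, Ideal.span_singleton_eq_bot]
      exact hpne
    exact h1
  have hgJ : Ideal.span {(p : 𝓞 K)} * (mK K M * f) ≤ mK K M * f := Ideal.mul_le_right
  obtain ⟨ι, hι, b, c₀, T, hcd⟩ := exists_CDJ (mK K M * f) (Ideal.span {(p : 𝓞 K)} * (mK K M * f))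
    hJ0 hg0 hgJ hJ1
  have hbp : ∀ i, IsCoprime (b i) (Ideal.span {(p : 𝓞 K)}) := fun i =>
    (hcd.cop i).of_mul_right_left
  have hlam : ∀ i, c₀ i ∉ Ideal.span {algebraMap (𝓞 F) (𝓞 K) l} * b i := by
    intro i hi
    refine hcd.prim i w0 (hJM.trans hw0M) (Ideal.mul_mono_left ?_ hi)
    rw [Ideal.span_singleton_le_iff_mem]
    exact hw0l
  have hc0 : ∀ i, c₀ i ≠ 0 := by
    intro i h0
    apply hlam i
    rw [h0]
    exact Submodule.zero_mem _
  have hnop := fun i => nopoles p hp hl K m hm (b i) f (hcd.ne i) hf0 (c₀ i) (hcd.mem i) (hlam i)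
  choose Z0 hZ0 hZ0s using hnop
  have hMtop : (mK K M * ⊤ : Ideal (𝓞 K)) = mK K M := Ideal.mul_top _
  have hkap := fun i => SSG.S.k1_kappa p hp h hMp (b i) (hcd.ne i)
    (by
      rw [hMtop]
      exact IsCoprime.mul_right (hbp i) (hcd.cop i).of_mul_right_right.of_mul_right_left) (c₀ i) (hcd.mem i)
    (fun w hw => hcd.prim i w (hJM.trans (by rw [hMtop] at hw; exact hw)))
  choose κ _ _ hκ using hkap
  have hbne : ∀ i, χ (b i) ≠ 0 := by
    intro i h0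
    have h1 := hχ.val (b i) (hcd.ne i) (hcd.cop i).of_mul_right_right.of_mul_right_right
    rw [h0, zero_pow hp.ne_zero] at h1
    exact zero_ne_one h1
  have hC : CoefP F (mK K M * f) ι b c₀ (PsiP K ψ * χ)
      (fun i => κ i * (χ (Ideal.span {c₀ i}) * (χ (b i))⁻¹)) := by
    refine coef_mulP h (fun a ha => hχ.zero a ha) (fun a => ts8_norm hp.ne_zero hχ a) ?_
    intro i x hx a ha
    have hx' : x ∈ XS (mK K M * ⊤ * b i) (c₀ i) := by
      have h1 : mK K M * f * b i ≤ mK K M * ⊤ * b i := Ideal.mul_mono_left (Ideal.mul_mono_right le_top)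
      exact h1 hx
    obtain ⟨hx0, hpsi⟩ := hκ i x hx' a ha
    refine ⟨hx0, ?_⟩
    have hxf : x - c₀ i ∈ f := by
      have h1 : mK K M * f * b i ≤ f := Ideal.mul_le_left.trans Ideal.mul_le_right
      exact h1 hx
    have h2 : χ a * χ (b i) = χ (Ideal.span {c₀ i}) := by
      rw [← map_mul, ha]
      exact ts8_per hχ hx0 (hc0 i) hxf
    show PsiP K ψ a * χ a = _
    rw [hpsi, ← h2, mul_inv_cancel_right₀ (hbne i)]
    ring
  have hNb : ∀ i, Ideal.absNorm (b i) ≠ 0 := fun i => by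
    rw [Ne, Ideal.absNorm_eq_zero_iff]
    exact hcd.ne i
  refine ⟨fun s : ℂ => ∑ i, (κ i * (χ (Ideal.span {c₀ i}) * (χ (b i))⁻¹)) *
    (Ideal.absNorm (b i) : ℂ) ^ s * Z0 i s, ?_, fun s hs' => ?_⟩
  · intro s hs'
    exact Finset.analyticAt_fun_sum _ fun i _ =>
      (analyticAt_const.mul (pt3_pow_analytic _ (hNb i) Set.univ s trivial)).mul (hZ0 i s hs')
  · exact series_eq0P hgJ hJ1 hcd hC Z0 s fun i => hZ0s i (T i) (hcd.trans i) s hs'

end H35M
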