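import Mathlib
import Pool.Agent.Lib.SSG.S.S4
import Pool.Agent.Lib.H35M.TS8
import Pool.Agent.Lib.H35M.TS10

/-! # H35M, chunk TS11 (M): the twisted L-value is integral -/

open NumberField IsDedekindDomain

namespace H35M

open H55N H55P SSG.E

variable {F : Type} [Field F] [NumberField F] [IQ F] {K : Type} [Field K] [NumberField K] [Algebra F K] {m : ℕ}
  {V : ValuationSubring ℂ} {π π' : 𝓞 F} {p : ℕ} {De : ℂ} {T1 : Finset (HeightOneSpectrum (𝓞 K))} {a : HeightOneSpectrum (𝓞 K) → ℕ} {f2 f3 : Ideal (𝓞 K)}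
  {χ : Ideal (𝓞 K) →*₀ ℂ} {χ1 : MulChar (𝓞 K ⧸ fT T1 a) ℂ} {χ2 : MulChar (𝓞 K ⧸ f2) ℂ} {χ3 : MulChar (𝓞 K ⧸ f3) ℂ}
  {ψa : AddChar (𝓞 K ⧸ fT T1 a) ℂ}

omit [NumberField K] [Algebra F K] in
theorem ts11_lt (hP : Plc F V π π' p) : V.valuation (p : ℂ) < 1 := by
  have h1 : (p : ℂ) = eF F π * eF F π' := by
    rw [← map_mul, hP.mul, map_natCast]
  rw [h1, map_mul, hP.one, mul_one]
  exact hP.lt

/-- Chunk TS11a (S/M). The smoothing factors: χ(c) ^ p = 1 or χ(c) = 0 (PCh), so ‖χ c‖ = 1 or 0 and V(χ c - 1) < 1 (root_max): s4_ne, s4_unit (SSG/S/S4). -/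
theorem smo_fac (hP : Plc F V π π' p) {M : Ideal (𝓞 F)} {ψ : Ideal (𝓞 F) →*₀ 𝓞 F} (h : IsHecke M ψ) {f : Ideal (𝓞 K)} (hχ : PCh p f χ)
    {c : Fin (m + 1) × Fin 2 → Ideal (𝓞 K)} {q : Fin (m + 1) × Fin 2 → ℕ} (hs : Smooth c q) (hu : ∀ j, V.valuation (1 - PsiP K ψ (c j)) = 1) :
    (∀ s : ℂ, s.re < 3 / 2 → ∏ j, (1 - (q j : ℂ) * tm (PsiP K ψ * χ : Ideal (𝓞 K) →*₀ ℂ) s (c j)) ≠ 0) ∧
      V.valuation (∏ j, (1 - (q j : ℂ) * tm (PsiP K ψ * χ : Ideal (𝓞 K) →*₀ ℂ) 1 (c j))) = 1 := by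
  have hV := ts11_lt hP
  constructor
  · intro s hs'
    refine Finset.prod_ne_zero_iff.2 fun j _ => SSG.S.s4_ne h χ (c j) (q j) (hs.prime j) (hs.norm j) ?_ s hs'
    by_cases hj : IsCoprime (c j) f
    · left
      have h1 := hχ.val _ (pt3_ne hs j) hj
      refine (pow_eq_one_iff_of_nonneg (norm_nonneg _) hP.prime.ne_zero).1 ?_
      rw [← norm_pow, h1, NormOneClass.norm_one]
    · exact Or.inr (hχ.zero _ hj)
  · rw [map_prod]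
    refine Finset.prod_eq_one fun j _ => SSG.S.s4_unit V ψ χ (c j) (q j) (hs.prime j) (hs.norm j) (hu j) ?_
    by_cases hj : IsCoprime (c j) f
    · exact Or.inl (root_max p hP.prime V hV _ (hχ.val _ (pt3_ne hs j) hj))
    · exact Or.inr (hχ.zero _ hj)

/-- The product of the smoothing factors is analytic. -/
theorem ts11_an {c : Fin (m + 1) × Fin 2 → Ideal (𝓞 K)} {q : Fin (m + 1) × Fin 2 → ℕ} (hs : Smooth c q)
    (h : Ideal (𝓞 K) →*₀ ℂ) :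
    AnalyticOnNhd ℂ (fun s : ℂ => ∏ j, (1 - (q j : ℂ) * tm h s (c j))) {s | 1 / 2 < s.re} := by
  intro s hs'
  exact Finset.analyticAt_fun_prod _ fun j _ =>
    (analyticAt_const.sub (analyticAt_const.mul
      (pt3_tm_analytic h (c j) (pt3_ne hs j) Set.univ s trivial)))

/-- Chunk TS11 (M). PROOF. tw_core: c, q, G. tw_cont (TS8): Z0. glue (H55N/TW1) with δ = 1/(2(m+1)), P s = the product of the smoothing factors (analytic: pt3_tm_analytic; nonzero for Re s < 3/2: TS11a), as in LVP_twist (T9): Λ analytic, Λ = Z0 for Re s > 3/2,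
G = P Λ for Re s > 1/2. Λ 1 = G 1 / P 1, V(P 1) = 1, so V(De τ Λ 1) = V(De τ G 1) <= 1. -/
theorem tw_int (hP : Plc F V π π' p) {M : Ideal (𝓞 F)} {ψ : Ideal (𝓞 F) →*₀ 𝓞 F} (h : IsHecke M ψ)
    (hMp : IsCoprime M (Ideal.span {(p : 𝓞 F)})) (hm : Module.finrank F K = m + 1) (hNT : NTP K p M ψ V)
    (hCV : ∀ l, Mod p M l → CVH F K m V π π' p De M l) (hD : ChD F π π' p T1 a f2 f3 χ χ1 χ2 χ3 ψa) [Fintype (𝓞 K ⧸ fT T1 a)] :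
    LVi V (De * gaussSum χ1⁻¹ ψa) (PsiP K ψ * χ : Ideal (𝓞 K) →*₀ ℂ) := by
  obtain ⟨c, q, G, GC, hs, -, hun, hGa, -, e1, -, v1, -⟩ := tw_core hP h hMp hm hNT hCV hD
  obtain ⟨Z0, hZ0a, e3⟩ := tw_cont hP.prime h hMp hm (fT T1 a * f2 * f3) χ hD.pch
  obtain ⟨hP0, hP1⟩ := smo_fac hP h hD.pch hs hun
  obtain ⟨Λ, hΛa, hΛ, hΛG⟩ := glue (1 / (2 * (m + 1 : ℝ))) (by positivity) G Z0
    (fun s : ℂ => ∏ j, (1 - (q j : ℂ) * tm (PsiP K ψ * χ : Ideal (𝓞 K) →*₀ ℂ) s (c j)))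
    hGa hZ0a (ts11_an hs _) hP0
    (fun s hs' => by
      show _ = _ * _
      rw [← e1 s hs', (e3 s hs').tsum_eq])
  refine ⟨Λ, hΛa, fun s hs' => ?_, ?_⟩
  · rw [hΛ s hs']
    exact e3 s hs'
  · have h1re : (1 / 2 : ℝ) < (1 : ℂ).re := by norm_num
    have e5 : G 1 = (∏ j, (1 - (q j : ℂ) * tm (PsiP K ψ * χ : Ideal (𝓞 K) →*₀ ℂ) 1 (c j))) * Λ 1 := hΛG 1 h1re
    rw [e5] at v1
    have e6 : De * (gaussSum χ1⁻¹ ψa * ((∏ j, (1 - (q j : ℂ) * tm (PsiP K ψ * χ : Ideal (𝓞 K) →*₀ ℂ) 1 (c j))) * Λ 1)) =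
        (∏ j, (1 - (q j : ℂ) * tm (PsiP K ψ * χ : Ideal (𝓞 K) →*₀ ℂ) 1 (c j))) * (De * gaussSum χ1⁻¹ ψa * Λ 1) := by ring
    rwa [e6, map_mul, hP1, one_mul] at v1

end H35M
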