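import Mathlib
import Pool.Agent.Lib.H35M.TWD
import Pool.Agent.Lib.H35M.RS2
import Pool.Agent.Lib.H55P.T6

/-! # H35M, chunk TS7A (S/M): the Euler factor of the primes above π -/

open NumberField IsDedekindDomain

namespace H35M

open H55N H55P SSG.E

variable {F : Type} [Field F] [NumberField F] [IQ F] {K : Type} [Field K] [NumberField K] [Algebra F K]
  {V : ValuationSubring ℂ} {π π' : 𝓞 F} {p : ℕ} {T1 : Finset (HeightOneSpectrum (𝓞 K))} {a : HeightOneSpectrum (𝓞 K) → ℕ} {f2 f3 : Ideal (𝓞 K)}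

/-- Chunk TS7a (S). absNorm Q * tm h2 1 Q = Ψ(Q) for Q = fS T1 S a: tm h 1 Q = h Q (absNorm Q)^(-1), oneI (f2 f3) Q = 1 since Q divides f1 (a power of π lies in f1), f2 contains a power of π', π and π' are coprime (mul, cop in Plc), f3 is coprime to p. -/
theorem e1_term (hP : Plc F V π π' p) (h1 : ∃ N, algebraMap (𝓞 F) (𝓞 K) (π ^ N) ∈ fT T1 a) (hpos : ∀ v ∈ T1, 0 < a v)
    (h2 : ∃ N, algebraMap (𝓞 F) (𝓞 K) (π' ^ N) ∈ f2) (h3 : IsCoprime f3 (Ideal.span {(p : 𝓞 K)})) (ψ : Ideal (𝓞 F) →*₀ 𝓞 F)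
    (S : Finset (HeightOneSpectrum (𝓞 K))) (hS : S ⊆ T1) :
    (Ideal.absNorm (fS T1 S a) : ℂ) * tm (PsiP K ψ * oneI (f2 * f3) : Ideal (𝓞 K) →*₀ ℂ) 1 (fS T1 S a) = PsiP K ψ (fS T1 S a) := by
  have hQ0 : fS T1 S a ≠ ⊥ := by
    unfold fS
    rw [← Ideal.zero_eq_bot]
    refine Finset.prod_ne_zero_iff.2 fun v _ => pow_ne_zero _ ?_
    rw [Ideal.zero_eq_bot]
    exact v.ne_bot
  have hle : fT T1 a ≤ fS T1 S a := by
    have e1 : fS T1 S a * ∏ v ∈ S, v.asIdeal ≤ fS T1 S a := Ideal.mul_le_left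
    rw [fS_mul hS hpos] at e1
    exact e1
  have hc2 : IsCoprime (fS T1 S a) f2 := by
    obtain ⟨N1, hN1⟩ := h1
    obtain ⟨N2, hN2⟩ := h2
    have hc : IsCoprime (π ^ N1) (π' ^ N2) := hP.cop.pow
    have hc' : IsCoprime (algebraMap (𝓞 F) (𝓞 K) (π ^ N1)) (algebraMap (𝓞 F) (𝓞 K) (π' ^ N2)) := hc.map (algebraMap (𝓞 F) (𝓞 K))
    obtain ⟨u, t, hut⟩ := hc'
    rw [Ideal.isCoprime_iff_exists]
    exact ⟨_, Ideal.mul_mem_left _ u (hle hN1), _, Ideal.mul_mem_left _ t hN2, hut⟩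
  have hc3 : IsCoprime (fS T1 S a) f3 := by
    obtain ⟨N1, hN1⟩ := h1
    have hp1 : ((p : 𝓞 K)) ^ N1 ∈ fT T1 a := by
      have e1 : ((p : 𝓞 K)) ^ N1 = algebraMap (𝓞 F) (𝓞 K) (π' ^ N1) * algebraMap (𝓞 F) (𝓞 K) (π ^ N1) := by
        rw [← map_mul, ← mul_pow, mul_comm π' π, hP.mul, map_pow, map_natCast]
      rw [e1]
      exact Ideal.mul_mem_left _ _ hN1
    have h4 : IsCoprime f3 (Ideal.span {(p : 𝓞 K)} ^ N1) := h3.pow_right
    rw [Ideal.span_singleton_pow] at h4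
    obtain ⟨x, hx, y, hy, hxy⟩ := Ideal.isCoprime_iff_exists.1 h4
    rw [Ideal.isCoprime_iff_exists]
    refine ⟨y, ?_, x, hx, by rw [add_comm, hxy]⟩
    exact ((Ideal.span_singleton_le_iff_mem _).2 (hle hp1)) hy
  have hone : oneI (f2 * f3) (fS T1 S a) = 1 := by
    classical
    have e : oneI (f2 * f3) (fS T1 S a) = if fS T1 S a ≠ ⊥ ∧ IsCoprime (fS T1 S a) (f2 * f3) then 1 else 0 := rfl
    rw [e, if_pos ⟨hQ0, hc2.mul_right hc3⟩]
  have hN0 : (Ideal.absNorm (fS T1 S a) : ℂ) ≠ 0 := by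
    exact_mod_cast (mt Ideal.absNorm_eq_zero_iff.1 hQ0)
  have htm : tm (PsiP K ψ * oneI (f2 * f3) : Ideal (𝓞 K) →*₀ ℂ) 1 (fS T1 S a) =
      PsiP K ψ (fS T1 S a) * oneI (f2 * f3) (fS T1 S a) * (Ideal.absNorm (fS T1 S a) : ℂ) ^ (-1 : ℂ) := rfl
  rw [htm, hone, mul_one, Complex.cpow_neg_one]
  field_simp

/-- Chunk TS7b (S/M). V(Ψ(v)) = 1 for π in v. PROOF. relNorm v = (π)^f (v lies above (π): Ideal.relNorm_eq_pow_of_isMaximal), ψ of it generates (π^f) (IsHecke.gen; M is coprime to p): ψ = unit * π^f; |e π|^2 = absNorm (π) = p (p = π π', both nonunits,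
absNorm p = p^2), so V(conj (e π)) V(e π) = V(p) = V(e π) V(e π') = V(e π), V(conj (e π)) = 1. Units of 𝓞 F have valuation 1. -/
theorem psi_unit_pi (hP : Plc F V π π' p) {M : Ideal (𝓞 F)} {ψ : Ideal (𝓞 F) →*₀ 𝓞 F} (h : IsHecke M ψ)
    (hMp : IsCoprime M (Ideal.span {(p : 𝓞 F)})) (v : HeightOneSpectrum (𝓞 K)) (hv : algebraMap (𝓞 F) (𝓞 K) π ∈ v.asIdeal) :
    V.valuation (PsiP K ψ v.asIdeal) = 1 := by
  have hV := hP.lt
  have hpV : V.valuation (p : ℂ) < 1 := by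
    have e1 : (p : ℂ) = eF F π * eF F π' := by rw [← map_mul, hP.mul, map_natCast]
    rw [e1, map_mul, hP.one, mul_one]
    exact hP.lt
  -- the norm of π is p
  have hNm : Nm π = p := by
    have h1 : Nm π * Nm π' = p ^ 2 := by
      unfold Nm
      rw [← map_mul, Ideal.span_singleton_mul_span_singleton, hP.mul]
      have h2 := Ideal.absNorm_span_natCast (S := 𝓞 F) p
      rw [RingOfIntegers.rank, IQ.deg] at h2
      exact h2
    have hne : Nm π ≠ 1 := by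
      unfold Nm
      rw [Ne, Ideal.absNorm_eq_one_iff, Ideal.span_singleton_eq_top]
      exact hP.pr.not_isUnit
    have hne' : Nm π' ≠ 1 := by
      unfold Nm
      rw [Ne, Ideal.absNorm_eq_one_iff, Ideal.span_singleton_eq_top]
      exact hP.nu
    have h3 : Nm π ∣ p ^ 2 := ⟨_, h1.symm⟩
    rcases (Nat.dvd_prime_pow hP.prime).1 h3 with ⟨k, hk, hk2⟩
    have hp0 := hP.prime.pos
    interval_cases k
    · exact absurd (by rw [hk2, pow_zero]) hne
    · rw [hk2, pow_one]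
    · rw [hk2] at h1
      exact absurd (Nat.eq_of_mul_eq_mul_left (pow_pos hp0 2) (by rw [h1, mul_one])) hne'
  have hcj : V.valuation ((starRingEnd ℂ) (eF F π)) = 1 := by
    have e1 : (starRingEnd ℂ) (eF F π) * eF F π = eF F π * eF F π' := by
      rw [← map_mul, hP.mul, map_natCast, mul_comm, Complex.mul_conj, Complex.normSq_eq_norm_sq, ← Nm_eq, hNm]
      push_cast
      rfl
    have h0 : eF F π ≠ 0 := eF_ne hP.pr.ne_zero
    have e2 : (starRingEnd ℂ) (eF F π) = eF F π' := by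
      apply mul_left_cancel₀ h0
      rw [mul_comm, e1]
    rw [e2, hP.one]
  -- the relative norm
  have hv0 : v.asIdeal.under (𝓞 F) ≠ ⊥ := mt Ideal.eq_bot_of_comap_eq_bot v.ne_bot
  have hvp : (v.asIdeal.under (𝓞 F)).IsPrime := inferInstance
  have hvm : (v.asIdeal.under (𝓞 F)).IsMaximal := hvp.isMaximal hv0
  have hvmax := v.isMaximal
  have hover : v.asIdeal.LiesOver (v.asIdeal.under (𝓞 F)) := ⟨rfl⟩
  have hpi : (Ideal.span {π}).IsPrime := (Ideal.span_singleton_prime hP.pr.ne_zero).2 hP.pr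
  have hpim : (Ideal.span {π}).IsMaximal := hpi.isMaximal (by
    rw [Ne, Ideal.span_singleton_eq_bot]
    exact hP.pr.ne_zero)
  have hund : Ideal.span {π} = v.asIdeal.under (𝓞 F) := by
    apply hpim.eq_of_le hvm.ne_top
    rw [Ideal.span_singleton_le_iff_mem]
    exact hv
  have hrel : Ideal.relNorm (𝓞 F) v.asIdeal = Ideal.span {π} ^ v.asIdeal.inertiaDeg (𝓞 F) := by
    rw [Ideal.relNorm_eq_pow_of_isMaximal v.asIdeal (v.asIdeal.under (𝓞 F)), hund]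
  set f := v.asIdeal.inertiaDeg (𝓞 F) with hf
  have hcopM : IsCoprime (Ideal.relNorm (𝓞 F) v.asIdeal) M := by
    rw [hrel]
    apply IsCoprime.pow_left
    apply IsCoprime.symm
    apply hMp.of_isCoprime_of_dvd_right
    rw [Ideal.dvd_span_singleton, ← hP.mul]
    exact Ideal.mem_span_singleton.2 (dvd_mul_right _ _)
  have hgen := h.gen _ hcopM
  rw [hrel, Ideal.span_singleton_pow] at hgen
  have hass : Associated (ψ (Ideal.span {π} ^ f)) (π ^ f) := Ideal.span_singleton_eq_span_singleton.1 (by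
    rw [Ideal.span_singleton_pow]
    exact hgen)
  obtain ⟨u, hu⟩ := hass.symm
  rw [PsiP_apply, hrel, ← hu, map_mul, map_mul, map_mul, map_pow, map_pow, map_pow, hcj, one_pow, one_mul]
  have h1 := PT1_int ((starRingEnd ℂ).comp (eF F)) (u : 𝓞 F) V
  have h2 := PT1_int ((starRingEnd ℂ).comp (eF F)) ((u⁻¹ : (𝓞 F)ˣ) : 𝓞 F) V
  refine le_antisymm h1 ?_
  by_contra hcon
  have h3 : V.valuation (((starRingEnd ℂ).comp (eF F)) (u : 𝓞 F)) * V.valuation (((starRingEnd ℂ).comp (eF F)) ((u⁻¹ : (𝓞 F)ˣ) : 𝓞 F)) = 1 := by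
    rw [← map_mul, ← map_mul, Units.mul_inv, map_one, map_one]
  have h4 := mul_lt_one_of_nonneg_of_lt_one_left zero_le (not_le.1 hcon) h2
  exact absurd h3 (ne_of_lt h4)

end H35M
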