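import Mathlib
import Pool.Agent.Lib.H35M.TWD
import Pool.Agent.Lib.H35M.RS2
import Pool.Agent.Lib.H55P.T6
import Pool.Agent.Lib.H35M.TS7A

/-! # H35M, chunk TS7B (M): the Euler factor of the primes above π -/

open NumberField IsDedekindDomain

namespace H35M

open H55N H55P SSG.E

variable {F : Type} [Field F] [NumberField F] [IQ F] {K : Type} [Field K] [NumberField K] [Algebra F K]
  {V : ValuationSubring ℂ} {π π' : 𝓞 F} {p : ℕ} {T1 : Finset (HeightOneSpectrum (𝓞 K))} {a : HeightOneSpectrum (𝓞 K) → ℕ} {f2 f3 : Ideal (𝓞 K)}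

theorem ts7b_prod {Γ : Type} [LinearOrderedCommGroupWithZero Γ] {ι : Type} (s : Finset ι) (f : ι → Γ)
    (h : ∀ i ∈ s, f i ≤ 1) : ∏ i ∈ s, f i ≤ 1 ∧ (∏ i ∈ s, f i = 1 ↔ ∀ i ∈ s, f i = 1) := by
  classical
  induction s using Finset.induction_on with
  | empty => simp
  | insert i s hi ih =>
    obtain ⟨h1, h2⟩ := ih fun j hj => h j (Finset.mem_insert_of_mem hj)
    have h3 := h i (Finset.mem_insert_self i s)
    rw [Finset.prod_insert hi]
    refine ⟨mul_le_one' h3 h1, fun h4 => ?_, fun h4 => ?_⟩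
    · have h5 : f i = 1 := by
        refine le_antisymm h3 ?_
        calc (1 : Γ) = f i * ∏ j ∈ s, f j := h4.symm
          _ ≤ f i * 1 := mul_le_mul_right h1 _
          _ = f i := mul_one _
      rw [h5, one_mul] at h4
      intro j hj
      rcases Finset.mem_insert.1 hj with rfl | hj
      · exact h5
      · exact (h2.1 h4) j hj
    · rw [h4 i (Finset.mem_insert_self i s), one_mul]
      exact h2.2 fun j hj => h4 j (Finset.mem_insert_of_mem hj)

open Classical in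
theorem ts7b_E1 (ψ : Ideal (𝓞 F) →*₀ 𝓞 F) (T1 : Finset (HeightOneSpectrum (𝓞 K)))
    (a : HeightOneSpectrum (𝓞 K) → ℕ) (hpos : ∀ v ∈ T1, 0 < a v) :
    E1 ψ T1 a = ∏ v ∈ T1, (PsiP K ψ v.asIdeal ^ (a v - 1) * (PsiP K ψ v.asIdeal - 1)) := by
  have h1 : ∀ v ∈ T1, PsiP K ψ v.asIdeal ^ (a v - 1) * (PsiP K ψ v.asIdeal - 1) =
      (-1) * PsiP K ψ v.asIdeal ^ (a v - 1) + PsiP K ψ v.asIdeal ^ (a v) := by
    intro v hv
    obtain ⟨n, hn⟩ : ∃ n, a v = n + 1 := ⟨a v - 1, by have := hpos v hv; omega⟩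
    rw [hn, Nat.add_sub_cancel, pow_succ]
    ring
  rw [Finset.prod_congr rfl h1, Finset.prod_add]
  unfold E1
  refine Finset.sum_congr rfl fun S hS => ?_
  have hST := Finset.mem_powerset.1 hS
  have h2 : PsiP K ψ (fS T1 S a) = ∏ v ∈ T1, PsiP K ψ v.asIdeal ^ (a v - if v ∈ S then 1 else 0) := by
    unfold fS
    rw [map_prod]
    exact Finset.prod_congr rfl fun v _ => map_pow _ _ _
  rw [h2, Finset.prod_mul_distrib, Finset.prod_const, mul_assoc]
  congr 1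
  rw [← Finset.prod_sdiff hST, mul_comm]
  refine congrArg₂ (· * ·) (Finset.prod_congr rfl fun v hv => by rw [if_pos hv])
    (Finset.prod_congr rfl fun v hv => by rw [if_neg (Finset.mem_sdiff.1 hv).2, Nat.sub_zero])

/-- Chunk TS7c (M). PROOF. E1 = prod over v in T1 of Ψ(v)^(a v - 1) (Ψ(v) - 1) (Finset.prod_sub / prod_add over subsets: fS T1 S a = prod v^(a v - [v in S]); the factor for v is Ψ(v)^(a v) - Ψ(v)^(a v - 1)). V(Ψ(v)) = 1 (TS7b), V(Ψ v - 1) <= 1 (PsiP_int). -/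
theorem e1_val (hP : Plc F V π π' p) {M : Ideal (𝓞 F)} {ψ : Ideal (𝓞 F) →*₀ 𝓞 F} (h : IsHecke M ψ)
    (hMp : IsCoprime M (Ideal.span {(p : 𝓞 F)})) (hpos : ∀ v ∈ T1, 0 < a v) (hv : ∀ v ∈ T1, algebraMap (𝓞 F) (𝓞 K) π ∈ v.asIdeal) :
    V.valuation (E1 ψ T1 a) ≤ 1 ∧ (V.valuation (E1 ψ T1 a) = 1 ↔ ∀ v ∈ T1, V.valuation (1 - PsiP K ψ v.asIdeal) = 1) := by
  rw [ts7b_E1 ψ T1 a hpos, map_prod]
  have h1 : ∀ v ∈ T1, V.valuation (PsiP K ψ v.asIdeal ^ (a v - 1) * (PsiP K ψ v.asIdeal - 1)) =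
      V.valuation (1 - PsiP K ψ v.asIdeal) := by
    intro v hvT
    rw [map_mul, map_pow, psi_unit_pi hP h hMp v (hv v hvT), one_pow, one_mul, Valuation.map_sub_swap]
  rw [Finset.prod_congr rfl h1]
  refine ts7b_prod T1 _ fun v _ => ?_
  refine (Valuation.map_sub _ _ _).trans (max_le ?_ (PsiP_int ψ v.asIdeal V).1)
  rw [map_one]

end H35M
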