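import Mathlib
import Pool.Agent.Lib.H35M.TWD
import Pool.Agent.Lib.H35M.RS2
import Pool.Agent.Lib.H55P.T6

/-! # H35M, chunk TS7C (M): the Euler factors of the primes not above π -/

open NumberField IsDedekindDomain

namespace H35M

open H55N H55P SSG.E

variable {F : Type} [Field F] [NumberField F] [IQ F] {K : Type} [Field K] [NumberField K] [Algebra F K]
  {V : ValuationSubring ℂ} {π π' : 𝓞 F} {p : ℕ} {T1 : Finset (HeightOneSpectrum (𝓞 K))} {a : HeightOneSpectrum (𝓞 K) → ℕ} {f2 f3 : Ideal (𝓞 K)}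

/-- An integer of F coprime to π is a unit at V. -/
theorem ts7c_unit (hP : Plc F V π π' p) (x : 𝓞 F) (hx : IsCoprime (Ideal.span {x}) (Ideal.span {π})) : V.valuation (eF F x) = 1 := by
  rw [Ideal.isCoprime_span_singleton_iff] at hx
  obtain ⟨u, t, hut⟩ := hx
  have h1 := congrArg (fun z => V.valuation (eF F z)) hut
  simp only [map_add, map_mul, map_one] at h1
  have hu := PT1_int (eF F) u V
  have hxx := PT1_int (eF F) x V
  have ht := PT1_int (eF F) t V
  refine le_antisymm hxx ?_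
  by_contra hcon
  have h2 : V.valuation (eF F u * eF F x) < 1 := by
    rw [map_mul]
    exact lt_of_le_of_lt (mul_le_of_le_one_left' hu) (not_le.1 hcon)
  have h3 : V.valuation (eF F t * eF F π) < 1 := by
    rw [map_mul]
    exact lt_of_le_of_lt (mul_le_of_le_one_left' ht) hP.lt
  have h4 := Valuation.map_add_lt V.valuation h2 h3
  rw [h1] at h4
  exact lt_irrefl _ h4

/-- Chunk TS7d (M). The Euler factors of the primes not above π. PROOF. Ψ(w) = 0: both sides are 1. Otherwise conj Ψ(w) * Ψ(w) = absNorm w (PsiP_norm) and tm Ψ 1 w = Ψ(w)/absNorm w = 1/conj Ψ(w); conj Ψ(w) = e(ψ(relNorm w)), relNorm w a power of a prime of F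
different from (π), so π does not divide the generator ψ(relNorm w), and V(e x) = 1 for π not dividing x (x, π coprime: u x + v π = 1, V(v π) < 1). 1 - 1/z = (z - 1)/z. -/
theorem efac (hP : Plc F V π π' p) {M : Ideal (𝓞 F)} {ψ : Ideal (𝓞 F) →*₀ 𝓞 F} (h : IsHecke M ψ)
    (w : HeightOneSpectrum (𝓞 K)) (hw : algebraMap (𝓞 F) (𝓞 K) π ∉ w.asIdeal) :
    V.valuation (1 - tm (PsiP K ψ) 1 w.asIdeal) = V.valuation (1 - (starRingEnd ℂ) (PsiP K ψ w.asIdeal)) := by
  by_cases h0 : PsiP K ψ w.asIdeal = 0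
  · unfold tm
    rw [h0, zero_mul, map_zero]
  · have hcop := (PsiP_ne h w.asIdeal w.ne_bot).1 h0
    have hn := PsiP_norm h w.asIdeal w.ne_bot hcop
    have hcopF := (PsiP_cop h w.asIdeal w.ne_bot).2 hcop
    have hu : V.valuation ((starRingEnd ℂ) (PsiP K ψ w.asIdeal)) = 1 := by
      rw [PsiP_apply, Complex.conj_conj]
      apply ts7c_unit hP
      rw [h.gen _ hcopF]
      have hv0 : w.asIdeal.under (𝓞 F) ≠ ⊥ := mt Ideal.eq_bot_of_comap_eq_bot w.ne_bot
      have hwm := w.isMaximal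
      have hvp : (w.asIdeal.under (𝓞 F)).IsPrime := inferInstance
      have hvm : (w.asIdeal.under (𝓞 F)).IsMaximal := hvp.isMaximal hv0
      have hover : w.asIdeal.LiesOver (w.asIdeal.under (𝓞 F)) := ⟨rfl⟩
      rw [Ideal.relNorm_eq_pow_of_isMaximal w.asIdeal (w.asIdeal.under (𝓞 F)),
        IsCoprime.pow_left_iff (Ideal.inertiaDeg_pos w.asIdeal (𝓞 F)), PT1_max _ _ hvm, Ideal.span_singleton_le_iff_mem]
      exact hw
    have hc0 : (starRingEnd ℂ) (PsiP K ψ w.asIdeal) ≠ 0 := by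
      rw [Ne, map_eq_zero]
      exact h0
    have hN : (Ideal.absNorm w.asIdeal : ℂ) =
        PsiP K ψ w.asIdeal * (starRingEnd ℂ) (PsiP K ψ w.asIdeal) := by
      rw [Complex.mul_conj, Complex.normSq_eq_norm_sq, hn]
      push_cast
      rfl
    have h1 : 1 - tm (PsiP K ψ) 1 w.asIdeal =
        -((1 - (starRingEnd ℂ) (PsiP K ψ w.asIdeal)) / (starRingEnd ℂ) (PsiP K ψ w.asIdeal)) := by
      unfold tm
      rw [Complex.cpow_neg_one, hN]
      field_simp
      ring
    rw [h1, Valuation.map_neg, map_div₀, hu, div_one]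

end H35M
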