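import Mathlib
import Pool.Agent.Lib.H35M.TS7A
import Pool.Agent.Lib.H35M.TS7B
import Pool.Agent.Lib.H35M.TS7C
import Pool.Agent.Lib.H35M.TS11

/-! # H35M, chunk TS12 (M): the congruence between the twisted and the untwisted L-value -/

open NumberField IsDedekindDomain

namespace H35M

open H55N H55P SSG.E

variable {F : Type} [Field F] [NumberField F] [IQ F] {K : Type} [Field K] [NumberField K] [Algebra F K] {m : ℕ}
  {V : ValuationSubring ℂ} {π π' : 𝓞 F} {p : ℕ} {De : ℂ} {T1 : Finset (HeightOneSpectrum (𝓞 K))} {a : HeightOneSpectrum (𝓞 K) → ℕ} {f2 f3 : Ideal (𝓞 K)}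
  {χ : Ideal (𝓞 K) →*₀ ℂ} {χ1 : MulChar (𝓞 K ⧸ fT T1 a) ℂ} {χ2 : MulChar (𝓞 K ⧸ f2) ℂ} {χ3 : MulChar (𝓞 K ⧸ f3) ℂ}
  {ψa : AddChar (𝓞 K ⧸ fT T1 a) ℂ}

omit [NumberField F] [IQ F] [Algebra F K] in
theorem ts12_fS (T S : Finset (HeightOneSpectrum (𝓞 K))) (a : HeightOneSpectrum (𝓞 K) → ℕ) : fS T S a ≠ ⊥ := by
  unfold fS
  rw [← Ideal.zero_eq_bot]
  exact Finset.prod_ne_zero_iff.2 fun v _ => pow_ne_zero _ v.ne_bot

omit [NumberField F] [IQ F] [Algebra F K] in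
theorem ts12_ne {f1 f2 f3 : Ideal (𝓞 K)} (h : f1 * f2 * f3 ≠ ⊥) : f1 ≠ ⊥ ∧ f2 * f3 ≠ ⊥ := by
  rw [mul_assoc] at h
  exact ⟨left_ne_zero_of_mul h, right_ne_zero_of_mul h⟩

omit [NumberField F] [IQ F] [Algebra F K] in
theorem ts12_one {f b : Ideal (𝓞 K)} (hb : b ≠ ⊥) (h : IsCoprime b f) : oneI f b = 1 := by
  classical
  exact if_pos ⟨hb, h⟩

omit [NumberField F] [IQ F] [Algebra F K] in
theorem ts12_pch (p : ℕ) {f : Ideal (𝓞 K)} (hf : f ≠ ⊥) : PCh p f (oneI f) where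
  ne := hf
  val b hb h := by rw [ts12_one hb h, one_pow]
  zero b h := pt3_oneI_zero f b h
  per x y hx hy hxf hxy := by
    have h1 : Ideal.span {x} ≠ ⊥ := by
      rw [Ne, Ideal.span_singleton_eq_bot]
      exact hx
    have h2 : Ideal.span {y} ≠ ⊥ := by
      rw [Ne, Ideal.span_singleton_eq_bot]
      exact hy
    have h3 : IsCoprime (Ideal.span {y}) f := by
      rw [Ideal.isCoprime_iff_sup_eq] at hxf ⊢
      rw [← top_le_iff, ← hxf]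
      refine sup_le ?_ le_sup_right
      rw [Ideal.span_singleton_le_iff_mem]
      have e1 : x = y + (x - y) := by ring
      rw [e1]
      exact Ideal.add_mem _ (Ideal.mem_sup_left (Ideal.mem_span_singleton_self y)) (Ideal.mem_sup_right hxy)
    rw [ts12_one h1 hxf, ts12_one h2 h3]

/-- Chunk TS12 (M). PROOF. tw_core. G = P Λχ on Re s > 1/2 (ident, H55N/TW1: both analytic, equal for Re s > 3/2: tsum = Λχ). GC = (sum over S)(s) * (P' (s) * prod over S' of (1 - tm Ψ s w) * ΛK s) on Re s > 1/2 (ident; one_sumP of H55P/T6 for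
f2 f3 gives S' and the sum of the series of PsiP * oneI (f2 f3); its S' has the same elements as S: Finset.ext). At s = 1: the sum over S is E1 (e1_term, TS7). u1 = P 1, u2 = P' 1 (units: smo_fac for χ and for oneI (f2 f3): PCh p (f2 * f3) (oneI (f2 * f3)):
values 0 or 1). -/
theorem tw_cmp (hP : Plc F V π π' p) {M : Ideal (𝓞 F)} {ψ : Ideal (𝓞 F) →*₀ 𝓞 F} (h : IsHecke M ψ)
    (hMp : IsCoprime M (Ideal.span {(p : 𝓞 F)})) (hm : Module.finrank F K = m + 1) (hNT : NTP K p M ψ V)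
    (hCV : ∀ l, Mod p M l → CVH F K m V π π' p De M l) (hD : ChD F π π' p T1 a f2 f3 χ χ1 χ2 χ3 ψa) [Fintype (𝓞 K ⧸ fT T1 a)]
    (S : Finset (HeightOneSpectrum (𝓞 K))) (hS : ∀ w, w ∈ S ↔ f2 * f3 ≤ w.asIdeal) (Λχ ΛK : ℂ → ℂ)
    (h1 : AnalyticOnNhd ℂ Λχ {s | 1 / 2 < s.re}) (h2 : ∀ s : ℂ, 3 / 2 < s.re → HasSum (tm (PsiP K ψ * χ : Ideal (𝓞 K) →*₀ ℂ) s) (Λχ s))
    (h3 : AnalyticOnNhd ℂ ΛK {s | 1 / 2 < s.re}) (h4 : ∀ s : ℂ, 3 / 2 < s.re → HasSum (tm (PsiP K ψ) s) (ΛK s)) :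
    ∃ u1 u2 : ℂ, V.valuation u1 = 1 ∧ V.valuation u2 = 1 ∧
      V.valuation (u1 * (De * gaussSum χ1⁻¹ ψa * Λχ 1) -
        u2 * ((E1 ψ T1 a * ∏ w ∈ S, (1 - tm (PsiP K ψ) 1 w.asIdeal)) * (De * ΛK 1))) < 1 := by
  classical
  obtain ⟨c, q, G, GC, hs, -, hun, hGa, hGCa, e1, e2, -, v2⟩ := tw_core hP h hMp hm hNT hCV hD
  obtain ⟨hf1, hf23⟩ := ts12_ne hD.pch.ne
  have hpO : PCh p (f2 * f3) (oneI (f2 * f3)) := ts12_pch p hf23
  obtain ⟨-, hP1⟩ := smo_fac hP h hD.pch hs hun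
  obtain ⟨-, hP2⟩ := smo_fac hP h hpO hs hun
  have h1re : (1 / 2 : ℝ) < (1 : ℂ).re := by norm_num
  have hG : G 1 = (∏ j, (1 - (q j : ℂ) * tm (PsiP K ψ * χ : Ideal (𝓞 K) →*₀ ℂ) 1 (c j))) * Λχ 1 := by
    refine ident G (fun s : ℂ => (∏ j, (1 - (q j : ℂ) * tm (PsiP K ψ * χ : Ideal (𝓞 K) →*₀ ℂ) s (c j))) * Λχ s)
      hGa ((ts11_an hs _).mul h1) ?_ 1 h1re
    intro z hz
    show _ = _ * _
    rw [← e1 z hz, (h2 z hz).tsum_eq]
  obtain ⟨S', hS', hSs⟩ := one_sumP h (f2 * f3) hf23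
  have hSS : S' = S := by
    ext w
    rw [hS', hS]
  subst hSS
  have hGC : GC 1 = (∑ S ∈ T1.powerset, (-1) ^ S.card * (Ideal.absNorm (fS T1 S a) : ℂ) *
          tm (PsiP K ψ * oneI (f2 * f3) : Ideal (𝓞 K) →*₀ ℂ) 1 (fS T1 S a)) *
        ((∏ j, (1 - (q j : ℂ) * tm (PsiP K ψ * oneI (f2 * f3) : Ideal (𝓞 K) →*₀ ℂ) 1 (c j))) *
          ((∏ w ∈ S', (1 - tm (PsiP K ψ) 1 w.asIdeal)) * ΛK 1)) := by
    refine ident GC (fun s : ℂ => (∑ S ∈ T1.powerset, (-1) ^ S.card * (Ideal.absNorm (fS T1 S a) : ℂ) *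
          tm (PsiP K ψ * oneI (f2 * f3) : Ideal (𝓞 K) →*₀ ℂ) s (fS T1 S a)) *
        ((∏ j, (1 - (q j : ℂ) * tm (PsiP K ψ * oneI (f2 * f3) : Ideal (𝓞 K) →*₀ ℂ) s (c j))) *
          ((∏ w ∈ S', (1 - tm (PsiP K ψ) s w.asIdeal)) * ΛK s))) hGCa ?_ ?_ 1 h1re
    · refine AnalyticOnNhd.mul ?_ ((ts11_an hs _).mul (AnalyticOnNhd.mul ?_ h3))
      · intro z hz
        exact Finset.analyticAt_fun_sum _ fun S _ => (analyticAt_const.mul
          (pt3_tm_analytic (PsiP K ψ * oneI (f2 * f3) : Ideal (𝓞 K) →*₀ ℂ) (fS T1 S a) (ts12_fS T1 S a) Set.univ z trivial))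
      · intro z hz
        exact Finset.analyticAt_fun_prod _ fun w _ =>
          (analyticAt_const.sub (pt3_tm_analytic (PsiP K ψ) w.asIdeal w.ne_bot Set.univ z trivial))
    · intro z hz
      show _ = _ * (_ * (_ * _))
      rw [← e2 z hz, (hSs z hz).tsum_eq, (h4 z hz).tsum_eq]
  have hE : (∑ S ∈ T1.powerset, (-1) ^ S.card * (Ideal.absNorm (fS T1 S a) : ℂ) *
          tm (PsiP K ψ * oneI (f2 * f3) : Ideal (𝓞 K) →*₀ ℂ) 1 (fS T1 S a)) = E1 ψ T1 a := by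
    refine Finset.sum_congr rfl fun S hS1 => ?_
    rw [mul_assoc, e1_term hP hD.pi1 hD.pos hD.pi2 hD.cop3 ψ S (Finset.mem_powerset.1 hS1)]
  rw [hE] at hGC
  refine ⟨_, _, hP1, hP2, ?_⟩
  rw [hG, hGC] at v2
  refine lt_of_eq_of_lt (congrArg V.valuation ?_) v2
  ring

end H35M
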