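import Mathlib
import Pool.Agent.Lib.H35M.TS12

/-! # H35M, chunk TS13 (M): the untwisted L-value is integral; the criterion for the twisted value -/

open NumberField IsDedekindDomain

namespace H35M

open H55N H55P SSG.E

variable {F : Type} [Field F] [NumberField F] [IQ F] {K : Type} [Field K] [NumberField K] [Algebra F K] {m : ℕ}
  {V : ValuationSubring ℂ} {π π' : 𝓞 F} {p : ℕ} {De : ℂ} {T1 : Finset (HeightOneSpectrum (𝓞 K))} {a : HeightOneSpectrum (𝓞 K) → ℕ} {f2 f3 : Ideal (𝓞 K)}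
  {χ : Ideal (𝓞 K) →*₀ ℂ} {χ1 : MulChar (𝓞 K ⧸ fT T1 a) ℂ} {χ2 : MulChar (𝓞 K ⧸ f2) ℂ} {χ3 : MulChar (𝓞 K ⧸ f3) ℂ}
  {ψa : AddChar (𝓞 K ⧸ fT T1 a) ℂ}

omit [NumberField F] [IQ F] [Algebra F K] in
theorem ts13_fT : fT (∅ : Finset (HeightOneSpectrum (𝓞 K))) (fun _ => 0) = ⊤ := by
  unfold fT
  rw [Finset.prod_empty, Ideal.one_eq_top]

omit [NumberField F] [IQ F] [Algebra F K] in
theorem ts13_sub : Subsingleton (𝓞 K ⧸ fT (∅ : Finset (HeightOneSpectrum (𝓞 K))) (fun _ => 0)) :=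
  Ideal.Quotient.subsingleton_iff.2 ts13_fT

omit [Algebra F K] in
theorem ts13_psi (ψ : Ideal (𝓞 K) →*₀ ℂ) : (ψ * oneI (⊤ : Ideal (𝓞 K)) : Ideal (𝓞 K) →*₀ ℂ) = ψ := by
  apply MonoidWithZeroHom.ext
  intro b
  show ψ b * oneI (⊤ : Ideal (𝓞 K)) b = ψ b
  by_cases hb : b = ⊥
  · have h0 : ψ b = 0 := by
      rw [hb]
      exact map_zero ψ
    rw [h0, zero_mul]
  · rw [ts12_one hb (by
      rw [← Ideal.one_eq_top]
      exact isCoprime_one_right), mul_one]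

omit [Algebra F K] in
theorem ts13_chD (F : Type) [Field F] [NumberField F] [IQ F] [Algebra F K] (π π' : 𝓞 F) (p : ℕ) :
    ChD F π π' p (∅ : Finset (HeightOneSpectrum (𝓞 K))) (fun _ => 0) (⊤ : Ideal (𝓞 K)) (⊤ : Ideal (𝓞 K)) (oneI ⊤)
      (1 : MulChar (𝓞 K ⧸ fT (∅ : Finset (HeightOneSpectrum (𝓞 K))) (fun _ => 0)) ℂ) (1 : MulChar (𝓞 K ⧸ (⊤ : Ideal (𝓞 K))) ℂ)
      (1 : MulChar (𝓞 K ⧸ (⊤ : Ideal (𝓞 K))) ℂ) (1 : AddChar (𝓞 K ⧸ fT (∅ : Finset (HeightOneSpectrum (𝓞 K))) (fun _ => 0)) ℂ) := by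
  have hs := ts13_sub (K := K)
  have hs2 : Subsingleton (𝓞 K ⧸ (⊤ : Ideal (𝓞 K))) := Ideal.Quotient.subsingleton_iff.2 rfl
  refine ⟨?_, ?_, ?_, ⟨0, ?_⟩, ⟨0, Submodule.mem_top⟩, ?_, one_pow p, one_pow p, one_pow p, ?_, ?_, ?_⟩
  · have e1 : fT (∅ : Finset (HeightOneSpectrum (𝓞 K))) (fun _ => 0) * ⊤ * ⊤ = (⊤ : Ideal (𝓞 K)) := by
      rw [ts13_fT, Ideal.mul_top, Ideal.mul_top]
    rw [e1]
    exact ts12_pch p top_ne_bot
  · intro v hv
    exact absurd hv (Finset.notMem_empty v)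
  · intro v hv
    exact absurd hv (Finset.notMem_empty v)
  · rw [ts13_fT]
    exact Submodule.mem_top
  · rw [← Ideal.one_eq_top]
    exact isCoprime_one_left
  · intro x hx
    have h1 : Ideal.span {x} ≠ ⊥ := by
      rw [Ne, Ideal.span_singleton_eq_bot]
      exact hx
    rw [ts12_one h1 (by
      rw [← Ideal.one_eq_top]
      exact isCoprime_one_right), MulChar.one_apply (isUnit_of_subsingleton _), MulChar.one_apply (isUnit_of_subsingleton _),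
      mul_one, mul_one]
  · intro x hx
    exact absurd (isUnit_of_subsingleton x) hx
  · intro x hx
    exact absurd (Subsingleton.elim x 0) hx

/-- Chunk TS13a (M). tw_int (TS11) for the trivial data T1 = ∅ (fT ∅ a = 1), f2 = f3 = ⊤, χ = oneI ⊤, χ1 = 1, χ2 = 1, χ3 = 1, ψa = 1 (O/1 is a trivial ring: every nonunit condition and IsPrimitive are void; gaussSum = 1). PsiP * oneI ⊤ = PsiP
(MonoidWithZeroHom.ext; oneI ⊤ a = 1 for a ≠ ⊥, k1_one in SSG/S/K1). The Fintype instance on O/1: Fintype.ofFinite. -/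
theorem base_int (hP : Plc F V π π' p) {M : Ideal (𝓞 F)} {ψ : Ideal (𝓞 F) →*₀ 𝓞 F} (h : IsHecke M ψ)
    (hMp : IsCoprime M (Ideal.span {(p : 𝓞 F)})) (hm : Module.finrank F K = m + 1) (hNT : NTP K p M ψ V)
    (hCV : ∀ l, Mod p M l → CVH F K m V π π' p De M l) : LVi V De (PsiP K ψ) := by
  classical
  have hs := ts13_sub (K := K)
  have hfin : Fintype (𝓞 K ⧸ fT (∅ : Finset (HeightOneSpectrum (𝓞 K))) (fun _ => 0)) := Fintype.ofFinite _
  have h1 := tw_int hP h hMp hm hNT hCV (ts13_chD F π π' p)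
  have hg : gaussSum (1 : MulChar (𝓞 K ⧸ fT (∅ : Finset (HeightOneSpectrum (𝓞 K))) (fun _ => 0)) ℂ)⁻¹ 1 = 1 := by
    unfold gaussSum
    rw [Fintype.sum_subsingleton _ (1 : 𝓞 K ⧸ fT (∅ : Finset (HeightOneSpectrum (𝓞 K))) (fun _ => 0)), inv_one,
      MulChar.one_apply (isUnit_of_subsingleton _), AddChar.one_apply, mul_one]
  rw [hg, mul_one, ts13_psi] at h1
  exact h1

/-- The value at 1 of the continuation is unique. -/
theorem ts13_uniq {g : Ideal (𝓞 K) →*₀ ℂ} {Λ Λ' : ℂ → ℂ} (h1 : AnalyticOnNhd ℂ Λ {s | 1 / 2 < s.re})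
    (h2 : ∀ s : ℂ, 3 / 2 < s.re → HasSum (tm g s) (Λ s)) (h3 : AnalyticOnNhd ℂ Λ' {s | 1 / 2 < s.re})
    (h4 : ∀ s : ℂ, 3 / 2 < s.re → HasSum (tm g s) (Λ' s)) : Λ 1 = Λ' 1 :=
  ident Λ Λ' h1 h3 (fun s hs => (h2 s hs).unique (h4 s hs)) 1 (by norm_num)

omit [NumberField K] [Algebra F K] in
/-- Comparison of two integral numbers. -/
theorem ts13_cmp {V : ValuationSubring ℂ} {u1 u2 x y E : ℂ} (h1 : V.valuation u1 = 1) (h2 : V.valuation u2 = 1) (hx : V.valuation x ≤ 1)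
    (hy : V.valuation y ≤ 1) (hE : V.valuation E ≤ 1) (h : V.valuation (u1 * x - u2 * (E * y)) < 1) :
    V.valuation x = 1 ↔ V.valuation E = 1 ∧ V.valuation y = 1 := by
  have e1 : V.valuation (u1 * x) = V.valuation x := by rw [map_mul, h1, one_mul]
  have e2 : V.valuation (u2 * (E * y)) = V.valuation E * V.valuation y := by rw [map_mul, map_mul, h2, one_mul]
  constructor
  · intro hx1
    have h3 : V.valuation E * V.valuation y = 1 := by
      rw [← e2]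
      have e3 : u2 * (E * y) = u1 * x - (u1 * x - u2 * (E * y)) := by ring
      rw [e3, Valuation.map_sub_eq_of_lt_left _ (by rw [e1, hx1]; exact h), e1, hx1]
    refine ⟨le_antisymm hE ?_, le_antisymm hy ?_⟩
    · rw [← h3]
      exact mul_le_of_le_one_right' hy
    · rw [← h3]
      exact mul_le_of_le_one_left' hE
  · rintro ⟨h3, h4⟩
    rw [h3, h4, mul_one] at e2
    rw [← e1]
    have e3 : u1 * x = (u1 * x - u2 * (E * y)) + u2 * (E * y) := by ring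
    rw [e3, Valuation.map_add_eq_of_lt_right _ (by rw [e2]; exact h), e2]

/-- The primes containing f2 f3 do not contain π. -/
theorem ts13_pi (hP : Plc F V π π' p) (h2 : ∃ N, algebraMap (𝓞 F) (𝓞 K) (π' ^ N) ∈ f2) (h3 : IsCoprime f3 (Ideal.span {(p : 𝓞 K)}))
    (w : HeightOneSpectrum (𝓞 K)) (hw : f2 * f3 ≤ w.asIdeal) : algebraMap (𝓞 F) (𝓞 K) π ∉ w.asIdeal := by
  intro hπ
  rcases (w.isPrime.mul_le).1 hw with h | h
  · obtain ⟨N, hN⟩ := h2
    have h4 : algebraMap (𝓞 F) (𝓞 K) π' ∈ w.asIdeal := by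
      have h5 := h hN
      rw [map_pow] at h5
      exact w.isPrime.mem_of_pow_mem N h5
    obtain ⟨u, v, huv⟩ := hP.cop
    apply w.isPrime.ne_top
    rw [Ideal.eq_top_iff_one]
    have e1 : (1 : 𝓞 K) = algebraMap (𝓞 F) (𝓞 K) u * algebraMap (𝓞 F) (𝓞 K) π + algebraMap (𝓞 F) (𝓞 K) v * algebraMap (𝓞 F) (𝓞 K) π' := by
      rw [← map_mul, ← map_mul, ← map_add, huv, map_one]
    rw [e1]
    exact Ideal.add_mem _ (Ideal.mul_mem_left _ _ hπ) (Ideal.mul_mem_left _ _ h4)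
  · apply w.isPrime.ne_top
    rw [Ideal.isCoprime_iff_sup_eq] at h3
    rw [← top_le_iff, ← h3]
    refine sup_le h ?_
    rw [Ideal.span_singleton_le_iff_mem]
    have e1 : (p : 𝓞 K) = algebraMap (𝓞 F) (𝓞 K) π * algebraMap (𝓞 F) (𝓞 K) π' := by
      rw [← map_mul, hP.mul, map_natCast]
    rw [e1]
    exact Ideal.mul_mem_right _ _ hπ

/-- Chunk TS13b (M). PROOF. Λχ from tw_int, ΛK from base_int; by ident (H55N/TW1) every other continuation has the same value at 1, so LVn V (De τ) (Ψ χ) iff V(x) = 1 with x = De τ Λχ 1, and LVn V De Ψ iff V(y) = 1, y = De ΛK 1. S = the finite set of w ⊇ f2 f3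
(Ideal.finite_factors, as in one_sumP). tw_cmp: V(u1 x - u2 E y) < 1, V(x), V(y) <= 1, E = E1 * prod over S. V(E) <= 1, and V(E) = 1 iff all factors have valuation 1: e1_val, efac (TS7) (w in S does not contain π: f2 contains a power of π', f3 is prime to p,
so π and 1 would be in w); V(1 - conj Ψ(w)) <= 1 (PsiP_int). So V(x) = 1 iff V(E y) = 1 iff V(E) = 1 and V(y) = 1. The primes containing fT T1 a * f2 * f3 are those in T1 and those in S. -/
theorem tw_iff (hP : Plc F V π π' p) {M : Ideal (𝓞 F)} {ψ : Ideal (𝓞 F) →*₀ 𝓞 F} (h : IsHecke M ψ)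
    (hMp : IsCoprime M (Ideal.span {(p : 𝓞 F)})) (hm : Module.finrank F K = m + 1) (hNT : NTP K p M ψ V)
    (hCV : ∀ l, Mod p M l → CVH F K m V π π' p De M l) (hD : ChD F π π' p T1 a f2 f3 χ χ1 χ2 χ3 ψa) [Fintype (𝓞 K ⧸ fT T1 a)] :
    LVn V (De * gaussSum χ1⁻¹ ψa) (PsiP K ψ * χ : Ideal (𝓞 K) →*₀ ℂ) ↔
      LVn V De (PsiP K ψ) ∧ ∀ w : HeightOneSpectrum (𝓞 K), fT T1 a * f2 * f3 ≤ w.asIdeal → Cnd V π ψ w := by
  classical
  obtain ⟨Λχ, a1, a2, a3⟩ := tw_int hP h hMp hm hNT hCV hD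
  obtain ⟨ΛK, b1, b2, b3⟩ := base_int hP h hMp hm hNT hCV
  obtain ⟨-, hf23⟩ := ts12_ne hD.pch.ne
  obtain ⟨S, hS, -⟩ := one_sumP h (f2 * f3) hf23
  obtain ⟨u1, u2, hu1, hu2, hlt⟩ := tw_cmp hP h hMp hm hNT hCV hD S hS Λχ ΛK a1 a2 b1 b2
  obtain ⟨hE1, hE1'⟩ := e1_val hP h hMp hD.pos hD.abv
  have hSπ : ∀ w ∈ S, algebraMap (𝓞 F) (𝓞 K) π ∉ w.asIdeal := fun w hw => ts13_pi hP hD.pi2 hD.cop3 w ((hS w).1 hw)
  have hfac : ∀ w ∈ S, V.valuation (1 - tm (PsiP K ψ) 1 w.asIdeal) = V.valuation (1 - (starRingEnd ℂ) (PsiP K ψ w.asIdeal)) :=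
    fun w hw => efac hP h w (hSπ w hw)
  have hfac1 : ∀ w ∈ S, V.valuation (1 - tm (PsiP K ψ) 1 w.asIdeal) ≤ 1 := by
    intro w hw
    rw [hfac w hw]
    refine (V.valuation.map_sub _ _).trans (max_le (by rw [map_one]) (PsiP_int ψ w.asIdeal V).2)
  have hprod : V.valuation (∏ w ∈ S, (1 - tm (PsiP K ψ) 1 w.asIdeal)) = ∏ w ∈ S, V.valuation (1 - tm (PsiP K ψ) 1 w.asIdeal) :=
    map_prod _ _ _
  have hprod1 : V.valuation (∏ w ∈ S, (1 - tm (PsiP K ψ) 1 w.asIdeal)) ≤ 1 := by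
    rw [hprod]
    exact Finset.prod_le_one' hfac1
  have hE : V.valuation (E1 ψ T1 a * ∏ w ∈ S, (1 - tm (PsiP K ψ) 1 w.asIdeal)) ≤ 1 := by
    rw [map_mul]
    exact mul_le_one' hE1 hprod1
  have hEiff : V.valuation (E1 ψ T1 a * ∏ w ∈ S, (1 - tm (PsiP K ψ) 1 w.asIdeal)) = 1 ↔
      (∀ v ∈ T1, V.valuation (1 - PsiP K ψ v.asIdeal) = 1) ∧
        ∀ w ∈ S, V.valuation (1 - (starRingEnd ℂ) (PsiP K ψ w.asIdeal)) = 1 := by
    rw [← hE1']
    constructor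
    · intro h1
      rw [map_mul] at h1
      have h2 : V.valuation (E1 ψ T1 a) = 1 := le_antisymm hE1 (by
        rw [← h1]
        exact mul_le_of_le_one_right' hprod1)
      have h3 : V.valuation (∏ w ∈ S, (1 - tm (PsiP K ψ) 1 w.asIdeal)) = 1 := by
        rw [h2, one_mul] at h1
        exact h1
      refine ⟨h2, fun w hw => ?_⟩
      rw [hprod, Finset.prod_eq_one_iff_of_le_one' hfac1] at h3
      rw [← hfac w hw]
      exact h3 w hw
    · rintro ⟨h1, h2⟩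
      rw [map_mul, h1, one_mul, hprod]
      exact Finset.prod_eq_one fun w hw => (hfac w hw).trans (h2 w hw)
  have key := ts13_cmp hu1 hu2 a3 b3 hE hlt
  have c1 : LVn V (De * gaussSum χ1⁻¹ ψa) (PsiP K ψ * χ : Ideal (𝓞 K) →*₀ ℂ) ↔ V.valuation (De * gaussSum χ1⁻¹ ψa * Λχ 1) = 1 := by
    constructor
    · rintro ⟨Λ, c1, c2, c3⟩
      rw [ts13_uniq a1 a2 c1 c2]
      exact c3
    · intro h1
      exact ⟨Λχ, a1, a2, h1⟩
  have c2 : LVn V De (PsiP K ψ) ↔ V.valuation (De * ΛK 1) = 1 := by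
    constructor
    · rintro ⟨Λ, c1, c2, c3⟩
      rw [ts13_uniq b1 b2 c1 c2]
      exact c3
    · intro h1
      exact ⟨ΛK, b1, b2, h1⟩
  have c3 : ((∀ v ∈ T1, V.valuation (1 - PsiP K ψ v.asIdeal) = 1) ∧
        ∀ w ∈ S, V.valuation (1 - (starRingEnd ℂ) (PsiP K ψ w.asIdeal)) = 1) ↔
      ∀ w : HeightOneSpectrum (𝓞 K), fT T1 a * f2 * f3 ≤ w.asIdeal → Cnd V π ψ w := by
    constructor
    · rintro ⟨h1, h2⟩ w hw
      rw [mul_assoc] at hw
      rcases (w.isPrime.mul_le).1 hw with h3 | h3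
      · have hwT : w ∈ T1 := by
          unfold fT at h3
          obtain ⟨v, hv, hvw⟩ := (w.isPrime.prod_le).1 h3
          have h4 : v.asIdeal ≤ w.asIdeal := by
            intro z hz
            exact w.isPrime.mem_of_pow_mem _ (hvw (Ideal.pow_mem_pow hz _))
          have h5 : v = w := HeightOneSpectrum.ext (v.isMaximal.eq_of_le w.isPrime.ne_top h4)
          rw [← h5]
          exact hv
        exact ⟨fun _ => h1 w hwT, fun h4 => absurd (hD.abv w hwT) h4⟩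
      · have hwS := (hS w).2 h3
        exact ⟨fun h4 => absurd h4 (hSπ w hwS), fun _ => h2 w hwS⟩
    · intro h1
      refine ⟨fun v hv => ?_, fun w hw => ?_⟩
      · have h2 : fT T1 a * f2 * f3 ≤ v.asIdeal := by
          refine Ideal.mul_le_left.trans (Ideal.mul_le_left.trans ?_)
          unfold fT
          refine (Ideal.prod_le_inf).trans ((Finset.inf_le hv).trans (Ideal.pow_le_self (hD.pos v hv).ne'))
        exact (h1 v h2).1 (hD.abv v hv)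
      · have h2 : fT T1 a * f2 * f3 ≤ w.asIdeal := by
          rw [mul_assoc]
          exact Ideal.mul_le_right.trans ((hS w).1 hw)
        exact (h1 w h2).2 (hSπ w hw)
  rw [c1, key, hEiff, c2, c3]
  exact and_comm

end H35M
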