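import Mathlib
import Pool.Agent.Lib.H55P.T5
import Pool.Agent.Lib.H35M.GS2
import Pool.Agent.Lib.H35M.TS13

/-! # H35M, chunk TS14 (M/L): the step of degree p for the L-values -/

open NumberField IsDedekindDomain

namespace H35M

open H55N H55P SSG.E

variable {F : Type} [Field F] [NumberField F] [IQ F] {K : Type} [Field K] [NumberField K] [Algebra F K] {m : ℕ}
  {V : ValuationSubring ℂ} {π π' : 𝓞 F} {p : ℕ} {De : ℂ} {T1 : Finset (HeightOneSpectrum (𝓞 K))} {a : HeightOneSpectrum (𝓞 K) → ℕ} {f2 f3 : Ideal (𝓞 K)}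
  {χ : Ideal (𝓞 K) →*₀ ℂ} {χ1 : MulChar (𝓞 K ⧸ fT T1 a) ℂ} {χ2 : MulChar (𝓞 K ⧸ f2) ℂ} {χ3 : MulChar (𝓞 K ⧸ f3) ℂ}
  {ψa : AddChar (𝓞 K ⧸ fT T1 a) ℂ}

theorem ts14_eval {R : Type} [CommRing R] (χ : MulChar R ℂ) (j : ℕ) (x : R) : (χ ^ (j + 1)) x = (χ x) ^ (j + 1) :=
  MulChar.pow_apply' χ (Nat.succ_ne_zero j) x

theorem ts14_norm {p : ℕ} (hp : p ≠ 0) {f : Ideal (𝓞 K)} {χ : Ideal (𝓞 K) →*₀ ℂ} (h : PCh p f χ) (a : Ideal (𝓞 K)) : ‖χ a‖ ≤ 1 := by
  by_cases ha : a = ⊥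
  · have : χ ⊥ = 0 := χ.map_zero
    rw [ha, this, norm_zero]
    exact zero_le_one
  · by_cases hc : IsCoprime a f
    · exact (Complex.norm_eq_one_of_pow_eq_one (h.val a ha hc) hp).le
    · rw [h.zero a hc, norm_zero]
      exact zero_le_one

theorem ts14_lvn {De : ℂ} {h : Ideal (𝓞 K) →*₀ ℂ} {Λ : ℂ → ℂ} (ha : AnalyticOnNhd ℂ Λ {s | 1 / 2 < s.re})
    (hs : ∀ s : ℂ, 3 / 2 < s.re → HasSum (tm h s) (Λ s)) : LVn V De h ↔ V.valuation (De * Λ 1) = 1 := by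
  constructor
  · rintro ⟨Λ', ha', hs', hv'⟩
    have e : Λ' 1 = Λ 1 := ident Λ' Λ ha' ha (fun s h1 => (hs' s h1).unique (hs s h1)) 1 (by norm_num)
    rw [← e]
    exact hv'
  · intro hv
    exact ⟨Λ, ha, hs, hv⟩

/-- Chunk TS14a (S/M). The powers χ^(j+1), j + 1 < p: PCh as chp_PChr in H55P/T5; eq: chp_apply and multiplicativity ((χ1^(j+1)) x = (χ1 x)^(j+1), MulChar.pow_apply'); prim: PrimM.pow (GS1). -/
theorem ChD.pow (hp : p.Prime) (hD : ChD F π π' p T1 a f2 f3 χ χ1 χ2 χ3 ψa) {j : ℕ} (hj : j + 1 < p) :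
    ChD F π π' p T1 a f2 f3 (chp χ j) (χ1 ^ (j + 1)) (χ2 ^ (j + 1)) (χ3 ^ (j + 1)) ψa := by
  refine ⟨⟨hD.pch.ne, ?_, ?_, ?_⟩, hD.pos, hD.abv, hD.pi1, hD.pi2, hD.cop3, ?_, ?_, ?_, ?_, ?_, hD.psi⟩
  · intro b hb hc
    rw [chp_apply, ← pow_mul, mul_comm, pow_mul, hD.pch.val b hb hc, one_pow]
  · intro b hc
    rw [chp_apply, hD.pch.zero b hc, zero_pow (Nat.succ_ne_zero j)]
  · intro x y hx hy hc hxy
    rw [chp_apply, chp_apply, hD.pch.per x y hx hy hc hxy]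
  · rw [← pow_mul, mul_comm, pow_mul, hD.one1, one_pow]
  · rw [← pow_mul, mul_comm, pow_mul, hD.one2, one_pow]
  · rw [← pow_mul, mul_comm, pow_mul, hD.one3, one_pow]
  · intro x hx
    rw [chp_apply, hD.eq x hx, ts14_eval, ts14_eval, ts14_eval, mul_pow, mul_pow]
  · have hne : fT T1 a ≠ ⊥ := by
      intro h0
      apply hD.pch.ne
      rw [h0, Ideal.bot_mul, Ideal.bot_mul]
    have hfin : Finite (𝓞 K ⧸ fT T1 a) := Ideal.finiteQuotientOfFreeOfNeBot _ hne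
    have := Fintype.ofFinite (𝓞 K ⧸ fT T1 a)
    exact hD.prim.pow hp hD.one1 (Nat.succ_pos j) hj

/-- Chunk TS14b (S/M). gs_val (GS2) for χ1; the product over j of the Gauss sums of (χ1^(j+1))⁻¹ = χ1^(p-1-j) is the same product (Finset.prod_range_reflect). -/
theorem gs_val_inv (hp : p.Prime) (h1 : χ1 ^ p = 1) (hχ : PrimM χ1) [Fintype (𝓞 K ⧸ fT T1 a)] (hψ : ψa.IsPrimitive) (V : ValuationSubring ℂ) :
    V.valuation (∏ j ∈ Finset.range (p - 1), gaussSum (χ1 ^ (j + 1))⁻¹ ψa) ^ 2 = V.valuation (Fintype.card (𝓞 K ⧸ fT T1 a) : ℂ) ^ (p - 1) := by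
  have e : ∏ j ∈ Finset.range (p - 1), gaussSum (χ1 ^ (j + 1))⁻¹ ψa = ∏ j ∈ Finset.range (p - 1), gaussSum (χ1 ^ (j + 1)) ψa := by
    rw [← Finset.prod_range_reflect (fun j => gaussSum (χ1 ^ (j + 1)) ψa) (p - 1)]
    refine Finset.prod_congr rfl fun j hj => ?_
    have hj' : j < p - 1 := Finset.mem_range.1 hj
    have h3 : p - 1 - 1 - j + 1 = p - (j + 1) := by omega
    have h4 : χ1 ^ (p - (j + 1)) = (χ1 ^ (j + 1))⁻¹ := by
      refine eq_inv_of_mul_eq_one_left ?_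
      rw [← pow_add, Nat.sub_add_cancel (by omega), h1]
    rw [h3, h4]
  rw [e]
  exact gs_val hp h1 hχ hψ V

/-- Chunk TS14 (M/L). PROOF. Λ0 for PsiP K (base_int), Λ_j for chp χ j, j < p - 1 (tw_int for TS14a), all integral with De and De τ_j, τ_j = gaussSum (χ1^(j+1))⁻¹ ψa. As in LVP_of_step (Lib/H55P/T5.lean; the part of its proof with AI_stepP gives the sum of the series of PsiP K' for
Re s > 3/2) the function Λ' = Λ0 * prod Λ_j is a continuation for PsiP K' (every continuation has the same value at 1: ident), and V(De' Λ'(1)) = V(De Λ0(1)) * prod over j of V(De τ_j Λ_j(1)) by hDe. All factors are <= 1, so the product is 1 iff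
all are 1 (linearly ordered), iff LVn V De (PsiP K) and for all j < p - 1 LVn V (De τ_j) (Ψ chp χ j), iff (tw_iff for TS14a; p >= 2, so there is j = 0) LVn V De (PsiP K) and the conditions. -/
theorem step_iff (hP : Plc F V π π' p) {M : Ideal (𝓞 F)} {ψ : Ideal (𝓞 F) →*₀ 𝓞 F} (h : IsHecke M ψ)
    (hMp : IsCoprime M (Ideal.span {(p : 𝓞 F)})) (hm : Module.finrank F K = m + 1) (hNT : NTP K p M ψ V)
    (hCV : ∀ l, Mod p M l → CVH F K m V π π' p De M l) (hD : ChD F π π' p T1 a f2 f3 χ χ1 χ2 χ3 ψa) [Fintype (𝓞 K ⧸ fT T1 a)]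
    (K' : Type) [Field K'] [NumberField K'] [Algebra F K'] [Algebra K K'] [IsScalarTower F K K'] (hn : Module.finrank K K' = p)
    (hs : SplitP K K' p χ) (De' : ℂ)
    (hDe : V.valuation De' = V.valuation (De ^ p * ∏ j ∈ Finset.range (p - 1), gaussSum (χ1 ^ (j + 1))⁻¹ ψa)) :
    LVn V De' (PsiP K' ψ) ↔
      LVn V De (PsiP K ψ) ∧ ∀ w : HeightOneSpectrum (𝓞 K), fT T1 a * f2 * f3 ≤ w.asIdeal → Cnd V π ψ w := by
  classical
  have hp := hP.prime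
  obtain ⟨Λ₁, ha1, hs1, hu1⟩ := base_int hP h hMp hm hNT hCV
  have h2' : ∀ j, ∃ Λ : ℂ → ℂ, j < p - 1 → AnalyticOnNhd ℂ Λ {s | 1 / 2 < s.re} ∧
      (∀ s : ℂ, 3 / 2 < s.re → HasSum (tm (PsiP K ψ * chp χ j : Ideal (𝓞 K) →*₀ ℂ) s) (Λ s)) ∧
      V.valuation (De * gaussSum (χ1 ^ (j + 1))⁻¹ ψa * Λ 1) ≤ 1 := by
    intro j
    by_cases hj : j < p - 1
    · obtain ⟨Λ, hΛ⟩ := tw_int hP h hMp hm hNT hCV (hD.pow hp (j := j) (by omega))
      exact ⟨Λ, fun _ => hΛ⟩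
    · exact ⟨fun _ => 0, fun h => absurd h hj⟩
  choose Λ hΛ using h2'
  have hb : ∀ j, j < p - 1 → ∀ b : Ideal (𝓞 K),
      ‖(PsiP K ψ * chp χ j : Ideal (𝓞 K) →*₀ ℂ) b‖ ^ 2 ≤ Ideal.absNorm b := by
    intro j hj b
    refine le_trans ?_ (PsiP_norm_le h b)
    have h4 : (PsiP K ψ * chp χ j : Ideal (𝓞 K) →*₀ ℂ) b = PsiP K ψ b * chp χ j b := rfl
    rw [h4, norm_mul, mul_pow]
    exact mul_le_of_le_one_right (by positivity)
      (pow_le_one₀ (norm_nonneg _) (ts14_norm hp.ne_zero (hD.pow hp (j := j) (by omega)).pch b))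
  have haL : AnalyticOnNhd ℂ (fun s => Λ₁ s * ∏ j ∈ Finset.range (p - 1), Λ j s) {s | 1 / 2 < s.re} := by
    intro s hs'
    refine (ha1 s hs').mul ?_
    exact Finset.analyticAt_fun_prod _ fun j hj => (hΛ j (Finset.mem_range.1 hj)).1 s hs'
  have hsL : ∀ s : ℂ, 3 / 2 < s.re → HasSum (tm (PsiP K' ψ) s) (Λ₁ s * ∏ j ∈ Finset.range (p - 1), Λ j s) := by
    intro s hs'
    have hsum := tm_summable (PsiP K' ψ) (fun a => PsiP_norm_le h a) s hs'
    have hL := AI_LSeries (PsiP K' ψ) (PsiP K' ψ).map_zero s hsum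
    have hsum1 := tm_summable (PsiP K ψ) (fun a => PsiP_norm_le h a) s hs'
    have hL1 := AI_LSeries (PsiP K ψ) (PsiP K ψ).map_zero s hsum1
    have hL2 := fun (j : ℕ) (hj : j < p - 1) => AI_LSeries (PsiP K ψ * chp χ j : Ideal (𝓞 K) →*₀ ℂ)
      (PsiP K ψ * chp χ j : Ideal (𝓞 K) →*₀ ℂ).map_zero s
      (tm_summable (PsiP K ψ * chp χ j : Ideal (𝓞 K) →*₀ ℂ) (hb j hj) s hs')
    have hL3 := pt5_prod (p - 1) (fun j => AI (PsiP K ψ * chp χ j : Ideal (𝓞 K) →*₀ ℂ))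
      (fun j => Λ j s) (fun j hj => by
        have h3 := hL2 j hj
        rw [((hΛ j hj).2.1 s hs').tsum_eq] at h3
        exact h3)
    have hL4 := ArithmeticFunction.LSeriesHasSum_mul hL1 hL3
    rw [← AI_stepP K K' ψ p hp χ hs] at hL4
    have h5 : ∑' a, tm (PsiP K' ψ) s a = Λ₁ s * ∏ j ∈ Finset.range (p - 1), Λ j s := by
      rw [hL.unique hL4, (hs1 s hs').tsum_eq]
    rw [← h5]
    exact hsum.of_norm.hasSum
  have hval : V.valuation (De' * (Λ₁ 1 * ∏ j ∈ Finset.range (p - 1), Λ j 1)) =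
      V.valuation (De * Λ₁ 1) * ∏ j ∈ Finset.range (p - 1), V.valuation (De * gaussSum (χ1 ^ (j + 1))⁻¹ ψa * Λ j 1) := by
    have hDp : De ^ p = De * ∏ j ∈ Finset.range (p - 1), De := by
      rw [Finset.prod_const, Finset.card_range, ← pow_succ', Nat.sub_add_cancel hp.one_le]
    rw [map_mul, hDe, hDp, ← map_mul, ← map_prod, ← map_mul]
    congr 1
    rw [Finset.prod_mul_distrib, Finset.prod_mul_distrib]
    ring
  have hiff : V.valuation (De' * (Λ₁ 1 * ∏ j ∈ Finset.range (p - 1), Λ j 1)) = 1 ↔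
      V.valuation (De * Λ₁ 1) = 1 ∧ ∀ j ∈ Finset.range (p - 1), V.valuation (De * gaussSum (χ1 ^ (j + 1))⁻¹ ψa * Λ j 1) = 1 := by
    rw [hval]
    have hprod : ∏ j ∈ Finset.range (p - 1), V.valuation (De * gaussSum (χ1 ^ (j + 1))⁻¹ ψa * Λ j 1) ≤ 1 :=
      Finset.prod_le_one' fun j hj => (hΛ j (Finset.mem_range.1 hj)).2.2
    constructor
    · intro h1
      have h3 : V.valuation (De * Λ₁ 1) = 1 := by
        refine le_antisymm hu1 ?_
        by_contra hcon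
        have h4 := mul_lt_one_of_lt_of_le (not_le.1 hcon) hprod
        rw [h1] at h4
        exact lt_irrefl _ h4
      refine ⟨h3, ?_⟩
      rw [h3, one_mul] at h1
      intro j hj
      refine le_antisymm (hΛ j (Finset.mem_range.1 hj)).2.2 ?_
      by_contra hcon
      have h5 : ∏ i ∈ (Finset.range (p - 1)).erase j, V.valuation (De * gaussSum (χ1 ^ (i + 1))⁻¹ ψa * Λ i 1) ≤ 1 :=
        Finset.prod_le_one' fun i hi => (hΛ i (Finset.mem_range.1 (Finset.mem_of_mem_erase hi))).2.2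
      have h4 := mul_lt_one_of_lt_of_le (not_le.1 hcon) h5
      rw [Finset.mul_prod_erase _ (fun i => V.valuation (De * gaussSum (χ1 ^ (i + 1))⁻¹ ψa * Λ i 1)) hj, h1] at h4
      exact lt_irrefl _ h4
    · rintro ⟨h1, h3⟩
      rw [h1, Finset.prod_congr rfl h3, Finset.prod_const_one, one_mul]
  rw [ts14_lvn haL hsL, hiff, ← ts14_lvn ha1 hs1]
  constructor
  · rintro ⟨h1, h3⟩
    have h0 : 0 < p - 1 := by
      have := hp.two_le
      omega
    have h4 := h3 0 (Finset.mem_range.2 h0)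
    rw [← ts14_lvn (hΛ 0 h0).1 (hΛ 0 h0).2.1] at h4
    exact (tw_iff hP h hMp hm hNT hCV (hD.pow hp (j := 0) (by omega))).1 h4
  · rintro ⟨h1, h3⟩
    refine ⟨h1, fun j hj => ?_⟩
    have hj' : j < p - 1 := Finset.mem_range.1 hj
    rw [← ts14_lvn (hΛ j hj').1 (hΛ j hj').2.1]
    exact (tw_iff hP h hMp hm hNT hCV (hD.pow hp (j := j) (by omega))).2 ⟨h1, h3⟩

end H35M
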