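import Mathlib
import Pool.Agent.Lib.H35M.SX3
import Pool.Agent.Lib.H35M.SY1
import Pool.Agent.Lib.H35M.SY2
import Pool.Agent.Lib.H35M.TS14
import Pool.Agent.Lib.H35M.KM4

/-! # H35M, part S: the step of degree p in the canonical normalisation -/

open NumberField IsDedekindDomain

namespace H35M

open H55N H55P SSR
open H35P (WAB)
open H55K (Dta)
open H55R (es)

variable {F : Type} [Field F] [NumberField F] [IQ F]

theorem sy3_basis (K : Type) [Field K] [NumberField K] [Algebra F K] : ∃ m : ℕ, Module.finrank F K = m + 1 ∧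
    Nonempty (Module.Basis (Fin (m + 1)) (𝓞 F) (𝓞 K)) := by
  have : FiniteDimensional F K := Module.Finite.of_restrictScalars_finite ℚ F K
  have h0 := Module.finrank_pos (R := F) (M := K)
  refine ⟨Module.finrank F K - 1, by omega, ?_⟩
  have : Module.Free (𝓞 F) (𝓞 K) := Module.free_of_finite_type_torsion_free'
  refine ⟨Module.finBasisOfFinrankEq (𝓞 F) (𝓞 K) ?_⟩
  rw [← IsFractionRing.finrank_eq (𝓞 F) F (𝓞 K) K]
  omega

/-- Integrality over K, arbitrary ramification. -/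
theorem lvoi_base {A B : F} {Om : ℂ} {Ω : Type} [Field Ω] [DecidableEq Ω] [Algebra F Ω] [IsAlgClosure F Ω] {j : Ω →+* ℂ}
    {act : 𝓞 F →+* AddMonoid.End (Pt (WAB A B) Ω)} {M : Ideal (𝓞 F)} {ψ : Ideal (𝓞 F) →*₀ 𝓞 F} {p : ℕ} [Fact p.Prime]
    (d : Dta A B Om j act M ψ p) {V : ValuationSubring ℂ} {π π' : 𝓞 F} (hP : Plc F V π π' p)
    (K : Type) [Field K] [NumberField K] [Algebra F K] (hNT : NTP K p M ψ V) : LVOi F V Om (PsiP K ψ) := by
  obtain ⟨m, hm, ⟨ω⟩⟩ := sy3_basis (F := F) K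
  obtain ⟨δ, hδ⟩ := IsAlgClosed.exists_pow_nat_eq (embF F (Algebra.discr F fun s => (ω s : K))) (n := 2) two_pos
  rw [← (lvn_iff hP hm ω hδ Om (PsiP K ψ)).2]
  exact base_int hP d.hecke d.cop hm hNT fun l hM => cvh_of d hP hM K m hm ω δ hδ

theorem sy3_De {V : ValuationSubring ℂ} {π π' : 𝓞 F} {p : ℕ} (hP : Plc F V π π' p) (K K' : Type) [Field K] [NumberField K] [Algebra F K]
    [Field K'] [NumberField K'] [Algebra F K'] [Algebra K K'] [IsScalarTower F K K'] [IsGalois K K'] (hn : Module.finrank K K' = p)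
    {m m' : ℕ} (hm : Module.finrank F K = m + 1) (hm' : Module.finrank F K' = m' + 1)
    (ω : Module.Basis (Fin (m + 1)) (𝓞 F) (𝓞 K)) {δ : ℂ} (hδ : δ ^ 2 = embF F (Algebra.discr F fun s => (ω s : K)))
    (ω' : Module.Basis (Fin (m' + 1)) (𝓞 F) (𝓞 K')) {δ' : ℂ} (hδ' : δ' ^ 2 = embF F (Algebra.discr F fun s => (ω' s : K')))
    (Om : ℂ) {T1 : Finset (HeightOneSpectrum (𝓞 K))} {t : HeightOneSpectrum (𝓞 K) → ℕ}
    (hT1 : ∀ v, v ∈ T1 ↔ algebraMap (𝓞 F) (𝓞 K) π ∈ v.asIdeal ∧ es K K' v ≠ 1)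
    (ht : ∀ v ∈ T1, ∃ w : HeightOneSpectrum (𝓞 K'), TRam p v w (t v))
    {f2 f3 : Ideal (𝓞 K)} {χ : Ideal (𝓞 K) →*₀ ℂ} {χ1 : MulChar (𝓞 K ⧸ fT T1 fun v => t v + 1) ℂ} {χ2 : MulChar (𝓞 K ⧸ f2) ℂ}
    {χ3 : MulChar (𝓞 K ⧸ f3) ℂ} {ψa : AddChar (𝓞 K ⧸ fT T1 fun v => t v + 1) ℂ}
    (hD : ChD F π π' p T1 (fun v => t v + 1) f2 f3 χ χ1 χ2 χ3 ψa) [Fintype (𝓞 K ⧸ fT T1 fun v => t v + 1)] :
    V.valuation (δ' / Om ^ (m' + 1)) =
      V.valuation ((δ / Om ^ (m + 1)) ^ p * ∏ j ∈ Finset.range (p - 1), gaussSum (χ1 ^ (j + 1))⁻¹ ψa) := by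
  have hp := hP.prime
  have hmm : m' + 1 = (m + 1) * p := by
    rw [← hm', ← hm, ← hn]
    exact (Module.finrank_mul_finrank F K K').symm
  have hc : V.valuation ((starRingEnd ℂ) (eF F π)) = 1 := by
    rw [H41D.conj_pi hp hP.pr.not_isUnit hP.nu hP.mul.symm]
    exact hP.one
  obtain ⟨C, hC, hCD⟩ := diff_step (F := F) K K' hP hn hT1 ht
  have h1 := H41D.vN_diff_cond V hP.pr hP.lt hc T1 (fun v hv => ((hT1 v).1 hv).1) (fun v => t v + 1) (p - 1) C hC hCD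
  rw [hn, ← val_delta hP hm ω hδ, ← val_delta hP hm' ω' hδ'] at h1
  have h2 := gs_val_inv hp hD.one1 hD.prim hD.psi V
  have hcard : ((Fintype.card (𝓞 K ⧸ fT T1 fun v => t v + 1) : ℕ) : ℂ) = ((Ideal.absNorm (fT T1 fun v => t v + 1) : ℕ) : ℂ) := by
    rw [Ideal.absNorm_apply, Submodule.cardQuot_apply, Nat.card_eq_fintype_card]
  rw [hcard] at h2
  refine (pow_left_inj₀ zero_le' zero_le' two_ne_zero).1 ?_
  rw [map_div₀, map_pow, map_mul, map_pow, map_div₀, map_pow, mul_pow, h2, div_pow, h1, hmm]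
  rw [div_pow, div_pow, ← pow_mul, ← pow_mul, ← pow_mul, ← pow_mul, ← pow_mul, mul_comm 2 p, div_mul_eq_mul_div]
  congr 1
  · rw [mul_comm]
  · rw [mul_assoc]

/-- One step of degree p, arbitrary ramification. -/
theorem stepO {A B : F} {Om : ℂ} {Ω : Type} [Field Ω] [DecidableEq Ω] [Algebra F Ω] [IsAlgClosure F Ω] {j : Ω →+* ℂ}
    {act : 𝓞 F →+* AddMonoid.End (Pt (WAB A B) Ω)} {M : Ideal (𝓞 F)} {ψ : Ideal (𝓞 F) →*₀ 𝓞 F} {p : ℕ} [Fact p.Prime]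
    (d : Dta A B Om j act M ψ p) {V : ValuationSubring ℂ} {π π' : 𝓞 F} (hP : Plc F V π π' p)
    (K K' : Type) [Field K] [NumberField K] [Algebra F K] [Field K'] [NumberField K'] [Algebra F K'] [Algebra K K'] [IsScalarTower F K K']
    [IsGalois K K'] (hn : Module.finrank K K' = p) (hNT : NTP K p M ψ V) :
    LVO F V Om (PsiP K' ψ) ↔ LVO F V Om (PsiP K ψ) ∧ ∀ w : HeightOneSpectrum (𝓞 K), es K K' w ≠ 1 → Cnd V π ψ w := by
  obtain ⟨m, hm, ⟨ω⟩⟩ := sy3_basis (F := F) K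
  obtain ⟨m', hm', ⟨ω'⟩⟩ := sy3_basis (F := F) K'
  obtain ⟨δ, hδ⟩ := IsAlgClosed.exists_pow_nat_eq (embF F (Algebra.discr F fun s => (ω s : K))) (n := 2) two_pos
  obtain ⟨δ', hδ'⟩ := IsAlgClosed.exists_pow_nat_eq (embF F (Algebra.discr F fun s => (ω' s : K'))) (n := 2) two_pos
  obtain ⟨T1, t, f2, f3, χ, χ1, χ2, χ3, ψa, hD, hs, hcond, hT1, ht⟩ := exists_ChD (F := F) K K' hP hn
  have hfin : Finite (𝓞 K ⧸ fT T1 fun v => t v + 1) := by
    refine Ideal.finiteQuotientOfFreeOfNeBot _ ?_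
    exact Finset.prod_ne_zero_iff.2 fun v _ => pow_ne_zero _ v.ne_bot
  have := Fintype.ofFinite (𝓞 K ⧸ fT T1 fun v => t v + 1)
  have h1 := step_iff hP d.hecke d.cop hm hNT (fun l hM => cvh_of d hP hM K m hm ω δ hδ) hD K' hn hs (δ' / Om ^ (m' + 1))
    (sy3_De hP K K' hn hm hm' ω hδ ω' hδ' Om hT1 ht hD)
  rw [← (lvn_iff hP hm' ω' hδ' Om (PsiP K' ψ)).1, ← (lvn_iff hP hm ω hδ Om (PsiP K ψ)).1, h1]
  refine and_congr_right fun _ => forall_congr' fun w => ?_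
  rw [hcond]

end H35M
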