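import Mathlib
import Pool.Agent.Lib.H35M.SY3
import Pool.Agent.Lib.H55P.I3

/-! # H35M, part S: the tower in the canonical normalisation (port of H55P/I3) -/

open NumberField IsDedekindDomain

namespace H35M

open H55N H55P
open H35P (WAB)
open H55K (Dta)

variable {F : Type} [Field F] [NumberField F] [IQ F]

/-- The condition at a prime above is equivalent to the condition below (residue degree a power of p): adm_up, adm_iff of H55P (T12, I3) and the same for PsiP (pow_max, unit_of_pow with PsiP_int.1). -/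
theorem cnd_iff (K K' : Type) [Field K] [NumberField K] [Algebra F K] [Field K'] [NumberField K']
    [Algebra F K'] [Algebra K K'] [IsScalarTower F K K'] {p : ℕ} (hp : p.Prime)
    {ψ : Ideal (𝓞 F) →*₀ 𝓞 F} {V : ValuationSubring ℂ} (hV : V.valuation (p : ℂ) < 1) (π : 𝓞 F)
    (w : HeightOneSpectrum (𝓞 K)) (W : HeightOneSpectrum (𝓞 K'))
    (hW : W.asIdeal.under (𝓞 K) = w.asIdeal) (hf : ∃ j : ℕ, W.asIdeal.inertiaDeg (𝓞 K) = p ^ j) :
    Cnd V π ψ w ↔ Cnd V π ψ W := by
  have hl : W.asIdeal.LiesOver w.asIdeal := ⟨hW.symm⟩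
  have hw := w.isMaximal
  have hwp := w.isPrime
  have hWm := W.isMaximal
  have hWp := W.isPrime
  have hmem : algebraMap (𝓞 F) (𝓞 K) π ∈ w.asIdeal ↔ algebraMap (𝓞 F) (𝓞 K') π ∈ W.asIdeal := by
    rw [← hW]
    show algebraMap (𝓞 K) (𝓞 K') (algebraMap (𝓞 F) (𝓞 K) π) ∈ W.asIdeal ↔ _
    have h1 : algebraMap (𝓞 K) (𝓞 K') (algebraMap (𝓞 F) (𝓞 K) π) = algebraMap (𝓞 F) (𝓞 K') π := by
      apply RingOfIntegers.ext
      exact (IsScalarTower.algebraMap_apply F K K' (π : F)).symm
    rw [h1]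
  have h1 := Ideal.relNorm_eq_pow_of_isMaximal W.asIdeal w.asIdeal
  have h2 : PsiP K' ψ W.asIdeal = PsiP K ψ w.asIdeal ^ W.asIdeal.inertiaDeg (𝓞 K) := by
    rw [PsiP_top (K := K), h1, map_pow]
  have hplain : V.valuation (1 - PsiP K ψ w.asIdeal) = 1 ↔ V.valuation (1 - PsiP K' ψ W.asIdeal) = 1 := by
    rw [h2]
    constructor
    · intro h
      obtain ⟨j, hj⟩ := hf
      rw [hj]
      exact pow_max p hp V hV _ (PsiP_int ψ w.asIdeal V).1 h j
    · exact unit_of_pow V _ (PsiP_int ψ w.asIdeal V).1 _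
  have hconj := adm_iff (ψ := ψ) K K' p hp V hV w W hW hf
  unfold Cnd
  rw [hmem, hplain, hconj]

theorem sy4_self {Ω : Type} [Field Ω] [Algebra F Ω] (K : IntermediateField F Ω) [NumberField K] (v : HeightOneSpectrum (𝓞 K))
    (hv : Ram K K v.asIdeal) : False := by
  obtain ⟨W, hWp, hW⟩ := hv
  have h1 : v.asIdeal ≤ W ^ 2 := fun x hx => hW x x hx rfl
  have hWn : W ≠ ⊥ := by
    rintro rfl
    apply v.ne_bot
    rw [eq_bot_iff]
    exact h1.trans (Ideal.pow_le_self two_ne_zero)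
  have h2 : v.asIdeal = W := v.isMaximal.eq_of_le hWp.ne_top (h1.trans (Ideal.pow_le_self two_ne_zero))
  have h3 : W ≤ W ^ 2 := h2 ▸ h1
  have h4 := Ideal.pow_right_strictAnti W hWn hWp.ne_top (show 1 < 2 by norm_num)
  have h4' : W ^ 2 < W ^ 1 := h4
  rw [pow_one] at h4'
  exact lt_irrefl _ (lt_of_lt_of_le h4' h3)

variable {Ω : Type} [Field Ω] [DecidableEq Ω] [Algebra F Ω] [IsAlgClosure F Ω]

/-- The tower. Copy of H55P.LVP_tower_iff (Lib/H55P/I3.lean): chain_step, ram_tower, ram_down, stepO, cnd_iff, NTP_up. -/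
theorem tower_iff {A B : F} {Om : ℂ} {j : Ω →+* ℂ}
    {act : 𝓞 F →+* AddMonoid.End (Pt (WAB A B) Ω)} {mo : Ideal (𝓞 F)} {ψ : Ideal (𝓞 F) →*₀ 𝓞 F} {p : ℕ} [Fact p.Prime]
    (d : Dta A B Om j act mo ψ p) {V : ValuationSubring ℂ} {π π' : 𝓞 F} (hP : Plc F V π π' p) (hV : V.valuation (p : ℂ) < 1)
    (M L : IntermediateField F Ω) (hL : PExt p M L) [NumberField M] (hNT : NTP M p mo ψ V)
    (K : IntermediateField F Ω) [NumberField K] (hMK : M ≤ K) (hKL : K ≤ L) :
    LVO F V Om (PsiP K ψ) ↔ LVO F V Om (PsiP M ψ) ∧ ∀ v : HeightOneSpectrum (𝓞 M), Ram M K v.asIdeal → Cnd V π ψ v := by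
  have hac : IsAlgClosed Ω := IsAlgClosure.isAlgClosed F
  have hal : Algebra.IsAlgebraic F Ω := IsAlgClosure.isAlgebraic
  have hcz : CharZero Ω := charZero_of_injective_algebraMap (FaithfulSMul.algebraMap_injective F Ω)
  have hp : p.Prime := Fact.out
  have hLf : FiniteDimensional F L := hL.fin
  have hMf : FiniteDimensional F M := finDim_of_le hL.le
  have key : ∀ (n : ℕ) (K : IntermediateField F Ω) [NumberField K], M ≤ K → K ≤ L →
      Module.finrank F K = n → (LVO F V Om (PsiP K ψ) ↔ LVO F V Om (PsiP M ψ) ∧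
        ∀ v : HeightOneSpectrum (𝓞 M), Ram M K v.asIdeal → Cnd V π ψ v) := by
    intro n
    induction n using Nat.strong_induction_on with
    | _ n ih =>
      intro K _ hMK hKL hn
      rcases eq_or_ne K M with rfl | hne
      · exact ⟨fun h => ⟨h, fun v hv => (sy4_self K v hv).elim⟩, fun h => h.1⟩
      obtain ⟨N, hMN, hNK, hdeg, hnorm⟩ := chain_step p hp M K L hL hMK hKL hne
      have hKf : FiniteDimensional F K := finDim_of_le hKL
      have hNf : FiniteDimensional F N := finDim_of_le hNK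
      have hNn : NumberField N := H16C.FR_numberField N
      have hNpos : 0 < Module.finrank F N := Module.finrank_pos
      have hlt : Module.finrank F N < n := by
        rw [← hn, hdeg]
        exact lt_mul_of_one_lt_right hNpos hp.one_lt
      letI iNK : Algebra N K := (IntermediateField.inclusion hNK).toRingHom.toAlgebra
      letI iMN : Algebra M N := (IntermediateField.inclusion hMN).toRingHom.toAlgebra
      obtain ⟨hst, hgal, hfr⟩ := chain_types p hp N K hNK hnorm hdeg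
      have hstM : IsScalarTower F M N := alg_tower M N hMN
      have hLN := ih _ hlt N hMN (hNK.trans hKL) rfl
      obtain ⟨j', hj'⟩ := pext_deg p hp M N L hL hMN (hNK.trans hKL)
      have hNTN : NTP N p mo ψ V := NTP_up M N p hp j' hj' V hV hNT
      rw [stepO d hP N K hfr hNTN, hLN]
      have hrt := fun v => ram_tower M N K hMN hNK hnorm v
      constructor
      · rintro ⟨⟨h1, h2⟩, h3⟩
        refine ⟨h1, fun v hv => ?_⟩
        rcases (hrt v).1 hv with h4 | ⟨w, hw1, hw2⟩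
        · exact h2 v h4
        · obtain ⟨v', hv', -, hf⟩ := ram_down p hp M N K L hL hMN hNK hKL hnorm w hw2
          have hf' : ∃ j : ℕ, w.asIdeal.inertiaDeg (𝓞 M) = p ^ j := hf
          exact (cnd_iff M N hp hV π v w hw1 hf').2 (h3 w hw2)
      · rintro ⟨h1, h2⟩
        refine ⟨⟨h1, fun v hv => h2 v ((hrt v).2 (Or.inl hv))⟩, fun w hw => ?_⟩
        obtain ⟨v, hv, -, hf⟩ := ram_down p hp M N K L hL hMN hNK hKL hnorm w hw
        exact (cnd_iff M N hp hV π v w hv hf).1 (h2 v ((hrt v).2 (Or.inr ⟨w, hv, hw⟩)))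
  exact key _ K hMK hKL rfl

end H35M
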