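import Mathlib
import Pool.Agent.Lib.H35M.SY4
import Pool.Agent.Lib.H35M.SN2
import Pool.Agent.Lib.H13R.D
import Pool.Agent.Lib.H55K.DM

/-! # H35M: the analytic half of (B): p split in F, E(M)[p] = 0, arbitrary ramification -/

open NumberField IsDedekindDomain WeierstrassCurve

namespace H35M

open H55N H55P
open H55K.TQ (BaseH PrimeH)
open H19B (Spl)
open H13R (NoRel)
open H55K (cj)

variable {F : Type} [Field F] [NumberField F] [IQ F] {W₀ : WeierstrassCurve (𝓞 F)} {Om : ℂ} {m : Ideal (𝓞 F)} {ψ : Ideal (𝓞 F) →*₀ 𝓞 F} {p : ℕ}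

theorem sz1_iff (hp : p.Prime) {V : ValuationSubring ℂ} (hV : V.valuation (p : ℂ) < 1) (z : 𝓞 F) :
    ¬ p ∣ Nm z ↔ V.valuation (eF F z) = 1 ∧ V.valuation ((starRingEnd ℂ) (eF F z)) = 1 := by
  constructor
  · intro h
    exact gen_unit p hp z h V hV
  · rintro ⟨h1, h2⟩ ⟨t, ht⟩
    have h3 : ((Nm z : ℕ) : ℂ) = eF F z * (starRingEnd ℂ) (eF F z) := H41D.absNorm_eF z
    have h4 : V.valuation ((Nm z : ℕ) : ℂ) = 1 := by rw [h3, map_mul, h1, h2, one_mul]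
    rw [ht, Nat.cast_mul, map_mul] at h4
    have h5 := mul_lt_one_of_lt_of_le hV (pt9_nat V t)
    rw [h4] at h5
    exact lt_irrefl _ h5

theorem sz1_one {V : ValuationSubring ℂ} {a : ℂ} (ha : V.valuation a < 1) : V.valuation (1 - a) = 1 := by
  have h := V.valuation.map_sub_eq_of_lt_right (x := a) (y := 1) (by rw [map_one]; exact ha)
  rw [map_one] at h
  rw [← h, ← Valuation.map_neg, neg_sub]

/-- The conditions at V and at the conjugate place together are the condition on the number of points. -/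
theorem cnd_pair (hH : BaseH F W₀ Om m ψ) (hp : PrimeH F W₀ p) {V : ValuationSubring ℂ} (hV : V.valuation (p : ℂ) < 1) {π π' : 𝓞 F}
    (hP : Plc F V π π' p) (M : IntermediateField F (AlgebraicClosure F)) [NumberField M] (v : HeightOneSpectrum (𝓞 M))
    (hΔ : algebraMap (𝓞 F) (𝓞 M) W₀.Δ ∉ v.asIdeal) :
    (Cnd V π ψ v ∧ Cnd (V.comap (starRingEnd ℂ)) π' ψ v) ↔ ¬ p ∣ Nat.card (W₀⁄(𝓞 M ⧸ v.asIdeal)).toAffine.Point := by
  obtain ⟨v₀, hv₀, hN, hf, hmv⟩ := H55K.DD.below (m := m) v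
  have hm : ¬ mK M m ≤ v.asIdeal := by
    intro h
    have h1 : W₀.Δ ∈ v₀.asIdeal := (hH.supp v₀).2 (hmv.1 h)
    rw [hv₀] at h1
    exact hΔ h1
  rw [H55K.pts_w hH.data.hecke (fun v h _ => hH.deu v h) v hΔ hm]
  obtain ⟨x, hx⟩ : ∃ x : 𝓞 F, x = ψ (Ideal.relNorm (𝓞 F) v.asIdeal) := ⟨_, rfl⟩
  rw [← hx, sz1_iff hp.prime hV]
  have hPsi : PsiP M ψ v.asIdeal = (starRingEnd ℂ) (eF F x) := by
    rw [PsiP_apply, hx]
  have e1 : 1 - PsiP M ψ v.asIdeal = (starRingEnd ℂ) (eF F (1 - x)) := by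
    rw [hPsi, map_sub, map_one, map_sub, map_one]
  have e2 : 1 - (starRingEnd ℂ) (PsiP M ψ v.asIdeal) = eF F (1 - x) := by
    rw [hPsi, Complex.conj_conj, map_sub, map_one]
  have hcV : ∀ z : ℂ, (V.comap (starRingEnd ℂ)).valuation z = 1 ↔ V.valuation ((starRingEnd ℂ) z) = 1 := H41D.cV_eq_one V
  have hcop : IsCoprime (Ideal.relNorm (𝓞 F) v.asIdeal) m := by
    rw [hN]
    exact (H55K.DD.d8_cop fun h => hm (hmv.2 h)).pow_left
  have hgen : Ideal.span {x} = Ideal.relNorm (𝓞 F) v.asIdeal := by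
    rw [hx]
    exact hH.data.hecke.gen _ hcop
  have hdvd : ∀ ρ : 𝓞 F, Prime ρ → algebraMap (𝓞 F) (𝓞 M) ρ ∈ v.asIdeal → ρ ∣ x := by
    intro ρ hρ hρv
    obtain ⟨f, hf0, hf1⟩ := H41D.relNorm_prime hρ v hρv
    rw [hf1] at hgen
    have h1 : Associated x (ρ ^ f) := Ideal.span_singleton_eq_span_singleton.1 hgen
    exact (dvd_pow_self ρ hf0).trans h1.symm.dvd
  have hπ' : Prime π' := by
    have h1 : (starRingEnd ℂ) (eF F π) = eF F π' := H41D.conj_pi hP.prime hP.pr.not_isUnit hP.nu hP.mul.symm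
    have h2 : eF F (cj π) = eF F π' := by rw [H55K.e_cj, h1]
    have h3 : cj π = π' := by
      apply sub_eq_zero.1
      by_contra hne
      exact H41D.eF_ne hne (by rw [map_sub, h2, sub_self])
    rw [← h3]
    exact H55K.cj_prime hP.pr
  have hcj : (starRingEnd ℂ) (eF F π') = eF F π := by
    rw [← H41D.conj_pi hP.prime hP.pr.not_isUnit hP.nu hP.mul.symm, Complex.conj_conj]
  have hA : algebraMap (𝓞 F) (𝓞 M) π ∈ v.asIdeal → V.valuation (eF F (1 - x)) = 1 := by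
    intro h
    obtain ⟨y, hy⟩ := hdvd π hP.pr h
    rw [map_sub, map_one]
    apply sz1_one
    rw [hy, map_mul, map_mul]
    exact mul_lt_one_of_lt_of_le hP.lt (sn2_le V y)
  have hB : algebraMap (𝓞 F) (𝓞 M) π' ∈ v.asIdeal → V.valuation ((starRingEnd ℂ) (eF F (1 - x))) = 1 := by
    intro h
    obtain ⟨y, hy⟩ := hdvd π' hπ' h
    rw [map_sub, map_one, map_sub, map_one]
    apply sz1_one
    rw [hy, map_mul, map_mul, map_mul, hcj]
    exact mul_lt_one_of_lt_of_le hP.lt (H41D.val_eFc V y)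
  have hnot : algebraMap (𝓞 F) (𝓞 M) π ∈ v.asIdeal → algebraMap (𝓞 F) (𝓞 M) π' ∉ v.asIdeal := by
    intro h h'
    obtain ⟨a, b, hab⟩ := hP.cop
    apply v.isPrime.ne_top
    rw [Ideal.eq_top_iff_one]
    have e : (1 : 𝓞 M) = algebraMap (𝓞 F) (𝓞 M) a * algebraMap (𝓞 F) (𝓞 M) π + algebraMap (𝓞 F) (𝓞 M) b * algebraMap (𝓞 F) (𝓞 M) π' := by
      rw [← map_mul, ← map_mul, ← map_add, hab, map_one]
    rw [e]
    exact v.asIdeal.add_mem (v.asIdeal.mul_mem_left _ h) (v.asIdeal.mul_mem_left _ h')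
  unfold Cnd
  rw [e1, e2, hcV, hcV, Complex.conj_conj]
  by_cases h1 : algebraMap (𝓞 F) (𝓞 M) π ∈ v.asIdeal
  · have h2 := hnot h1
    have h3 := hA h1
    tauto
  · by_cases h2 : algebraMap (𝓞 F) (𝓞 M) π' ∈ v.asIdeal
    · have h3 := hB h2
      tauto
    · tauto

/-- The conditions hold at the bad primes. -/
theorem cnd_bad (hH : BaseH F W₀ Om m ψ) (V : ValuationSubring ℂ) (π : 𝓞 F)
    (M : IntermediateField F (AlgebraicClosure F)) [NumberField M] (v : HeightOneSpectrum (𝓞 M))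
    (hΔ : algebraMap (𝓞 F) (𝓞 M) W₀.Δ ∈ v.asIdeal) : Cnd V π ψ v := by
  obtain ⟨v₀, hv₀, hN, hf, hmv⟩ := H55K.DD.below (m := m) v
  have h1 : m ≤ v₀.asIdeal := by
    apply (hH.supp v₀).1
    rw [hv₀]
    exact hΔ
  have h2 : ψ (Ideal.relNorm (𝓞 F) v.asIdeal) = 0 := by
    apply hH.data.hecke.zero
    intro hc
    rw [hN, Ideal.isCoprime_iff_sup_eq] at hc
    apply v₀.isPrime.ne_top
    rw [eq_top_iff, ← hc]
    exact sup_le (Ideal.pow_le_self hf.ne') h1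
  have h3 : PsiP M ψ v.asIdeal = 0 := by
    rw [PsiP_apply, h2, map_zero, map_zero]
  unfold Cnd
  rw [h3, map_zero, sub_zero, map_one]
  exact ⟨fun _ => rfl, fun _ => rfl⟩

section main

variable (hH : BaseH F W₀ Om m ψ) (hp : PrimeH F W₀ p) (hsp : Spl F p) {M L K : IntermediateField F (AlgebraicClosure F)}
  [NumberField M] [NumberField K] (hL : PExt p M L) (hMK : M ≤ K) (hKL : K ≤ L) (hT : NoTor p W₀ M)
  {V : ValuationSubring ℂ} (hV : V.valuation (p : ℂ) < 1)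

include hH hp hsp hL hMK hKL hT hV

/-- Integrality at every place above p. -/
theorem intB : LVOi F V Om (PsiP K ψ) := by
  classical
  have : Fact p.Prime := ⟨hp.prime⟩
  obtain ⟨π, π', hP, -⟩ := exists_plc hp hsp V hV
  obtain ⟨A, B, j, act, hA, hB, d⟩ := SSG.exists_dtaAB (p := p) hH hp
  have hLf : FiniteDimensional F L := hL.fin
  letI iMK : Algebra M K := (IntermediateField.inclusion hMK).toRingHom.toAlgebra
  have hst : IsScalarTower F M K := alg_tower M K hMK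
  obtain ⟨i, hi⟩ := pext_deg p hp.prime M K L hL hMK hKL
  exact lvoi_base d hP K (NTP_up M K p hp.prime i hi V hV (ntp_base hH hp hP M hT))

/-- The criterion at a place and its conjugate. -/
theorem critB : (LVO F V Om (PsiP K ψ) ∧ LVO F (V.comap (starRingEnd ℂ)) Om (PsiP K ψ)) ↔
    (LVO F V Om (PsiP M ψ) ∧ LVO F (V.comap (starRingEnd ℂ)) Om (PsiP M ψ)) ∧ NoRel p W₀ M K := by
  classical
  have : Fact p.Prime := ⟨hp.prime⟩
  obtain ⟨π, π', hP, hP'⟩ := exists_plc hp hsp V hV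
  obtain ⟨A, B, j, act, hA, hB, d⟩ := SSG.exists_dtaAB (p := p) hH hp
  have hV' : (V.comap (starRingEnd ℂ)).valuation (p : ℂ) < 1 := by
    show (H41D.cV V).valuation (p : ℂ) < 1
    rw [H41D.cV_lt_one, map_natCast]
    exact hV
  rw [tower_iff d hP hV M L hL (ntp_base hH hp hP M hT) K hMK hKL,
    tower_iff d hP' hV' M L hL (ntp_base hH hp hP' M hT) K hMK hKL]
  constructor
  · rintro ⟨⟨h1, h2⟩, h3, h4⟩
    exact ⟨⟨h1, h3⟩, fun v hv hΔ => (cnd_pair hH hp hV hP M v hΔ).1 ⟨h2 v hv, h4 v hv⟩⟩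
  · rintro ⟨⟨h1, h3⟩, h⟩
    refine ⟨⟨h1, fun v hv => ?_⟩, h3, fun v hv => ?_⟩
    · by_cases hΔ : algebraMap (𝓞 F) (𝓞 M) W₀.Δ ∈ v.asIdeal
      · exact cnd_bad hH V π M v hΔ
      · exact ((cnd_pair hH hp hV hP M v hΔ).2 (h v hv hΔ)).1
    · by_cases hΔ : algebraMap (𝓞 F) (𝓞 M) W₀.Δ ∈ v.asIdeal
      · exact cnd_bad hH _ π' M v hΔ
      · exact ((cnd_pair hH hp hV hP M v hΔ).2 (h v hv hΔ)).2

end main

end H35M
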