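import Mathlib
import Pool.Agent.Lib.H35M.TD
import Pool.Agent.Lib.H13S.PA1
import Pool.Agent.Lib.H55K.D0
import Pool.Agent.Lib.H55K.D8
import Pool.Agent.Lib.H55K.K2A
import Pool.Agent.Lib.H55K.SD

/-! # H35M, chunk SN1B (M): if all values of the Hecke character over M are 1 modulo ρ then the ρ-torsion is rational over M -/

open NumberField IsDedekindDomain

namespace H35M

open H55N H55P
open H35P (WAB)
open H55K (Dta Tor)

variable {F : Type} [Field F] [NumberField F] [IQ F] {Ω : Type} [Field Ω] [DecidableEq Ω] [Algebra F Ω] [IsAlgClosure F Ω]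

section aux

/-- Finitely many primes of M contain a nonzero ideal. -/
theorem SN1B_fin (M : Type) [Field M] [NumberField M] (I : Ideal (𝓞 M)) (hI : I ≠ ⊥) :
    {w : HeightOneSpectrum (𝓞 M) | I ≤ w.asIdeal}.Finite := by
  refine (Ideal.finite_factors (I := I) hI).subset ?_
  intro w hw
  exact Ideal.dvd_iff_le.2 hw

/-- The prime below. -/
noncomputable def SN1B_u (M : Type) [Field M] [NumberField M] [Algebra F M] (w : HeightOneSpectrum (𝓞 M)) :
    HeightOneSpectrum (𝓞 F) :=
  ⟨w.asIdeal.under (𝓞 F), inferInstance, mt Ideal.eq_bot_of_comap_eq_bot w.ne_bot⟩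

omit [IQ F] in
/-- Finitely many primes of M are above a finite set of primes of F. -/
theorem SN1B_above (M : Type) [Field M] [NumberField M] [Algebra F M] (S : Set (HeightOneSpectrum (𝓞 F))) (hS : S.Finite) :
    {w : HeightOneSpectrum (𝓞 M) | SN1B_u (F := F) M w ∈ S}.Finite := by
  have h1 : {w : HeightOneSpectrum (𝓞 M) | SN1B_u (F := F) M w ∈ S} ⊆
      ⋃ v ∈ S, {w : HeightOneSpectrum (𝓞 M) | v.asIdeal.map (algebraMap (𝓞 F) (𝓞 M)) ≤ w.asIdeal} := by
    intro w hw
    simp only [Set.mem_iUnion]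
    refine ⟨_, hw, ?_⟩
    show (w.asIdeal.under (𝓞 F)).map (algebraMap (𝓞 F) (𝓞 M)) ≤ w.asIdeal
    rw [Ideal.map_le_iff_le_comap]
  refine (hS.biUnion fun v _ => SN1B_fin M _ ?_).subset h1
  intro h
  rw [Ideal.map_eq_bot_iff_of_injective (FaithfulSMul.algebraMap_injective _ _)] at h
  exact v.ne_bot h

end aux

theorem SN1B_top {A B : F} {Om : ℂ} {j : Ω →+* ℂ}
    {act : 𝓞 F →+* AddMonoid.End (Pt (WAB A B) Ω)} {mo : Ideal (𝓞 F)} {ψ : Ideal (𝓞 F) →*₀ 𝓞 F} {p : ℕ}
    (d : Dta A B Om j act mo ψ p) {ρ : 𝓞 F} (hρ : Prime ρ) (hd : ρ ∣ (p : 𝓞 F))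
    (M : IntermediateField F Ω) [NumberField M]
    (hyp : ∀ a : Ideal (𝓞 M), IsCoprime a (Ideal.span {(p : 𝓞 M)}) → IsCoprime a (mK M mo) → ρ ∣ 1 - ψ (Ideal.relNorm (𝓞 F) a))
    (w : HeightOneSpectrum (𝓞 M)) (hwp : (p : 𝓞 M) ∉ w.asIdeal) (hwm : ¬ mK M mo ≤ w.asIdeal)
    (hpr : (Ideal.absNorm w.asIdeal).Prime) :
    Ideal.absNorm (SN1B_u (F := F) M w).asIdeal = Ideal.absNorm w.asIdeal ∧
    ρ ∣ 1 - ψ (SN1B_u (F := F) M w).asIdeal := by
  obtain ⟨v, hv, hrel, hf, -⟩ := H55K.DD.below (F := F) (K := M) (m := mo) w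
  have hvu : v = SN1B_u (F := F) M w := HeightOneSpectrum.ext hv
  rw [← hvu]
  have h0 : w.asIdeal.LiesOver v.asIdeal := ⟨hv⟩
  have hwmax := w.isMaximal
  have hvmax := v.isMaximal
  have h1 : Ideal.absNorm w.asIdeal = Ideal.absNorm v.asIdeal ^ (w.asIdeal.inertiaDeg (𝓞 F)) := by
    exact (Ideal.absNorm_pow_inertiaDeg v.asIdeal w.asIdeal).symm
  have hf1 : w.asIdeal.inertiaDeg (𝓞 F) = 1 := by
    rw [h1] at hpr
    exact hpr.eq_one_of_pow
  rw [hf1, pow_one] at hrel h1
  refine ⟨h1.symm, ?_⟩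
  rw [← hrel]
  refine hyp _ ?_ ?_
  · rw [Ideal.isCoprime_iff_sup_eq]
    refine hwmax.out.2 _ (lt_of_le_of_ne le_sup_left ?_)
    intro he
    apply hwp
    rw [he]
    exact Ideal.mem_sup_right (Ideal.mem_span_singleton_self _)
  · rw [Ideal.isCoprime_iff_sup_eq]
    refine hwmax.out.2 _ (lt_of_le_of_ne le_sup_left ?_)
    intro he
    apply hwm
    rw [he]
    exact le_sup_right

/-- Chunk SN1B (M). PROOF (models: H28T/CB3A.lean, H55K/K7.lean). H = the subgroup of Ω ≃ₐ[M] Ω of the s with ac (WAB A B) (s.restrictScalars F) T = T for all T in Tor act ρ. H is normal (s maps Tor act ρ to itself: d.cma.gal, H55K.S.ac_mem) and contains the fixing subgroup of a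
finite extension of M (generated by the coordinates of a generator T₀ of Tor act ρ, d.cma.gen; the other elements are act a T₀ and ac commutes with act). H13S.PA1_top over M (Algebra M Ω, IsAlgClosure M Ω: Ω is algebraically closed, algebraic over F, so over M): w prime of M, absNorm w prime, w not above the finite
sets of d.frob and d.fin (finitely many primes above each prime: H28T.above_finite / Set.Finite.preimage'), not above p, not above mo (M ≠ ⊥); v = w.under (𝓞 F): absNorm w = absNorm v ^ inertiaDeg is prime, so absNorm v = absNorm w, inertiaDeg = 1 and relNorm w = v (H55K.DD.below in H55K/D8.lean); V' above w is above v. s a Frobenius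
element at V' over M: s.restrictScalars F satisfies the hypothesis of d.frob (n = p, V'(p) = 1 because p is not in w: the integers of M are in V' and p, w generate 1), so on Tor act ρ (p • T = 0 as ρ ∣ p, see hT1 in H55K/K7.lean) it acts as act (ψ v), and ρ ∣ 1 - ψ (relNorm w) = 1 - ψ v (hyp for a = w.asIdeal),
so act (ψ v) T = T. So H = ⊤; an s in M.fixingSubgroup is the restriction of an M-automorphism of Ω (IntermediateField.fixingSubgroupEquiv). -/
theorem rat_of_triv {A B : F} {Om : ℂ} {j : Ω →+* ℂ}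
    {act : 𝓞 F →+* AddMonoid.End (Pt (WAB A B) Ω)} {mo : Ideal (𝓞 F)} {ψ : Ideal (𝓞 F) →*₀ 𝓞 F} {p : ℕ}
    (d : Dta A B Om j act mo ψ p) {ρ : 𝓞 F} (hρ : Prime ρ) (hd : ρ ∣ (p : 𝓞 F))
    (M : IntermediateField F Ω) [NumberField M]
    (hyp : ∀ a : Ideal (𝓞 M), IsCoprime a (Ideal.span {(p : 𝓞 M)}) → IsCoprime a (mK M mo) → ρ ∣ 1 - ψ (Ideal.relNorm (𝓞 F) a))
    (T : Pt (WAB A B) Ω) (hT : T ∈ Tor act ρ) : ∀ s ∈ M.fixingSubgroup, ac (WAB A B) s T = T := by
  have hac : IsAlgClosed Ω := IsAlgClosure.isAlgClosed F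
  have halg : Algebra.IsAlgebraic F Ω := IsAlgClosure.isAlgebraic
  have halgM : Algebra.IsAlgebraic M Ω := Algebra.IsAlgebraic.tower_top (K := F) M
  have hcM : IsAlgClosure M Ω := ⟨hac, halgM⟩
  obtain ⟨T₀, hT₀, hgen, -, -⟩ := d.cma.gen ρ hρ.ne_zero
  let H : Subgroup (Ω ≃ₐ[M] Ω) :=
    { carrier := {s | ∀ T ∈ Tor act ρ, ac (WAB A B) (s.restrictScalars F) T = T}
      mul_mem' := by
        intro s t hs ht T hT
        have e : (s * t).restrictScalars F = s.restrictScalars F * t.restrictScalars F := rfl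
        rw [e, H55K.S.ac_mul, ht T hT, hs T hT]
      one_mem' := by
        intro T hT
        have e : (1 : Ω ≃ₐ[M] Ω).restrictScalars F = 1 := rfl
        rw [e, H55K.S.ac_one]
      inv_mem' := by
        intro s hs T hT
        have e : (s⁻¹).restrictScalars F = (s.restrictScalars F)⁻¹ := rfl
        rw [e]
        apply H55K.S.ac_inj (s.restrictScalars F)
        rw [H55K.S.ac_inv, hs T hT] }
  have hHmem : ∀ s : Ω ≃ₐ[M] Ω, s ∈ H ↔ ∀ T ∈ Tor act ρ, ac (WAB A B) (s.restrictScalars F) T = T := fun s => Iff.rfl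
  have hnorm : H.Normal := by
    constructor
    intro t ht g T hT
    have e : (g * t * g⁻¹).restrictScalars F = g.restrictScalars F * t.restrictScalars F * (g.restrictScalars F)⁻¹ := rfl
    rw [e, H55K.S.ac_mul, H55K.S.ac_mul, ht _ (H55K.S.ac_mem d.cma _ hT), H55K.S.ac_inv]
  let C : Set Ω := {H55K.xc T₀, H55K.yc T₀}
  have hCf : C.Finite := Set.toFinite C
  have hCf' : Finite C := hCf
  have hLf : FiniteDimensional M (IntermediateField.adjoin M C) :=
    IntermediateField.finiteDimensional_adjoin fun x _ => (Algebra.IsAlgebraic.isAlgebraic x).isIntegral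
  obtain ⟨S₂, hS₂, hfrob⟩ := d.frob
  have hp0 : (p : 𝓞 M) ≠ 0 := by
    have := d.prime.ne_zero
    exact_mod_cast this
  have htop : H = ⊤ := by
    refine H13S.PA1_top H hnorm (IntermediateField.adjoin M C) ?_
      ({w | SN1B_u (F := F) M w ∈ S₂} ∪ {w | Ideal.span {(p : 𝓞 M)} ≤ w.asIdeal} ∪ {w | mK M mo ≤ w.asIdeal}) ?_ ?_
    · intro t ht
      rw [hHmem]
      have hfix : ∀ x ∈ C, t x = x := fun x hx =>
        ht ⟨x, IntermediateField.subset_adjoin M C hx⟩
      have e1 : ac (WAB A B) (t.restrictScalars F) T₀ = T₀ :=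
        H55K.ac_fix _ (hfix _ (by simp [C])) (hfix _ (by simp [C]))
      intro T hT
      obtain ⟨a, rfl⟩ := hgen T hT
      rw [H55K.S.ac_act d.cma, e1]
    · refine ((SN1B_above (F := F) M S₂ hS₂).union (SN1B_fin M _ ?_)).union (SN1B_fin M _ ?_)
      · intro h
        rw [Ideal.span_singleton_eq_bot] at h
        exact hp0 h
      · intro h
        rw [mK, Ideal.map_eq_bot_iff_of_injective (FaithfulSMul.algebraMap_injective _ _)] at h
        exact d.hecke.ne h
    · intro w hw hpr V hV s hs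
      simp only [Set.mem_union, Set.mem_setOf_eq, not_or] at hw
      obtain ⟨⟨hw1, hw2⟩, hw3⟩ := hw
      have hw2' : (p : 𝓞 M) ∉ w.asIdeal := by
        rwa [Ideal.span_singleton_le_iff_mem] at hw2
      obtain ⟨hn, hdv⟩ := SN1B_top d hρ hd M hyp w hw2' hw3 hpr
      have hva : ∀ a : 𝓞 F, a ∈ (SN1B_u (F := F) M w).asIdeal → V.valuation (H55K.ak Ω a) < 1 := by
        intro a ha
        exact hV (algebraMap (𝓞 F) (𝓞 M) a) ha
      have hint : ∀ x : 𝓞 M, V.valuation (algebraMap M Ω (x : M)) ≤ 1 := by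
        intro x
        rw [ValuationSubring.valuation_le_one_iff]
        have h1 : IsIntegral ℤ (algebraMap M Ω (x : M)) := (RingOfIntegers.isIntegral_coe x).map (algebraMap M Ω).toIntAlgHom
        have h2 : IsIntegral V (algebraMap M Ω (x : M)) := h1.tower_top
        obtain ⟨y, hy⟩ := (IsIntegrallyClosed.isIntegral_iff (R := V) (K := Ω)).1 h2
        rw [← hy]
        exact y.2
      have hl1 : V.valuation (p : Ω) = 1 := by
        have hc : IsCoprime w.asIdeal (Ideal.span {(p : 𝓞 M)}) := by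
          rw [Ideal.isCoprime_iff_sup_eq]
          have hwmax := w.isMaximal
          refine hwmax.out.2 _ (lt_of_le_of_ne le_sup_left ?_)
          intro he
          apply hw2'
          rw [he]
          exact Ideal.mem_sup_right (Ideal.mem_span_singleton_self _)
        obtain ⟨a, ha, b, hb, hab⟩ := Ideal.isCoprime_iff_exists.1 hc
        obtain ⟨c, rfl⟩ := Ideal.mem_span_singleton'.1 hb
        have e1 : algebraMap M Ω ((a : 𝓞 M) : M) + algebraMap M Ω ((c : 𝓞 M) : M) * (p : Ω) = 1 := by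
          have := congrArg (fun t : 𝓞 M => algebraMap M Ω (t : M)) hab
          simpa using this
        refine le_antisymm ?_ (not_lt.1 fun h' => ?_)
        · have := hint (p : 𝓞 M)
          simpa using this
        · have h5 : V.valuation (1 : Ω) < 1 := by
            rw [← e1]
            refine V.valuation.map_add_lt (hV a ha) ?_
            rw [map_mul]
            calc _ ≤ 1 * V.valuation (p : Ω) := mul_le_mul_left (hint c) _
              _ < 1 := by rw [one_mul]; exact h'
          rw [map_one] at h5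
          exact lt_irrefl _ h5
      intro T hT
      have hT1 : p • T = 0 := by
        obtain ⟨c, hc⟩ := hd
        have h1 : act (p : 𝓞 F) T = 0 := by
          rw [hc, mul_comm, map_mul]
          show act c (act ρ T) = 0
          have h2 : act ρ T = 0 := hT
          rw [h2, map_zero]
        rw [map_natCast, AddMonoid.End.natCast_apply] at h1
        exact h1
      have h3 := hfrob _ hw1 (by rw [hn]; exact hpr) V hva (s.restrictScalars F) (by rw [hn]; exact hs) p hl1 T hT1
      rw [h3]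
      obtain ⟨c, hc⟩ := hdv
      have h4 : ψ (SN1B_u (F := F) M w).asIdeal = 1 - c * ρ := by
        rw [mul_comm, ← hc]; ring
      rw [h4, H55K.S.act_sub, H55K.S.act_one, H55K.S.act_mul]
      have h2 : act ρ T = 0 := hT
      rw [h2, map_zero, sub_zero]
  intro s hs
  have hm : IntermediateField.fixingSubgroupEquiv M ⟨s, hs⟩ ∈ H := by rw [htop]; trivial
  have h1 := (hHmem _).1 hm T hT
  have e : (IntermediateField.fixingSubgroupEquiv M ⟨s, hs⟩).restrictScalars F = s := by
    ext x
    rfl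
  rwa [e] at h1

end H35M
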